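import Pool.Agent.H43.G.R_pool_sql_team_seeded_620a6dc7.helper24_UT_.Stm2a
import Pool.Agent.H43.G.R_seed8.TH892.RT.RT1

set_option autoImplicit false

namespace Pool.Agent.helper24_UT.Lsq

open Finset
open Pool.Agent.helper24_UT
open Pool.Agent.H376R2.MR (ch er DP FK)
open Pool.Agent.W110.HV (SN AD AD_nonneg AD_weighted frac_sum)
open Pool.Agent.TH892.RT (class_pars)

/-- shifting the window permutes the residue classes -/
lemma NN_eq (a : ℤ → ℝ) (u : ℤ) (W q : ℕ) (hq : 0 < q) :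
    NN a u W q = ∑ r ∈ range q,
      ‖∑ n ∈ (Icc 1 W).filter (fun n => n % q = r), ((a (u + (n : ℤ)) : ℝ) : ℂ)‖ ^ 2 := by
  have hqz : (0 : ℤ) < q := by exact_mod_cast hq
  unfold NN
  symm
  refine sum_nbij' (fun r : ℕ => ((u + (r : ℤ)) % (q : ℤ)).toNat)
    (fun r : ℕ => (((r : ℤ) - u) % (q : ℤ)).toNat) ?_ ?_ ?_ ?_ ?_
  · intro r _
    have h1 := Int.emod_nonneg (u + (r : ℤ)) hqz.ne'
    have h2 := Int.emod_lt_of_pos (u + (r : ℤ)) hqz
    rw [mem_range]; omega
  · intro r _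
    have h1 := Int.emod_nonneg ((r : ℤ) - u) hqz.ne'
    have h2 := Int.emod_lt_of_pos ((r : ℤ) - u) hqz
    rw [mem_range]; omega
  · intro r hr
    rw [mem_range] at hr
    have h1 := Int.emod_nonneg (u + (r : ℤ)) hqz.ne'
    rw [Int.toNat_of_nonneg h1]
    have h3 : ((u + (r : ℤ)) % (q : ℤ) - u) % (q : ℤ) = (r : ℤ) % q := by
      rw [Int.sub_emod, Int.emod_emod_of_dvd _ (dvd_refl _), ← Int.sub_emod]
      congr 1; ring
    rw [h3, Int.emod_eq_of_lt (by omega) (by omega)]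
    simp
  · intro r hr
    rw [mem_range] at hr
    have h1 := Int.emod_nonneg ((r : ℤ) - u) hqz.ne'
    rw [Int.toNat_of_nonneg h1]
    have h3 : (u + ((r : ℤ) - u) % (q : ℤ)) % (q : ℤ) = (r : ℤ) % q := by
      rw [Int.add_emod, Int.emod_emod_of_dvd _ (dvd_refl _), ← Int.add_emod]
      congr 1; ring
    rw [h3, Int.emod_eq_of_lt (by omega) (by omega)]
    simp
  · intro r hr
    rw [mem_range] at hr
    have h1 := Int.emod_nonneg (u + (r : ℤ)) hqz.ne'
    have h2 := Int.emod_lt_of_pos (u + (r : ℤ)) hqz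
    rw [← Complex.ofReal_sum, Complex.norm_real, Real.norm_eq_abs, sq_abs]
    congr 1
    refine sum_nbij' (fun n : ℕ => u + (n : ℤ)) (fun m : ℤ => (m - u).toNat) ?_ ?_ ?_ ?_ ?_
    · intro n hn
      rw [mem_filter, mem_Icc] at hn
      rw [mem_filter, mem_Ioc, Int.toNat_of_nonneg h1]
      refine ⟨by omega, ?_⟩
      have h4 : (n : ℤ) % (q : ℤ) = (r : ℤ) % q := by
        have : ((n % q : ℕ) : ℤ) = r := by exact_mod_cast hn.2
        rw [Int.natCast_mod] at this
        rw [this, Int.emod_eq_of_lt (by omega) (by omega)]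
      exact Int.ModEq.add_left u h4
    · intro m hm
      rw [mem_filter, mem_Ioc, Int.toNat_of_nonneg h1] at hm
      rw [mem_filter, mem_Icc]
      refine ⟨by omega, ?_⟩
      have h4 : (m - u) % (q : ℤ) = (r : ℤ) := by
        have h5 : (m - u) % (q : ℤ) = ((u + (r : ℤ)) - u) % (q : ℤ) := Int.ModEq.sub_right u hm.2
        rw [h5]
        have h6 : u + (r : ℤ) - u = r := by ring
        rw [h6, Int.emod_eq_of_lt (by omega) (by omega)]
      have h7 : (((m - u).toNat : ℕ) : ℤ) = m - u := Int.toNat_of_nonneg (by omega)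
      have : (((m - u).toNat % q : ℕ) : ℤ) = r := by
        rw [Int.natCast_mod, h7, h4]
      exact_mod_cast this
    · intro n _
      simp
    · intro m hm
      rw [mem_filter, mem_Ioc] at hm
      have h7 : (((m - u).toNat : ℕ) : ℤ) = m - u := Int.toNat_of_nonneg (by omega)
      simp only [h7]; ring
    · intro n _
      rfl

lemma NN_pars (a : ℤ → ℝ) (u : ℤ) (W q : ℕ) (hq : 0 < q) :
    (q : ℝ) * NN a u W q =
      ∑ D ∈ q.divisors, AD W (fun n => ((a (u + (n : ℤ)) : ℝ) : ℂ)) D := by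
  rw [NN_eq a u W q hq, class_pars W (fun n => ((a (u + (n : ℤ)) : ℝ) : ℂ)) q hq]
  exact frac_sum q hq (fun _ θ => ‖SN W (fun n => ((a (u + (n : ℤ)) : ℝ) : ℂ)) θ‖ ^ 2)

theorem main : S_LSQ := by
  refine ⟨12, by norm_num, ?_⟩
  intro a u T W D₀ P hD hP ha
  set g : ℕ → ℂ := fun n => ((a (u + (n : ℤ)) : ℝ) : ℂ) with hg
  have h1 : ∀ q ∈ Icc 1 T, (q : ℝ) * NN a u W q = ∑ D ∈ Icc 1 T, if D ∣ q then AD W g D else 0 := by
    intro q hq
    rw [mem_Icc] at hq
    have hq0 : 0 < q := by omega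
    rw [NN_pars a u W q hq0, ← sum_filter]
    congr 1
    ext D
    rw [Nat.mem_divisors, mem_filter, mem_Icc]
    constructor
    · rintro ⟨hd, _⟩
      exact ⟨⟨Nat.pos_of_dvd_of_pos hd hq0, (Nat.le_of_dvd hq0 hd).trans hq.2⟩, hd⟩
    · rintro ⟨_, hd⟩
      exact ⟨hd, hq0.ne'⟩
  have h2 : ∑ D ∈ Icc 1 T, ∑ q ∈ Icc 1 T, (if D ∣ q then AD W g D else 0) ≤
      (T : ℝ) * ∑ D ∈ Icc 1 T, AD W g D / D := by
    rw [mul_sum]
    apply sum_le_sum
    intro D hD
    rw [mem_Icc] at hD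
    rw [← sum_filter, sum_const, nsmul_eq_mul]
    have c1 : ((((Icc 1 T).filter (fun q => D ∣ q)).card : ℕ) : ℝ) ≤ (T : ℝ) / D := by
      have : ((Icc 1 T).filter (fun q => D ∣ q)).card ≤ T / D := by
        rw [← Nat.Ioc_filter_dvd_card_eq_div]
        apply card_le_card
        intro q hq
        rw [mem_filter, mem_Icc] at hq
        rw [mem_filter, mem_Ioc]
        exact ⟨⟨by omega, hq.1.2⟩, hq.2⟩
      calc ((((Icc 1 T).filter (fun q => D ∣ q)).card : ℕ) : ℝ) ≤ ((T / D : ℕ) : ℝ) := by exact_mod_cast this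
        _ ≤ _ := Nat.cast_div_le
    calc ((((Icc 1 T).filter (fun q => D ∣ q)).card : ℕ) : ℝ) * AD W g D
        ≤ (T : ℝ) / D * AD W g D := mul_le_mul_of_nonneg_right c1 (AD_nonneg _ _ _)
      _ = _ := by ring
  have h3 : ∑ D ∈ Icc 1 T, AD W g D / D ≤ ∑ D ∈ Icc 1 D₀, NN a u W D + ∑ D ∈ Icc D₀ T, AD W g D / D := by
    calc ∑ D ∈ Icc 1 T, AD W g D / D ≤ ∑ D ∈ Icc 1 D₀ ∪ Icc D₀ T, AD W g D / D := by
          apply sum_le_sum_of_subset_of_nonneg
          · intro D hD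
            rw [mem_Icc] at hD
            rw [mem_union, mem_Icc, mem_Icc]
            omega
          · intro D _ _
            exact div_nonneg (AD_nonneg _ _ _) (by positivity)
      _ ≤ ∑ D ∈ Icc 1 D₀, AD W g D / D + ∑ D ∈ Icc D₀ T, AD W g D / D := by
          rw [← sum_union_inter]
          exact le_add_of_nonneg_right (sum_nonneg fun D _ => div_nonneg (AD_nonneg _ _ _) (by positivity))
      _ ≤ _ := by
          apply add_le_add _ le_rfl
          apply sum_le_sum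
          intro D hD
          rw [mem_Icc] at hD
          have hD0 : 0 < D := by omega
          have hDr : (0 : ℝ) < D := by exact_mod_cast hD0
          rw [div_le_iff₀ hDr, mul_comm, NN_pars a u W D hD0]
          exact single_le_sum (f := fun D => AD W g D) (fun D _ => AD_nonneg _ _ _)
            (Nat.mem_divisors_self D hD0.ne')
  have h4 : ∑ D ∈ Icc D₀ T, AD W g D / D ≤ 12 * ((W : ℝ) / D₀ + T) * (W * P ^ 2) := by
    refine (AD_weighted W g D₀ T hD).trans ?_
    apply mul_le_mul_of_nonneg_left _ (by positivity)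
    calc ∑ n ∈ Icc 1 W, ‖g n‖ ^ 2 ≤ ∑ n ∈ Icc 1 W, P ^ 2 := by
          apply sum_le_sum
          intro n _
          have h5 : ‖g n‖ = |a (u + (n : ℤ))| := by
            rw [hg]; simp only [Complex.norm_real, Real.norm_eq_abs]
          rw [h5]
          exact pow_le_pow_left₀ (abs_nonneg _) (ha _) 2
      _ = W * P ^ 2 := by simp
  calc ∑ q ∈ Icc 1 T, (q : ℝ) * NN a u W q =
        ∑ q ∈ Icc 1 T, ∑ D ∈ Icc 1 T, (if D ∣ q then AD W g D else 0) := sum_congr rfl h1
    _ = ∑ D ∈ Icc 1 T, ∑ q ∈ Icc 1 T, (if D ∣ q then AD W g D else 0) := sum_comm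
    _ ≤ (T : ℝ) * ∑ D ∈ Icc 1 T, AD W g D / D := h2
    _ ≤ (T : ℝ) * (∑ D ∈ Icc 1 D₀, NN a u W D + 12 * ((W : ℝ) / D₀ + T) * (W * P ^ 2)) := by
        apply mul_le_mul_of_nonneg_left _ (by positivity)
        linarith
    _ = _ := by ring

end Pool.Agent.helper24_UT.Lsq
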