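import Pool.Agent.H43.G.R_pool_sql_team_seeded_620a6dc7.helper24_UT_.Stm

set_option autoImplicit false

namespace Pool.Agent.helper24_UT.Fb

open Finset
open Pool.Agent.helper24_UT
open Pool.Agent.H376R2.MR (ch er DP FK)

lemma log_pow_le (n : ℕ) (hn : 1 ≤ n) (j : ℕ) (ε : ℝ) (hε : 0 < ε) :
    (Real.log n) ^ j ≤ (j.factorial : ℝ) * (1 / ε) ^ j * (n : ℝ) ^ ε := by
  have hn' : (1 : ℝ) ≤ n := by exact_mod_cast hn
  have hn0 : (0 : ℝ) < n := by linarith
  have hl : 0 ≤ Real.log n := Real.log_nonneg hn'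
  have h := Real.pow_div_factorial_le_exp (ε * Real.log n) (by positivity) j
  have hf : (0 : ℝ) < (j.factorial : ℝ) := by exact_mod_cast j.factorial_pos
  rw [div_le_iff₀ hf] at h
  have h2 : Real.exp (ε * Real.log n) = (n : ℝ) ^ ε := by
    rw [Real.rpow_def_of_pos hn0, mul_comm]
  rw [h2, mul_pow] at h
  have h3 : (Real.log n) ^ j = (1 / ε) ^ j * (ε ^ j * (Real.log n) ^ j) := by
    rw [← mul_assoc, ← mul_pow, one_div, inv_mul_cancel₀ hε.ne', one_pow, one_mul]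
  rw [h3]
  calc (1 / ε) ^ j * (ε ^ j * (Real.log n) ^ j) ≤ (1 / ε) ^ j * ((n : ℝ) ^ ε * (j.factorial : ℝ)) := by
        apply mul_le_mul_of_nonneg_left h (by positivity)
    _ = _ := by ring

lemma pow_diff (a b : ℝ) (ha : 0 ≤ a) (hab : a ≤ b) (hb : 1 ≤ b) (j : ℕ) :
    b ^ j - a ^ j ≤ j * b ^ j * (b - a) := by
  induction j with
  | zero => simp
  | succ j ih =>
    have h1 : a ^ j ≤ b ^ j := pow_le_pow_left₀ ha hab j
    have h2 : b ^ j ≤ b ^ (j + 1) := pow_le_pow_right₀ hb (by omega)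
    have h3 : b ^ (j + 1) - a ^ (j + 1) = b * (b ^ j - a ^ j) + a ^ j * (b - a) := by ring
    have h4 : b * (b ^ j - a ^ j) ≤ b * (j * b ^ j * (b - a)) :=
      mul_le_mul_of_nonneg_left ih (by linarith)
    have h5 : a ^ j * (b - a) ≤ b ^ (j + 1) * (b - a) :=
      mul_le_mul_of_nonneg_right (h1.trans h2) (by linarith)
    rw [h3]
    push_cast
    calc b * (b ^ j - a ^ j) + a ^ j * (b - a) ≤ b * (j * b ^ j * (b - a)) + b ^ (j + 1) * (b - a) := by linarith
      _ = _ := by ring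

lemma tele (n : ℕ) (hn : 2 ≤ n) (ε : ℝ) (hε : 0 < ε) :
    (n : ℝ) ^ (-1 - ε) ≤ 1 / ε * (((n - 1 : ℕ) : ℝ) ^ (-ε) - (n : ℝ) ^ (-ε)) := by
  have hn' : (2 : ℝ) ≤ n := by exact_mod_cast hn
  have hn0 : (0 : ℝ) < n := by linarith
  have hc : ((n - 1 : ℕ) : ℝ) = (n : ℝ) - 1 := by
    rw [Nat.cast_sub (by omega)]; simp
  rw [hc]
  have h1 : (0 : ℝ) < (n : ℝ) - 1 := by linarith
  -- (n-1)^(-ε) = n^(-ε) * (1-1/n)^(-ε)
  have h2 : (n : ℝ) - 1 = n * (1 - 1 / n) := by field_simp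
  have h3 : (0 : ℝ) < 1 - 1 / (n : ℝ) := by
    rw [sub_pos, div_lt_one hn0]; linarith
  rw [h2, Real.mul_rpow hn0.le h3.le]
  have h4 : 1 + ε * (1 / n) ≤ (1 - 1 / (n : ℝ)) ^ (-ε) := by
    rw [Real.rpow_def_of_pos h3]
    have h5 : Real.log (1 - 1 / (n : ℝ)) ≤ -(1 / n) := by
      have := Real.log_le_sub_one_of_pos h3
      linarith
    have h6 := Real.add_one_le_exp (Real.log (1 - 1 / (n : ℝ)) * -ε)
    nlinarith
  have h7 : (n : ℝ) ^ (-1 - ε) = (n : ℝ) ^ (-ε) * (1 / n) := by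
    rw [show (-1 - ε : ℝ) = -ε + (-1) by ring, Real.rpow_add hn0, Real.rpow_neg_one]
    simp
  rw [h7]
  have h8 : (0 : ℝ) < (n : ℝ) ^ (-ε) := Real.rpow_pos_of_pos hn0 _
  calc (n : ℝ) ^ (-ε) * (1 / n) = 1 / ε * ((n : ℝ) ^ (-ε) * (1 + ε * (1 / n)) - (n : ℝ) ^ (-ε)) := by
        field_simp; ring
    _ ≤ _ := by
        apply mul_le_mul_of_nonneg_left _ (by positivity)
        have := mul_le_mul_of_nonneg_left h4 h8.le
        linarith

lemma sum_rpow_le (z N : ℕ) (hz : 2 ≤ z) (ε : ℝ) (hε : 0 < ε) :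
    ∑ n ∈ Ico z N, (n : ℝ) ^ (-1 - ε) ≤ 1 / ε := by
  by_cases hzN : N ≤ z
  · rw [Ico_eq_empty (by omega)]; simp; exact hε.le
  · push Not at hzN
    have key : ∀ M, z ≤ M → ∑ n ∈ Ico z M, (n : ℝ) ^ (-1 - ε) ≤
        1 / ε * (((z - 1 : ℕ) : ℝ) ^ (-ε) - ((M - 1 : ℕ) : ℝ) ^ (-ε)) := by
      intro M hM
      induction M, hM using Nat.le_induction with
      | base => simp
      | succ M hM ih =>
        rw [sum_Ico_succ_top hM]
        have := tele M (by omega) ε hε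
        have h2 : M + 1 - 1 = M := by omega
        rw [h2]
        calc _ ≤ 1 / ε * (((z - 1 : ℕ) : ℝ) ^ (-ε) - ((M - 1 : ℕ) : ℝ) ^ (-ε)) +
              1 / ε * (((M - 1 : ℕ) : ℝ) ^ (-ε) - (M : ℝ) ^ (-ε)) := add_le_add ih this
          _ = _ := by ring
    refine (key N hzN.le).trans ?_
    have h1 : ((z - 1 : ℕ) : ℝ) ^ (-ε) ≤ 1 := by
      have : (1 : ℝ) ≤ ((z - 1 : ℕ) : ℝ) := by exact_mod_cast (by omega : 1 ≤ z - 1)
      exact Real.rpow_le_one_of_one_le_of_nonpos this (by linarith)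
    have h2 : 0 ≤ ((N - 1 : ℕ) : ℝ) ^ (-ε) := Real.rpow_nonneg (by positivity) _
    calc _ ≤ 1 / ε * 1 := mul_le_mul_of_nonneg_left (by linarith) (by positivity)
      _ = _ := by ring

/-- the weight -/
noncomputable def g (σ : ℝ) (j n : ℕ) : ℝ := (Real.log n) ^ j * (n : ℝ) ^ (-σ)

lemma g_nonneg (σ : ℝ) (j n : ℕ) : 0 ≤ g σ j n := by
  unfold g
  rcases Nat.eq_zero_or_pos n with h | h
  · subst h
    simp only [Nat.cast_zero, Real.log_zero]
    have : (0 : ℝ) ≤ (0 : ℝ) ^ (-σ) := Real.rpow_nonneg le_rfl _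
    positivity
  · have : (1 : ℝ) ≤ n := by exact_mod_cast h
    have := Real.log_nonneg this
    positivity

lemma n_mul_g (σ : ℝ) (j n : ℕ) (hn : 1 ≤ n) (L : ℝ) (hL : 0 < L) (hσ : 1 + 1 / L ≤ σ) :
    (n : ℝ) * g σ j n ≤ j.factorial * L ^ j := by
  unfold g
  have hn' : (1 : ℝ) ≤ n := by exact_mod_cast hn
  have hn0 : (0 : ℝ) < n := by linarith
  have h1 := log_pow_le n hn j (1 / L) (by positivity)
  have h2 : (n : ℝ) * ((Real.log n) ^ j * (n : ℝ) ^ (-σ)) = (Real.log n) ^ j * (n : ℝ) ^ (1 - σ) := by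
    rw [show (1 - σ : ℝ) = 1 + (-σ) by ring, Real.rpow_add hn0, Real.rpow_one]; ring
  rw [h2]
  have h3 : (n : ℝ) ^ (1 - σ) ≤ (n : ℝ) ^ (-(1 / L)) :=
    Real.rpow_le_rpow_of_exponent_le hn' (by linarith)
  have h4 : (n : ℝ) ^ (1 / L) * (n : ℝ) ^ (-(1 / L)) = 1 := by
    rw [← Real.rpow_add hn0]; simp
  have h5 : 0 ≤ Real.log n := Real.log_nonneg hn'
  calc (Real.log n) ^ j * (n : ℝ) ^ (1 - σ) ≤ (Real.log n) ^ j * (n : ℝ) ^ (-(1 / L)) :=
        mul_le_mul_of_nonneg_left h3 (by positivity)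
    _ ≤ ((j.factorial : ℝ) * (1 / (1 / L)) ^ j * (n : ℝ) ^ (1 / L)) * (n : ℝ) ^ (-(1 / L)) :=
        mul_le_mul_of_nonneg_right h1 (Real.rpow_nonneg hn0.le _)
    _ = (j.factorial : ℝ) * (1 / (1 / L)) ^ j * ((n : ℝ) ^ (1 / L) * (n : ℝ) ^ (-(1 / L))) := by ring
    _ = _ := by rw [h4]; simp

lemma g_diff (σ : ℝ) (j n : ℕ) (hn : 2 ≤ n) (L : ℝ) (hL : 1 ≤ L) (hσ : 1 + 1 / L ≤ σ) (hσ2 : σ ≤ 2) :
    (n : ℝ) * |g σ j n - g σ j (n + 1)| ≤
      ((2 + j) * 2 ^ j * (j.factorial * (2 * L) ^ j)) * (n : ℝ) ^ (-1 - 1 / (2 * L)) := by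
  have hn' : (2 : ℝ) ≤ n := by exact_mod_cast hn
  have hn0 : (0 : ℝ) < n := by linarith
  set a := Real.log n with ha
  set b := Real.log ((n + 1 : ℕ) : ℝ) with hb
  have hcast : ((n + 1 : ℕ) : ℝ) = (n : ℝ) + 1 := by push_cast; ring
  have ha0 : 0 ≤ a := Real.log_nonneg (by linarith)
  have hab : a ≤ b := by
    apply Real.log_le_log hn0; rw [hcast]; linarith
  have hb1 : 1 ≤ b := by
    rw [hb, Real.le_log_iff_exp_le (by positivity), hcast]
    have := Real.exp_one_lt_d9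
    linarith
  have hba : b - a ≤ 1 / n := by
    have : b - a = Real.log (1 + 1 / n) := by
      rw [hb, ha, hcast, ← Real.log_div (by positivity) (by positivity)]
      congr 1; field_simp
    rw [this]
    have := Real.log_le_sub_one_of_pos (show (0 : ℝ) < 1 + 1 / n by positivity)
    linarith
  have hb2a : b ≤ 2 * a := by
    have : 2 * a = Real.log ((n : ℝ) ^ 2) := by rw [Real.log_pow]; push_cast; ring
    rw [this, hb]
    apply Real.log_le_log (by positivity)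
    rw [hcast]; nlinarith
  have hpow := pow_diff a b ha0 hab hb1 j
  have hpow0 : 0 ≤ b ^ j - a ^ j := by
    have := pow_le_pow_left₀ ha0 hab j; linarith
  -- weights
  set w := (n : ℝ) ^ (-σ) with hw
  set w' := ((n + 1 : ℕ) : ℝ) ^ (-σ) with hw'
  have hw0 : 0 < w := Real.rpow_pos_of_pos hn0 _
  have hw'0 : 0 < w' := Real.rpow_pos_of_pos (by positivity) _
  have hww : w' ≤ w := by
    rw [hw, hw']
    apply Real.rpow_le_rpow_of_nonpos hn0 (by rw [hcast]; linarith)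
    have : 0 < 1 / L := by positivity
    linarith
  have hdiff : w - w' ≤ w * (2 / n) := by
    have h1 : w' = w * ((n : ℝ) / (n + 1)) ^ σ := by
      rw [hw, hw', hcast, Real.div_rpow hn0.le (by positivity), Real.rpow_neg hn0.le,
        Real.rpow_neg (by positivity)]
      have : (n : ℝ) ^ σ ≠ 0 := (Real.rpow_pos_of_pos hn0 _).ne'
      field_simp
    have h2 : ((n : ℝ) / (n + 1)) ^ (2 : ℝ) ≤ ((n : ℝ) / (n + 1)) ^ σ := by
      apply Real.rpow_le_rpow_of_exponent_ge (by positivity) _ hσ2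
      rw [div_le_one (by positivity)]; linarith
    have h3 : 1 - 2 / n ≤ ((n : ℝ) / (n + 1)) ^ (2 : ℝ) := by
      rw [Real.rpow_two, div_pow, le_div_iff₀ (by positivity), sub_mul, sub_le_iff_le_add, div_mul_eq_mul_div,
        one_mul]
      rw [← sub_le_iff_le_add', le_div_iff₀ hn0]
      nlinarith
    rw [h1]
    have := mul_le_mul_of_nonneg_left (h3.trans h2) hw0.le
    linarith
  have hg : |g σ j n - g σ j (n + 1)| ≤ (2 + j) * b ^ j * w / n := by
    have e : g σ j n - g σ j (n + 1) = a ^ j * (w - w') - (b ^ j - a ^ j) * w' := by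
      simp only [g]; rw [← ha, ← hb, ← hw, ← hw']; ring
    rw [e]
    have t1 : |a ^ j * (w - w')| ≤ b ^ j * (w * (2 / n)) := by
      rw [abs_of_nonneg (mul_nonneg (by positivity) (by linarith))]
      exact mul_le_mul (pow_le_pow_left₀ ha0 hab j) hdiff (by linarith) (by positivity)
    have t2 : |(b ^ j - a ^ j) * w'| ≤ (j * b ^ j * (1 / n)) * w := by
      rw [abs_of_nonneg (mul_nonneg hpow0 hw'0.le)]
      apply mul_le_mul _ hww hw'0.le (by positivity)
      refine hpow.trans ?_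
      exact mul_le_mul_of_nonneg_left hba (by positivity)
    calc _ ≤ |a ^ j * (w - w')| + |(b ^ j - a ^ j) * w'| := abs_sub _ _
      _ ≤ b ^ j * (w * (2 / n)) + (j * b ^ j * (1 / n)) * w := add_le_add t1 t2
      _ = _ := by ring
  have hbj : b ^ j ≤ 2 ^ j * a ^ j := by
    rw [← mul_pow]; exact pow_le_pow_left₀ (by linarith) hb2a j
  have haj : a ^ j ≤ (j.factorial : ℝ) * (2 * L) ^ j * (n : ℝ) ^ (1 / (2 * L)) := by
    have := log_pow_le n (by omega) j (1 / (2 * L)) (by positivity)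
    simpa using this
  have hfin : (n : ℝ) ^ (1 / (2 * L)) * w ≤ (n : ℝ) ^ (-1 - 1 / (2 * L)) := by
    rw [hw, ← Real.rpow_add hn0]
    apply Real.rpow_le_rpow_of_exponent_le (by linarith)
    have : 1 / L = 2 * (1 / (2 * L)) := by field_simp
    linarith
  calc (n : ℝ) * |g σ j n - g σ j (n + 1)| ≤ n * ((2 + j) * b ^ j * w / n) :=
        mul_le_mul_of_nonneg_left hg hn0.le
    _ = (2 + j) * b ^ j * w := by field_simp
    _ ≤ (2 + j) * (2 ^ j * ((j.factorial : ℝ) * (2 * L) ^ j * (n : ℝ) ^ (1 / (2 * L)))) * w := by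
        apply mul_le_mul_of_nonneg_right _ hw0.le
        apply mul_le_mul_of_nonneg_left _ (by positivity)
        exact hbj.trans (mul_le_mul_of_nonneg_left haj (by positivity))
    _ = ((2 + j) * 2 ^ j * (j.factorial * (2 * L) ^ j)) * ((n : ℝ) ^ (1 / (2 * L)) * w) := by ring
    _ ≤ _ := mul_le_mul_of_nonneg_left hfin (by positivity)

lemma abel (c : ℕ → ℂ) (w : ℕ → ℂ) (z N : ℕ) (hz : z ≤ N) :
    ∑ n ∈ Ioc z N, c n * w n = (∑ n ∈ Icc 1 N, c n) * w N - (∑ n ∈ Icc 1 z, c n) * w z +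
      ∑ n ∈ Ico z N, (∑ m ∈ Icc 1 n, c m) * (w n - w (n + 1)) := by
  induction N, hz using Nat.le_induction with
  | base => simp
  | succ N hN ih =>
    rw [sum_Ico_succ_top hN, ← insert_Ioc_right_eq_Ioc_add_one hN, sum_insert (by simp), ih,
      sum_Icc_succ_top (by omega)]
    ring

lemma tail (c : ℕ → ℂ) (L σ : ℝ) (j J z N : ℕ) (hL : 1 ≤ L) (hj : j ≤ J) (hσ : 1 + 1 / L ≤ σ) (hσ2 : σ ≤ 2)
    (hz : 2 ≤ z) (hzN : z ≤ N) (hR : ∀ n, z ≤ n → ‖∑ m ∈ Icc 1 n, c m‖ ≤ n / L ^ (J + 3)) :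
    ‖∑ n ∈ Ioc z N, c n * (g σ j n : ℂ)‖ ≤ 2 * J.factorial + 2 * (2 + J) * 2 ^ J * (J.factorial * 2 ^ J) := by
  rw [abel c (fun n => (g σ j n : ℂ)) z N hzN]
  have hL0 : 0 < L := by linarith
  have hjf : (j.factorial : ℝ) ≤ J.factorial := by exact_mod_cast Nat.factorial_le hj
  have hLj : L ^ j ≤ L ^ (J + 3) := pow_le_pow_right₀ hL (by omega)
  have hB : ∀ n, z ≤ n → ‖(∑ m ∈ Icc 1 n, c m) * (g σ j n : ℂ)‖ ≤ J.factorial := by
    intro n hn
    rw [norm_mul, Complex.norm_real, Real.norm_of_nonneg (g_nonneg _ _ _)]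
    calc _ ≤ n / L ^ (J + 3) * g σ j n := mul_le_mul_of_nonneg_right (hR n hn) (g_nonneg _ _ _)
      _ = (n * g σ j n) / L ^ (J + 3) := by ring
      _ ≤ (j.factorial * L ^ j) / L ^ (J + 3) := by
          apply div_le_div_of_nonneg_right (n_mul_g σ j n (by omega) L hL0 hσ) (by positivity)
      _ ≤ (J.factorial * L ^ (J + 3)) / L ^ (J + 3) := by
          apply div_le_div_of_nonneg_right _ (by positivity)
          exact mul_le_mul hjf hLj (by positivity) (by positivity)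
      _ = J.factorial := by field_simp
  have hS : ‖∑ n ∈ Ico z N, (∑ m ∈ Icc 1 n, c m) * ((g σ j n : ℂ) - (g σ j (n + 1) : ℂ))‖ ≤
      2 * (2 + J) * 2 ^ J * (J.factorial * 2 ^ J) := by
    have hK : ((2 + j) * 2 ^ j * (j.factorial * (2 * L) ^ j) : ℝ) ≤
        (2 + J) * 2 ^ J * (J.factorial * 2 ^ J) * L ^ J := by
      have hj' : (j : ℝ) ≤ J := by exact_mod_cast hj
      have h2 : (2 : ℝ) ^ j ≤ 2 ^ J := pow_le_pow_right₀ (by norm_num) hj
      have h3 : L ^ j ≤ L ^ J := pow_le_pow_right₀ hL hj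
      rw [mul_pow]
      calc ((2 + j) * 2 ^ j * (j.factorial * (2 ^ j * L ^ j)) : ℝ) ≤
            (2 + J) * 2 ^ J * (J.factorial * (2 ^ J * L ^ J)) := by gcongr
        _ = _ := by ring
    calc _ ≤ ∑ n ∈ Ico z N, ‖(∑ m ∈ Icc 1 n, c m) * ((g σ j n : ℂ) - (g σ j (n + 1) : ℂ))‖ := norm_sum_le _ _
      _ ≤ ∑ n ∈ Ico z N, ((2 + J) * 2 ^ J * (J.factorial * 2 ^ J) * L ^ J) / L ^ (J + 3) *
            (n : ℝ) ^ (-1 - 1 / (2 * L)) := by
          apply sum_le_sum
          intro n hn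
          rw [mem_Ico] at hn
          rw [norm_mul, ← Complex.ofReal_sub, Complex.norm_real, Real.norm_eq_abs]
          calc _ ≤ n / L ^ (J + 3) * |g σ j n - g σ j (n + 1)| :=
                mul_le_mul_of_nonneg_right (hR n hn.1) (abs_nonneg _)
            _ = (n * |g σ j n - g σ j (n + 1)|) / L ^ (J + 3) := by ring
            _ ≤ (((2 + j) * 2 ^ j * (j.factorial * (2 * L) ^ j)) * (n : ℝ) ^ (-1 - 1 / (2 * L))) / L ^ (J + 3) := by
                apply div_le_div_of_nonneg_right (g_diff σ j n (by omega) L hL hσ hσ2) (by positivity)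
            _ ≤ (((2 + J) * 2 ^ J * (J.factorial * 2 ^ J) * L ^ J) * (n : ℝ) ^ (-1 - 1 / (2 * L))) / L ^ (J + 3) := by
                apply div_le_div_of_nonneg_right _ (by positivity)
                exact mul_le_mul_of_nonneg_right hK (Real.rpow_nonneg (by positivity) _)
            _ = _ := by ring
      _ = ((2 + J) * 2 ^ J * (J.factorial * 2 ^ J) * L ^ J) / L ^ (J + 3) *
            ∑ n ∈ Ico z N, (n : ℝ) ^ (-1 - 1 / (2 * L)) := by rw [mul_sum]
      _ ≤ ((2 + J) * 2 ^ J * (J.factorial * 2 ^ J) * L ^ J) / L ^ (J + 3) * (1 / (1 / (2 * L))) :=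
          mul_le_mul_of_nonneg_left (sum_rpow_le z N hz _ (by positivity)) (by positivity)
      _ = (2 * (2 + J) * 2 ^ J * (J.factorial * 2 ^ J)) * (L ^ (J + 1) / L ^ (J + 3)) := by
          rw [one_div_one_div, pow_succ L J]; ring
      _ ≤ (2 * (2 + J) * 2 ^ J * (J.factorial * 2 ^ J)) * 1 := by
          apply mul_le_mul_of_nonneg_left _ (by positivity)
          rw [div_le_one (by positivity)]
          exact pow_le_pow_right₀ hL (by omega)
      _ = _ := by ring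
  calc _ ≤ ‖(∑ n ∈ Icc 1 N, c n) * (g σ j N : ℂ) - (∑ n ∈ Icc 1 z, c n) * (g σ j z : ℂ)‖ +
        ‖∑ n ∈ Ico z N, (∑ m ∈ Icc 1 n, c m) * ((g σ j n : ℂ) - (g σ j (n + 1) : ℂ))‖ := norm_add_le _ _
    _ ≤ (‖(∑ n ∈ Icc 1 N, c n) * (g σ j N : ℂ)‖ + ‖(∑ n ∈ Icc 1 z, c n) * (g σ j z : ℂ)‖) +
        ‖∑ n ∈ Ico z N, (∑ m ∈ Icc 1 n, c m) * ((g σ j n : ℂ) - (g σ j (n + 1) : ℂ))‖ := by
          gcongr; exact norm_sub_le _ _
    _ ≤ (J.factorial + J.factorial) + 2 * (2 + J) * 2 ^ J * (J.factorial * 2 ^ J) :=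
          add_le_add (add_le_add (hB N hzN) (hB z le_rfl)) hS
    _ = _ := by ring

lemma norm_tw (t x : ℝ) : ‖tw t x‖ = 1 := by
  unfold tw er
  exact Complex.norm_exp_ofReal_mul_I _

lemma norm_ro_le (y : ℝ) (f : ℕ → ℂ) (hf : CM f) (n : ℕ) : ‖ro y f n‖ ≤ ‖ro y (fun _ => 1) n‖ := by
  unfold ro
  split_ifs
  · simpa using hf.norm_le n
  · simp

lemma norm_ro_one_le (y : ℝ) (n : ℕ) : ‖ro y (fun _ => 1) n‖ ≤ 1 := by
  unfold ro
  split_ifs <;> simp

lemma ro_one_eq (y : ℝ) (n : ℕ) : ro y (fun _ => 1) n = ((‖ro y (fun _ => 1) n‖ : ℝ) : ℂ) := by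
  unfold ro
  split_ifs <;> simp

lemma term_eq (a : ℂ) (σ u : ℝ) (j n : ℕ) (hn : 1 ≤ n) :
    (a * (((Real.log n) ^ j : ℝ) : ℂ)) / (n : ℂ) ^ ((σ : ℂ) + (u : ℂ) * Complex.I) =
      (a * tw u n) * (g σ j n : ℂ) := by
  have hn0 : (0 : ℝ) < n := by exact_mod_cast hn
  have hnc : (n : ℂ) ≠ 0 := by exact_mod_cast (by omega : n ≠ 0)
  rw [Complex.cpow_add _ _ hnc]
  have h1 : (n : ℂ) ^ (σ : ℂ) = (((n : ℝ) ^ σ : ℝ) : ℂ) := by
    rw [Complex.ofReal_cpow hn0.le]; simp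
  have h2 : (n : ℂ) ^ ((u : ℂ) * Complex.I) = Complex.exp ((u * Real.log n : ℝ) * Complex.I) := by
    rw [Complex.cpow_def_of_ne_zero hnc]
    congr 1
    have : Complex.log (n : ℂ) = ((Real.log n : ℝ) : ℂ) := by
      rw [Complex.ofReal_log hn0.le]; simp
    rw [this]; push_cast; ring
  have h3 : tw u n = (Complex.exp ((u * Real.log n : ℝ) * Complex.I))⁻¹ := by
    unfold tw er
    rw [← Complex.exp_neg]
    congr 1
    push_cast; ring
  have h4 : (g σ j n : ℂ) = (((Real.log n) ^ j : ℝ) : ℂ) * ((((n : ℝ) ^ σ : ℝ) : ℂ))⁻¹ := by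
    unfold g
    rw [Real.rpow_neg hn0.le]; push_cast; ring
  rw [h1, h2, h3, h4]
  field_simp

lemma head_le (y σ : ℝ) (hσ : 1 < σ) (z : ℕ) :
    ∑ n ∈ Icc 1 z, ‖ro y (fun _ => 1) n‖ * (n : ℝ) ^ (-σ) ≤ ‖LSeries (ro y (fun _ => 1)) (σ : ℂ)‖ := by
  set h : ℕ → ℝ := fun n => if n = 0 then 0 else ‖ro y (fun _ => 1) n‖ * (n : ℝ) ^ (-σ) with hh
  have hterm : ∀ n, LSeries.term (ro y (fun _ => 1)) (σ : ℂ) n = ((h n : ℝ) : ℂ) := by
    intro n
    rw [LSeries.term_def]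
    simp only [hh]
    split_ifs with h0
    · simp
    · have hn0 : (0 : ℝ) < n := by exact_mod_cast (by omega : 0 < n)
      have h1 : (n : ℂ) ^ (σ : ℂ) = (((n : ℝ) ^ σ : ℝ) : ℂ) := by
        rw [Complex.ofReal_cpow hn0.le]; simp
      rw [h1, ro_one_eq, Real.rpow_neg hn0.le]
      push_cast
      simp [div_eq_mul_inv]
  have hnn : ∀ n, 0 ≤ h n := by
    intro n; simp only [hh]; split_ifs
    · exact le_rfl
    · positivity
  have hsum : Summable h := by
    apply Summable.of_nonneg_of_le hnn _ (Real.summable_nat_rpow.mpr (show -σ < -1 by linarith))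
    intro n
    simp only [hh]
    split_ifs
    · exact Real.rpow_nonneg (by positivity) _
    · have := mul_le_mul_of_nonneg_right (norm_ro_one_le y n) (Real.rpow_nonneg (Nat.cast_nonneg n) (-σ) : (0 : ℝ) ≤ _)
      linarith
  have hL : LSeries (ro y (fun _ => 1)) (σ : ℂ) = ((∑' n, h n : ℝ) : ℂ) := by
    rw [LSeries, Complex.ofReal_tsum]
    exact tsum_congr hterm
  rw [hL, Complex.norm_real, Real.norm_of_nonneg (tsum_nonneg hnn)]
  calc _ = ∑ n ∈ Icc 1 z, h n := by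
        apply sum_congr rfl
        intro n hn
        rw [mem_Icc] at hn
        simp only [hh]
        rw [if_neg (by omega)]
    _ ≤ _ := hsum.sum_le_tsum _ (fun n _ => hnn n)

theorem main : S_RZ → S_FB := by
  rintro ⟨C0, hC0, hRZ⟩ η hη hη2 J
  set T : ℝ := 2 * J.factorial + 2 * (2 + J) * 2 ^ J * (J.factorial * 2 ^ J) with hT
  have hT0 : 0 ≤ T := by positivity
  refine ⟨9 * 2 ^ J * C0 + T, 2, ?_, le_rfl, ?_⟩
  · have : (1 : ℝ) ≤ 2 ^ J := one_le_pow₀ (by norm_num)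
    nlinarith
  intro L hL2 U f hCM hRB σ u hσ hσ2 hu j hj
  have hL1 : 1 ≤ L := by linarith
  have hL0 : 0 < L := by linarith
  set X : ℝ := L ^ (1 - η / 2) with hX
  have hX1 : 1 ≤ X := Real.one_le_rpow hL1 (by linarith)
  set z : ℕ := ⌈Real.exp X⌉₊ with hz
  have hzX : Real.exp X ≤ z := Nat.le_ceil _
  have hz0 : (0 : ℝ) < z := lt_of_lt_of_le (Real.exp_pos _) hzX
  have hzX' : (z : ℝ) ≤ Real.exp (X + 1) := by
    have h1 : (z : ℝ) < Real.exp X + 1 := Nat.ceil_lt_add_one (Real.exp_pos _).le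
    have h2 : Real.exp (X + 1) = Real.exp X * Real.exp 1 := Real.exp_add _ _
    have h3 : (2 : ℝ) ≤ Real.exp 1 := by have := Real.add_one_le_exp (1 : ℝ); linarith
    have h4 : 1 ≤ Real.exp X := Real.one_le_exp (by linarith)
    nlinarith
  have hlogz : X ≤ Real.log z := (Real.le_log_iff_exp_le hz0).mpr hzX
  have hlogz' : Real.log z ≤ 2 * X := by
    have := (Real.log_le_iff_le_exp hz0).mpr hzX'
    linarith
  have hz2 : 2 ≤ z := by
    have h3 : (2 : ℝ) ≤ Real.exp X := by have := Real.add_one_le_exp X; linarith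
    exact_mod_cast h3.trans hzX
  set y := yy L η with hy
  have hylog : Real.log y = L ^ (1 - 17 * η / 32) := by rw [hy, yy, Real.log_exp]
  have hylog1 : 1 ≤ Real.log y := by
    rw [hylog]; exact Real.one_le_rpow hL1 (by linarith)
  have hy2 : 2 ≤ y := by
    rw [hy, yy]
    have h1 : 1 ≤ L ^ (1 - 17 * η / 32) := Real.one_le_rpow hL1 (by linarith)
    have := Real.add_one_le_exp (L ^ (1 - 17 * η / 32))
    linarith
  -- the bound for the partial sums
  set E : ℝ := L ^ ((1 - η / 2) * j + η / 32 : ℝ) with hE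
  have hE1 : 1 ≤ E := by
    apply Real.one_le_rpow hL1
    have : 0 ≤ (1 - η / 2) * (j : ℝ) := mul_nonneg (by linarith) (by positivity)
    linarith
  have hhead : ‖∑ n ∈ Icc 1 z, (ro y f n * tw u n) * (g σ j n : ℂ)‖ ≤ 9 * 2 ^ J * C0 * E := by
    set σ0 : ℝ := 1 + 1 / Real.log z with hσ0
    have hlz0 : 0 < Real.log z := by linarith
    have hσ01 : 1 < σ0 := by rw [hσ0]; have : 0 < 1 / Real.log z := by positivity
                             linarith
    have hσ02 : σ0 ≤ 2 := by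
      rw [hσ0]
      have : 1 / Real.log z ≤ 1 := by rw [div_le_one hlz0]; linarith
      linarith
    have hb : ∀ n ∈ Icc 1 z, ‖(ro y f n * tw u n) * (g σ j n : ℂ)‖ ≤
        (Real.exp 1 * (Real.log z) ^ j) * (‖ro y (fun _ => 1) n‖ * (n : ℝ) ^ (-σ0)) := by
      intro n hn
      rw [mem_Icc] at hn
      have hn' : (1 : ℝ) ≤ n := by exact_mod_cast hn.1
      have hn0 : (0 : ℝ) < n := by linarith
      have hnz : (n : ℝ) ≤ z := by exact_mod_cast hn.2
      have hlog0 : 0 ≤ Real.log n := Real.log_nonneg hn'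
      have hlog : Real.log n ≤ Real.log z := Real.log_le_log hn0 hnz
      rw [norm_mul, norm_mul, norm_tw, mul_one, Complex.norm_real, Real.norm_of_nonneg (g_nonneg _ _ _)]
      have hg : g σ j n ≤ (Real.log z) ^ j * (Real.exp 1 * (n : ℝ) ^ (-σ0)) := by
        unfold g
        apply mul_le_mul (pow_le_pow_left₀ hlog0 hlog j) _ (Real.rpow_nonneg hn0.le _) (by positivity)
        calc (n : ℝ) ^ (-σ) ≤ (n : ℝ) ^ (-1 : ℝ) := by
              apply Real.rpow_le_rpow_of_exponent_le hn'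
              have : 0 < 1 / L := by positivity
              linarith
          _ = (n : ℝ) ^ (1 / Real.log z) * (n : ℝ) ^ (-σ0) := by
              rw [← Real.rpow_add hn0, hσ0]; congr 1; ring
          _ ≤ Real.exp 1 * (n : ℝ) ^ (-σ0) := by
              apply mul_le_mul_of_nonneg_right _ (Real.rpow_nonneg hn0.le _)
              rw [Real.rpow_def_of_pos hn0]
              apply Real.exp_le_exp.mpr
              rw [mul_one_div, div_le_one hlz0]
              exact hlog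
      calc ‖ro y f n‖ * g σ j n ≤ ‖ro y (fun _ => 1) n‖ * ((Real.log z) ^ j * (Real.exp 1 * (n : ℝ) ^ (-σ0))) :=
            mul_le_mul (norm_ro_le y f hCM n) hg (g_nonneg _ _ _) (norm_nonneg _)
        _ = _ := by ring
    have hLS := hRZ y σ0 hy2 hσ01 hσ02
    have hq : 1 / ((σ0 - 1) * Real.log y) ≤ 2 * L ^ (η / 32) := by
      have e1 : 1 / ((σ0 - 1) * Real.log y) = Real.log z / Real.log y := by
        rw [hσ0]; field_simp; ring
      rw [e1, div_le_iff₀ (by linarith), hylog]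
      have e2 : 2 * L ^ (η / 32) * L ^ (1 - 17 * η / 32) = 2 * X := by
        rw [mul_assoc, ← Real.rpow_add hL0, hX]; congr 2; ring
      rw [e2]; exact hlogz'
    have hLe : 1 ≤ L ^ (η / 32) := Real.one_le_rpow hL1 (by linarith)
    have hlzj : (Real.log z) ^ j ≤ 2 ^ J * L ^ ((1 - η / 2) * j : ℝ) := by
      calc (Real.log z) ^ j ≤ (2 * X) ^ j := pow_le_pow_left₀ hlz0.le hlogz' j
        _ = 2 ^ j * X ^ j := mul_pow _ _ _
        _ ≤ 2 ^ J * X ^ j := by
            apply mul_le_mul_of_nonneg_right (pow_le_pow_right₀ (by norm_num) hj) (by positivity)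
        _ = _ := by rw [hX, Real.rpow_mul hL0.le, Real.rpow_natCast]
    have hexp : Real.exp 1 ≤ 3 := by have := Real.exp_one_lt_d9; linarith
    calc _ ≤ ∑ n ∈ Icc 1 z, ‖(ro y f n * tw u n) * (g σ j n : ℂ)‖ := norm_sum_le _ _
      _ ≤ ∑ n ∈ Icc 1 z, (Real.exp 1 * (Real.log z) ^ j) * (‖ro y (fun _ => 1) n‖ * (n : ℝ) ^ (-σ0)) :=
          sum_le_sum hb
      _ = (Real.exp 1 * (Real.log z) ^ j) * ∑ n ∈ Icc 1 z, (‖ro y (fun _ => 1) n‖ * (n : ℝ) ^ (-σ0)) := by
          rw [mul_sum]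
      _ ≤ (Real.exp 1 * (Real.log z) ^ j) * (C0 * (1 + 2 * L ^ (η / 32))) := by
          apply mul_le_mul_of_nonneg_left _ (by positivity)
          refine (head_le y σ0 hσ01 z).trans (hLS.trans ?_)
          apply mul_le_mul_of_nonneg_left _ (by linarith)
          linarith
      _ ≤ (3 * (2 ^ J * L ^ ((1 - η / 2) * j : ℝ))) * (C0 * (3 * L ^ (η / 32))) := by
          apply mul_le_mul (mul_le_mul hexp hlzj (by positivity) (by norm_num)) _ (by positivity) (by positivity)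
          apply mul_le_mul_of_nonneg_left _ (by linarith)
          linarith
      _ = 9 * 2 ^ J * C0 * (L ^ ((1 - η / 2) * j : ℝ) * L ^ (η / 32)) := by ring
      _ = _ := by rw [hE, Real.rpow_add hL0]
  have hpart : ∀ N, z ≤ N → ‖∑ n ∈ range (N + 1), LSeries.term
      (fun n => ro y f n * (((Real.log n) ^ j : ℝ) : ℂ)) ((σ : ℂ) + (u : ℂ) * Complex.I) n‖ ≤
      (9 * 2 ^ J * C0 + T) * E := by
    intro N hN
    have e0 : ∑ n ∈ range (N + 1), LSeries.term
      (fun n => ro y f n * (((Real.log n) ^ j : ℝ) : ℂ)) ((σ : ℂ) + (u : ℂ) * Complex.I) n =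
        ∑ n ∈ Icc 1 N, (ro y f n * tw u n) * (g σ j n : ℂ) := by
      have hsub : Icc 1 N ⊆ range (N + 1) := by
        intro n hn; rw [mem_Icc] at hn; rw [mem_range]; omega
      rw [← sum_subset hsub]
      · apply sum_congr rfl
        intro n hn
        rw [mem_Icc] at hn
        rw [LSeries.term_of_ne_zero (by omega)]
        exact term_eq (ro y f n) σ u j n hn.1
      · intro n hn hn'
        rw [mem_range] at hn
        rw [mem_Icc] at hn'
        have : n = 0 := by omega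
        subst this
        exact LSeries.term_zero _ _
    rw [e0]
    have e1 : ∑ n ∈ Icc 1 N, (ro y f n * tw u n) * (g σ j n : ℂ) =
        ∑ n ∈ Icc 1 z, (ro y f n * tw u n) * (g σ j n : ℂ) + ∑ n ∈ Ioc z N, (ro y f n * tw u n) * (g σ j n : ℂ) := by
      rw [← sum_union]
      · congr 1
        ext n; simp only [mem_union, mem_Icc, mem_Ioc]; omega
      · rw [disjoint_left]
        intro n hn hn'
        rw [mem_Icc] at hn; rw [mem_Ioc] at hn'; omega
    rw [e1]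
    have ht := tail (fun n => ro y f n * tw u n) L σ j J z N hL1 hj hσ hσ2 hz2 hN (by
      intro n hn
      apply hRB u hu n
      have : (z : ℝ) ≤ n := by exact_mod_cast hn
      exact hzX.trans this)
    calc _ ≤ ‖∑ n ∈ Icc 1 z, (ro y f n * tw u n) * (g σ j n : ℂ)‖ +
          ‖∑ n ∈ Ioc z N, (ro y f n * tw u n) * (g σ j n : ℂ)‖ := norm_add_le _ _
      _ ≤ 9 * 2 ^ J * C0 * E + T := add_le_add hhead ht
      _ ≤ 9 * 2 ^ J * C0 * E + T * E := by nlinarith
      _ = _ := by ring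
  rw [LSeries]
  by_cases hs : Summable (LSeries.term (fun n => ro y f n * (((Real.log n) ^ j : ℝ) : ℂ))
      ((σ : ℂ) + (u : ℂ) * Complex.I))
  · have hlim := (hs.hasSum.tendsto_sum_nat).norm
    apply le_of_tendsto hlim
    filter_upwards [Filter.eventually_ge_atTop (z + 1)] with M hM
    obtain ⟨N, rfl⟩ : ∃ N, M = N + 1 := ⟨M - 1, by omega⟩
    exact hpart N (by omega)
  · rw [tsum_eq_zero_of_not_summable hs, norm_zero]
    positivity

end Pool.Agent.helper24_UT.Fb
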