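import Pool.Agent.H43.G.R_pool_sql_team_seeded_620a6dc7.helper24_UT_.Stm

set_option autoImplicit false

namespace Pool.Agent.helper24_UT.P1

open Finset
open Pool.Agent.helper24_UT
open Pool.Agent.H376R2.MR (ch er DP FK)

theorem er_norm (τ x : ℝ) : ‖er τ x‖ = 1 := by
  unfold er
  exact Complex.norm_exp_ofReal_mul_I _

theorem tw_norm (t x : ℝ) : ‖tw t x‖ = 1 := er_norm _ _

theorem tw_one (t : ℝ) : tw t 1 = 1 := by
  unfold tw er
  simp

theorem tw_mul (t : ℝ) {x y : ℝ} (hx : x ≠ 0) (hy : y ≠ 0) : tw t (x * y) = tw t x * tw t y := by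
  unfold tw er
  rw [Real.log_mul hx hy, ← Complex.exp_add]
  congr 1
  push_cast
  ring

theorem tw_add (t u x : ℝ) : tw t x * tw u x = tw (t + u) x := by
  unfold tw er
  rw [← Complex.exp_add]
  congr 1
  push_cast
  ring

theorem tw_sq (t x : ℝ) : tw t x ^ 2 = tw (2 * t) x := by
  rw [pow_two, tw_add, two_mul]

theorem per_sum {L : ℝ} (hL : 2 ≤ L) {A B K₁ K₂ : ℕ} {q : ℕ} (hq : 1 ≤ q) (hqB : (q : ℝ) ≤ L ^ B)
    {M : ℕ} {s : ℝ} (hs : L ^ K₂ ≤ |s|) (hs' : |s| ≤ Real.exp (A * L))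
    (hT : ∀ q r : ℕ, 1 ≤ q → (q : ℝ) ≤ L ^ B → ∀ t : ℝ, L ^ K₂ ≤ |t| → |t| ≤ Real.exp (A * L) →
      ‖∑ m ∈ (Icc 1 M).filter (fun m => m % q = r), tw t m‖ ≤ M / L ^ (K₁ + B))
    {h : ℕ → ℂ} (hper : ∀ n, h (n + q) = h n) (hh : ∀ n, ‖h n‖ ≤ 1) :
    ‖∑ m ∈ Icc 1 M, h m * tw s m‖ ≤ M / L ^ K₁ := by
  have hL0 : 0 < L := by linarith
  have hp : Function.Periodic h q := hper
  have e1 : ∑ m ∈ Icc 1 M, h m * tw s m =
      ∑ r ∈ range q, h r * ∑ m ∈ (Icc 1 M).filter (fun m => m % q = r), tw s m := by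
    rw [← Finset.sum_fiberwise_of_maps_to (s := Icc 1 M) (t := range q) (g := fun m => m % q)
      (fun m _ => Finset.mem_range.2 (Nat.mod_lt _ hq))]
    refine Finset.sum_congr rfl fun r _ => ?_
    rw [Finset.mul_sum]
    refine Finset.sum_congr rfl fun m hm => ?_
    have hmr : m % q = r := (Finset.mem_filter.1 hm).2
    rw [← hmr, hp.map_mod_nat]
  rw [e1]
  calc ‖∑ r ∈ range q, h r * ∑ m ∈ (Icc 1 M).filter (fun m => m % q = r), tw s m‖
      ≤ ∑ r ∈ range q, ‖h r * ∑ m ∈ (Icc 1 M).filter (fun m => m % q = r), tw s m‖ :=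
        norm_sum_le _ _
    _ ≤ ∑ r ∈ range q, (M / L ^ (K₁ + B) : ℝ) := by
        refine Finset.sum_le_sum fun r _ => ?_
        rw [norm_mul]
        calc ‖h r‖ * ‖∑ m ∈ (Icc 1 M).filter (fun m => m % q = r), tw s m‖
            ≤ 1 * (M / L ^ (K₁ + B)) :=
              mul_le_mul (hh r) (hT q r hq hqB s hs hs') (norm_nonneg _) zero_le_one
          _ = _ := one_mul _
    _ = q * (M / L ^ (K₁ + B)) := by
        rw [Finset.sum_const, Finset.card_range, nsmul_eq_mul]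
    _ ≤ L ^ B * (M / L ^ (K₁ + B)) :=
        mul_le_mul_of_nonneg_right hqB (by positivity)
    _ = M / L ^ K₁ := by
        rw [pow_add]
        field_simp

theorem main : S_T1 → S_PG → S_P1 := by
  rintro ⟨η₀, h0, h1, hT⟩ hPG
  refine ⟨η₀ / 64, by linarith, by linarith, ?_⟩
  intro A B K
  obtain ⟨K₁, KU, L₁, hL₁, hG⟩ := hPG η₀ h0 h1 K
  obtain ⟨K₂, L₂, hL₂, hT'⟩ := hT (A + 1) B (K₁ + B)
  refine ⟨max K₂ KU + 2, max L₁ L₂, le_trans hL₁ (le_max_left _ _), ?_⟩
  intro L hL q hq hqB g hg hper t ht1 ht2 N hN1 hN2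
  have hLL1 : L₁ ≤ L := le_trans (le_max_left _ _) hL
  have hLL2 : L₂ ≤ L := le_trans (le_max_right _ _) hL
  have hL2 : 2 ≤ L := le_trans hL₁ hLL1
  have hL1 : 1 ≤ L := by linarith
  have hmax : 0 < L ^ (max K₂ KU) := by positivity
  have hb1 : L ^ K₂ ≤ L ^ (max K₂ KU) := pow_le_pow_right₀ hL1 (le_max_left _ _)
  have hb2 : L ^ KU ≤ L ^ (max K₂ KU) := pow_le_pow_right₀ hL1 (le_max_right _ _)
  have ht3 : 4 * L ^ (max K₂ KU) ≤ |t| := by
    refine le_trans ?_ ht1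
    rw [pow_add, mul_comm]
    have h4 : (4 : ℝ) ≤ L ^ 2 := by nlinarith
    exact mul_le_mul_of_nonneg_left h4 hmax.le
  have hexp : 3 ≤ Real.exp L := by
    have := Real.add_one_le_exp L
    linarith
  have hup : ∀ s : ℝ, |s| ≤ 3 * |t| → |s| ≤ Real.exp (((A + 1 : ℕ) : ℝ) * L) := by
    intro s hs
    have e : Real.exp (((A + 1 : ℕ) : ℝ) * L) = Real.exp L * Real.exp (A * L) := by
      rw [← Real.exp_add]
      congr 1
      push_cast
      ring
    rw [e]
    have := Real.exp_pos ((A : ℝ) * L)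
    nlinarith
  have hCM : CM (fun n => g n * tw t n) := by
    refine ⟨?_, ?_, ?_⟩
    · simp [hg.one, tw_one]
    · intro m n hm hn
      have hm' : (m : ℝ) ≠ 0 := by positivity
      have hn' : (n : ℝ) ≠ 0 := by positivity
      rw [hg.mul m n hm hn, Nat.cast_mul, tw_mul t hm' hn']
      ring
    · intro n
      simp only [norm_mul, tw_norm, mul_one]
      exact hg.norm_le n
  have hTB1 : TB L η₀ (L ^ KU) K₁ (fun n => g n * tw t n) := by
    intro u hu M hM
    have e : ∀ m : ℕ, (g m * tw t m) * tw u m = g m * tw (t + u) m := by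
      intro m
      rw [mul_assoc, tw_add]
    simp only [e]
    have a1 : |t| - |u| ≤ |t + u| := by
      have := abs_sub_abs_le_abs_sub t (-u)
      rw [abs_neg, sub_neg_eq_add] at this
      exact this
    have a2 : |t + u| ≤ |t| + |u| := abs_add_le _ _
    refine per_sum hL2 hq hqB (s := t + u) (K₂ := K₂) (A := A + 1) (by linarith)
      (hup _ (by linarith)) ?_ hper hg.norm_le
    intro q r hq hqB s hs1 hs2
    exact hT' L hLL2 q r hq hqB s hs1 hs2 M hM
  have hTB2 : TB L η₀ (2 * L ^ KU) K₁ (fun n => (g n * tw t n) ^ 2) := by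
    intro u hu M hM
    have e : ∀ m : ℕ, (g m * tw t m) ^ 2 * tw u m = g m ^ 2 * tw (2 * t + u) m := by
      intro m
      rw [mul_pow, tw_sq, mul_assoc, tw_add]
    simp only [e]
    have a1 : 2 * |t| - |u| ≤ |2 * t + u| := by
      have := abs_sub_abs_le_abs_sub (2 * t) (-u)
      rw [abs_neg, sub_neg_eq_add, abs_mul, abs_of_pos (by norm_num : (0:ℝ) < 2)] at this
      exact this
    have a2 : |2 * t + u| ≤ 2 * |t| + |u| := by
      have := abs_add_le (2 * t) u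
      rw [abs_mul, abs_of_pos (by norm_num : (0:ℝ) < 2)] at this
      exact this
    refine per_sum hL2 hq hqB (s := 2 * t + u) (K₂ := K₂) (A := A + 1) (by linarith)
      (hup _ (by linarith)) ?_ (h := fun m => g m ^ 2) (fun n => by simp only [hper]) ?_
    · intro q r hq hqB s hs1 hs2
      exact hT' L hLL2 q r hq hqB s hs1 hs2 M hM
    · intro n
      rw [norm_pow]
      exact pow_le_one₀ (norm_nonneg _) (hg.norm_le n)
  have := hG L hLL1 _ hCM hTB1 hTB2 N hN1 hN2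
  simp only [← mul_assoc] at this
  exact this

end Pool.Agent.helper24_UT.P1
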