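import Pool.Agent.H43.G.R_pool_sql_team_seeded_620a6dc7.helper24_UT_.Stm

set_option autoImplicit false

namespace Pool.Agent.helper24_UT.Pg

open Finset
open Pool.Agent.helper24_UT
open Pool.Agent.H376R2.MR (ch er DP FK)

lemma norm_ro_le (y : ℝ) (f : ℕ → ℂ) (hf : CM f) (n : ℕ) : ‖ro y f n‖ ≤ 1 := by
  unfold ro
  split_ifs
  · exact hf.norm_le n
  · simp

lemma abel (g : ℕ → ℝ) (h : ℕ → ℂ) (m N : ℕ) (M : ℝ)
    (hg : ∀ n, m < n → g (n + 1) ≤ g n)
    (hg0 : 0 ≤ g (m + 1))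
    (hS : ∀ x, x ≤ N → ‖∑ n ∈ Icc 1 x, h n‖ ≤ M) :
    ∀ k, m < k → k ≤ N → ‖∑ n ∈ Ioc m k, (g n : ℂ) * h n - (g k : ℂ) * ∑ n ∈ Icc 1 k, h n‖ ≤
      M * (2 * g (m + 1) - g k) := by
  intro k hk
  induction k, hk using Nat.le_induction with
  | base =>
    intro hN
    have h1 : ∑ n ∈ Ioc m (m + 1), (g n : ℂ) * h n = (g (m + 1) : ℂ) * h (m + 1) := by
      rw [Nat.Ioc_succ_singleton]; simp
    have h2 : ∑ n ∈ Icc 1 (m + 1), h n = ∑ n ∈ Icc 1 m, h n + h (m + 1) := by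
      rw [Finset.sum_Icc_succ_top (by omega)]
    simp only [Nat.succ_eq_add_one] at *
    rw [h1, h2]
    have h3 : (g (m + 1) : ℂ) * h (m + 1) - (g (m + 1) : ℂ) * (∑ n ∈ Icc 1 m, h n + h (m + 1)) =
      -((g (m + 1) : ℂ) * ∑ n ∈ Icc 1 m, h n) := by ring
    rw [h3, norm_neg, norm_mul, Complex.norm_real, Real.norm_of_nonneg hg0]
    have := mul_le_mul_of_nonneg_left (hS m (by omega)) hg0
    linarith
  | succ k hk ih =>
    intro hN
    have ih' := ih (by omega)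
    have h1 : ∑ n ∈ Ioc m (k + 1), (g n : ℂ) * h n = ∑ n ∈ Ioc m k, (g n : ℂ) * h n +
        (g (k + 1) : ℂ) * h (k + 1) := by
      rw [Finset.sum_Ioc_succ_top (by omega)]
    have h2 : ∑ n ∈ Icc 1 (k + 1), h n = ∑ n ∈ Icc 1 k, h n + h (k + 1) := by
      rw [Finset.sum_Icc_succ_top (by omega)]
    rw [h1, h2]
    have h3 : ∑ n ∈ Ioc m k, (g n : ℂ) * h n + (g (k + 1) : ℂ) * h (k + 1) -
        (g (k + 1) : ℂ) * (∑ n ∈ Icc 1 k, h n + h (k + 1)) =
        (∑ n ∈ Ioc m k, (g n : ℂ) * h n - (g k : ℂ) * ∑ n ∈ Icc 1 k, h n) +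
        ((g k - g (k + 1) : ℝ) : ℂ) * ∑ n ∈ Icc 1 k, h n := by push_cast; ring
    rw [h3]
    have h4 : 0 ≤ g k - g (k + 1) := by linarith [hg k hk]
    have h5 : ‖((g k - g (k + 1) : ℝ) : ℂ) * ∑ n ∈ Icc 1 k, h n‖ ≤ (g k - g (k + 1)) * M := by
      rw [norm_mul, Complex.norm_real, Real.norm_of_nonneg h4]
      exact mul_le_mul_of_nonneg_left (hS k (by omega)) h4
    calc _ ≤ _ + _ := norm_add_le _ _
      _ ≤ M * (2 * g (m + 1) - g k) + (g k - g (k + 1)) * M := add_le_add ih' h5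
      _ = _ := by ring

lemma abel' (g : ℕ → ℝ) (h : ℕ → ℂ) (m N : ℕ) (M : ℝ) (hmN : m < N)
    (hg : ∀ n, m < n → g (n + 1) ≤ g n)
    (hg0 : 0 ≤ g (m + 1)) (hgN : 0 ≤ g N)
    (hS : ∀ x, x ≤ N → ‖∑ n ∈ Icc 1 x, h n‖ ≤ M) :
    ‖∑ n ∈ Ioc m N, (g n : ℂ) * h n‖ ≤ 2 * M * g (m + 1) := by
  have h1 := abel g h m N M hg hg0 hS N hmN le_rfl
  have h2 : ‖(g N : ℂ) * ∑ n ∈ Icc 1 N, h n‖ ≤ g N * M := by
    rw [norm_mul, Complex.norm_real, Real.norm_of_nonneg hgN]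
    exact mul_le_mul_of_nonneg_left (hS N le_rfl) hgN
  have h3 : ∑ n ∈ Ioc m N, (g n : ℂ) * h n = (∑ n ∈ Ioc m N, (g n : ℂ) * h n -
    (g N : ℂ) * ∑ n ∈ Icc 1 N, h n) + (g N : ℂ) * ∑ n ∈ Icc 1 N, h n := by ring
  rw [h3]
  calc _ ≤ _ + _ := norm_add_le _ _
    _ ≤ M * (2 * g (m + 1) - g N) + g N * M := add_le_add h1 h2
    _ = _ := by ring

open Classical in
/-- number of prime powers of primes up to `y` -/
lemma card_bad (y : ℝ) (hy : 1 ≤ y) (N : ℕ) (hN : 3 ≤ N) :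
    (((Icc 1 N).filter (fun n => IsPrimePow n ∧ ∃ p : ℕ, p.Prime ∧ p ∣ n ∧ (p : ℝ) ≤ y)).card : ℝ) ≤
      6 * y * Real.log N := by
  have h1 : (Icc 1 N).filter (fun n => IsPrimePow n ∧ ∃ p : ℕ, p.Prime ∧ p ∣ n ∧ (p : ℝ) ≤ y) ⊆
      ((range (⌊y⌋₊ + 1)) ×ˢ (range (Nat.log 2 N + 1))).image (fun z => z.1 ^ z.2) := by
    intro n hn
    simp only [mem_filter, mem_Icc] at hn
    obtain ⟨⟨h1, h2⟩, h3, p, hp, hpn, hpy⟩ := hn
    rw [isPrimePow_nat_iff] at h3
    obtain ⟨q, k, hq, hk, rfl⟩ := h3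
    have hpq : p = q := (Nat.prime_dvd_prime_iff_eq hp hq).1 (hp.dvd_of_dvd_pow hpn)
    subst hpq
    simp only [mem_image, mem_product, mem_range, Prod.exists]
    refine ⟨p, k, ⟨?_, ?_⟩, rfl⟩
    · exact Nat.lt_succ_of_le (Nat.le_floor hpy)
    · apply Nat.lt_succ_of_le
      apply Nat.le_log_of_pow_le (by norm_num)
      calc 2 ^ k ≤ p ^ k := Nat.pow_le_pow_left hp.two_le k
        _ ≤ N := h2
  have h2 : ((Icc 1 N).filter (fun n => IsPrimePow n ∧ ∃ p : ℕ, p.Prime ∧ p ∣ n ∧ (p : ℝ) ≤ y)).card ≤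
      (⌊y⌋₊ + 1) * (Nat.log 2 N + 1) := by
    calc _ ≤ _ := card_le_card h1
      _ ≤ _ := card_image_le
      _ = _ := by simp
  have h3 : (⌊y⌋₊ : ℝ) ≤ y := Nat.floor_le (by linarith)
  have hN' : (3 : ℝ) ≤ N := by exact_mod_cast hN
  have hl1 : 1 ≤ Real.log N := by
    rw [Real.le_log_iff_exp_le (by linarith)]
    linarith [Real.exp_one_lt_d9]
  have h4 : (Nat.log 2 N : ℝ) ≤ 2 * Real.log N := by
    have h5 : ((2 : ℕ) ^ (Nat.log 2 N) : ℕ) ≤ N := Nat.pow_log_le_self 2 (by omega)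
    have h6 : ((2 : ℝ) ^ (Nat.log 2 N)) ≤ N := by exact_mod_cast h5
    have h7 := Real.log_le_log (by positivity) h6
    rw [Real.log_pow] at h7
    have h8 : (0.5 : ℝ) ≤ Real.log 2 := by linarith [Real.log_two_gt_d9]
    have h9 : (0 : ℝ) ≤ (Nat.log 2 N : ℝ) := by positivity
    nlinarith
  calc (((Icc 1 N).filter (fun n => IsPrimePow n ∧ ∃ p : ℕ, p.Prime ∧ p ∣ n ∧ (p : ℝ) ≤ y)).card : ℝ)
      ≤ (((⌊y⌋₊ + 1) * (Nat.log 2 N + 1) : ℕ) : ℝ) := by exact_mod_cast h2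
    _ = ((⌊y⌋₊ : ℝ) + 1) * ((Nat.log 2 N : ℝ) + 1) := by push_cast; ring
    _ ≤ (2 * y) * (3 * Real.log N) := by
        apply mul_le_mul <;> first | positivity | linarith
    _ = _ := by ring

lemma bad_sum (y : ℝ) (hy : 1 ≤ y) (N : ℕ) (hN : 3 ≤ N) (f : ℕ → ℂ) (hf : CM f) :
    ‖∑ n ∈ Icc 1 N, (ArithmeticFunction.vonMangoldt n : ℂ) * (f n - ro y f n)‖ ≤
      6 * y * Real.log N * Real.log N := by
  classical
  have hN' : (3 : ℝ) ≤ N := by exact_mod_cast hN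
  have hl1 : 0 ≤ Real.log N := Real.log_nonneg (by linarith)
  have h1 : ∀ n ∈ Icc 1 N, ‖(ArithmeticFunction.vonMangoldt n : ℂ) * (f n - ro y f n)‖ ≤
      if (IsPrimePow n ∧ ∃ p : ℕ, p.Prime ∧ p ∣ n ∧ (p : ℝ) ≤ y) then Real.log N else 0 := by
    intro n hn
    rw [mem_Icc] at hn
    split_ifs with h
    · rw [norm_mul, Complex.norm_real, Real.norm_of_nonneg ArithmeticFunction.vonMangoldt_nonneg]
      have h2 : ‖f n - ro y f n‖ ≤ 1 := by
        unfold ro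
        split_ifs
        · simp
        · simpa using hf.norm_le n
      have h3 : (ArithmeticFunction.vonMangoldt n : ℝ) ≤ Real.log N := by
        refine le_trans ArithmeticFunction.vonMangoldt_le_log ?_
        apply Real.log_le_log
        · exact_mod_cast hn.1
        · exact_mod_cast hn.2
      calc (ArithmeticFunction.vonMangoldt n : ℝ) * ‖f n - ro y f n‖ ≤
          (ArithmeticFunction.vonMangoldt n : ℝ) * 1 := by
            apply mul_le_mul_of_nonneg_left h2 ArithmeticFunction.vonMangoldt_nonneg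
        _ ≤ _ := by linarith
    · by_cases hpp : IsPrimePow n
      · have h2 : ∀ p : ℕ, p.Prime → p ∣ n → y < p := by
          intro p hp hpn
          by_contra hc
          exact h ⟨hpp, p, hp, hpn, not_lt.1 hc⟩
        have h3 : ro y f n = f n := by
          unfold ro
          rw [if_pos ⟨hn.1, h2⟩]
        rw [h3]; simp
      · rw [ArithmeticFunction.vonMangoldt_eq_zero_iff.2 hpp]; simp
  calc _ ≤ ∑ n ∈ Icc 1 N, ‖(ArithmeticFunction.vonMangoldt n : ℂ) * (f n - ro y f n)‖ := norm_sum_le _ _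
    _ ≤ ∑ n ∈ Icc 1 N, (if (IsPrimePow n ∧ ∃ p : ℕ, p.Prime ∧ p ∣ n ∧ (p : ℝ) ≤ y) then Real.log N else 0) :=
        sum_le_sum h1
    _ = ((Icc 1 N).filter (fun n => IsPrimePow n ∧ ∃ p : ℕ, p.Prime ∧ p ∣ n ∧ (p : ℝ) ≤ y)).card * Real.log N := by
        rw [← sum_filter, sum_const, nsmul_eq_mul]
    _ ≤ (6 * y * Real.log N) * Real.log N := mul_le_mul_of_nonneg_right (card_bad y hy N hN) hl1
    _ = _ := by ring

lemma small_sum (y : ℝ) (N m : ℕ) (hm : m ≤ N) (f : ℕ → ℂ) (hf : CM f) :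
    ‖∑ n ∈ Icc 1 m, (ArithmeticFunction.vonMangoldt n : ℂ) * ro y f n‖ ≤ m * Real.log N := by
  have h1 : ∀ n ∈ Icc 1 m, ‖(ArithmeticFunction.vonMangoldt n : ℂ) * ro y f n‖ ≤ Real.log N := by
    intro n hn
    rw [mem_Icc] at hn
    rw [norm_mul, Complex.norm_real, Real.norm_of_nonneg ArithmeticFunction.vonMangoldt_nonneg]
    have h2 := norm_ro_le y f hf n
    have h3 : (ArithmeticFunction.vonMangoldt n : ℝ) ≤ Real.log N := by
      refine le_trans ArithmeticFunction.vonMangoldt_le_log ?_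
      apply Real.log_le_log
      · exact_mod_cast hn.1
      · exact_mod_cast le_trans hn.2 hm
    calc (ArithmeticFunction.vonMangoldt n : ℝ) * ‖ro y f n‖ ≤
        (ArithmeticFunction.vonMangoldt n : ℝ) * 1 := by
          apply mul_le_mul_of_nonneg_left h2 ArithmeticFunction.vonMangoldt_nonneg
      _ ≤ _ := by linarith
  calc _ ≤ ∑ n ∈ Icc 1 m, ‖(ArithmeticFunction.vonMangoldt n : ℂ) * ro y f n‖ := norm_sum_le _ _
    _ ≤ ∑ n ∈ Icc 1 m, Real.log N := sum_le_sum h1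
    _ = _ := by simp

/-- `c L^k ≤ exp (L^a)` eventually -/
lemma ev_exp (c a : ℝ) (ha : 0 < a) (k : ℕ) : ∀ᶠ L : ℝ in Filter.atTop, c * L ^ k ≤ Real.exp (L ^ a) := by
  have h1 := isLittleO_pow_exp_pos_mul_atTop (k := ⌈(k : ℝ) / a⌉₊ + 1) (b := 1) one_pos
  have h2 : Filter.Tendsto (fun L : ℝ => L ^ a) Filter.atTop Filter.atTop := tendsto_rpow_atTop ha
  have h3 := h1.comp_tendsto h2
  have h4 : (0 : ℝ) < 1 / (|c| + 1) := by positivity
  filter_upwards [h3.bound h4, Filter.eventually_ge_atTop 1] with L hL hL1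
  simp only [Function.comp, one_mul] at hL
  have h5 : 0 < L := by linarith
  rw [Real.norm_of_nonneg (by positivity), Real.norm_of_nonneg (by positivity)] at hL
  have h6 : L ^ k ≤ (L ^ a) ^ (⌈(k : ℝ) / a⌉₊ + 1) := by
    rw [← Real.rpow_natCast, ← Real.rpow_natCast, ← Real.rpow_mul h5.le]
    apply Real.rpow_le_rpow_of_exponent_le hL1
    push_cast
    have h7 := Nat.le_ceil ((k : ℝ) / a)
    have h8 : (k : ℝ) = a * (k / a) := by field_simp
    nlinarith
  have h9 : (|c| + 1) * (L ^ a) ^ (⌈(k : ℝ) / a⌉₊ + 1) ≤ Real.exp (L ^ a) := by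
    have h10 := mul_le_mul_of_nonneg_left hL (by positivity : 0 ≤ |c| + 1)
    have h11 : (|c| + 1) * (1 / (|c| + 1) * Real.exp (L ^ a)) = Real.exp (L ^ a) := by
      field_simp
    linarith
  calc c * L ^ k ≤ (|c| + 1) * L ^ k := by
        apply mul_le_mul_of_nonneg_right _ (by positivity)
        linarith [le_abs_self c]
    _ ≤ (|c| + 1) * (L ^ a) ^ (⌈(k : ℝ) / a⌉₊ + 1) := by
        apply mul_le_mul_of_nonneg_left h6 (by positivity)
    _ ≤ _ := h9

theorem main : S_GB → S_RIESZ → S_PG := by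
  intro hGB hRI η hη hη1 K
  obtain ⟨J, hJ⟩ : ∃ J : ℕ, 64 * ((K : ℝ) + 2) / η ≤ J := ⟨_, Nat.le_ceil _⟩
  have hJ' : (K : ℝ) + 2 ≤ J * η / 64 := by
    rw [div_le_iff₀ hη] at hJ
    linarith
  obtain ⟨K₁, C, L₁, hC, hL₁, hGB⟩ := hGB η hη hη1 J
  obtain ⟨C', hC', hRI⟩ := hRI J
  set a : ℝ := 1 - 17 * η / 32 with ha
  set b : ℝ := 1 - η / 64 with hb
  have ha0 : 0 < a := by rw [ha]; linarith
  have hb0 : 0 < b := by rw [hb]; linarith
  have hab : 0 < b - a := by rw [ha, hb]; linarith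
  have hb1 : b ≤ 1 := by rw [hb]; linarith
  set C3 : ℝ := 8 * 2 ^ J * (C' * (2 * C + 1)) with hC3
  have hC3pos : 0 < C3 := by rw [hC3]; positivity
  have e1 := ev_exp 1 b hb0 (J + 1)
  have e2 := ev_exp 16 b hb0 (2 * K + 2)
  have e3 := ev_exp 24 a ha0 (K + 2)
  have e4 : ∀ᶠ L : ℝ in Filter.atTop, 2 ≤ L ^ (b - a) :=
    (tendsto_rpow_atTop hab).eventually_ge_atTop 2
  have e5 := ev_exp 3 b hb0 0
  have e6 : ∀ᶠ L : ℝ in Filter.atTop, 1 ≤ L ^ b :=
    (tendsto_rpow_atTop hb0).eventually_ge_atTop 1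
  have e7 : ∀ᶠ L : ℝ in Filter.atTop, max L₁ (max 2 C3) ≤ L := Filter.eventually_ge_atTop _
  obtain ⟨L₀, hL₀⟩ := Filter.eventually_atTop.1
    (e1.and (e2.and (e3.and (e4.and (e5.and (e6.and e7))))))
  refine ⟨K₁, J + 2, max L₀ 2, le_max_right _ _, ?_⟩
  intro L hL f hf hT1 hT2 N hN1 hN2
  obtain ⟨e1, e2, e3, e4, e5, e6, e7⟩ := hL₀ L (le_trans (le_max_left _ _) hL)
  have hLL₁ : L₁ ≤ L := le_trans (le_max_left _ _) e7
  have hL2 : 2 ≤ L := le_trans (le_trans (le_max_left _ _) (le_max_right _ _)) e7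
  have hLC3 : C3 ≤ L := le_trans (le_trans (le_max_right _ _) (le_max_right _ _)) e7
  have hLpos : 0 < L := by linarith
  have hN3 : (3 : ℝ) ≤ N := by
    rw [pow_zero, mul_one] at e5
    exact le_trans e5 hN1
  have hN3' : 3 ≤ N := by exact_mod_cast hN3
  have hNpos : (0 : ℝ) < N := by linarith
  set ℓ : ℝ := Real.log N with hℓ
  have hℓL : ℓ ≤ L := by
    rw [hℓ, Real.log_le_iff_le_exp hNpos]; exact hN2
  have hbℓ : L ^ b ≤ ℓ := by
    rw [hℓ, Real.le_log_iff_exp_le hNpos]; exact hN1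
  have hℓ1 : 1 ≤ ℓ := le_trans e6 hbℓ
  have hℓpos : 0 < ℓ := by linarith
  set y : ℝ := yy L η with hy
  have hyeq : y = Real.exp (L ^ a) := rfl
  have hy1 : 1 ≤ y := by
    rw [hyeq]; exact Real.one_le_exp (by positivity)
  set h : ℕ → ℂ := fun n => (ArithmeticFunction.vonMangoldt n : ℂ) * ro y f n *
    (((Real.log n) ^ J : ℝ) : ℂ) with hh
  have hlogn : ∀ n : ℕ, 0 ≤ Real.log n := Real.log_natCast_nonneg
  have hhn : ∀ n, ‖h n‖ ≤ (Real.log n) ^ (J + 1) := by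
    intro n
    have h1 := norm_ro_le y f hf n
    have h2 : (ArithmeticFunction.vonMangoldt n : ℝ) ≤ Real.log n :=
      ArithmeticFunction.vonMangoldt_le_log
    have h3 : (0 : ℝ) ≤ ArithmeticFunction.vonMangoldt n := ArithmeticFunction.vonMangoldt_nonneg
    simp only [hh]
    rw [norm_mul, norm_mul, Complex.norm_real, Complex.norm_real, Real.norm_of_nonneg h3,
      Real.norm_of_nonneg (pow_nonneg (hlogn n) J)]
    calc _ ≤ (Real.log n * 1) * Real.log n ^ J := by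
          apply mul_le_mul_of_nonneg_right _ (pow_nonneg (hlogn n) J)
          exact mul_le_mul h2 h1 (norm_nonneg _) (hlogn n)
      _ = _ := by ring
  set Q : ℝ := C * L ^ ((1 - η / 16) * (J + 1) : ℝ) with hQ
  have hexp0 : (0 : ℝ) ≤ (1 - η / 16) * (J + 1) := by
    apply mul_nonneg
    · linarith
    · positivity
  have hQ1 : 1 ≤ Q := by
    have h1 : 1 ≤ L ^ ((1 - η / 16) * (J + 1) : ℝ) := Real.one_le_rpow (by linarith) hexp0
    rw [hQ]
    nlinarith
  have hU1 : (1 : ℝ) ≤ L ^ (J + 2) := one_le_pow₀ (by linarith)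
  have hSbound : ∀ x : ℕ, x ≤ N → ‖∑ n ∈ Icc 1 x, h n‖ ≤
      C' * (N * Real.sqrt ((Q + ℓ ^ (J + 2) / L ^ (J + 2)) * ℓ ^ (J + 1)) + ℓ ^ (J + 1)) := by
    apply hRI h N (L ^ (J + 2)) Q hN3' hU1 (by linarith) hhn
    intro u hu
    apply hGB L hLL₁ (L ^ (J + 2)) f hf hT1 hT2 _ u _ _ hu
    · have : 1 / L ≤ 1 / Real.log N := one_div_le_one_div_of_le hℓpos hℓL
      linarith
    · have : 1 / Real.log N ≤ 1 := by
        rw [div_le_one hℓpos]; exact hℓ1
      linarith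
  set E : ℝ := L ^ ((1 - η / 32) * (J + 1) : ℝ) with hE
  have hE1 : 1 ≤ E := Real.one_le_rpow (by linarith) (by
    apply mul_nonneg
    · linarith
    · positivity)
  have hsq : Real.sqrt ((Q + ℓ ^ (J + 2) / L ^ (J + 2)) * ℓ ^ (J + 1)) ≤ 2 * C * E := by
    apply Real.sqrt_le_iff.2 ⟨by positivity, ?_⟩
    have h1 : ℓ ^ (J + 2) / L ^ (J + 2) ≤ 1 := by
      rw [div_le_one (by positivity)]
      exact pow_le_pow_left₀ hℓpos.le hℓL _
    have h2 : ℓ ^ (J + 1) ≤ L ^ (J + 1) := pow_le_pow_left₀ hℓpos.le hℓL _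
    have h3 : L ^ ((1 - η / 16) * (J + 1) : ℝ) * L ^ (J + 1) = E ^ 2 := by
      rw [hE, ← Real.rpow_natCast L (J + 1), ← Real.rpow_natCast _ 2, ← Real.rpow_mul hLpos.le,
        ← Real.rpow_add hLpos]
      congr 1
      push_cast
      ring
    calc (Q + ℓ ^ (J + 2) / L ^ (J + 2)) * ℓ ^ (J + 1) ≤ (2 * Q) * L ^ (J + 1) := by
          apply mul_le_mul _ h2 (by positivity) (by positivity)
          linarith
      _ = 2 * C * (L ^ ((1 - η / 16) * (J + 1) : ℝ) * L ^ (J + 1)) := by rw [hQ]; ring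
      _ = 2 * C * E ^ 2 := by rw [h3]
      _ ≤ (2 * C) ^ 2 * E ^ 2 := by
          apply mul_le_mul_of_nonneg_right _ (by positivity)
          nlinarith
      _ = _ := by ring
  set M : ℝ := C' * (2 * C + 1) * N * E with hM
  have hMpos : 0 ≤ M := by positivity
  have hS : ∀ x : ℕ, x ≤ N → ‖∑ n ∈ Icc 1 x, h n‖ ≤ M := by
    intro x hx
    refine le_trans (hSbound x hx) ?_
    have h1 : ℓ ^ (J + 1) ≤ N := by
      calc ℓ ^ (J + 1) ≤ L ^ (J + 1) := pow_le_pow_left₀ hℓpos.le hℓL _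
        _ ≤ Real.exp (L ^ b) := by linarith
        _ ≤ N := hN1
    have h2 : ℓ ^ (J + 1) ≤ N * E := by nlinarith
    have h3 : N * Real.sqrt ((Q + ℓ ^ (J + 2) / L ^ (J + 2)) * ℓ ^ (J + 1)) ≤ N * (2 * C * E) :=
      mul_le_mul_of_nonneg_left hsq hNpos.le
    calc _ ≤ C' * (N * (2 * C * E) + N * E) := by
          apply mul_le_mul_of_nonneg_left _ (by linarith)
          linarith
      _ = M := by rw [hM]; ring
  -- splitting
  set m : ℕ := Nat.sqrt N with hm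
  have hm1 : 1 ≤ m := by
    rw [hm]; exact Nat.sqrt_pos.2 (by omega)
  have hmN : m < N := Nat.sqrt_lt_self (by omega)
  have hmsq : (m : ℝ) * m ≤ N := by exact_mod_cast Nat.sqrt_le N
  have hmsq2 : (N : ℝ) ≤ (m + 1) * (m + 1) := by
    have := Nat.lt_succ_sqrt N
    have h2 : N ≤ (m + 1) * (m + 1) := le_of_lt this
    exact_mod_cast h2
  set g : ℕ → ℝ := fun n => ((Real.log n) ^ J)⁻¹ with hg
  have hlogpos : ∀ n : ℕ, m < n → 0 < Real.log n := by
    intro n hn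
    apply Real.log_pos
    have : 1 < n := by omega
    exact_mod_cast this
  have hT : ‖∑ n ∈ Ioc m N, (g n : ℂ) * h n‖ ≤ 2 * M * g (m + 1) := by
    apply abel' g h m N M hmN
    · intro n hn
      simp only [hg]
      have h1 := hlogpos n hn
      have h2 : Real.log n ≤ Real.log ((n + 1 : ℕ) : ℝ) := by
        apply Real.log_le_log
        · have : 0 < n := by omega
          exact_mod_cast this
        · push_cast; linarith
      apply inv_anti₀ (by positivity)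
      exact pow_le_pow_left₀ h1.le h2 J
    · simp only [hg]
      have := hlogpos (m + 1) (by omega)
      positivity
    · simp only [hg]
      have := hlogpos N hmN
      positivity
    · exact hS
  have hgm : g (m + 1) ≤ 2 ^ J / (L ^ b) ^ J := by
    simp only [hg]
    have h1 : ℓ / 2 ≤ Real.log ((m + 1 : ℕ) : ℝ) := by
      have h2 := Real.log_le_log hNpos hmsq2
      have h3 : ((m : ℝ) + 1) ≠ 0 := by positivity
      rw [Real.log_mul h3 h3] at h2
      push_cast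
      linarith
    have h4 : L ^ b / 2 ≤ Real.log ((m + 1 : ℕ) : ℝ) := by linarith
    have h5 : (L ^ b / 2) ^ J ≤ (Real.log ((m + 1 : ℕ) : ℝ)) ^ J :=
      pow_le_pow_left₀ (by positivity) h4 J
    calc _ ≤ ((L ^ b / 2) ^ J)⁻¹ := inv_anti₀ (by positivity) h5
      _ = _ := by rw [div_pow, inv_div]
  have hTmain : ‖∑ n ∈ Ioc m N, (g n : ℂ) * h n‖ ≤ N / (4 * L ^ K) := by
    refine le_trans hT ?_
    have hg0 : 0 ≤ g (m + 1) := by
      simp only [hg]
      have := hlogpos (m + 1) (by omega)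
      positivity
    have h1 : 2 * M * g (m + 1) ≤ 2 * M * (2 ^ J / (L ^ b) ^ J) :=
      mul_le_mul_of_nonneg_left hgm (by positivity)
    refine le_trans h1 ?_
    rw [le_div_iff₀ (by positivity)]
    have h2 : C3 * E * L ^ K ≤ (L ^ b) ^ J := by
      have h3 : L * E * L ^ K ≤ (L ^ b) ^ J := by
        have h4 : L * E * L ^ K = L ^ (1 + (1 - η / 32) * (J + 1) + K : ℝ) := by
          rw [Real.rpow_add hLpos, Real.rpow_add hLpos, Real.rpow_one, Real.rpow_natCast]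
        rw [h4, ← Real.rpow_natCast (L ^ b) J, ← Real.rpow_mul hLpos.le]
        apply Real.rpow_le_rpow_of_exponent_le (by linarith)
        rw [hb]
        nlinarith
      have h5 : C3 * E * L ^ K ≤ L * E * L ^ K := by
        apply mul_le_mul_of_nonneg_right _ (by positivity)
        apply mul_le_mul_of_nonneg_right hLC3 (by positivity)
      linarith
    have h6 : 2 * M * (2 ^ J / (L ^ b) ^ J) * (4 * L ^ K) = N * ((C3 * E * L ^ K) / (L ^ b) ^ J) := by
      rw [hM, hC3]; ring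
    rw [h6]
    have h7 : (C3 * E * L ^ K) / (L ^ b) ^ J ≤ 1 := by
      rw [div_le_one (by positivity)]; exact h2
    nlinarith
  have hTeq : ∑ n ∈ Ioc m N, (g n : ℂ) * h n =
      ∑ n ∈ Ioc m N, (ArithmeticFunction.vonMangoldt n : ℂ) * ro y f n := by
    apply sum_congr rfl
    intro n hn
    rw [mem_Ioc] at hn
    have h1 := hlogpos n hn.1
    have h2 : ((Real.log n ^ J : ℝ) : ℂ) ≠ 0 := by
      rw [Ne, Complex.ofReal_eq_zero]; positivity
    simp only [hg, hh]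
    rw [Complex.ofReal_inv]
    field_simp
  -- small n
  have hsmall : ‖∑ n ∈ Icc 1 m, (ArithmeticFunction.vonMangoldt n : ℂ) * ro y f n‖ ≤ N / (4 * L ^ K) := by
    refine le_trans (small_sum y N m hmN.le f hf) ?_
    rw [le_div_iff₀ (by positivity)]
    have h1 : (4 * L ^ (K + 1)) ^ 2 ≤ N := by
      calc (4 * L ^ (K + 1)) ^ 2 = 16 * L ^ (2 * K + 2) := by ring
        _ ≤ _ := e2
        _ ≤ N := hN1
    have h2 : 4 * L ^ (K + 1) ≤ Real.sqrt N := Real.le_sqrt_of_sq_le h1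
    have h3 : (m : ℝ) ≤ Real.sqrt N := by
      apply Real.le_sqrt_of_sq_le
      rw [sq]; exact hmsq
    calc (m : ℝ) * ℓ * (4 * L ^ K) ≤ m * L * (4 * L ^ K) := by
          apply mul_le_mul_of_nonneg_right _ (by positivity)
          apply mul_le_mul_of_nonneg_left hℓL (by positivity)
      _ = m * (4 * L ^ (K + 1)) := by ring
      _ ≤ Real.sqrt N * Real.sqrt N := mul_le_mul h3 h2 (by positivity) (by positivity)
      _ = N := Real.mul_self_sqrt hNpos.le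
  -- prime powers of small primes
  have hbad : ‖∑ n ∈ Icc 1 N, (ArithmeticFunction.vonMangoldt n : ℂ) * (f n - ro y f n)‖ ≤
      N / (4 * L ^ K) := by
    refine le_trans (bad_sum y hy1 N hN3' f hf) ?_
    rw [le_div_iff₀ (by positivity)]
    have h1 : 2 * L ^ a ≤ L ^ b := by
      calc 2 * L ^ a ≤ L ^ (b - a) * L ^ a := mul_le_mul_of_nonneg_right e4 (by positivity)
        _ = L ^ b := by rw [← Real.rpow_add hLpos]; congr 1; ring
    have h2 : y * y ≤ N := by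
      calc y * y = Real.exp (2 * L ^ a) := by rw [hyeq, ← Real.exp_add]; congr 1; ring
        _ ≤ Real.exp (L ^ b) := Real.exp_le_exp.2 h1
        _ ≤ N := hN1
    have h3 : 24 * L ^ (K + 2) ≤ y := by rw [hyeq]; exact e3
    calc 6 * y * ℓ * ℓ * (4 * L ^ K) ≤ 6 * y * L * L * (4 * L ^ K) := by
          apply mul_le_mul_of_nonneg_right _ (by positivity)
          apply mul_le_mul _ hℓL hℓpos.le (by positivity)
          apply mul_le_mul_of_nonneg_left hℓL (by positivity)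
      _ = y * (24 * L ^ (K + 2)) := by ring
      _ ≤ y * y := mul_le_mul_of_nonneg_left h3 (by positivity)
      _ ≤ N := h2
  have hsplit : ∑ n ∈ Icc 1 N, (ArithmeticFunction.vonMangoldt n : ℂ) * f n =
      ∑ n ∈ Icc 1 N, (ArithmeticFunction.vonMangoldt n : ℂ) * (f n - ro y f n) +
      (∑ n ∈ Icc 1 m, (ArithmeticFunction.vonMangoldt n : ℂ) * ro y f n +
       ∑ n ∈ Ioc m N, (ArithmeticFunction.vonMangoldt n : ℂ) * ro y f n) := by
    have h1 : ∑ n ∈ Icc 1 m, (ArithmeticFunction.vonMangoldt n : ℂ) * ro y f n +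
       ∑ n ∈ Ioc m N, (ArithmeticFunction.vonMangoldt n : ℂ) * ro y f n =
       ∑ n ∈ Icc 1 N, (ArithmeticFunction.vonMangoldt n : ℂ) * ro y f n := by
      have h2 : ∀ k : ℕ, Icc 1 k = Ioc 0 k := by
        intro k; ext x; simp [Nat.lt_iff_add_one_le]
      rw [h2 m, h2 N]
      exact sum_Ioc_consecutive _ (Nat.zero_le m) hmN.le
    rw [h1, ← sum_add_distrib]
    apply sum_congr rfl
    intro n _
    ring
  rw [hsplit]
  calc _ ≤ _ + _ := norm_add_le _ _
    _ ≤ N / (4 * L ^ K) + (N / (4 * L ^ K) + N / (4 * L ^ K)) := by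
        apply add_le_add hbad
        refine le_trans (norm_add_le _ _) ?_
        apply add_le_add hsmall
        rw [← hTeq]; exact hTmain
    _ = 3 / 4 * (N / L ^ K) := by field_simp; ring
    _ ≤ _ := by
        have : 0 ≤ (N : ℝ) / L ^ K := by positivity
        linarith

end Pool.Agent.helper24_UT.Pg
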