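import Pool.Agent.H43.G.R_pool_sql_team_seeded_620a6dc7.helper24_UT_.Stm
import Pool.Agent.H43.G.R_seed8.Helper256.KM.Mertens
import Pool.Agent.H43.G.R_seed8.H373R2.T7.Bonf

set_option autoImplicit false

namespace Pool.Agent.helper24_UT.Rs

open Finset
open Pool.Agent.helper24_UT
open Pool.Agent.H376R2.MR (ch er DP FK)
open Pool.Agent.H373R2.T7 (es)

theorem tw_mul (u : ℝ) {a b : ℝ} (ha : 0 < a) (hb : 0 < b) : tw u (a * b) = tw u a * tw u b := by
  unfold tw er
  rw [Real.log_mul ha.ne' hb.ne', ← Complex.exp_add]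
  congr 1
  push_cast
  ring

theorem norm_tw (u x : ℝ) : ‖tw u x‖ = 1 := by
  unfold tw er
  rw [Complex.norm_exp_ofReal_mul_I]

theorem prod_dvd_iff (S : Finset ℕ) (hS : ∀ p ∈ S, p.Prime) (n : ℕ) :
    (∀ p ∈ S, p ∣ n) ↔ ∏ p ∈ S, p ∣ n := by
  constructor
  · intro h
    exact Finset.prod_primes_dvd n (fun p hp => (hS p hp).prime) h
  · intro h p hp
    exact (Finset.dvd_prod_of_mem _ hp).trans h

theorem card_mult (N d : ℕ) : ((Icc 1 N).filter (fun n => d ∣ n)).card = N / d := by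
  have h := Nat.Ioc_filter_dvd_card_eq_div N d
  have e : Icc 1 N = Ioc 0 N := by
    ext x; simp only [mem_Icc, mem_Ioc]; omega
  rw [e]; exact h

theorem core (T : Finset ℕ) (hT : ∀ p ∈ T, p.Prime) (r N : ℕ) (F : ℕ → ℂ) (hF : ∀ n, ‖F n‖ ≤ 1)
    (B : Finset ℕ → ℝ)
    (hB : ∀ S ⊆ T, S.card < r → ‖∑ n ∈ (Icc 1 N).filter (fun n => ∏ p ∈ S, p ∣ n), F n‖ ≤ B S) :
    ‖∑ n ∈ Icc 1 N, (if ∀ p ∈ T, ¬ p ∣ n then F n else 0)‖ ≤
      ∑ j ∈ range r, ∑ S ∈ T.powersetCard j, B S + N * es (fun p => 1 / (p : ℝ)) T r := by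
  classical
  set ind : ℕ → ℝ := fun n => if ∀ p ∈ T, ¬ p ∣ n then 1 else 0 with hind
  set b : ℕ → ℝ := fun n => ∑ j ∈ range r, (-1 : ℝ) ^ j * ∑ S ∈ T.powersetCard j,
    if ∀ p ∈ S, p ∣ n then (1 : ℝ) else 0 with hb
  set ee : ℕ → ℝ := fun n => ∑ S ∈ T.powersetCard r, if ∀ p ∈ S, p ∣ n then (1 : ℝ) else 0 with hee
  have hbon : ∀ n, |ind n - b n| ≤ ee n := by
    intro n
    have h := Pool.Agent.H373R2.T7.bonf_ind (fun p n : ℕ => p ∣ n) T r n
    simp only [hind, hb, hee]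
    convert h
  have hsplit : ∑ n ∈ Icc 1 N, (if ∀ p ∈ T, ¬ p ∣ n then F n else 0) =
      ∑ n ∈ Icc 1 N, (b n : ℂ) * F n + ∑ n ∈ Icc 1 N, ((ind n - b n : ℝ) : ℂ) * F n := by
    rw [← sum_add_distrib]
    refine sum_congr rfl fun n _ => ?_
    have : (if ∀ p ∈ T, ¬ p ∣ n then F n else 0) = (ind n : ℂ) * F n := by
      simp only [hind]
      split_ifs <;> simp
    rw [this]
    push_cast
    ring
  have hSprime : ∀ j, ∀ S ∈ T.powersetCard j, ∀ p ∈ S, p.Prime := fun j S hS p hp =>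
    hT p ((mem_powersetCard.1 hS).1 hp)
  have hmain : ‖∑ n ∈ Icc 1 N, (b n : ℂ) * F n‖ ≤ ∑ j ∈ range r, ∑ S ∈ T.powersetCard j, B S := by
    have h1 : ∑ n ∈ Icc 1 N, (b n : ℂ) * F n = ∑ j ∈ range r, (-1 : ℂ) ^ j *
        ∑ S ∈ T.powersetCard j, ∑ n ∈ (Icc 1 N).filter (fun n => ∏ p ∈ S, p ∣ n), F n := by
      simp only [hb]
      push_cast
      simp only [sum_mul, mul_sum]
      rw [sum_comm]
      refine sum_congr rfl fun j _ => ?_
      rw [sum_comm]
      refine sum_congr rfl fun S hS => ?_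
      rw [sum_filter]
      refine sum_congr rfl fun n _ => ?_
      have := prod_dvd_iff S (hSprime j S hS) n
      by_cases hc : ∀ p ∈ S, p ∣ n
      · rw [if_pos hc, if_pos (this.1 hc)]
        simp
      · rw [if_neg hc, if_neg (fun h => hc (this.2 h))]
        simp
    rw [h1]
    refine (norm_sum_le _ _).trans (sum_le_sum fun j hj => ?_)
    rw [norm_mul, norm_pow, norm_neg, norm_one, one_pow, one_mul]
    refine (norm_sum_le _ _).trans (sum_le_sum fun S hS => ?_)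
    rw [mem_powersetCard] at hS
    exact hB S hS.1 (by rw [hS.2]; exact mem_range.1 hj)
  have herr : ‖∑ n ∈ Icc 1 N, ((ind n - b n : ℝ) : ℂ) * F n‖ ≤
      N * es (fun p => 1 / (p : ℝ)) T r := by
    calc ‖∑ n ∈ Icc 1 N, ((ind n - b n : ℝ) : ℂ) * F n‖ ≤ ∑ n ∈ Icc 1 N, ee n := by
          refine (norm_sum_le _ _).trans (sum_le_sum fun n _ => ?_)
          rw [norm_mul, Complex.norm_real, Real.norm_eq_abs]
          calc |ind n - b n| * ‖F n‖ ≤ |ind n - b n| * 1 :=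
                mul_le_mul_of_nonneg_left (hF n) (abs_nonneg _)
            _ ≤ ee n := by rw [mul_one]; exact hbon n
      _ = ∑ S ∈ T.powersetCard r, ∑ n ∈ Icc 1 N, if ∀ p ∈ S, p ∣ n then (1 : ℝ) else 0 := by
          simp only [hee]; rw [sum_comm]
      _ ≤ ∑ S ∈ T.powersetCard r, (N : ℝ) * ∏ p ∈ S, (1 / (p : ℝ)) := by
          refine sum_le_sum fun S hS => ?_
          have h2 : ∑ n ∈ Icc 1 N, (if ∀ p ∈ S, p ∣ n then (1 : ℝ) else 0) =
              (((Icc 1 N).filter (fun n => ∏ p ∈ S, p ∣ n)).card : ℝ) := by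
            rw [card_filter]
            push_cast
            refine sum_congr rfl fun n _ => ?_
            have := prod_dvd_iff S (hSprime r S hS) n
            by_cases hc : ∀ p ∈ S, p ∣ n
            · rw [if_pos hc, if_pos (this.1 hc)]
            · rw [if_neg hc, if_neg (fun h => hc (this.2 h))]
          rw [h2, card_mult]
          refine (Nat.cast_div_le).trans (le_of_eq ?_)
          rw [div_eq_mul_inv]
          congr 1
          push_cast
          rw [← prod_inv_distrib]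
          simp only [one_div]
      _ = N * es (fun p => 1 / (p : ℝ)) T r := by
          unfold es; rw [mul_sum]
  rw [hsplit]
  exact (norm_add_le _ _).trans (add_le_add hmain herr)

/-- multiples of `d` -/
lemma sum_mult (N d : ℕ) (hd : 1 ≤ d) (G : ℕ → ℂ) :
    ∑ n ∈ (Icc 1 N).filter (fun n => d ∣ n), G n = ∑ m ∈ Icc 1 (N / d), G (d * m) := by
  symm
  apply sum_bij (fun m _ => d * m)
  · intro m hm
    rw [mem_Icc] at hm
    rw [mem_filter, mem_Icc]
    refine ⟨⟨Nat.mul_pos hd hm.1, ?_⟩, dvd_mul_right _ _⟩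
    calc d * m ≤ d * (N / d) := Nat.mul_le_mul_left _ hm.2
      _ ≤ N := Nat.mul_div_le _ _
  · intro a _ b _ h
    exact Nat.eq_of_mul_eq_mul_left hd h
  · intro n hn
    rw [mem_filter, mem_Icc] at hn
    obtain ⟨m, rfl⟩ := hn.2
    refine ⟨m, ?_, rfl⟩
    rw [mem_Icc]
    constructor
    · rcases Nat.eq_zero_or_pos m with h | h
      · rw [h] at hn; omega
      · exact h
    · rw [Nat.le_div_iff_mul_le hd]
      linarith [mul_comm d m]
  · intro m _; rfl

theorem inner_bound {L η U : ℝ} {K : ℕ} {f : ℕ → ℂ} (hf : CM f) (hTB : TB L η U K f) (hL : 0 < L)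
    {u : ℝ} (hu : |u| ≤ U) (N d : ℕ) (hd : 1 ≤ d) (hNd : Real.exp (L ^ (1 - η)) ≤ ((N / d : ℕ) : ℝ)) :
    ‖∑ n ∈ (Icc 1 N).filter (fun n => d ∣ n), f n * tw u n‖ ≤ (N : ℝ) / L ^ K * (1 / (d : ℝ)) := by
  rw [sum_mult N d hd]
  have h1 : ∀ m ∈ Icc 1 (N / d), f (d * m) * tw u ((d * m : ℕ) : ℝ) =
      (f d * tw u d) * (f m * tw u m) := by
    intro m hm
    rw [mem_Icc] at hm
    rw [hf.mul d m hd hm.1]
    push_cast
    rw [tw_mul u (by exact_mod_cast hd) (by exact_mod_cast hm.1)]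
    ring
  rw [sum_congr rfl h1, ← mul_sum, norm_mul]
  have h2 : ‖f d * tw u d‖ ≤ 1 := by
    rw [norm_mul, norm_tw, mul_one]; exact hf.norm_le d
  have h3 := hTB u hu (N / d) hNd
  have hLK : 0 < L ^ K := pow_pos hL K
  calc ‖f d * tw u d‖ * ‖∑ m ∈ Icc 1 (N / d), f m * tw u m‖
      ≤ 1 * (((N / d : ℕ) : ℝ) / L ^ K) := mul_le_mul h2 h3 (norm_nonneg _) zero_le_one
    _ = ((N / d : ℕ) : ℝ) / L ^ K := one_mul _
    _ ≤ ((N : ℝ) / d) / L ^ K := div_le_div_of_nonneg_right Nat.cast_div_le hLK.le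
    _ = (N : ℝ) / L ^ K * (1 / (d : ℝ)) := by ring

theorem main : S_RS := by
  intro η hη hη1 K
  obtain ⟨C₀, hC₀⟩ := Pool.Agent.Helper256.KM.mertens_inv
  set C : ℝ := max C₀ 0 with hC
  have hC0 : 0 ≤ C := le_max_right _ _
  -- large parameter
  have e1 : ∀ᶠ L : ℝ in Filter.atTop, Real.log L ≤ (1 / (4 * (K + 4) : ℝ)) * L ^ (η / 32) := by
    have h := (isLittleO_log_rpow_atTop (show (0 : ℝ) < η / 32 by linarith)).bound
      (show (0 : ℝ) < 1 / (4 * (K + 4) : ℝ) by positivity)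
    filter_upwards [h, Filter.eventually_ge_atTop (1 : ℝ)] with L hL hL1
    rw [Real.norm_of_nonneg (Real.log_nonneg hL1),
      Real.norm_of_nonneg (Real.rpow_nonneg (by linarith) _)] at hL
    exact hL
  have e2 : ∀ᶠ L : ℝ in Filter.atTop, 4 ≤ L ^ (η / 32) :=
    (tendsto_rpow_atTop (show (0 : ℝ) < η / 32 by linarith)).eventually_ge_atTop 4
  have e3 : ∀ᶠ L : ℝ in Filter.atTop, 4 ≤ L ^ (η / 2) :=
    (tendsto_rpow_atTop (show (0 : ℝ) < η / 2 by linarith)).eventually_ge_atTop 4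
  have e4 : ∀ᶠ L : ℝ in Filter.atTop, 2 ≤ L ^ (1 - 17 * η / 32) :=
    (tendsto_rpow_atTop (show (0 : ℝ) < 1 - 17 * η / 32 by linarith)).eventually_ge_atTop 2
  have e5 : ∀ᶠ L : ℝ in Filter.atTop, 2 * Real.exp (3 * C) ≤ L := Filter.eventually_ge_atTop _
  obtain ⟨L₁, hL₁⟩ := Filter.eventually_atTop.1 (e1.and (e2.and (e3.and (e4.and e5))))
  refine ⟨max 2 L₁, le_max_left _ _, fun L hL U f hf hTB u hu N hN => ?_⟩
  have hL2 : 2 ≤ L := (le_max_left _ _).trans hL
  obtain ⟨g1, g2, g3, g4, g5⟩ := hL₁ L ((le_max_right _ _).trans hL)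
  have hL0 : 0 < L := by linarith
  have hlog : 0 ≤ Real.log L := Real.log_nonneg (by linarith)
  set y : ℝ := yy L η with hy
  have hylog : Real.log y = L ^ (1 - 17 * η / 32) := by rw [hy, yy, Real.log_exp]
  have hy0 : 0 < y := Real.exp_pos _
  have hy3 : 3 ≤ y := by
    have h1 : Real.exp 2 ≤ y := Real.exp_le_exp.2 g4
    have h2 : (2 : ℝ) + 1 ≤ Real.exp 2 := Real.add_one_le_exp 2
    linarith
  set Z : ℕ := ⌊y⌋₊ with hZ
  have hZ3 : 3 ≤ Z := Nat.le_floor (by exact_mod_cast hy3)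
  have hZy : (Z : ℝ) ≤ y := Nat.floor_le hy0.le
  set T : Finset ℕ := (Icc 1 Z).filter Nat.Prime with hTdef
  have hT : ∀ p ∈ T, p.Prime := fun p hp => (mem_filter.1 hp).2
  have hTmem : ∀ p : ℕ, p ∈ T ↔ p.Prime ∧ (p : ℝ) ≤ y := by
    intro p
    rw [hTdef, mem_filter, mem_Icc, hZ, Nat.le_floor_iff hy0.le]
    constructor
    · rintro ⟨⟨_, h⟩, h2⟩; exact ⟨h2, h⟩
    · rintro ⟨h, h2⟩; exact ⟨⟨h.one_le, h2⟩, h⟩
  -- Mertens
  have hS : ∑ p ∈ T, 1 / (p : ℝ) ≤ Real.log L + C := by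
    have h1 := hC₀ Z hZ3
    rw [abs_le] at h1
    have h2 : Real.log (Real.log Z) ≤ Real.log L := by
      have hZ0 : (0 : ℝ) < Z := by exact_mod_cast (by omega : 0 < Z)
      have h3 : 0 < Real.log Z := Real.log_pos (by exact_mod_cast (by omega : 1 < Z))
      refine Real.log_le_log h3 ?_
      calc Real.log Z ≤ Real.log y := Real.log_le_log hZ0 hZy
        _ = L ^ (1 - 17 * η / 32) := hylog
        _ ≤ L ^ (1 : ℝ) := Real.rpow_le_rpow_of_exponent_le (by linarith) (by linarith)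
        _ = L := Real.rpow_one L
    have h4 : C₀ ≤ C := le_max_left _ _
    linarith [h1.2]
  -- number of primes
  set r : ℕ := ⌈((K : ℝ) + 4) * Real.log L⌉₊ with hr
  have hr1 : ((K : ℝ) + 4) * Real.log L ≤ r := Nat.le_ceil _
  have hr2 : (r : ℝ) ≤ L ^ (η / 32) / 2 := by
    have h1 : (r : ℝ) ≤ ((K : ℝ) + 4) * Real.log L + 1 :=
      (Nat.ceil_lt_add_one (by positivity)).le
    have h2 : ((K : ℝ) + 4) * Real.log L ≤ L ^ (η / 32) / 4 := by
      calc ((K : ℝ) + 4) * Real.log L ≤ ((K : ℝ) + 4) * ((1 / (4 * (K + 4) : ℝ)) * L ^ (η / 32)) :=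
            mul_le_mul_of_nonneg_left g1 (by positivity)
        _ = L ^ (η / 32) / 4 := by field_simp
    linarith
  have hyr : y ^ r ≤ Real.exp (L ^ (1 - η / 2) / 2) := by
    have h1 : y ^ r = Real.exp (r * L ^ (1 - 17 * η / 32)) := by
      rw [hy, yy, ← Real.exp_nat_mul]
    rw [h1]
    refine Real.exp_le_exp.2 ?_
    calc (r : ℝ) * L ^ (1 - 17 * η / 32) ≤ L ^ (η / 32) / 2 * L ^ (1 - 17 * η / 32) :=
          mul_le_mul_of_nonneg_right hr2 (Real.rpow_nonneg hL0.le _)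
      _ = (L ^ (η / 32) * L ^ (1 - 17 * η / 32)) / 2 := by ring
      _ = L ^ (1 - η / 2) / 2 := by
          rw [← Real.rpow_add hL0]; congr 2; ring
  have hbig : Real.exp (L ^ (1 - η)) + 1 ≤ Real.exp (L ^ (1 - η / 2) / 2) := by
    have h1 : 1 ≤ L ^ (1 - η) := Real.one_le_rpow (by linarith) (by linarith)
    have h2 : L ^ (1 - η / 2) = L ^ (1 - η) * L ^ (η / 2) := by
      rw [← Real.rpow_add hL0]; congr 1; ring
    have h3 : L ^ (1 - η) + 1 ≤ L ^ (1 - η / 2) / 2 := by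
      rw [h2]; nlinarith
    have h4 : Real.exp (L ^ (1 - η) + 1) ≤ Real.exp (L ^ (1 - η / 2) / 2) := Real.exp_le_exp.2 h3
    have h5 : Real.exp (L ^ (1 - η)) + 1 ≤ Real.exp (L ^ (1 - η) + 1) := by
      rw [Real.exp_add]
      have h6 : (2 : ℝ) ≤ Real.exp 1 := by
        have := Real.add_one_le_exp (1 : ℝ); linarith
      have h7 : 1 ≤ Real.exp (L ^ (1 - η)) := Real.one_le_exp (by linarith)
      nlinarith
    exact h5.trans h4
  -- the sum
  have hrew : ∑ n ∈ Icc 1 N, ro y f n * tw u n =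
      ∑ n ∈ Icc 1 N, (if ∀ p ∈ T, ¬ p ∣ n then f n * tw u n else 0) := by
    classical
    refine sum_congr rfl fun n hn => ?_
    rw [mem_Icc] at hn
    unfold ro
    by_cases hc : ∀ p ∈ T, ¬ p ∣ n
    · rw [if_pos hc, if_pos]
      refine ⟨hn.1, fun p hp hpn => ?_⟩
      by_contra hle
      push Not at hle
      exact hc p ((hTmem p).2 ⟨hp, hle⟩) hpn
    · rw [if_neg hc, if_neg, zero_mul]
      rintro ⟨_, h⟩
      apply hc
      intro p hp hpn
      have h1 := (hTmem p).1 hp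
      exact absurd (h p h1.1 hpn) (not_lt.2 h1.2)
  rw [hrew]
  have hcore := core T hT r N (fun n => f n * tw u n) (fun n => by
      rw [norm_mul, norm_tw, mul_one]; exact hf.norm_le n)
    (fun S => (N : ℝ) / L ^ (K + 2) * ∏ p ∈ S, (1 / (p : ℝ))) (fun S hS hcard => by
      have hprod : (((∏ p ∈ S, p : ℕ)) : ℝ) ≤ y ^ r := by
        push_cast
        calc ∏ p ∈ S, (p : ℝ) ≤ ∏ _p ∈ S, y :=
              prod_le_prod (fun p _ => Nat.cast_nonneg p) (fun p hp => ((hTmem p).1 (hS hp)).2)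
          _ = y ^ S.card := by rw [prod_const]
          _ ≤ y ^ r := pow_le_pow_right₀ (by linarith) hcard.le
      have hd1 : 1 ≤ ∏ p ∈ S, p := Nat.pos_of_ne_zero
        (prod_ne_zero_iff.2 fun p hp => (hT p (hS hp)).ne_zero)
      set d : ℕ := ∏ p ∈ S, p with hd
      have hd0 : (0 : ℝ) < d := by exact_mod_cast hd1
      have hNd : Real.exp (L ^ (1 - η)) ≤ ((N / d : ℕ) : ℝ) := by
        have h1 : (N : ℝ) < d * (((N / d : ℕ) : ℝ) + 1) := by
          exact_mod_cast Nat.lt_mul_div_succ N hd1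
        have h2 : (d : ℝ) * Real.exp (L ^ (1 - η / 2) / 2) ≤ N := by
          calc (d : ℝ) * Real.exp (L ^ (1 - η / 2) / 2)
              ≤ Real.exp (L ^ (1 - η / 2) / 2) * Real.exp (L ^ (1 - η / 2) / 2) :=
                mul_le_mul_of_nonneg_right (hprod.trans hyr) (Real.exp_pos _).le
            _ = Real.exp (L ^ (1 - η / 2)) := by rw [← Real.exp_add]; congr 1; ring
            _ ≤ N := hN
        have h3 : Real.exp (L ^ (1 - η / 2) / 2) < ((N / d : ℕ) : ℝ) + 1 := by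
          by_contra hh
          push Not at hh
          have := mul_le_mul_of_nonneg_left hh hd0.le
          linarith
        linarith
      have h4 := inner_bound hf hTB hL0 hu N d hd1 hNd
      refine h4.trans (le_of_eq ?_)
      congr 1
      rw [hd]
      push_cast
      simp only [one_div, prod_inv_distrib])
  refine hcore.trans ?_
  have hLK : 0 < L ^ K := pow_pos hL0 K
  have hN0 : (0 : ℝ) ≤ N := Nat.cast_nonneg N
  have hpos : ∀ p ∈ T, (0 : ℝ) ≤ 1 / (p : ℝ) := fun p _ => by positivity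
  have hmain : ∑ j ∈ range r, ∑ S ∈ T.powersetCard j, (N : ℝ) / L ^ (K + 2) * ∏ p ∈ S, (1 / (p : ℝ)) ≤
      N / L ^ K / 2 := by
    have h1 : ∑ j ∈ range r, ∑ S ∈ T.powersetCard j, ∏ p ∈ S, (1 / (p : ℝ)) ≤
        Real.exp (∑ p ∈ T, 1 / (p : ℝ)) := by
      calc ∑ j ∈ range r, ∑ S ∈ T.powersetCard j, ∏ p ∈ S, (1 / (p : ℝ))
          = ∑ S ∈ (range r).biUnion (fun j => T.powersetCard j), ∏ p ∈ S, (1 / (p : ℝ)) := by
            rw [sum_biUnion]
            intro i _ j _ hij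
            exact (pairwise_disjoint_powersetCard T) hij
        _ ≤ ∑ S ∈ T.powerset, ∏ p ∈ S, (1 / (p : ℝ)) := by
            refine sum_le_sum_of_subset_of_nonneg ?_ fun S hS _ =>
              prod_nonneg fun p hp => hpos p (mem_powerset.1 hS hp)
            intro S hS
            obtain ⟨j, _, hj⟩ := mem_biUnion.1 hS
            exact mem_powerset.2 (mem_powersetCard.1 hj).1
        _ = ∏ p ∈ T, (1 + 1 / (p : ℝ)) := (prod_one_add T).symm
        _ ≤ ∏ p ∈ T, Real.exp (1 / (p : ℝ)) :=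
            prod_le_prod (fun p hp => by have := hpos p hp; linarith) (fun p _ => by
              rw [add_comm]; exact Real.add_one_le_exp _)
        _ = Real.exp (∑ p ∈ T, 1 / (p : ℝ)) := (Real.exp_sum _ _).symm
    have h2 : Real.exp (∑ p ∈ T, 1 / (p : ℝ)) ≤ L * Real.exp C := by
      calc Real.exp (∑ p ∈ T, 1 / (p : ℝ)) ≤ Real.exp (Real.log L + C) := Real.exp_le_exp.2 hS
        _ = L * Real.exp C := by rw [Real.exp_add, Real.exp_log hL0]
    have h3 : Real.exp C ≤ L / 2 := by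
      have : Real.exp C ≤ Real.exp (3 * C) := Real.exp_le_exp.2 (by linarith)
      linarith
    simp only [← mul_sum]
    calc (N : ℝ) / L ^ (K + 2) * ∑ j ∈ range r, ∑ S ∈ T.powersetCard j, ∏ p ∈ S, (1 / (p : ℝ))
        ≤ (N : ℝ) / L ^ (K + 2) * (L * (L / 2)) := by
          refine mul_le_mul_of_nonneg_left ?_ (by positivity)
          exact h1.trans (h2.trans (mul_le_mul_of_nonneg_left h3 hL0.le))
      _ = N / L ^ K / 2 := by
          rw [pow_add]; field_simp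
  have herr : (N : ℝ) * es (fun p => 1 / (p : ℝ)) T r ≤ N / L ^ K / 2 := by
    have h1 := Pool.Agent.H373R2.T7.es_le (x := fun p : ℕ => 1 / (p : ℝ)) hpos r
    have h2 : Real.exp (3 * ∑ p ∈ T, 1 / (p : ℝ) - r) ≤ 1 / (2 * L ^ K) := by
      have h3 : 3 * ∑ p ∈ T, 1 / (p : ℝ) - r ≤ 3 * C - (K + 1) * Real.log L := by
        nlinarith
      calc Real.exp (3 * ∑ p ∈ T, 1 / (p : ℝ) - r) ≤ Real.exp (3 * C - (K + 1) * Real.log L) :=
            Real.exp_le_exp.2 h3
        _ = Real.exp (3 * C) / L ^ (K + 1) := by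
            rw [Real.exp_sub]
            congr 1
            have : ((K : ℝ) + 1) * Real.log L = ((K + 1 : ℕ) : ℝ) * Real.log L := by push_cast; ring
            rw [this, Real.exp_nat_mul, Real.exp_log hL0]
        _ ≤ (L / 2) / L ^ (K + 1) := div_le_div_of_nonneg_right (by linarith) (by positivity)
        _ = 1 / (2 * L ^ K) := by rw [pow_succ]; field_simp
    calc (N : ℝ) * es (fun p => 1 / (p : ℝ)) T r ≤ N * (1 / (2 * L ^ K)) :=
          mul_le_mul_of_nonneg_left (h1.trans h2) hN0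
      _ = N / L ^ K / 2 := by ring
  linarith

end Pool.Agent.helper24_UT.Rs
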