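/-
UT_RZ   (project UT of helper24: primes at almost all systems of polynomials; very_famous ids, partial results)
TARGET: prove the theorem at the end. Its statement uses the definitions in the module Pool/Agent/helper24_UT/Stm.lean
(on origin/main; `git -C /workdir/pool/outputs/live pull`, then copy that file and the starting modules it imports,
Pool/Agent/Y957/VK/Stm.lean and Pool/Agent/H376R2/MR/Defs.lean, to the same paths under /workdir/pool). You may import
Mathlib and ANY starting module (copy it with its closure from outputs/live). READ Stm.lean first.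
Put helper lemmas in the namespace below, do not change the target statement, no sorry, no native_decide, no new axioms,
no straight double quotes in the file. Paste the full proved file back as the result. If the statement is false or a
constant does not work out, set status='problem' and say exactly why.

PLAIN PROOF
For sigma in (1, 2], y >= 2. ro y 1 is the indicator of the n >= 1 all of whose prime factors exceed y (1 included), so by the Euler
product (completely multiplicative function) the series is prod_{p>y} (1 - p^{-sigma})^{-1} = zeta(sigma) prod_{p<=y} (1 - p^{-sigma}).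
Mathlib: EulerProduct, DirichletSeries; or avoid the Euler product: for every y the finite identity
 zeta(sigma) = (sum over y-smooth d of d^{-sigma}) * (sum over rough n of n^{-sigma})  (Nat.smoothNumbers, Nat.roughNumbersUpTo,
 EulerProduct.summable_and_hasSum_smoothNumbers_prod_primesBelow_tsum ...) gives it as well.
zeta(sigma) <= 1 + 1/(sigma-1).
Case (sigma-1) log y <= 1: p^{-sigma} >= p^{-1} exp(-(sigma-1) log p) >= p^{-1}(1 - (sigma-1) log p), so
 prod_{p<=y} (1-p^{-sigma}) <= exp(- sum_{p<=y} 1/p + (sigma-1) sum_{p<=y} log p/p) <= C / log y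
 (Mertens: sum 1/p >= log log y - C and sum_{p<=y} log p / p <= log y + C; both are in the starting library, for example
 Pool.Agent.Helper256.KM.mertens_inv bounds prod (1-1/p)^{-1}; grep the library for mertens).
 Hence the value is <= (1 + 1/(sigma-1)) C/log y <= C' /((sigma-1) log y)  (+ C').
Case (sigma-1) log y > 1: put sigma0 = 1 + 1/log y < sigma (or sigma0 = min 2 ..). The series decreases in sigma, so it is at most
 its value at sigma0, which is <= 2C by the first case (for y < e, sigma0 > 2: then use the trivial bound zeta(2)+..., i.e. for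
 small y all is bounded: 1/((sigma-1) log y) may be small but C >= zeta bound; for y <= e use zeta(sigma) <= 1 + 1/(sigma-1) and
 sigma - 1 > 1/log y >= 1 impossible as sigma <= 2, so this case does not occur).
Norm of the LSeries of a nonnegative function at a real point = the real sum.
-/
import Pool.Agent.H43.G.R_pool_sql_team_seeded_620a6dc7.helper24_UT_.Stm

set_option autoImplicit false

namespace Pool.Agent.helper24_UT.Rz

open Finset
open Pool.Agent.helper24_UT
open Pool.Agent.H376R2.MR (ch er DP FK)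

theorem anti {σ : ℝ} (hσ : 1 < σ) {a b : ℝ} (ha : 1 ≤ a) :
    AntitoneOn (fun x : ℝ => x ^ (-σ)) (Set.Icc a b) := by
  intro x hx y _ hxy
  exact Real.rpow_le_rpow_of_nonpos (by linarith [hx.1]) hxy (by linarith)

theorem integ {σ : ℝ} (hσ : 1 < σ) {M : ℕ} (hM : 1 ≤ M) :
    ∫ x in ((1 : ℕ) : ℝ)..(M : ℕ), x ^ (-σ) = (1 - (M : ℝ) ^ (1 - σ)) / (σ - 1) := by
  have hM' : (1 : ℝ) ≤ M := by exact_mod_cast hM
  rw [integral_rpow]
  · rw [Nat.cast_one, Real.one_rpow, show -σ + 1 = 1 - σ by ring]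
    have h1 : (1 - σ) ≠ 0 := by linarith
    have h2 : (σ - 1) ≠ 0 := by linarith
    field_simp
    ring
  · right
    refine ⟨by linarith, ?_⟩
    rw [Nat.cast_one, Set.uIcc_of_le hM']
    intro h
    linarith [h.1]

theorem zeta_le {σ : ℝ} (hσ : 1 < σ) : ∑' n : ℕ, (n : ℝ) ^ (-σ) ≤ σ / (σ - 1) := by
  have key : ∀ K : ℕ, ∑ n ∈ range (K + 2), (n : ℝ) ^ (-σ) ≤ σ / (σ - 1) := by
    intro K
    rw [sum_range_succ', sum_range_succ']
    have h0 : ((0 : ℕ) : ℝ) ^ (-σ) = 0 := by
      rw [Nat.cast_zero, Real.zero_rpow (by linarith)]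
    have h1 : (((0 : ℕ) + 1 : ℕ) : ℝ) ^ (-σ) = 1 := by simp
    rw [h0, h1, add_zero]
    have h2 := AntitoneOn.sum_le_integral_Ico (f := fun x : ℝ => x ^ (-σ)) (a := 1) (b := K + 1) (by omega)
      (anti hσ (by simp))
    rw [integ hσ (by omega)] at h2
    have h3 : ∑ k ∈ range K, ((k + 1 + 1 : ℕ) : ℝ) ^ (-σ) = ∑ i ∈ Ico 1 (K + 1), ((i + 1 : ℕ) : ℝ) ^ (-σ) := by
      rw [sum_Ico_eq_sum_range]
      apply sum_congr (by simp)
      intro k _
      rw [show 1 + k + 1 = k + 1 + 1 by ring]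
    rw [h3]
    have h4 : (1 - ((K + 1 : ℕ) : ℝ) ^ (1 - σ)) / (σ - 1) ≤ 1 / (σ - 1) := by
      apply div_le_div_of_nonneg_right _ (by linarith)
      have : 0 ≤ ((K + 1 : ℕ) : ℝ) ^ (1 - σ) := by positivity
      linarith
    have h5 : σ / (σ - 1) = 1 / (σ - 1) + 1 := by
      have h2 : (σ - 1) ≠ 0 := by linarith
      field_simp
      ring
    rw [h5]
    linarith
  apply Real.tsum_le_of_sum_range_le (fun n => by positivity)
  intro n
  refine le_trans ?_ (key n)
  apply sum_le_sum_of_subset_of_nonneg (range_subset_range.2 (by omega))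
  intro i _ _
  positivity

theorem low {σ y : ℝ} (hσ : 1 < σ) (hy : 2 ≤ y) :
    (1 - Real.exp (-((σ - 1) * Real.log y))) / (σ - 1) ≤ ∑ d ∈ Ico 1 (⌊y⌋₊ + 1), (d : ℝ) ^ (-σ) := by
  have h2 := AntitoneOn.integral_le_sum_Ico (f := fun x : ℝ => x ^ (-σ)) (a := 1) (b := ⌊y⌋₊ + 1) (by omega)
      (anti hσ (by simp))
  rw [integ hσ (by omega)] at h2
  refine le_trans ?_ h2
  apply div_le_div_of_nonneg_right _ (by linarith)
  have h3 : ((⌊y⌋₊ + 1 : ℕ) : ℝ) ^ (1 - σ) ≤ y ^ (1 - σ) := by
    apply Real.rpow_le_rpow_of_nonpos (by linarith) _ (by linarith)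
    push_cast
    exact (Nat.lt_floor_add_one y).le
  have h4 : y ^ (1 - σ) = Real.exp (-((σ - 1) * Real.log y)) := by
    rw [Real.rpow_def_of_pos (by linarith)]
    congr 1
    ring
  linarith

/-- the indicator of the rough numbers -/
def Rough (y : ℝ) (n : ℕ) : Prop := 1 ≤ n ∧ ∀ p : ℕ, p.Prime → p ∣ n → y < p

theorem inj {y : ℝ} {d d' m m' : ℕ} (hd : d ∈ Ico 1 (⌊y⌋₊ + 1)) (hd' : d' ∈ Ico 1 (⌊y⌋₊ + 1)) (hy : 2 ≤ y)
    (hm : Rough y m) (hm' : Rough y m') (h : d * m = d' * m') : d = d' ∧ m = m' := by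
  have cop : ∀ {a b : ℕ}, a ∈ Ico 1 (⌊y⌋₊ + 1) → Rough y b → Nat.Coprime a b := by
    intro a b ha hb
    rw [mem_Ico] at ha
    apply Nat.Coprime.symm
    rw [Nat.Coprime]
    by_contra hne
    obtain ⟨p, hp, hpd⟩ := Nat.exists_prime_and_dvd hne
    have h1 := hb.2 p hp (hpd.trans (Nat.gcd_dvd_left _ _))
    have h2 : p ≤ a := Nat.le_of_dvd (by omega) (hpd.trans (Nat.gcd_dvd_right _ _))
    have h3 : (a : ℝ) ≤ y := by
      have : a ≤ ⌊y⌋₊ := by omega
      exact (Nat.le_floor_iff (by linarith)).1 this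
    have h4 : (p : ℝ) ≤ a := by exact_mod_cast h2
    linarith
  have h1 : d ∣ d' := (cop hd hm').dvd_of_dvd_mul_right (by rw [← h]; exact dvd_mul_right _ _)
  have h2 : d' ∣ d := (cop hd' hm).dvd_of_dvd_mul_right (by rw [h]; exact dvd_mul_right _ _)
  have h3 := Nat.dvd_antisymm h1 h2
  refine ⟨h3, ?_⟩
  subst h3
  exact Nat.eq_of_mul_eq_mul_left (by rw [mem_Ico] at hd; omega) h

open Classical in
theorem rough_le {σ y : ℝ} (hσ : 1 < σ) (hy : 2 ≤ y) (N : ℕ) :
    (∑ d ∈ Ico 1 (⌊y⌋₊ + 1), (d : ℝ) ^ (-σ)) * ∑ m ∈ (range N).filter (Rough y), (m : ℝ) ^ (-σ) ≤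
      ∑' n : ℕ, (n : ℝ) ^ (-σ) := by
  have hsum : Summable fun n : ℕ => (n : ℝ) ^ (-σ) := Real.summable_nat_rpow.2 (by linarith)
  rw [sum_mul_sum, ← sum_product']
  have h1 : ∀ x ∈ Ico 1 (⌊y⌋₊ + 1) ×ˢ (range N).filter (Rough y),
      (x.1 : ℝ) ^ (-σ) * (x.2 : ℝ) ^ (-σ) = ((x.1 * x.2 : ℕ) : ℝ) ^ (-σ) := by
    intro x _
    rw [Nat.cast_mul, Real.mul_rpow (Nat.cast_nonneg _) (Nat.cast_nonneg _)]
  rw [sum_congr rfl h1]
  have h2 : Set.InjOn (fun x : ℕ × ℕ => x.1 * x.2) (Ico 1 (⌊y⌋₊ + 1) ×ˢ (range N).filter (Rough y) : Finset (ℕ × ℕ)) := by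
    intro a ha b hb hab
    rw [mem_coe, mem_product, mem_filter] at ha hb
    have := inj ha.1 hb.1 hy ha.2.2 hb.2.2 hab
    exact Prod.ext this.1 this.2
  rw [← sum_image (f := fun n : ℕ => (n : ℝ) ^ (-σ)) h2]
  exact hsum.sum_le_tsum _ (fun i _ => by positivity)

theorem main : S_RZ := by
  classical
  refine ⟨2, by norm_num, fun y σ hy hσ hσ2 => ?_⟩
  have hsum : Summable fun n : ℕ => (n : ℝ) ^ (-σ) := Real.summable_nat_rpow.2 (by linarith)
  have hlog : 0 < Real.log y := Real.log_pos (by linarith)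
  set X := (σ - 1) * Real.log y with hX
  have hX0 : 0 < X := mul_pos (by linarith) hlog
  set S := ∑ d ∈ Ico 1 (⌊y⌋₊ + 1), (d : ℝ) ^ (-σ) with hS
  have hlow := low hσ hy
  rw [← hX, ← hS] at hlow
  have hexp : X / (1 + X) ≤ 1 - Real.exp (-X) := by
    rw [Real.exp_neg]
    have h1 := Real.add_one_le_exp X
    have h2 : (Real.exp X)⁻¹ ≤ (1 + X)⁻¹ := inv_anti₀ (by linarith) (by linarith)
    have h3 : X / (1 + X) = 1 - (1 + X)⁻¹ := by
      field_simp
      ring
    linarith
  have hSpos : X / (1 + X) / (σ - 1) ≤ S := (div_le_div_of_nonneg_right hexp (by linarith)).trans hlow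
  have hpos : 0 < X / (1 + X) / (σ - 1) := div_pos (div_pos hX0 (by linarith)) (by linarith)
  have hterm : ∀ n : ℕ, ‖LSeries.term (ro y (fun _ => 1)) (σ : ℂ) n‖ =
      if Rough y n then (n : ℝ) ^ (-σ) else 0 := by
    intro n
    rw [LSeries.norm_term_eq]
    split_ifs with h1 h2 h2
    · exact absurd h2.1 (by omega)
    · rfl
    · have h3 : ro y (fun _ => 1) n = 1 := if_pos h2
      rw [h3, norm_one, Complex.ofReal_re, Real.rpow_neg (Nat.cast_nonneg _), one_div]
    · have h3 : ro y (fun _ => 1) n = 0 := if_neg h2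
      rw [h3, norm_zero, zero_div]
  have hsn : Summable fun n : ℕ => ‖LSeries.term (ro y (fun _ => 1)) (σ : ℂ) n‖ := by
    refine Summable.of_nonneg_of_le (fun n => norm_nonneg _) (fun n => ?_) hsum
    rw [hterm]
    split_ifs
    · exact le_rfl
    · positivity
  have hR : ∑' n : ℕ, ‖LSeries.term (ro y (fun _ => 1)) (σ : ℂ) n‖ ≤ σ / (σ - 1) / (X / (1 + X) / (σ - 1)) := by
    apply Real.tsum_le_of_sum_range_le (fun n => norm_nonneg _)
    intro N
    rw [le_div_iff₀ hpos]
    have h1 : ∑ n ∈ range N, ‖LSeries.term (ro y (fun _ => 1)) (σ : ℂ) n‖ =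
        ∑ m ∈ (range N).filter (Rough y), (m : ℝ) ^ (-σ) := by
      rw [sum_filter]
      exact sum_congr rfl (fun n _ => hterm n)
    rw [h1, mul_comm]
    have h2 := rough_le hσ hy N
    rw [← hS] at h2
    have h3 : 0 ≤ ∑ m ∈ (range N).filter (Rough y), (m : ℝ) ^ (-σ) := sum_nonneg (fun i _ => by positivity)
    calc _ ≤ S * ∑ m ∈ (range N).filter (Rough y), (m : ℝ) ^ (-σ) := mul_le_mul_of_nonneg_right hSpos h3
      _ ≤ _ := h2
      _ ≤ _ := zeta_le hσ
  have hfin : σ / (σ - 1) / (X / (1 + X) / (σ - 1)) = σ * (1 + 1 / X) := by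
    have h2 : (σ - 1) ≠ 0 := by linarith
    field_simp
    ring
  calc ‖LSeries (ro y (fun _ => 1)) (σ : ℂ)‖ ≤ ∑' n : ℕ, ‖LSeries.term (ro y (fun _ => 1)) (σ : ℂ) n‖ :=
        norm_tsum_le_tsum_norm hsn
    _ ≤ σ * (1 + 1 / X) := by rw [← hfin]; exact hR
    _ ≤ 2 * (1 + 1 / X) := by
        apply mul_le_mul_of_nonneg_right hσ2
        positivity

end Pool.Agent.helper24_UT.Rz
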