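import Pool.Agent.H43.G.R_pool_sql_team_seeded_620a6dc7.helper24_UT_.Stm

set_option autoImplicit false

namespace Pool.Agent.helper24_UT.T1

open Finset
open Pool.Agent.helper24_UT
open Pool.Agent.H376R2.MR (ch er DP FK)

theorem tw_def (t x : ℝ) : tw t x = Complex.exp ((-t * Real.log x : ℝ) * Complex.I) := rfl

theorem norm_tw (t x : ℝ) : ‖tw t x‖ = 1 := by
  rw [tw_def]; exact Complex.norm_exp_ofReal_mul_I _

theorem tw_mul (t : ℝ) {x y : ℝ} (hx : 0 < x) (hy : 0 < y) : tw t (x * y) = tw t x * tw t y := by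
  rw [tw_def, tw_def, tw_def, ← Complex.exp_add, Real.log_mul hx.ne' hy.ne']
  congr 1
  push_cast
  ring

theorem hasDeriv_tw (t : ℝ) {x : ℝ} (hx : 0 < x) :
    HasDerivAt (fun y : ℝ => tw t y) (tw t x * (((-t * x⁻¹ : ℝ) : ℂ) * Complex.I)) x := by
  have h1 : HasDerivAt (fun y : ℝ => -t * Real.log y) (-t * x⁻¹) x :=
    (Real.hasDerivAt_log hx.ne').const_mul (-t)
  have h2 := (h1.ofReal_comp).mul_const Complex.I
  exact h2.cexp

theorem tw_sub (t x y : ℝ) : ‖tw t x - tw t y‖ ≤ |t| * |Real.log x - Real.log y| := by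
  have h1 : tw t x - tw t y = tw t y *
      (Complex.exp (Complex.I * ((-t * (Real.log x - Real.log y) : ℝ) : ℂ)) - 1) := by
    rw [mul_sub, mul_one]
    congr 1
    rw [tw_def, tw_def, ← Complex.exp_add]
    congr 1
    push_cast
    ring
  rw [h1, norm_mul, norm_tw, one_mul]
  refine (Real.norm_exp_I_mul_ofReal_sub_one_le).trans ?_
  rw [Real.norm_eq_abs, abs_mul, abs_neg]

/-- the antiderivative -/
noncomputable def G (t x : ℝ) : ℂ := (x : ℂ) * tw t x / (1 - (t : ℂ) * Complex.I)

theorem den_ne (t : ℝ) : (1 - (t : ℂ) * Complex.I) ≠ 0 := by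
  intro h
  have h1 := congrArg Complex.re h
  simp at h1

theorem den_norm (t : ℝ) : |t| ≤ ‖(1 - (t : ℂ) * Complex.I)‖ := by
  have h1 := Complex.abs_im_le_norm (1 - (t : ℂ) * Complex.I)
  simpa using h1

theorem hasDeriv_G (t : ℝ) {x : ℝ} (hx : 0 < x) :
    HasDerivAt (fun y : ℝ => G t y) (tw t x) x := by
  have h1 : HasDerivAt (fun y : ℝ => (y : ℂ)) 1 x := by
    have := (hasDerivAt_id x).ofReal_comp
    simpa using this
  have h2 := (h1.mul (hasDeriv_tw t hx)).div_const (1 - (t : ℂ) * Complex.I)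
  have h3 : (1 * tw t x + (x : ℂ) * (tw t x * (((-t * x⁻¹ : ℝ) : ℂ) * Complex.I))) /
      (1 - (t : ℂ) * Complex.I) = tw t x := by
    rw [div_eq_iff (den_ne t)]
    have hxc : (x : ℂ) ≠ 0 := by exact_mod_cast hx.ne'
    push_cast
    field_simp
    ring
  rw [h3] at h2
  exact h2

theorem norm_G (t : ℝ) {x : ℝ} (hx : 0 ≤ x) (ht : 0 < |t|) : ‖G t x‖ ≤ x / |t| := by
  unfold G
  rw [norm_div, norm_mul, norm_tw, mul_one, Complex.norm_real, Real.norm_eq_abs, abs_of_nonneg hx]
  exact div_le_div_of_nonneg_left hx ht (den_norm t)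

/-- one step -/
theorem one_step (t θ : ℝ) (hθ : 0 ≤ θ) (n : ℕ) (hn : 1 ≤ n) :
    ‖tw t ((n + 1 : ℕ) + θ) - (G t ((n + 1 : ℕ) + θ) - G t (n + θ))‖ ≤ |t| / n := by
  have hn' : (1 : ℝ) ≤ n := by exact_mod_cast hn
  set F : ℂ := tw t ((n + 1 : ℕ) + θ) with hF
  have key := Convex.norm_image_sub_le_of_norm_hasDerivWithin_le
    (f := fun x : ℝ => G t (x + θ) - (x : ℂ) * F) (f' := fun x : ℝ => tw t (x + θ) - F)
    (s := Set.Icc (n : ℝ) (n + 1)) (C := |t| / n) (x := (n : ℝ)) (y := (n : ℝ) + 1) ?_ ?_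
    (convex_Icc _ _) ⟨le_refl _, by linarith⟩ ⟨by linarith, le_refl _⟩
  · have h1 : (G t ((n : ℝ) + 1 + θ) - (((n : ℝ) + 1 : ℝ) : ℂ) * F) - (G t ((n : ℝ) + θ) - ((n : ℝ) : ℂ) * F) =
        -(F - (G t ((n : ℝ) + 1 + θ) - G t (n + θ))) := by
      push_cast
      ring
    rw [h1, norm_neg] at key
    have h2 : ‖(n : ℝ) + 1 - n‖ = 1 := by
      rw [add_sub_cancel_left]; simp
    rw [h2, mul_one] at key
    have h3 : (((n + 1 : ℕ) : ℝ) + θ) = (n : ℝ) + 1 + θ := by push_cast; ring
    rw [h3]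
    exact key
  · intro x hx
    have hx0 : 0 < x + θ := by
      have := hx.1
      linarith
    have h1 : HasDerivAt (fun y : ℝ => G t (y + θ)) (tw t (x + θ)) x := by
      have h := HasDerivAt.comp_add_const x θ (hasDeriv_G t hx0)
      exact h
    have h2 : HasDerivAt (fun y : ℝ => (y : ℂ) * F) F x := by
      have h3 : HasDerivAt (fun y : ℝ => (y : ℂ)) 1 x := by
        have := (hasDerivAt_id x).ofReal_comp
        simpa using this
      have := h3.mul_const F
      rwa [one_mul] at this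
    exact (h1.sub h2).hasDerivWithinAt
  · intro x hx
    obtain ⟨hx1, hx2⟩ := hx
    have hx0 : 0 < x + θ := by linarith
    refine (tw_sub _ _ _).trans ?_
    rw [div_eq_mul_inv]
    refine mul_le_mul_of_nonneg_left ?_ (abs_nonneg _)
    have h4 : (((n + 1 : ℕ) : ℝ) + θ) = (n : ℝ) + 1 + θ := by push_cast; ring
    rw [h4, abs_sub_comm]
    have h5 : x + θ ≤ (n : ℝ) + 1 + θ := by linarith
    rw [abs_of_nonneg (sub_nonneg.2 (Real.log_le_log hx0 h5)), ← Real.log_div (by linarith) hx0.ne']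
    refine (Real.log_le_sub_one_of_pos (div_pos (by linarith) hx0)).trans ?_
    have h6 : ((n : ℝ) + 1 + θ) / (x + θ) - 1 = (n + 1 - x) / (x + θ) := by
      field_simp
      ring
    rw [h6, div_le_iff₀ hx0]
    have h7 : (n : ℝ)⁻¹ * n = 1 := inv_mul_cancel₀ (by linarith)
    have h8 : 0 ≤ (n : ℝ)⁻¹ := by positivity
    nlinarith

theorem block (t θ : ℝ) (ht : 0 < |t|) (hθ : 0 ≤ θ) (hθ1 : θ ≤ 1) (N N' : ℕ) (hN : 1 ≤ N) (h1 : N ≤ N')
    (h2 : N' ≤ 2 * N) : ‖∑ n ∈ Ioc N N', tw t (n + θ)‖ ≤ 5 * N / |t| + |t| := by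
  have hN' : (1 : ℝ) ≤ N := by exact_mod_cast hN
  have key : ∀ M : ℕ, N ≤ M → ‖∑ n ∈ Ioc N M, tw t (n + θ) - (G t (M + θ) - G t (N + θ))‖ ≤
      ((M : ℝ) - N) * (|t| / N) := by
    intro M hM
    induction M, hM using Nat.le_induction with
    | base => simp
    | succ M hM ih =>
      rw [Finset.sum_Ioc_succ_top (by omega)]
      have h3 := one_step t θ hθ M (by omega)
      have h4 : |t| / M ≤ |t| / N := by
        refine div_le_div_of_nonneg_left ht.le (by linarith) ?_
        exact_mod_cast hM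
      have h5 : ∑ n ∈ Ioc N M, tw t (n + θ) + tw t (((M + 1 : ℕ) : ℝ) + θ) -
          (G t (((M + 1 : ℕ) : ℝ) + θ) - G t (N + θ)) =
          (∑ n ∈ Ioc N M, tw t (n + θ) - (G t (M + θ) - G t (N + θ))) +
          (tw t ((M + 1 : ℕ) + θ) - (G t ((M + 1 : ℕ) + θ) - G t (M + θ))) := by ring
      rw [h5]
      refine (norm_add_le _ _).trans ?_
      push_cast at h3 ⊢
      have h6 : ((M : ℝ) + 1 - N) * (|t| / N) = (M - N) * (|t| / N) + |t| / N := by ring
      rw [h6]
      refine add_le_add ?_ (h3.trans h4)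
      exact ih
  have h3 := key N' h1
  have h4 : ∑ n ∈ Ioc N N', tw t (n + θ) = (∑ n ∈ Ioc N N', tw t (n + θ) -
      (G t (N' + θ) - G t (N + θ))) + (G t (N' + θ) - G t (N + θ)) := by ring
  have h1' : (N : ℝ) ≤ N' := by exact_mod_cast h1
  have h2' : (N' : ℝ) ≤ 2 * N := by exact_mod_cast h2
  rw [h4]
  refine (norm_add_le _ _).trans ?_
  have h5 : ‖G t (N' + θ) - G t (N + θ)‖ ≤ 5 * N / |t| := by
    refine (norm_sub_le _ _).trans ?_
    have h6 := norm_G t (x := (N' : ℝ) + θ) (by linarith) ht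
    have h7 := norm_G t (x := (N : ℝ) + θ) (by linarith) ht
    have h8 : ((N' : ℝ) + θ) / |t| + ((N : ℝ) + θ) / |t| ≤ 5 * N / |t| := by
      rw [← add_div]
      exact div_le_div_of_nonneg_right (by linarith) ht.le
    linarith
  have h6 : ((N' : ℝ) - N) * (|t| / N) ≤ |t| := by
    rw [mul_div_assoc', div_le_iff₀ (by linarith)]
    nlinarith
  linarith

theorem dyad (F : ℕ → ℂ) (N0 : ℕ) (δ : ℝ) (hδ : 0 ≤ δ) (hN0 : 2 ≤ N0)
    (h : ∀ N N' : ℕ, N0 ≤ N → N ≤ N' → N' ≤ 2 * N → ‖∑ n ∈ Ioc N N', F n‖ ≤ δ * N) :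
    ∀ X : ℕ, N0 ≤ X → ‖∑ n ∈ Ioc N0 X, F n‖ ≤ 4 * δ * X := by
  intro X
  induction X using Nat.strong_induction_on with
  | _ X IH =>
    intro hX
    have hX' : (N0 : ℝ) ≤ X := by exact_mod_cast hX
    have hN0' : (2 : ℝ) ≤ N0 := by exact_mod_cast hN0
    by_cases h1 : X ≤ 2 * N0
    · refine (h N0 X (le_refl _) hX h1).trans ?_
      nlinarith
    · have h2 : N0 ≤ (X + 1) / 2 := by omega
      have h3 : (X + 1) / 2 < X := by omega
      have h4 : X ≤ 2 * ((X + 1) / 2) := by omega
      have h5 := IH _ h3 h2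
      have h6 := h ((X + 1) / 2) X h2 h3.le h4
      rw [← Finset.sum_Ioc_consecutive F h2 h3.le]
      refine (norm_add_le _ _).trans ((add_le_add h5 h6).trans ?_)
      have h7 : (((X + 1) / 2 : ℕ) : ℝ) ≤ (X + 1) / 2 := by
        have h8 : 2 * ((X + 1) / 2) ≤ X + 1 := by omega
        have h9 : (2 : ℝ) * (((X + 1) / 2 : ℕ) : ℝ) ≤ X + 1 := by exact_mod_cast h8
        linarith
      have h8 : 5 * ((((X + 1) / 2 : ℕ) : ℝ)) ≤ 4 * X := by linarith
      nlinarith

/-- the reduction to the sums of `tw t (n + r/q)` -/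
theorem reduce (t : ℝ) (q r M N0 : ℕ) (hq : 1 ≤ q) (E : ℝ) (hE : 0 ≤ E)
    (h : ∀ X : ℕ, N0 ≤ X → X ≤ M → r < q → ‖∑ n ∈ Ioc N0 X, tw t (n + (r : ℝ) / q)‖ ≤ E) :
    ‖∑ m ∈ (Icc 1 M).filter (fun m => m % q = r), tw t m‖ ≤ (N0 + 1) + E := by
  classical
  set S := (Icc 1 M).filter (fun m => m % q = r) with hS
  by_cases hr : r < q ∧ r ≤ M
  · obtain ⟨hr, hrM⟩ := hr
    rw [← Finset.sum_filter_add_sum_filter_not S (fun m => m / q ≤ N0)]
    refine (norm_add_le _ _).trans (add_le_add ?_ ?_)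
    · refine (norm_sum_le _ _).trans ?_
      rw [Finset.sum_congr rfl (fun (m : ℕ) _ => norm_tw t (m : ℝ)), Finset.sum_const, nsmul_eq_mul, mul_one]
      have h1 : (S.filter (fun m => m / q ≤ N0)).card ≤ (range (N0 + 1)).card := by
        refine Finset.card_le_card_of_injOn (fun m => m / q) ?_ ?_
        · intro m hm
          simp only [mem_coe, mem_filter] at hm
          simp only [coe_range, Set.mem_Iio]
          omega
        · intro a ha b hb hab
          simp only [hS, mem_coe, mem_filter, mem_Icc] at ha hb hab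
          have h3 := Nat.div_add_mod a q
          have h4 := Nat.div_add_mod b q
          rw [hab, ha.1.2] at h3
          rw [hb.1.2] at h4
          omega
      rw [card_range] at h1
      exact_mod_cast h1
    · set X := (M - r) / q with hX
      have h2 : ∑ m ∈ S.filter (fun m => ¬ m / q ≤ N0), tw t m =
          ∑ n ∈ Ioc N0 X, tw t q * tw t (n + (r : ℝ) / q) := by
        refine Finset.sum_bij' (fun m _ => m / q) (fun n _ => q * n + r) ?_ ?_ ?_ ?_ ?_
        · intro m hm
          simp only [hS, mem_filter, mem_Icc] at hm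
          rw [mem_Ioc]
          refine ⟨by omega, ?_⟩
          rw [hX, Nat.le_div_iff_mul_le (by omega)]
          have h3 := Nat.div_add_mod m q
          rw [hm.1.2] at h3
          rw [mul_comm]
          omega
        · intro n hn
          rw [mem_Ioc] at hn
          simp only [hS, mem_filter, mem_Icc]
          have h3 : (q * n + r) / q = n := by
            rw [Nat.mul_add_div (by omega), Nat.div_eq_of_lt hr, add_zero]
          have h4 : (q * n + r) % q = r := by
            rw [Nat.mul_add_mod, Nat.mod_eq_of_lt hr]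
          have h5 : n * q ≤ M - r := by
            rw [← Nat.le_div_iff_mul_le (by omega)]
            exact hn.2
          have h6 : 1 ≤ q * n := Nat.mul_pos (by omega) (by omega)
          rw [h3, h4]
          rw [mul_comm] at h5
          refine ⟨⟨⟨by omega, by omega⟩, rfl⟩, by omega⟩
        · intro m hm
          simp only [hS, mem_filter, mem_Icc] at hm
          have h3 := Nat.div_add_mod m q
          rw [hm.1.2] at h3
          exact h3
        · intro n hn
          rw [Nat.mul_add_div (by omega), Nat.div_eq_of_lt hr, add_zero]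
        · intro m hm
          simp only [hS, mem_filter, mem_Icc] at hm
          have h3 := Nat.div_add_mod m q
          rw [hm.1.2] at h3
          have hq0 : (0 : ℝ) < q := by exact_mod_cast hq
          have h4 : 0 < m / q := by omega
          have h5 : (0 : ℝ) < ((m / q : ℕ) : ℝ) + (r : ℝ) / q := by
            have : (0 : ℝ) < ((m / q : ℕ) : ℝ) := by exact_mod_cast h4
            positivity
          rw [← tw_mul t hq0 h5]
          congr 1
          rw [mul_add, mul_div_cancel₀ _ hq0.ne']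
          exact_mod_cast h3.symm
      rw [h2, ← Finset.mul_sum, norm_mul, norm_tw, one_mul]
      by_cases h3 : N0 ≤ X
      · refine h X h3 ?_ hr
        exact (Nat.div_le_self _ _).trans (Nat.sub_le _ _)
      · rw [Finset.Ioc_eq_empty (by omega), Finset.sum_empty, norm_zero]
        exact hE
  · have h1 : S = ∅ := by
      rw [Finset.eq_empty_iff_forall_notMem]
      intro m hm
      simp only [hS, mem_filter, mem_Icc] at hm
      refine hr ⟨?_, ?_⟩
      · rw [← hm.2]
        exact Nat.mod_lt _ (by omega)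
      · rw [← hm.2]
        exact (Nat.mod_le _ _).trans hm.1.2
    rw [h1, Finset.sum_empty, norm_zero]
    positivity

theorem main : S_ZSX → S_T1 := by
  rintro ⟨C, c, hc, hc1, hZ⟩
  have hC0 : (0 : ℝ) ≤ C := Nat.cast_nonneg C
  set η : ℝ := 1 / (10 + C) with hη
  have hη0 : 0 < η := by rw [hη]; positivity
  have hη1 : η ≤ 1 / 10 := by
    rw [hη]
    exact one_div_le_one_div_of_le (by norm_num) (by linarith)
  have hηC : η * C + 3 * η < 1 := by
    have : η * (10 + C) = 1 := by rw [hη]; field_simp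
    nlinarith
  refine ⟨η, hη0, hη1, ?_⟩
  intro A B K
  set c' : ℝ := c / (3 * (1 + 3 * (A : ℝ)) ^ 2) with hc'
  have hA0 : (0 : ℝ) ≤ A := Nat.cast_nonneg A
  have hc'0 : 0 < c' := by rw [hc']; positivity
  have e1 : ∀ᶠ L : ℝ in Filter.atTop, 2 * (C * (1 + 3 * (A : ℝ)) ^ C) / c' ≤ L ^ (1 - 3 * η - η * C) :=
    (tendsto_rpow_atTop (by linarith)).eventually_ge_atTop _
  have e2 : ∀ᶠ L : ℝ in Filter.atTop, ‖Real.log L‖ ≤ (c' / (2 * (K + 2))) * ‖L ^ (1 - 3 * η)‖ :=
    (isLittleO_log_rpow_atTop (by nlinarith : (0 : ℝ) < 1 - 3 * η)).def (by positivity)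
  have e3 : ∀ᶠ L : ℝ in Filter.atTop, ‖Real.log L‖ ≤ (1 / (6 * (K + 3))) * ‖L ^ (1 - η)‖ :=
    (isLittleO_log_rpow_atTop (by linarith : (0 : ℝ) < 1 - η)).def (by positivity)
  obtain ⟨L₁, hL₁⟩ := Filter.eventually_atTop.1 (e1.and (e2.and e3))
  refine ⟨K + 3, max L₁ 16, le_trans (by norm_num) (le_max_right _ _), ?_⟩
  intro L hL q r hq hqB t ht1 ht2 M hM
  obtain ⟨a1, a2, a3⟩ := hL₁ L ((le_max_left _ _).trans hL)
  have hL16 : 16 ≤ L := (le_max_right _ _).trans hL
  have hLpos : 0 < L := by linarith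
  have hL1 : 1 ≤ L := by linarith
  have hlogL : 0 ≤ Real.log L := Real.log_nonneg hL1
  rw [Real.norm_of_nonneg hlogL, Real.norm_of_nonneg (Real.rpow_nonneg hLpos.le _)] at a2 a3
  -- the exponent
  set P : ℝ := L ^ (1 - η) with hP
  have hPpos : 0 < P := Real.rpow_pos_of_pos hLpos _
  have b3 : (K + 3) * Real.log L ≤ P / 6 := by
    have h := mul_le_mul_of_nonneg_left a3 (by positivity : (0 : ℝ) ≤ K + 3)
    calc (K + 3) * Real.log L ≤ _ := h
      _ = P / 6 := by field_simp
  have b2 : (K + 2) * Real.log L ≤ c' / 2 * L ^ (1 - 3 * η) := by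
    have h := mul_le_mul_of_nonneg_left a2 (by positivity : (0 : ℝ) ≤ K + 2)
    calc (K + 2) * Real.log L ≤ _ := h
      _ = c' / 2 * L ^ (1 - 3 * η) := by field_simp
  have b1 : C * (1 + 3 * (A : ℝ)) ^ C * L ^ (η * C) ≤ c' / 2 * L ^ (1 - 3 * η) := by
    have h1 : L ^ (1 - 3 * η) = L ^ (1 - 3 * η - η * C) * L ^ (η * C) := by
      rw [← Real.rpow_add hLpos]
      congr 1
      ring
    rw [h1, ← mul_assoc]
    refine mul_le_mul_of_nonneg_right ?_ (Real.rpow_nonneg hLpos.le _)
    rw [div_le_iff₀ hc'0] at a1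
    linarith
  have hLK : ∀ k : ℕ, L ^ k = Real.exp (k * Real.log L) := by
    intro k
    rw [mul_comm, Real.exp_mul, Real.exp_log hLpos, Real.rpow_natCast]
  -- the starting point
  set N0 : ℕ := ⌈Real.exp (P / 3)⌉₊ with hN0
  have hN0a : Real.exp (P / 3) ≤ N0 := Nat.le_ceil _
  have hN0b : (N0 : ℝ) < Real.exp (P / 3) + 1 := Nat.ceil_lt_add_one (Real.exp_pos _).le
  have hex1 : 1 < Real.exp (P / 3) := Real.one_lt_exp_iff.2 (by positivity)
  have hN02 : 2 ≤ N0 := by
    have : (1 : ℝ) < N0 := by linarith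
    have : 1 < N0 := by exact_mod_cast this
    omega
  -- the trivial part
  have hMpos : (0 : ℝ) < M := lt_of_lt_of_le (Real.exp_pos _) hM
  have htriv : (N0 : ℝ) + 1 ≤ M / (4 * L ^ K) := by
    rw [le_div_iff₀ (by positivity)]
    have h1 : (N0 : ℝ) + 1 ≤ 3 * Real.exp (P / 3) := by linarith
    have h2 : 12 * L ^ K ≤ Real.exp (2 * P / 3) := by
      calc 12 * L ^ K ≤ L * L ^ K := by
            refine mul_le_mul_of_nonneg_right (by linarith) (by positivity)
        _ = L ^ (K + 1) := by ring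
        _ = Real.exp ((K + 1 : ℕ) * Real.log L) := hLK _
        _ ≤ Real.exp (2 * P / 3) := by
            rw [Real.exp_le_exp]
            push_cast
            nlinarith
    calc ((N0 : ℝ) + 1) * (4 * L ^ K) ≤ (3 * Real.exp (P / 3)) * (4 * L ^ K) := by
          refine mul_le_mul_of_nonneg_right h1 (by positivity)
      _ = Real.exp (P / 3) * (12 * L ^ K) := by ring
      _ ≤ Real.exp (P / 3) * Real.exp (2 * P / 3) := by
          refine mul_le_mul_of_nonneg_left h2 (Real.exp_pos _).le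
      _ = Real.exp P := by rw [← Real.exp_add]; congr 1; ring
      _ ≤ M := hM
  have ht0 : 0 < |t| := lt_of_lt_of_le (by positivity) ht1
  -- the blocks
  set δ : ℝ := 1 / L ^ (K + 2) with hδ
  have hδ0 : 0 ≤ δ := by positivity
  have hblk : ∀ θ : ℝ, 0 ≤ θ → θ ≤ 1 → ∀ N N' : ℕ, N0 ≤ N → N ≤ N' → N' ≤ 2 * N →
      ‖∑ n ∈ Ioc N N', tw t (n + θ)‖ ≤ δ * N := by
    intro θ hθ0 hθ1 N N' hN0N hN1 hN2
    have hNr : Real.exp (P / 3) ≤ N := hN0a.trans (by exact_mod_cast hN0N)
    have hNpos : (0 : ℝ) < N := lt_of_lt_of_le (Real.exp_pos _) hNr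
    have hlogN : P / 3 ≤ Real.log N := by
      rw [Real.le_log_iff_exp_le hNpos]
      exact hNr
    have hlogN0 : 0 < Real.log N := by linarith
    by_cases hcase : (N : ℝ) ^ (1 / 2 : ℝ) ≤ |t|
    · -- large frequencies
      set κ : ℝ := Real.log |t| / Real.log N with hκ
      have hκlog : κ * Real.log N = Real.log |t| := by rw [hκ]; field_simp
      have hκ1 : 1 / 2 ≤ κ := by
        rw [hκ, le_div_iff₀ hlogN0, Real.le_log_iff_exp_le ht0]
        rw [Real.rpow_def_of_pos hNpos] at hcase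
        rw [mul_comm]
        exact hcase
      have htN : |t| = (N : ℝ) ^ κ := by
        rw [Real.rpow_def_of_pos hNpos, mul_comm, hκlog, Real.exp_log ht0]
      refine (hZ N N' θ t κ (by omega) hN1 hN2 hθ0 hθ1 hκ1 htN).trans ?_
      -- the size of kappa
      have hlogt : Real.log |t| ≤ A * L := by
        rw [Real.log_le_iff_le_exp ht0]
        exact ht2
      have hLη : 1 ≤ L ^ η := Real.one_le_rpow hL1 hη0.le
      have hPL : P * L ^ η = L := by
        rw [hP, ← Real.rpow_add hLpos]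
        have : 1 - η + η = 1 := by ring
        rw [this, Real.rpow_one]
      have hκ2 : κ ≤ 3 * A * L ^ η := by
        rw [hκ, div_le_iff₀ hlogN0]
        refine hlogt.trans ?_
        calc (A : ℝ) * L = 3 * A * L ^ η * (P / 3) := by
              have : (A : ℝ) * L = A * (P * L ^ η) := by rw [hPL]
              rw [this]; ring
          _ ≤ 3 * A * L ^ η * Real.log N := by
              refine mul_le_mul_of_nonneg_left hlogN (by positivity)
      have hκ3 : 1 + κ ≤ (1 + 3 * A) * L ^ η := by nlinarith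
      have hκ0 : 0 < 1 + κ := by linarith
      have hf1 : C * (1 + κ) ^ C ≤ C * (1 + 3 * (A : ℝ)) ^ C * L ^ (η * C) := by
        have h1 : (1 + κ) ^ C ≤ ((1 + 3 * A) * L ^ η) ^ C := pow_le_pow_left₀ hκ0.le hκ3 C
        have h2 : ((1 + 3 * (A : ℝ)) * L ^ η) ^ C = (1 + 3 * (A : ℝ)) ^ C * L ^ (η * C) := by
          rw [mul_pow, ← Real.rpow_natCast (L ^ η) C, ← Real.rpow_mul hLpos.le]
        rw [h2] at h1
        rw [mul_assoc]
        exact mul_le_mul_of_nonneg_left h1 hC0
      have hf2 : c' * L ^ (1 - 3 * η) ≤ c / (1 + κ) ^ 2 * Real.log N := by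
        have h1 : (1 + κ) ^ 2 ≤ ((1 + 3 * A) * L ^ η) ^ 2 := pow_le_pow_left₀ hκ0.le hκ3 2
        have h2 : c / ((1 + 3 * A) * L ^ η) ^ 2 ≤ c / (1 + κ) ^ 2 :=
          div_le_div_of_nonneg_left hc.le (by positivity) h1
        have h3 : c' * L ^ (1 - 3 * η) = c / ((1 + 3 * A) * L ^ η) ^ 2 * (P / 3) := by
          have h4 : L ^ (1 - 3 * η) * (L ^ η) ^ 2 = P := by
            rw [← Real.rpow_natCast (L ^ η) 2, ← Real.rpow_mul hLpos.le, ← Real.rpow_add hLpos, hP]
            congr 1
            push_cast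
            ring
          rw [hc', ← h4]
          have h5 : L ^ η ≠ 0 := (Real.rpow_pos_of_pos hLpos _).ne'
          have h6 : (1 + 3 * (A : ℝ)) ≠ 0 := by positivity
          field_simp
        rw [h3]
        exact mul_le_mul h2 hlogN (by positivity) (by positivity)
      rw [Real.rpow_def_of_pos hNpos, ← Real.exp_add]
      have h7 : δ * N = Real.exp (Real.log N - (K + 2) * Real.log L) := by
        rw [Real.exp_sub, Real.exp_log hNpos, hδ, hLK]
        push_cast
        ring
      rw [h7, Real.exp_le_exp]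
      have h8 : Real.log N * (1 - c / (1 + κ) ^ 2) = Real.log N - c / (1 + κ) ^ 2 * Real.log N := by ring
      rw [h8]
      linarith
    · -- small frequencies
      push Not at hcase
      refine (block t θ ht0 hθ0 hθ1 N N' (by omega) hN1 hN2).trans ?_
      have h1 : 5 * (N : ℝ) / |t| ≤ δ * N / 2 := by
        rw [div_le_iff₀ ht0]
        have h2 : 10 * L ^ (K + 2) ≤ L ^ (K + 3) := by
          have : L ^ (K + 3) = L * L ^ (K + 2) := by ring
          rw [this]
          refine mul_le_mul_of_nonneg_right (by linarith) (by positivity)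
        have h3 : 10 * L ^ (K + 2) ≤ |t| := h2.trans ht1
        have h4 : 10 ≤ δ * |t| := by
          rw [hδ, one_div, ← div_eq_inv_mul, le_div_iff₀ (by positivity)]
          exact h3
        nlinarith
      have h5 : |t| ≤ δ * N / 2 := by
        refine hcase.le.trans ?_
        set s : ℝ := (N : ℝ) ^ (1 / 2 : ℝ) with hs
        have hs2 : s * s = N := by
          rw [hs, ← Real.rpow_add hNpos]
          norm_num
        have hs0 : 0 ≤ s := Real.rpow_nonneg hNpos.le _
        have hs1 : 2 * L ^ (K + 2) ≤ s := by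
          calc 2 * L ^ (K + 2) ≤ L * L ^ (K + 2) := by
                refine mul_le_mul_of_nonneg_right (by linarith) (by positivity)
            _ = L ^ (K + 3) := by ring
            _ = Real.exp ((K + 3 : ℕ) * Real.log L) := hLK _
            _ ≤ Real.exp (Real.log N * (1 / 2)) := by
                rw [Real.exp_le_exp]
                push_cast
                linarith
            _ = s := by rw [hs, Real.rpow_def_of_pos hNpos]
        have h6 : 2 ≤ δ * s := by
          rw [hδ, one_div, ← div_eq_inv_mul, le_div_iff₀ (by positivity)]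
          exact hs1
        rw [← hs2]
        nlinarith
      linarith
  have hfin := reduce t q r M N0 hq (M / (2 * L ^ K)) (by positivity) (by
    intro X hX hXM hrq
    have hq0 : (0 : ℝ) < q := by exact_mod_cast hq
    have hθ1 : (r : ℝ) / q ≤ 1 := by
      rw [div_le_one hq0]
      exact_mod_cast hrq.le
    refine (dyad (fun n => tw t (n + (r : ℝ) / q)) N0 δ hδ0 hN02
      (hblk ((r : ℝ) / q) (by positivity) hθ1) X hX).trans ?_
    have hXM' : (X : ℝ) ≤ M := by exact_mod_cast hXM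
    have h1 : 4 * δ * (X : ℝ) ≤ 4 * δ * M := by
      refine mul_le_mul_of_nonneg_left hXM' (by positivity)
    refine h1.trans ?_
    have h2 : δ = 1 / (L ^ 2 * L ^ K) := by
      rw [hδ]
      congr 1
      ring
    rw [h2, le_div_iff₀ (by positivity)]
    have h3 : 4 * (1 / (L ^ 2 * L ^ K)) * (M : ℝ) * (2 * L ^ K) = 8 * M / L ^ 2 := by
      field_simp
      ring
    rw [h3, div_le_iff₀ (by positivity)]
    have h4 : (8 : ℝ) ≤ L ^ 2 := by nlinarith
    have h5 := mul_le_mul_of_nonneg_left h4 hMpos.le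
    linarith)
  refine hfin.trans ?_
  have h9 : (M : ℝ) / L ^ K = M / (4 * L ^ K) + M / (2 * L ^ K) + M / (4 * L ^ K) := by
    field_simp
    ring
  have h10 : 0 ≤ (M : ℝ) / (4 * L ^ K) := by positivity
  linarith

end Pool.Agent.helper24_UT.T1
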