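import Pool.Agent.H43.G.R_pool_sql_team_seeded_620a6dc7.helper24_UT_.Stm3

/-!
# Project UT (helper24): primes at almost all systems of polynomials

Part 4: the full range. Statements (the same as in parts 1 - 3, with `X ^ (1 / 2) (log X) ^ C` in place of `X ^ (1 / 2 + 2 / e)`).
-/

set_option autoImplicit false

namespace Pool.Agent.helper24_UT

open Finset
open Pool.Agent.H376R2.MR (ch er DP FK)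
open Pool.Agent.H373R2.T7 (lamI lamzI lamz Vz pz)

/-- (18') the linear sums of Vaughan's identity -/
def S_TI2 : Prop := ∀ A B : ℕ, ∃ (K₂ Y₀ : ℕ), ∀ Y : ℕ, Y₀ ≤ Y → ∀ q r : ℕ, 1 ≤ q →
  (q : ℝ) ≤ (Real.log Y) ^ B → r.Coprime q → ∀ K₁ : ℕ, (K₁ : ℝ) ≤ (Y : ℝ) ^ (1 / 2 : ℝ) →
  ∀ (D : ℕ) (γ : ℕ → ℂ) (i : ℕ), (D : ℝ) ≤ (Y : ℝ) ^ (1 / 8 : ℝ) → (∀ b, ‖γ b‖ ≤ Real.log (b + 3)) → i ≤ 1 →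
  ∑ k ∈ (FK K₁).filter (fun k : ℤ => (Real.log Y) ^ K₂ ≤ |(k : ℝ)|),
    ‖DP ((Ioc Y (3 * Y)).filter (fun n => n % q = r % q)) (fun n => ∑ b ∈ n.divisors.filter (fun b => b ≤ D),
      γ b * (((Real.log ((n / b : ℕ) : ℝ)) ^ i : ℝ) : ℂ)) k‖ ^ 2 ≤
    (Y : ℝ) ^ 2 / (Real.log Y) ^ A

/-- (19') primes in progressions, large frequencies -/
def S_FRL2 : Prop := ∀ A B : ℕ, ∃ (K₂ Y₀ : ℕ), ∀ Y : ℕ, Y₀ ≤ Y → ∀ q r : ℕ, 1 ≤ q →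
  (q : ℝ) ≤ (Real.log Y) ^ B → r.Coprime q → ∀ K₁ : ℕ, (K₁ : ℝ) ≤ (Y : ℝ) ^ (1 / 2 : ℝ) →
  ∑ k ∈ (FK K₁).filter (fun k : ℤ => (Real.log Y) ^ K₂ ≤ |(k : ℝ)|),
    ‖DP ((Ioc Y (3 * Y)).filter (fun n => n % q = r % q)) (fun n => (ArithmeticFunction.vonMangoldt n : ℂ)) k‖ ^ 2 ≤
    (Y : ℝ) ^ 2 / (Real.log Y) ^ A

/-- (20') primes in progressions, all frequencies -/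
def S_FR2 : Prop := ∀ A B : ℕ, ∃ Y₀ : ℕ, ∀ Y : ℕ, Y₀ ≤ Y → ∀ q r : ℕ, 1 ≤ q →
  (q : ℝ) ≤ (Real.log Y) ^ B → r.Coprime q → ∀ K₁ : ℕ, (K₁ : ℝ) ≤ (Y : ℝ) ^ (1 / 2 : ℝ) →
  ∑ k ∈ FK K₁, ‖DP (Ioc Y (3 * Y)) (pdev q r) k‖ ^ 2 ≤ (Y : ℝ) ^ 2 / (Real.log Y) ^ A

/-- (21') primes in progressions in almost all short intervals -/
def S_SIL2 : Prop := ∀ A B : ℕ, ∃ C X₀ : ℕ, ∀ X : ℕ, X₀ ≤ X → ∀ q r : ℕ, 1 ≤ q →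
  (q : ℝ) ≤ (Real.log X) ^ B → r.Coprime q → ∀ W : ℕ, (X : ℝ) ^ (1 / 2 : ℝ) * (Real.log X) ^ C ≤ W → W ≤ X →
  ∑ u ∈ range X, ‖∑ n ∈ Ioc u (u + W), pdev q r n‖ ^ 2 ≤ X * (W : ℝ) ^ 2 / (Real.log X) ^ A

/-- (22') primes minus sieve model in progressions in almost all short intervals -/
def S_SI2 : Prop := ∀ A B : ℕ, ∃ C E₀ : ℕ, ∀ E₁ : ℕ, ∃ X₀ : ℕ, ∀ X : ℕ, X₀ ≤ X → ∀ z : ℕ,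
  (Real.log X) ^ E₀ ≤ z → (z : ℝ) ≤ (Real.log X) ^ E₁ → ∀ q : ℕ, 1 ≤ q → (q : ℝ) ≤ (Real.log X) ^ B →
  ∀ W : ℕ, (X : ℝ) ^ (1 / 2 : ℝ) * (Real.log X) ^ C ≤ W → W ≤ X →
  ∑ u ∈ range X, NN (Ed z) (u : ℤ) W q ≤ X * (W : ℝ) ^ 2 / (Real.log X) ^ A

/-- (25') no correlation of the primes minus their model along `b n + c + g n` with any bounded weights -/
def S_UT2 : Prop := ∀ A : ℕ, ∃ E₀ B : ℕ, ∀ E₁ : ℕ, ∃ H₀ : ℕ, ∀ H : ℕ, H₀ ≤ H → ∀ T : ℕ,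
  (Real.log H) ^ B ≤ T → (T : ℝ) * (Real.log H) ^ B ≤ H → ∀ z : ℕ, (Real.log H) ^ E₀ ≤ z →
  (z : ℝ) ≤ (Real.log H) ^ E₁ → ∀ g : ℕ → ℤ, (∀ n ∈ Icc 1 T, |g n| ≤ H * n) → ∀ w : ℕ → ℝ, (∀ n, |w n| ≤ 1) →
  ∑ b ∈ Icc 1 H, ∑ c ∈ Icc 1 H, (∑ n ∈ Icc 1 T, w n * Ed z ((b : ℤ) * n + c + g n)) ^ 2 ≤
    (H : ℝ) ^ 2 * (T : ℝ) ^ 2 / (Real.log H) ^ A

/-- (26') mean square over all choices, one length -/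
def S_SYS2 : Prop := ∀ k A : ℕ, ∃ E₀ B : ℕ, ∀ E₁ : ℕ, ∃ H₀ : ℕ, ∀ H : ℕ, H₀ ≤ H → ∀ T : ℕ,
  (Real.log H) ^ B ≤ T → (T : ℝ) * (Real.log H) ^ B ≤ H → ∀ z : ℕ, (Real.log H) ^ E₀ ≤ z →
  (z : ℝ) ≤ (Real.log H) ^ E₁ → ∀ g : Fin k → ℕ → ℤ, (∀ i, ∀ n ∈ Icc 1 T, |g i n| ≤ H * n) →
  ∀ w : ℕ → ℝ, (∀ n, |w n| ≤ 1) →
  ∑ v ∈ Bx k H, (∑ n ∈ Icc 1 T, w n * (∏ i, lamI (vl g v i n) - ∏ i, lamzI z (vl g v i n))) ^ 2 ≤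
    ((H : ℝ) ^ 2) ^ k * (T : ℝ) ^ 2 / (Real.log H) ^ A

/-- (27') almost all choices, all lengths -/
def S_ALL2 : Prop := ∀ k A : ℕ, ∃ E₀ B : ℕ, ∀ E₁ : ℕ, ∃ H₀ : ℕ, ∀ H : ℕ, H₀ ≤ H → ∀ T : ℕ,
  (T : ℝ) * (Real.log H) ^ B ≤ H → ∀ z : ℕ, (Real.log H) ^ E₀ ≤ z →
  (z : ℝ) ≤ (Real.log H) ^ E₁ → ∀ g : Fin k → ℕ → ℤ, (∀ i, ∀ n ∈ Icc 1 T, |g i n| ≤ H * n) →
  ∀ w : ℕ → ℝ, (∀ n, |w n| ≤ 1) → ∃ Bad : Finset (Fin k → ℕ × ℕ), Bad ⊆ Bx k H ∧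
    (Bad.card : ℝ) ≤ ((H : ℝ) ^ 2) ^ k / (Real.log H) ^ A ∧
    ∀ v ∈ Bx k H, v ∉ Bad → ∀ y : ℕ, (Real.log H) ^ B ≤ y → y ≤ T →
      |∑ n ∈ Icc 1 y, w n * (∏ i, lamI (vl g v i n) - ∏ i, lamzI z (vl g v i n))| ≤ y / (Real.log H) ^ A

end Pool.Agent.helper24_UT
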