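import Pool.Agent.H43.G.R_pool_sql_team_seeded_620a6dc7.helper24_UT_.Stm4

set_option autoImplicit false

namespace Pool.Agent.helper24_UT.TI2

open Finset
open Pool.Agent.helper24_UT
open Pool.Agent.H376R2.MR (ch er DP FK)

/-- one step -/
theorem step {F G F' : ℝ → ℂ} {c q M : ℝ} (hq : 0 ≤ q)
    (hG : ∀ x ∈ Set.Icc c (c + q), HasDerivAt G (F x) x)
    (hF : ∀ x ∈ Set.Icc c (c + q), HasDerivAt F (F' x) x)
    (hM : ∀ x ∈ Set.Icc c (c + q), ‖F' x‖ ≤ M) :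
    ‖G (c + q) - G c - (q : ℂ) * F c‖ ≤ M * q * q := by
  have hM0 : 0 ≤ M := (norm_nonneg _).trans (hM c ⟨le_rfl, by linarith⟩)
  have h1 : ∀ x ∈ Set.Icc c (c + q), ‖F x - F c‖ ≤ M * (x - c) :=
    norm_image_sub_le_of_norm_deriv_le_segment'
      (fun x hx => (hF x hx).hasDerivWithinAt) (fun x hx => hM x (Set.Ico_subset_Icc_self hx))
  have h2 : ∀ x ∈ Set.Icc c (c + q), ‖(G x - (x : ℂ) * F c) - (G c - (c : ℂ) * F c)‖ ≤
      M * q * (x - c) := by
    refine norm_image_sub_le_of_norm_deriv_le_segment' (f' := fun x => F x - F c) ?_ ?_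
    · intro x hx
      have h3 : HasDerivAt (fun x : ℝ => (x : ℂ) * F c) (1 * F c) x :=
        (Complex.ofRealCLM.hasDerivAt (x := x)).mul_const (F c)
      rw [one_mul] at h3
      exact ((hG x hx).sub h3).hasDerivWithinAt
    · intro x hx
      refine (h1 x (Set.Ico_subset_Icc_self hx)).trans ?_
      have : x - c ≤ q := by linarith [hx.2]
      exact mul_le_mul_of_nonneg_left this hM0
  have h3 := h2 (c + q) ⟨by linarith, le_rfl⟩
  have h4 : (G (c + q) - ((c + q : ℝ) : ℂ) * F c) - (G c - (c : ℂ) * F c) =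
      G (c + q) - G c - (q : ℂ) * F c := by push_cast; ring
  rw [h4] at h3
  refine h3.trans ?_
  rw [add_sub_cancel_left]

/-- sums over an arithmetic progression -/
theorem progSum {F G F' : ℝ → ℂ} {q s a b : ℕ} {M : ℝ} (hab : a ≤ b)
    (hG : ∀ x : ℝ, (s + q * a : ℝ) ≤ x → x ≤ s + q * b → HasDerivAt G (F x) x)
    (hF : ∀ x : ℝ, (s + q * a : ℝ) ≤ x → x ≤ s + q * b → HasDerivAt F (F' x) x)
    (hM : ∀ x : ℝ, (s + q * a : ℝ) ≤ x → x ≤ s + q * b → ‖F' x‖ ≤ M) :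
    ‖(q : ℂ) * ∑ j ∈ Ico a b, F (s + q * j) - (G (s + q * b) - G (s + q * a))‖ ≤
      (b - a) * (M * q * q) := by
  induction b, hab using Nat.le_induction with
  | base => simp
  | succ b hab ih =>
    have hq : (0 : ℝ) ≤ q := Nat.cast_nonneg q
    have ih' := ih (fun x h1 h2 => hG x h1 (h2.trans (by push_cast; nlinarith)))
      (fun x h1 h2 => hF x h1 (h2.trans (by push_cast; nlinarith)))
      (fun x h1 h2 => hM x h1 (h2.trans (by push_cast; nlinarith)))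
    have hab' : (a : ℝ) ≤ b := by exact_mod_cast hab
    have hle : ∀ x : ℝ, x ∈ Set.Icc ((s + q * b : ℝ)) (s + q * b + q) → (s + q * a : ℝ) ≤ x ∧
        x ≤ s + q * ((b + 1 : ℕ) : ℝ) := by
      intro x hx
      have := mul_le_mul_of_nonneg_left hab' hq
      constructor
      · linarith [hx.1]
      · push_cast; linarith [hx.2]
    have hst := step (F := F) (G := G) (F' := F') (c := (s + q * b : ℝ)) (q := q) (M := M) hq
      (fun x hx => hG x (hle x hx).1 (hle x hx).2) (fun x hx => hF x (hle x hx).1 (hle x hx).2)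
      (fun x hx => hM x (hle x hx).1 (hle x hx).2)
    rw [Finset.sum_Ico_succ_top hab]
    have e1 : (s + q * ((b + 1 : ℕ) : ℝ) : ℝ) = s + q * b + q := by push_cast; ring
    rw [e1]
    have e2 : (q : ℂ) * (∑ j ∈ Ico a b, F (s + q * j) + F (s + q * b)) -
        (G (s + q * b + q) - G (s + q * a)) =
        ((q : ℂ) * ∑ j ∈ Ico a b, F (s + q * j) - (G (s + q * b) - G (s + q * a))) -
        (G (s + q * b + q) - G (s + q * b) - ((q : ℝ) : ℂ) * F (s + q * b)) := by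
      push_cast; ring
    rw [e2]
    refine (norm_sub_le _ _).trans ?_
    push_cast at hst ⊢
    linarith

/-- the class of `s` modulo `q` in an interval -/
theorem image_class {q s x₁ x₂ : ℕ} (hs : s < q) :
    (Ioc x₁ x₂).filter (fun c => c % q = s) =
      (Ico ((x₁ + q - s) / q) ((x₂ + q - s) / q)).image (fun j => s + q * j) := by
  have hq : 0 < q := by omega
  ext c
  simp only [mem_filter, mem_Ioc, mem_image, mem_Ico]
  constructor
  · rintro ⟨⟨h1, h2⟩, h3⟩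
    refine ⟨c / q, ⟨?_, ?_⟩, ?_⟩
    · rw [← Nat.lt_succ_iff, Nat.div_lt_iff_lt_mul hq]
      have := Nat.div_add_mod c q
      rw [h3] at this
      have h4 : (c / q).succ * q = q * (c / q) + q := by rw [Nat.succ_mul, mul_comm]
      omega
    · rw [Nat.lt_iff_add_one_le, Nat.le_div_iff_mul_le hq]
      have := Nat.div_add_mod c q
      rw [h3] at this
      have h4 : (c / q + 1) * q = q * (c / q) + q := by rw [Nat.succ_mul, mul_comm]
      omega
    · have := Nat.div_add_mod c q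
      omega
  · rintro ⟨j, ⟨h1, h2⟩, rfl⟩
    rw [← Nat.lt_succ_iff, Nat.div_lt_iff_lt_mul hq] at h1
    rw [Nat.lt_iff_add_one_le, Nat.le_div_iff_mul_le hq] at h2
    have h4 : j.succ * q = q * j + q := by rw [Nat.succ_mul, mul_comm]
    have h5 : (j + 1) * q = q * j + q := by rw [Nat.succ_mul, mul_comm]
    refine ⟨⟨by omega, by omega⟩, ?_⟩
    rw [Nat.add_mul_mod_self_left, Nat.mod_eq_of_lt hs]

/-- sums over a class -/
theorem classSum {F G F' : ℝ → ℂ} {q s x₁ x₂ : ℕ} {M P : ℝ} (hs : s < q) (h12 : x₁ ≤ x₂)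
    (hM0 : 0 ≤ M)
    (hG : ∀ x : ℝ, 0 < x → HasDerivAt G (F x) x)
    (hF : ∀ x : ℝ, 0 < x → HasDerivAt F (F' x) x)
    (hM : ∀ x : ℝ, (x₁ + 1 : ℝ) ≤ x → x ≤ x₂ + q → ‖F' x‖ ≤ M)
    (hP : ∀ x : ℝ, 1 ≤ x → x ≤ x₂ + q → ‖G x‖ ≤ P) :
    ‖∑ c ∈ (Ioc x₁ x₂).filter (fun c => c % q = s), F c‖ ≤ 2 * P + (x₂ - x₁ + q) * M := by
  have hq : 0 < q := by omega
  have hqR : (1 : ℝ) ≤ q := by exact_mod_cast hq
  have hP0 : 0 ≤ P := (norm_nonneg _).trans (hP 1 le_rfl (by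
    have : (0 : ℝ) ≤ x₂ := Nat.cast_nonneg _
    linarith))
  have h12' : (x₁ : ℝ) ≤ x₂ := by exact_mod_cast h12
  rw [image_class hs, Finset.sum_image (by
    intro i _ j _ h
    have h' : q * i = q * j := by simpa using h
    exact Nat.eq_of_mul_eq_mul_left hq h')]
  set a := (x₁ + q - s) / q with ha
  set b := (x₂ + q - s) / q with hb
  have hab : a ≤ b := Nat.div_le_div_right (by omega)
  -- the end points
  have ha1 : x₁ + 1 ≤ s + q * a := by
    have := Nat.lt_mul_div_succ (x₁ + q - s) hq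
    rw [← ha] at this
    have h4 : q * (a + 1) = q * a + q := by ring
    omega
  have hb1 : s + q * b ≤ x₂ + q := by
    have := Nat.mul_div_le (x₂ + q - s) q
    rw [← hb] at this
    omega
  have ha1' : (x₁ : ℝ) + 1 ≤ s + q * a := by exact_mod_cast ha1
  have hb1' : (s : ℝ) + q * b ≤ x₂ + q := by exact_mod_cast hb1
  have hab' : (s : ℝ) + q * a ≤ s + q * b := by
    have : (a : ℝ) ≤ b := by exact_mod_cast hab
    have := mul_le_mul_of_nonneg_left this (by linarith : (0 : ℝ) ≤ q)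
    linarith
  have hx1 : (0 : ℝ) ≤ x₁ := Nat.cast_nonneg _
  have hbnd := progSum (F := F) (G := G) (F' := F') (q := q) (s := s) (M := M) hab
    (fun x h1 h2 => hG x (by linarith)) (fun x h1 h2 => hF x (by linarith))
    (fun x h1 h2 => hM x (by linarith) (by linarith))
  have hba : ((b : ℝ) - a) * (M * q * q) ≤ ((x₂ - x₁ + q) * M) * q := by
    have h1 : (q : ℝ) * (b - a) ≤ x₂ - x₁ + q := by linarith
    have h2 := mul_le_mul_of_nonneg_right h1 (mul_nonneg hM0 (by linarith : (0 : ℝ) ≤ q))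
    linarith
  have hGa := hP (s + q * a) (by linarith) (by linarith)
  have hGb := hP (s + q * b) (by linarith) (by linarith)
  have h5 : (q : ℝ) * ‖∑ j ∈ Ico a b, F (s + q * j)‖ ≤ 2 * P + ((x₂ - x₁ + q) * M) * q := by
    have e1 : (q : ℝ) * ‖∑ j ∈ Ico a b, F (s + q * j)‖ =
        ‖(q : ℂ) * ∑ j ∈ Ico a b, F (s + q * j)‖ := by
      rw [norm_mul, Complex.norm_natCast]
    rw [e1]
    have e2 : (q : ℂ) * ∑ j ∈ Ico a b, F (s + q * j) =
      ((q : ℂ) * ∑ j ∈ Ico a b, F (s + q * j) - (G (s + q * b) - G (s + q * a))) +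
      (G (s + q * b) - G (s + q * a)) := by ring
    rw [e2]
    refine (norm_add_le _ _).trans ?_
    have := norm_sub_le (G (s + q * b)) (G (s + q * a))
    linarith
  have h6 : (q : ℝ) * ‖∑ j ∈ Ico a b, F (s + q * j)‖ ≤ q * (2 * P + (x₂ - x₁ + q) * M) := by
    have : 2 * P ≤ q * (2 * P) := by nlinarith
    linarith
  have h7 := le_of_mul_le_mul_left h6 (by linarith)
  simpa using h7

/-- the character as a function of a positive real -/
theorem hasDerivAt_ch (k : ℤ) {x : ℝ} (hx : 0 < x) :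
    HasDerivAt (fun y : ℝ => ch k (Real.log y)) (ch k (Real.log x) * (-(k : ℂ) * Complex.I / x)) x := by
  unfold ch
  have h1 : HasDerivAt (fun y : ℝ => ((k * Real.log y : ℝ) : ℂ)) ((k * x⁻¹ : ℝ) : ℂ) x :=
    ((Real.hasDerivAt_log hx.ne').const_mul (k : ℝ)).ofReal_comp
  have h2 : HasDerivAt (fun y : ℝ => Complex.exp (-((k * Real.log y : ℝ) : ℂ) * Complex.I))
      (Complex.exp (-((k * Real.log x : ℝ) : ℂ) * Complex.I) *
        (-((k * x⁻¹ : ℝ) : ℂ) * Complex.I)) x := ((h1.neg).mul_const Complex.I).cexp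
  refine h2.congr_deriv ?_
  push_cast
  field_simp

theorem norm_ch (k : ℤ) (x : ℝ) : ‖ch k x‖ = 1 := by
  unfold ch
  have : (-((k * x : ℝ) : ℂ)) * Complex.I = ((-(k * x) : ℝ) : ℂ) * Complex.I := by push_cast; ring
  rw [this, Complex.norm_exp_ofReal_mul_I]

noncomputable def FF (k : ℤ) (i : ℕ) (x : ℝ) : ℂ := (((Real.log x) ^ i : ℝ) : ℂ) * ch k (Real.log x)

noncomputable def GG (k : ℤ) (i : ℕ) (x : ℝ) : ℂ :=
  if i = 0 then (x : ℂ) * ch k (Real.log x) / (1 - k * Complex.I)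
  else (x : ℂ) * ch k (Real.log x) *
    ((Real.log x : ℂ) / (1 - k * Complex.I) - 1 / (1 - k * Complex.I) ^ 2)

noncomputable def FD (k : ℤ) (i : ℕ) (x : ℝ) : ℂ :=
  if i = 0 then ch k (Real.log x) * (-(k : ℂ) * Complex.I / x)
  else ch k (Real.log x) * ((1 : ℂ) / x - (k : ℂ) * Complex.I * (Real.log x : ℂ) / x)

theorem den_ne (k : ℤ) : (1 : ℂ) - k * Complex.I ≠ 0 := by
  intro h
  have := congrArg Complex.re h
  simp at this

theorem norm_den (k : ℤ) (hk : k ≠ 0) : |(k : ℝ)| ≤ ‖(1 : ℂ) - k * Complex.I‖ ∧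
    1 ≤ ‖(1 : ℂ) - k * Complex.I‖ := by
  constructor
  · have := Complex.abs_im_le_norm ((1 : ℂ) - k * Complex.I)
    simpa using this
  · have := Complex.abs_re_le_norm ((1 : ℂ) - k * Complex.I)
    simpa using this

theorem hasDerivAt_FF (k : ℤ) {i : ℕ} (hi : i ≤ 1) {x : ℝ} (hx : 0 < x) :
    HasDerivAt (FF k i) (FD k i x) x := by
  have hx' : (x : ℂ) ≠ 0 := by exact_mod_cast hx.ne'
  interval_cases i
  · have h : FF k 0 = fun y : ℝ => ch k (Real.log y) := by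
      funext y; simp [FF]
    rw [h]
    simpa [FD] using hasDerivAt_ch k hx
  · have h : FF k 1 = fun y : ℝ => (Real.log y : ℂ) * ch k (Real.log y) := by
      funext y; simp [FF]
    rw [h]
    have h1 : HasDerivAt (fun y : ℝ => (Real.log y : ℂ)) ((x⁻¹ : ℝ) : ℂ) x :=
      (Real.hasDerivAt_log hx.ne').ofReal_comp
    have h2 := h1.mul (hasDerivAt_ch k hx)
    refine HasDerivAt.congr_deriv (f := fun y : ℝ => (Real.log y : ℂ) * ch k (Real.log y)) h2 ?_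
    simp only [FD]
    norm_num
    field_simp
    ring

theorem hasDerivAt_GG (k : ℤ) {i : ℕ} (hi : i ≤ 1) {x : ℝ} (hx : 0 < x) :
    HasDerivAt (GG k i) (FF k i x) x := by
  have hx' : (x : ℂ) ≠ 0 := by exact_mod_cast hx.ne'
  have hd := den_ne k
  have hid : HasDerivAt (fun y : ℝ => (y : ℂ)) 1 x := Complex.ofRealCLM.hasDerivAt (x := x)
  have h0 := hid.mul (hasDerivAt_ch k hx)
  interval_cases i
  · have h : GG k 0 = fun y : ℝ => (y : ℂ) * ch k (Real.log y) / (1 - k * Complex.I) := by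
      funext y; simp [GG]
    rw [h]
    have h1 := h0.div_const (1 - (k : ℂ) * Complex.I)
    refine HasDerivAt.congr_deriv
      (f := fun y : ℝ => (y : ℂ) * ch k (Real.log y) / (1 - k * Complex.I)) h1 ?_
    simp only [FF]
    field_simp
    push_cast
    ring
  · have h : GG k 1 = fun y : ℝ => (y : ℂ) * ch k (Real.log y) *
        ((Real.log y : ℂ) / (1 - k * Complex.I) - 1 / (1 - k * Complex.I) ^ 2) := by
      funext y; simp [GG]
    rw [h]
    have h1 : HasDerivAt (fun y : ℝ => (Real.log y : ℂ)) ((x⁻¹ : ℝ) : ℂ) x :=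
      (Real.hasDerivAt_log hx.ne').ofReal_comp
    have h2 := (h1.div_const (1 - (k : ℂ) * Complex.I)).sub_const (1 / (1 - (k : ℂ) * Complex.I) ^ 2)
    have h3 := h0.mul h2
    refine HasDerivAt.congr_deriv (f := fun y : ℝ => (y : ℂ) * ch k (Real.log y) *
        ((Real.log y : ℂ) / (1 - k * Complex.I) - 1 / (1 - k * Complex.I) ^ 2)) h3 ?_
    simp only [FF, Pi.mul_apply]
    push_cast
    field_simp
    ring


theorem norm_FD (k : ℤ) (i : ℕ) {x Λ : ℝ} (hx : 1 ≤ x) (hΛ : 1 ≤ Λ) (hl : Real.log x ≤ Λ) :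
    ‖FD k i x‖ ≤ (1 + |(k : ℝ)|) * Λ / x := by
  have hx0 : 0 < x := by linarith
  have hl0 : 0 ≤ Real.log x := Real.log_nonneg hx
  have hk : 0 ≤ |(k : ℝ)| := abs_nonneg _
  unfold FD
  split_ifs with h
  · rw [norm_mul, norm_ch, one_mul, norm_div, norm_mul, norm_neg, Complex.norm_I, mul_one,
      Complex.norm_intCast, Complex.norm_real, Real.norm_eq_abs, abs_of_pos hx0]
    gcongr
    nlinarith
  · rw [norm_mul, norm_ch, one_mul, ← sub_div, norm_div, Complex.norm_real, Real.norm_eq_abs,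
      abs_of_pos hx0]
    gcongr
    refine (norm_sub_le _ _).trans ?_
    rw [norm_one, norm_mul, norm_mul, Complex.norm_I, mul_one, Complex.norm_intCast,
      Complex.norm_real, Real.norm_eq_abs, abs_of_nonneg hl0]
    nlinarith

theorem norm_GG {k : ℤ} (hk : k ≠ 0) (i : ℕ) {x Λ : ℝ} (hx : 1 ≤ x) (hΛ : 1 ≤ Λ)
    (hl : Real.log x ≤ Λ) : ‖GG k i x‖ ≤ x * (2 * Λ) / |(k : ℝ)| := by
  have hx0 : 0 < x := by linarith
  have hl0 : 0 ≤ Real.log x := Real.log_nonneg hx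
  have hkR : 0 < |(k : ℝ)| := abs_pos.2 (by exact_mod_cast hk)
  obtain ⟨d1, d2⟩ := norm_den k hk
  have d0 : 0 < ‖(1 : ℂ) - k * Complex.I‖ := by linarith
  unfold GG
  split_ifs with h
  · rw [norm_div, norm_mul, norm_ch, mul_one, Complex.norm_real, Real.norm_eq_abs, abs_of_pos hx0]
    rw [div_le_div_iff₀ d0 hkR]
    have h1 : x * |(k : ℝ)| ≤ x * ‖(1 : ℂ) - k * Complex.I‖ := mul_le_mul_of_nonneg_left d1 hx0.le
    have h2 : x * 1 ≤ x * (2 * Λ) := mul_le_mul_of_nonneg_left (by linarith) hx0.le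
    nlinarith
  · rw [norm_mul, norm_mul, norm_ch, mul_one, Complex.norm_real, Real.norm_eq_abs, abs_of_pos hx0,
      mul_div_assoc]
    refine mul_le_mul_of_nonneg_left ?_ hx0.le
    refine (norm_sub_le _ _).trans ?_
    rw [norm_div, norm_div, norm_pow, norm_one, Complex.norm_real, Real.norm_eq_abs,
      abs_of_nonneg hl0]
    have h1 : Real.log x / ‖(1 : ℂ) - k * Complex.I‖ ≤ Λ / |(k : ℝ)| := by
      rw [div_le_div_iff₀ d0 hkR]
      exact mul_le_mul hl d1 hkR.le (by linarith)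
    have h2 : 1 / ‖(1 : ℂ) - k * Complex.I‖ ^ 2 ≤ Λ / |(k : ℝ)| := by
      rw [div_le_div_iff₀ (by positivity) hkR]
      have : |(k : ℝ)| * 1 ≤ ‖(1 : ℂ) - k * Complex.I‖ * ‖(1 : ℂ) - k * Complex.I‖ :=
        mul_le_mul d1 d2 zero_le_one d0.le
      nlinarith
    have h3 : Λ / |(k : ℝ)| + Λ / |(k : ℝ)| = 2 * Λ / |(k : ℝ)| := by ring
    linarith

/-- the inner sum over one class -/
theorem inner {k : ℤ} (hk : k ≠ 0) {i q s b Y : ℕ} (hi : i ≤ 1) (hs : s < q) (hb : 1 ≤ b) (hbY : b ≤ Y)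
    (hqY : q ≤ Y) {Λ : ℝ} (hΛ : 1 ≤ Λ) (hl : Real.log (4 * Y) ≤ Λ) :
    ‖∑ c ∈ (Ioc (Y / b) (3 * Y / b)).filter (fun c => c % q = s), FF k i c‖ ≤
      4 * Λ * (3 * Y / b + q) / |(k : ℝ)| + (3 + q) * ((1 + |(k : ℝ)|) * Λ) := by
  have hkR : 0 < |(k : ℝ)| := abs_pos.2 (by exact_mod_cast hk)
  have hbR : (1 : ℝ) ≤ b := by exact_mod_cast hb
  have hYR : (1 : ℝ) ≤ Y := by exact_mod_cast hb.trans hbY
  have hqR : (1 : ℝ) ≤ q := by exact_mod_cast (by omega : 1 ≤ q)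
  have hqYR : (q : ℝ) ≤ Y := by exact_mod_cast hqY
  have h12 : Y / b ≤ 3 * Y / b := Nat.div_le_div_right (by omega)
  have hx1 : (Y : ℝ) < b * ((Y / b : ℕ) + 1) := by
    have := Nat.lt_mul_div_succ Y (by omega : 0 < b)
    exact_mod_cast this
  have hx2 : (((3 * Y / b : ℕ)) : ℝ) ≤ 3 * Y / b := by
    have := @Nat.cast_div_le ℝ _ _ _ (3 * Y) b
    push_cast at this
    exact this
  have hx2' : (((3 * Y / b : ℕ)) : ℝ) ≤ 3 * Y := hx2.trans (div_le_self (by linarith) hbR)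
  have hx10 : (0 : ℝ) ≤ ((Y / b : ℕ) : ℝ) := Nat.cast_nonneg _
  have hlx : ∀ x : ℝ, 1 ≤ x → x ≤ ((3 * Y / b : ℕ) : ℝ) + q → Real.log x ≤ Λ := by
    intro x h1 h2
    refine (Real.log_le_log (by linarith) ?_).trans hl
    linarith
  have hM0 : 0 ≤ (1 + |(k : ℝ)|) * Λ / (((Y / b : ℕ) : ℝ) + 1) := by positivity
  have key := classSum (F := FF k i) (G := GG k i) (F' := FD k i) (q := q) (s := s)
    (x₁ := Y / b) (x₂ := 3 * Y / b) (M := (1 + |(k : ℝ)|) * Λ / (((Y / b : ℕ) : ℝ) + 1))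
    (P := (((3 * Y / b : ℕ) : ℝ) + q) * (2 * Λ) / |(k : ℝ)|) hs h12 hM0
    (fun x hx => hasDerivAt_GG k hi hx) (fun x hx => hasDerivAt_FF k hi hx)
    (fun x h1 h2 => by
      refine (norm_FD k i (by linarith) hΛ (hlx x (by linarith) h2)).trans ?_
      gcongr)
    (fun x h1 h2 => by
      refine (norm_GG hk i h1 hΛ (hlx x h1 h2)).trans ?_
      gcongr)
  refine key.trans ?_
  have e1 : 2 * ((((3 * Y / b : ℕ) : ℝ) + q) * (2 * Λ) / |(k : ℝ)|) ≤
      4 * Λ * (3 * Y / b + q) / |(k : ℝ)| := by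
    rw [← mul_div_assoc]
    gcongr ?_ / _
    nlinarith
  have e2 : ((((3 * Y / b : ℕ)) : ℝ) - ((Y / b : ℕ) : ℝ) + q) *
      ((1 + |(k : ℝ)|) * Λ / (((Y / b : ℕ) : ℝ) + 1)) ≤ (3 + q) * ((1 + |(k : ℝ)|) * Λ) := by
    rw [← mul_div_assoc, div_le_iff₀ (by linarith)]
    have h3 : (3 * Y / b : ℝ) ≤ 3 * (((Y / b : ℕ) : ℝ) + 1) := by
      rw [div_le_iff₀ (by linarith)]
      nlinarith
    have h4 : (((3 * Y / b : ℕ)) : ℝ) - ((Y / b : ℕ) : ℝ) + q ≤
        (3 + q) * (((Y / b : ℕ) : ℝ) + 1) := by nlinarith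
    have h5 : 0 ≤ (1 + |(k : ℝ)|) * Λ := by positivity
    calc _ ≤ (3 + q) * (((Y / b : ℕ) : ℝ) + 1) * ((1 + |(k : ℝ)|) * Λ) :=
          mul_le_mul_of_nonneg_right h4 h5
      _ = _ := by ring
  linarith


theorem ch_add (k : ℤ) (x y : ℝ) : ch k (x + y) = ch k x * ch k y := by
  unfold ch
  rw [← Complex.exp_add]
  congr 1
  push_cast
  ring

theorem dp_eq (Y q r D : ℕ) (γ : ℕ → ℂ) (i : ℕ) (k : ℤ) :
    DP ((Ioc Y (3 * Y)).filter (fun n => n % q = r % q)) (fun n => ∑ b ∈ n.divisors.filter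
      (fun b => b ≤ D), γ b * (((Real.log ((n / b : ℕ) : ℝ)) ^ i : ℝ) : ℂ)) k =
    ∑ b ∈ Icc 1 D, γ b * ch k (Real.log b) *
      ∑ c ∈ (Ioc (Y / b) (3 * Y / b)).filter (fun c => (b * c) % q = r % q), FF k i c := by
  unfold DP
  simp only [Finset.sum_mul]
  rw [Finset.sum_comm' (s' := fun b => ((Ioc Y (3 * Y)).filter (fun n => n % q = r % q)).filter
    (fun n => b ∣ n)) (t' := Icc 1 D)]
  · refine Finset.sum_congr rfl fun b hb => ?_
    have hb1 : 0 < b := (mem_Icc.1 hb).1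
    rw [Finset.mul_sum]
    refine Finset.sum_nbij' (fun n => n / b) (fun c => b * c) ?_ ?_ ?_ ?_ ?_
    · intro n hn
      simp only [mem_filter, mem_Ioc] at hn ⊢
      obtain ⟨⟨⟨h1, h2⟩, h3⟩, c, rfl⟩ := hn
      rw [Nat.mul_div_cancel_left _ hb1]
      refine ⟨⟨?_, ?_⟩, h3⟩
      · rw [Nat.div_lt_iff_lt_mul hb1, mul_comm]; exact h1
      · rw [Nat.le_div_iff_mul_le hb1, mul_comm]; exact h2
    · intro c hc
      simp only [mem_filter, mem_Ioc] at hc ⊢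
      obtain ⟨⟨h1, h2⟩, h3⟩ := hc
      rw [Nat.div_lt_iff_lt_mul hb1, mul_comm] at h1
      rw [Nat.le_div_iff_mul_le hb1, mul_comm] at h2
      exact ⟨⟨⟨h1, h2⟩, h3⟩, dvd_mul_right _ _⟩
    · intro n hn
      simp only [mem_filter, mem_Ioc] at hn
      exact Nat.mul_div_cancel' hn.2
    · intro c _
      exact Nat.mul_div_cancel_left _ hb1
    · intro n hn
      simp only [mem_filter, mem_Ioc] at hn
      obtain ⟨⟨⟨h1, h2⟩, h3⟩, c, rfl⟩ := hn
      have hc : 0 < c := by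
        rcases Nat.eq_zero_or_pos c with rfl | h
        · simp at h1
        · exact h
      rw [Nat.mul_div_cancel_left _ hb1]
      have e1 : Real.log ((b * c : ℕ) : ℝ) = Real.log b + Real.log c := by
        push_cast
        exact Real.log_mul (by positivity) (by positivity)
      rw [e1, ch_add]
      unfold FF
      ring
  · intro n b
    simp only [mem_filter, mem_Ioc, mem_Icc, Nat.mem_divisors]
    constructor
    · rintro ⟨⟨⟨h1, h2⟩, h3⟩, ⟨h4, h5⟩, h6⟩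
      exact ⟨⟨⟨⟨h1, h2⟩, h3⟩, h4⟩, Nat.pos_of_dvd_of_pos h4 (by omega), h6⟩
    · rintro ⟨⟨⟨⟨h1, h2⟩, h3⟩, h4⟩, h5, h6⟩
      exact ⟨⟨⟨h1, h2⟩, h3⟩, ⟨h4, by omega⟩, h6⟩

theorem class_split (q r b x₁ x₂ : ℕ) (hq : 1 ≤ q) (F : ℕ → ℂ) :
    ∑ c ∈ (Ioc x₁ x₂).filter (fun c => (b * c) % q = r % q), F c =
      ∑ s ∈ (range q).filter (fun s => (b * s) % q = r % q),
        ∑ c ∈ (Ioc x₁ x₂).filter (fun c => c % q = s), F c := by
  rw [Finset.sum_comm' (s' := fun c => (range q).filter (fun s => (b * s) % q = r % q ∧ c % q = s))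
    (t' := Ioc x₁ x₂)]
  · rw [Finset.sum_filter]
    refine Finset.sum_congr rfl fun c _ => ?_
    split_ifs with h
    · have : (range q).filter (fun s => (b * s) % q = r % q ∧ c % q = s) = {c % q} := by
        ext s
        simp only [mem_filter, mem_range, mem_singleton]
        constructor
        · rintro ⟨_, _, h3⟩; exact h3.symm
        · rintro rfl
          refine ⟨Nat.mod_lt _ hq, ?_, rfl⟩
          rw [← h, Nat.mul_mod, Nat.mod_mod, ← Nat.mul_mod]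
      rw [this, Finset.sum_singleton]
    · have : (range q).filter (fun s => (b * s) % q = r % q ∧ c % q = s) = ∅ := by
        ext s
        simp only [mem_filter, mem_range, notMem_empty, iff_false]
        rintro ⟨_, h2, rfl⟩
        apply h
        rw [← h2, Nat.mul_mod b (c % q), Nat.mod_mod, ← Nat.mul_mod]
      rw [this, Finset.sum_empty]
  · intro s c
    simp only [mem_filter, mem_range, mem_Ioc]
    tauto

/-- the pointwise bound -/
theorem pointwise {k : ℤ} (hk : k ≠ 0) {i q r D Y : ℕ} (hi : i ≤ 1) (hq : 1 ≤ q) (hD : D ≤ Y)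
    (hqY : q ≤ Y) {Λ : ℝ} (hΛ : 1 ≤ Λ) (hl : Real.log (4 * Y) ≤ Λ) {γ : ℕ → ℂ}
    (hγ : ∀ b, ‖γ b‖ ≤ Real.log (b + 3)) :
    ‖DP ((Ioc Y (3 * Y)).filter (fun n => n % q = r % q)) (fun n => ∑ b ∈ n.divisors.filter
      (fun b => b ≤ D), γ b * (((Real.log ((n / b : ℕ) : ℝ)) ^ i : ℝ) : ℂ)) k‖ ≤
      Λ ^ 2 * q * (24 * Λ * Y / |(k : ℝ)| + 12 * D * q * |(k : ℝ)|) := by
  have hkR : 1 ≤ |(k : ℝ)| := by
    have : 1 ≤ |k| := Int.one_le_abs hk
    exact_mod_cast this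
  have hqR : (1 : ℝ) ≤ q := by exact_mod_cast hq
  have hYR : (1 : ℝ) ≤ Y := by exact_mod_cast hq.trans hqY
  rw [dp_eq]
  refine (norm_sum_le _ _).trans ?_
  have h1 : ∀ b ∈ Icc 1 D, ‖γ b * ch k (Real.log b) *
      ∑ c ∈ (Ioc (Y / b) (3 * Y / b)).filter (fun c => (b * c) % q = r % q), FF k i c‖ ≤
      Λ * (q * (4 * Λ * (3 * Y / b + q) / |(k : ℝ)| + (3 + q) * ((1 + |(k : ℝ)|) * Λ))) := by
    intro b hb
    obtain ⟨hb1, hb2⟩ := mem_Icc.1 hb
    have hbR : (1 : ℝ) ≤ b := by exact_mod_cast hb1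
    rw [norm_mul, norm_mul, norm_ch, mul_one]
    refine mul_le_mul ?_ ?_ (norm_nonneg _) (by linarith)
    · refine (hγ b).trans ((Real.log_le_log (by linarith) ?_).trans hl)
      have h2 : (b : ℝ) ≤ Y := by exact_mod_cast hb2.trans hD
      linarith
    · rw [class_split q r b _ _ hq]
      refine (norm_sum_le _ _).trans ?_
      have h3 : ∀ s ∈ (range q).filter (fun s => (b * s) % q = r % q),
          ‖∑ c ∈ (Ioc (Y / b) (3 * Y / b)).filter (fun c => c % q = s), FF k i c‖ ≤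
          4 * Λ * (3 * Y / b + q) / |(k : ℝ)| + (3 + q) * ((1 + |(k : ℝ)|) * Λ) := by
        intro s hs
        exact inner hk hi (mem_range.1 (mem_filter.1 hs).1) hb1 (hb2.trans hD) hqY hΛ hl
      refine (Finset.sum_le_card_nsmul _ _ _ h3).trans ?_
      rw [nsmul_eq_mul]
      refine mul_le_mul_of_nonneg_right ?_ (by positivity)
      have h4 : ((range q).filter (fun s => (b * s) % q = r % q)).card ≤ q := by
        calc _ ≤ (range q).card := card_filter_le _ _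
          _ = q := card_range q
      exact_mod_cast h4
  refine (Finset.sum_le_sum h1).trans ?_
  have hsum : ∑ b ∈ Icc 1 D, (3 * (Y : ℝ) / b) ≤ 3 * Y * (2 * Λ) := by
    have h2 : ∑ b ∈ Icc 1 D, (3 * (Y : ℝ) / b) = 3 * Y * ∑ b ∈ Icc 1 D, ((b : ℝ))⁻¹ := by
      rw [Finset.mul_sum]
      exact Finset.sum_congr rfl fun b _ => div_eq_mul_inv _ _
    rw [h2]
    refine mul_le_mul_of_nonneg_left ?_ (by linarith)
    have h3 := harmonic_le_one_add_log D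
    rw [harmonic_eq_sum_Icc] at h3
    push_cast at h3
    refine h3.trans ?_
    rcases Nat.eq_zero_or_pos D with rfl | hD0
    · simp; linarith
    have hDR : (0 : ℝ) < D := by exact_mod_cast hD0
    have h4 : Real.log D ≤ Λ := by
      refine (Real.log_le_log hDR ?_).trans hl
      have : (D : ℝ) ≤ Y := by exact_mod_cast hD
      linarith
    linarith
  have e1 : ∑ b ∈ Icc 1 D, Λ * (q * (4 * Λ * (3 * (Y : ℝ) / b + q) / |(k : ℝ)| +
      (3 + q) * ((1 + |(k : ℝ)|) * Λ))) =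
      Λ * q * (4 * Λ / |(k : ℝ)| * ∑ b ∈ Icc 1 D, (3 * (Y : ℝ) / b) + 4 * Λ / |(k : ℝ)| * (D * q) +
        D * ((3 + q) * ((1 + |(k : ℝ)|) * Λ))) := by
    have : ∀ b : ℕ, Λ * (q * (4 * Λ * (3 * (Y : ℝ) / b + q) / |(k : ℝ)| +
      (3 + q) * ((1 + |(k : ℝ)|) * Λ))) = Λ * q * (4 * Λ / |(k : ℝ)|) * (3 * (Y : ℝ) / b) +
      (Λ * q * (4 * Λ / |(k : ℝ)| * q) + Λ * q * ((3 + q) * ((1 + |(k : ℝ)|) * Λ))) := by
      intro b; ring
    simp only [this]
    rw [Finset.sum_add_distrib, ← Finset.mul_sum, Finset.sum_const, Nat.card_Icc, nsmul_eq_mul]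
    push_cast [Nat.add_sub_cancel]
    ring
  rw [e1]
  have hD0 : (0 : ℝ) ≤ D := Nat.cast_nonneg _
  have e2 : Λ ^ 2 * q * (24 * Λ * Y / |(k : ℝ)| + 12 * D * q * |(k : ℝ)|) =
      Λ * q * (4 * Λ / |(k : ℝ)| * (3 * Y * (2 * Λ)) + Λ * (12 * D * q * |(k : ℝ)|)) := by ring
  rw [e2]
  refine mul_le_mul_of_nonneg_left ?_ (by positivity)
  have h5 : 4 * Λ / |(k : ℝ)| * ∑ b ∈ Icc 1 D, (3 * (Y : ℝ) / b) ≤
      4 * Λ / |(k : ℝ)| * (3 * Y * (2 * Λ)) := mul_le_mul_of_nonneg_left hsum (by positivity)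
  have h6 : 4 * Λ / |(k : ℝ)| * (D * q) ≤ Λ * (4 * D * q * |(k : ℝ)|) := by
    have : 4 * Λ / |(k : ℝ)| ≤ 4 * Λ * |(k : ℝ)| := by
      rw [div_le_iff₀ (by linarith)]
      nlinarith [mul_le_mul hkR hkR zero_le_one (by linarith)]
    have h7 := mul_le_mul_of_nonneg_right this (by positivity : (0 : ℝ) ≤ D * q)
    linarith
  have h7 : D * ((3 + q) * ((1 + |(k : ℝ)|) * Λ)) ≤ Λ * (8 * D * q * |(k : ℝ)|) := by
    have h8 : (3 + q : ℝ) ≤ 4 * q := by linarith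
    have h9 : (1 + |(k : ℝ)|) ≤ 2 * |(k : ℝ)| := by linarith
    have h10 : (3 + q : ℝ) * (1 + |(k : ℝ)|) ≤ 4 * q * (2 * |(k : ℝ)|) :=
      mul_le_mul h8 h9 (by linarith) (by linarith)
    have h11 := mul_le_mul_of_nonneg_right h10 (by positivity : (0 : ℝ) ≤ D * Λ)
    linarith
  linarith


/-- sums over frequencies -/
theorem sum_freq (K : ℕ) (S : Finset ℤ) (hS : S ⊆ FK K) (h0 : ∀ k ∈ S, k ≠ 0) (g : ℕ → ℝ)
    (hg : ∀ m, 0 ≤ g m) : ∑ k ∈ S, g k.natAbs ≤ 2 * ∑ m ∈ Icc 1 K, g m := by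
  classical
  have hmaps : ∀ k ∈ S, k.natAbs ∈ Icc 1 K := by
    intro k hk
    have h1 := hS hk
    unfold FK at h1
    rw [Finset.mem_Ioo] at h1
    have h2 := h0 k hk
    rw [mem_Icc]
    omega
  rw [← Finset.sum_fiberwise_of_maps_to hmaps, Finset.mul_sum]
  refine Finset.sum_le_sum fun m _ => ?_
  have h3 : ∀ k ∈ S.filter (fun k => k.natAbs = m), g k.natAbs ≤ g m := by
    intro k hk
    rw [(mem_filter.1 hk).2]
  refine (Finset.sum_le_card_nsmul _ _ _ h3).trans ?_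
  rw [nsmul_eq_mul]
  refine mul_le_mul_of_nonneg_right ?_ (hg m)
  have h4 : S.filter (fun k => k.natAbs = m) ⊆ {(m : ℤ), -(m : ℤ)} := by
    intro k hk
    have := (mem_filter.1 hk).2
    simp only [mem_insert, mem_singleton]
    omega
  have h5 := (card_le_card h4).trans (card_le_two)
  exact_mod_cast h5

theorem large (n B : ℕ) : ∃ Y₀ : ℕ, ∀ Y : ℕ, Y₀ ≤ Y → 4 ≤ Y ∧ (1179648 : ℝ) ≤ Real.log Y ∧
    (Real.log Y) ^ B ≤ Y ∧ 18432 * (Real.log Y) ^ n ≤ (Y : ℝ) ^ (1 / 4 : ℝ) := by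
  have h1 : ∀ᶠ x : ℝ in Filter.atTop, (1179648 : ℝ) ≤ Real.log x :=
    Real.tendsto_log_atTop.eventually (Filter.eventually_ge_atTop _)
  have h2 : ∀ᶠ x : ℝ in Filter.atTop, (Real.log x) ^ B ≤ x := by
    have h := (Real.isLittleO_pow_log_id_atTop (n := B)).bound (zero_lt_one)
    filter_upwards [h, Filter.eventually_ge_atTop (1 : ℝ)] with x hx hx1
    rw [one_mul, Real.norm_eq_abs, Real.norm_eq_abs, id, abs_of_nonneg (by linarith : (0 : ℝ) ≤ x)] at hx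
    exact (le_abs_self _).trans hx
  have h3 : ∀ᶠ x : ℝ in Filter.atTop, 18432 * (Real.log x) ^ n ≤ x ^ (1 / 4 : ℝ) := by
    have h := (isLittleO_log_rpow_rpow_atTop (n : ℝ) (by norm_num : (0 : ℝ) < 1 / 4)).bound
      (by norm_num : (0 : ℝ) < 1 / 18432)
    filter_upwards [h, Filter.eventually_ge_atTop (1 : ℝ)] with x hx hx1
    have h4 : 0 ≤ Real.log x := Real.log_nonneg hx1
    rw [Real.rpow_natCast, Real.norm_eq_abs, Real.norm_eq_abs, abs_of_nonneg (by positivity),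
      abs_of_nonneg (by positivity)] at hx
    linarith
  have h4 : ∀ᶠ Y : ℕ in Filter.atTop, (1179648 : ℝ) ≤ Real.log Y ∧
    (Real.log Y) ^ B ≤ Y ∧ 18432 * (Real.log Y) ^ n ≤ (Y : ℝ) ^ (1 / 4 : ℝ) :=
    (tendsto_natCast_atTop_atTop (R := ℝ)).eventually (h1.and (h2.and h3))
  obtain ⟨N, hN⟩ := Filter.eventually_atTop.1 h4
  exact ⟨max N 4, fun Y hY => ⟨le_trans (le_max_right _ _) hY, hN Y (le_trans (le_max_left _ _) hY)⟩⟩

theorem main : S_TI2 := by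
  intro A B
  obtain ⟨Y₀, hY₀⟩ := large (4 + 4 * B + A) B
  refine ⟨A + 2 * B + 8, Y₀, ?_⟩
  intro Y hY q r hq hqB _ K₁ hK₁ D γ i hD hγ hi
  obtain ⟨h4, hL, hLB, hLn⟩ := hY₀ Y hY
  set L := Real.log Y with hLdef
  have hY4 : (4 : ℝ) ≤ Y := by exact_mod_cast h4
  have hL1 : 1 ≤ L := by linarith
  have hqY : q ≤ Y := by
    have : (q : ℝ) ≤ Y := hqB.trans hLB
    exact_mod_cast this
  have hDY : D ≤ Y := by
    have h1 : (Y : ℝ) ^ (1 / 8 : ℝ) ≤ (Y : ℝ) ^ (1 : ℝ) :=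
      Real.rpow_le_rpow_of_exponent_le (by linarith) (by norm_num)
    rw [Real.rpow_one] at h1
    exact_mod_cast hD.trans h1
  have hKY : (K₁ : ℝ) ≤ Y := by
    have h1 : (Y : ℝ) ^ (1 / 2 : ℝ) ≤ (Y : ℝ) ^ (1 : ℝ) :=
      Real.rpow_le_rpow_of_exponent_le (by linarith) (by norm_num)
    rw [Real.rpow_one] at h1
    exact hK₁.trans h1
  have hl4 : Real.log (4 * Y) ≤ 2 * L := by
    have h1 : Real.log (4 * Y) ≤ Real.log (Y ^ 2 : ℝ) :=
      Real.log_le_log (by linarith) (by nlinarith)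
    rw [Real.log_pow] at h1
    push_cast at h1
    exact h1
  have hqR : (1 : ℝ) ≤ q := by exact_mod_cast hq
  have hT1 : 1 ≤ L ^ (A + 2 * B + 8) := one_le_pow₀ hL1
  set T := L ^ (A + 2 * B + 8) with hT
  set S := (FK K₁).filter (fun k : ℤ => T ≤ |(k : ℝ)|) with hS
  have hk0 : ∀ k ∈ S, k ≠ 0 := by
    intro k hk h
    have := (mem_filter.1 hk).2
    rw [h] at this
    simp at this
    linarith
  -- the pointwise bound
  have hpt : ∀ k ∈ S, ‖DP ((Ioc Y (3 * Y)).filter (fun n => n % q = r % q)) (fun n =>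
      ∑ b ∈ n.divisors.filter (fun b => b ≤ D),
      γ b * (((Real.log ((n / b : ℕ) : ℝ)) ^ i : ℝ) : ℂ)) k‖ ^ 2 ≤
      32 * L ^ 4 * q ^ 2 * ((48 * L * Y) ^ 2 * (1 / T * (1 / (k.natAbs : ℝ))) +
        144 * D ^ 2 * q ^ 2 * K₁ ^ 2) := by
    intro k hk
    have h1 := pointwise (hk0 k hk) (r := r) hi hq hDY hqY (by linarith : (1 : ℝ) ≤ 2 * L) hl4 hγ
    have h2 := pow_le_pow_left₀ (norm_nonneg _) h1 2
    refine h2.trans ?_
    have hkT : T ≤ |(k : ℝ)| := (mem_filter.1 hk).2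
    have hkpos : 0 < |(k : ℝ)| := by linarith
    have hkK : |(k : ℝ)| ≤ K₁ := by
      have h3 := (mem_filter.1 hk).1
      unfold FK at h3
      rw [Finset.mem_Ioo] at h3
      have h4 : |k| ≤ (K₁ : ℤ) := abs_le.2 ⟨by omega, by omega⟩
      exact_mod_cast h4
    have hnat : (k.natAbs : ℝ) = |(k : ℝ)| := by
      rw [Nat.cast_natAbs, Int.cast_abs]
    rw [hnat]
    have e1 : ((2 * L) ^ 2 * q * (24 * (2 * L) * Y / |(k : ℝ)| + 12 * D * q * |(k : ℝ)|)) ^ 2 ≤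
        (2 * L) ^ 4 * q ^ 2 * (2 * ((24 * (2 * L) * Y / |(k : ℝ)|) ^ 2 +
          (12 * D * q * |(k : ℝ)|) ^ 2)) := by
      rw [mul_pow]
      have := add_sq_le (a := 24 * (2 * L) * Y / |(k : ℝ)|) (b := 12 * D * q * |(k : ℝ)|)
      have h5 : ((2 * L) ^ 2 * (q : ℝ)) ^ 2 = (2 * L) ^ 4 * q ^ 2 := by ring
      rw [h5]
      exact mul_le_mul_of_nonneg_left this (by positivity)
    refine e1.trans ?_
    have e2 : (24 * (2 * L) * Y / |(k : ℝ)|) ^ 2 ≤ (48 * L * Y) ^ 2 * (1 / T * (1 / |(k : ℝ)|)) := by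
      have h6 : (24 * (2 * L) * Y / |(k : ℝ)|) ^ 2 =
          (48 * L * Y) ^ 2 * (1 / |(k : ℝ)| * (1 / |(k : ℝ)|)) := by ring
      rw [h6]
      gcongr
    have e3 : (12 * D * q * |(k : ℝ)|) ^ 2 ≤ 144 * D ^ 2 * q ^ 2 * K₁ ^ 2 := by
      have h7 : |(k : ℝ)| ^ 2 ≤ K₁ ^ 2 := pow_le_pow_left₀ hkpos.le hkK 2
      have h8 : (12 * (D : ℝ) * q * |(k : ℝ)|) ^ 2 = 144 * D ^ 2 * q ^ 2 * |(k : ℝ)| ^ 2 := by ring
      rw [h8]
      exact mul_le_mul_of_nonneg_left h7 (by positivity)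
    have e4 : (2 * L) ^ 4 * (q : ℝ) ^ 2 * (2 * ((24 * (2 * L) * Y / |(k : ℝ)|) ^ 2 +
          (12 * D * q * |(k : ℝ)|) ^ 2)) = 32 * L ^ 4 * q ^ 2 * ((24 * (2 * L) * Y / |(k : ℝ)|) ^ 2 +
          (12 * D * q * |(k : ℝ)|) ^ 2) := by ring
    rw [e4]
    exact mul_le_mul_of_nonneg_left (add_le_add e2 e3) (by positivity)
  refine (Finset.sum_le_sum hpt).trans ?_
  rw [← Finset.mul_sum, Finset.sum_add_distrib, Finset.sum_const, nsmul_eq_mul, ← Finset.mul_sum,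
    ← Finset.mul_sum]
  -- the reciprocals
  have hrec : ∑ k ∈ S, 1 / ((k.natAbs : ℕ) : ℝ) ≤ 4 * L := by
    have h1 := sum_freq K₁ S (filter_subset _ _) hk0 (fun m => 1 / (m : ℝ)) (fun m => by positivity)
    refine h1.trans ?_
    have h3 := harmonic_le_one_add_log K₁
    rw [harmonic_eq_sum_Icc] at h3
    push_cast at h3
    have h5 : ∑ m ∈ Icc 1 K₁, 1 / (m : ℝ) ≤ 2 * L := by
      simp only [one_div]
      refine h3.trans ?_
      rcases Nat.eq_zero_or_pos K₁ with h0 | h0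
      · rw [h0]; simp; linarith
      have h4 : Real.log K₁ ≤ L := Real.log_le_log (by exact_mod_cast h0) hKY
      linarith
    linarith
  have hcard : (S.card : ℝ) ≤ 2 * K₁ := by
    have h1 : S.card ≤ (FK K₁).card := card_filter_le _ _
    have h2 : (FK K₁).card ≤ 2 * K₁ := by
      unfold FK
      rw [Int.card_Ioo]
      omega
    exact_mod_cast h1.trans h2
  -- the first part
  have hL0 : 0 ≤ L := by linarith
  have hq2 : (q : ℝ) ^ 2 ≤ L ^ (2 * B) := by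
    have := pow_le_pow_left₀ (by linarith) hqB 2
    rwa [← pow_mul, mul_comm B 2] at this
  have hq4 : (q : ℝ) ^ 4 ≤ L ^ (4 * B) := by
    have := pow_le_pow_left₀ (by linarith) hqB 4
    rwa [← pow_mul, mul_comm B 4] at this
  have hLA : 0 < L ^ A := by positivity
  have p1 : 32 * L ^ 4 * (q : ℝ) ^ 2 * ((48 * L * Y) ^ 2 *
      (1 / T * ∑ k ∈ S, 1 / ((k.natAbs : ℕ) : ℝ))) ≤ 1 / 2 * ((Y : ℝ) ^ 2 / L ^ A) := by
    calc 32 * L ^ 4 * (q : ℝ) ^ 2 * ((48 * L * Y) ^ 2 *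
      (1 / T * ∑ k ∈ S, 1 / ((k.natAbs : ℕ) : ℝ)))
        ≤ 32 * L ^ 4 * L ^ (2 * B) * ((48 * L * Y) ^ 2 * (1 / T * (4 * L))) := by gcongr
      _ = 294912 * (L ^ (7 + 2 * B) / T) * Y ^ 2 := by ring
      _ = 294912 * (1 / (L * L ^ A)) * Y ^ 2 := by
          congr 2
          rw [hT, div_eq_div_iff (by positivity) (by positivity)]
          ring
      _ ≤ _ := by
          have h5 : 294912 * (1 / (L * L ^ A)) * (Y : ℝ) ^ 2 =
            (294912 / L) * ((Y : ℝ) ^ 2 / L ^ A) := by field_simp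
          rw [h5]
          refine mul_le_mul_of_nonneg_right ?_ (by positivity)
          rw [div_le_iff₀ (by linarith)]
          linarith
  have hDK : (D : ℝ) ^ 2 * (K₁ : ℝ) ^ 3 ≤ (Y : ℝ) ^ (7 / 4 : ℝ) := by
    have hY0 : (0 : ℝ) ≤ Y := by linarith
    have h5 : (D : ℝ) ^ 2 ≤ (Y : ℝ) ^ (1 / 4 : ℝ) := by
      have := pow_le_pow_left₀ (Nat.cast_nonneg D) hD 2
      rw [← Real.rpow_natCast ((Y : ℝ) ^ (1 / 8 : ℝ)) 2, ← Real.rpow_mul hY0] at this
      have e5 : (1 / 8 : ℝ) * ((2 : ℕ) : ℝ) = 1 / 4 := by norm_num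
      rwa [e5] at this
    have h6 : (K₁ : ℝ) ^ 3 ≤ (Y : ℝ) ^ (3 / 2 : ℝ) := by
      have := pow_le_pow_left₀ (Nat.cast_nonneg K₁) hK₁ 3
      rw [← Real.rpow_natCast ((Y : ℝ) ^ (1 / 2 : ℝ)) 3, ← Real.rpow_mul hY0] at this
      have e5 : (1 / 2 : ℝ) * ((3 : ℕ) : ℝ) = 3 / 2 := by norm_num
      rwa [e5] at this
    calc (D : ℝ) ^ 2 * (K₁ : ℝ) ^ 3 ≤ (Y : ℝ) ^ (1 / 4 : ℝ) * (Y : ℝ) ^ (3 / 2 : ℝ) := by
          gcongr
      _ = (Y : ℝ) ^ (7 / 4 : ℝ) := by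
          rw [← Real.rpow_add (by linarith)]
          norm_num
  have p2 : 32 * L ^ 4 * (q : ℝ) ^ 2 * (S.card * (144 * (D : ℝ) ^ 2 * q ^ 2 * K₁ ^ 2)) ≤
      1 / 2 * ((Y : ℝ) ^ 2 / L ^ A) := by
    calc 32 * L ^ 4 * (q : ℝ) ^ 2 * (S.card * (144 * (D : ℝ) ^ 2 * q ^ 2 * K₁ ^ 2))
        ≤ 32 * L ^ 4 * (q : ℝ) ^ 2 * ((2 * K₁) * (144 * (D : ℝ) ^ 2 * q ^ 2 * K₁ ^ 2)) := by gcongr
      _ = 9216 * L ^ 4 * (q : ℝ) ^ 4 * ((D : ℝ) ^ 2 * K₁ ^ 3) := by ring
      _ ≤ 9216 * L ^ 4 * L ^ (4 * B) * (Y : ℝ) ^ (7 / 4 : ℝ) := by gcongr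
      _ = 1 / 2 * ((18432 * L ^ (4 + 4 * B + A)) * (Y : ℝ) ^ (7 / 4 : ℝ) / L ^ A) := by
          field_simp
          ring
      _ ≤ 1 / 2 * ((Y : ℝ) ^ (1 / 4 : ℝ) * (Y : ℝ) ^ (7 / 4 : ℝ) / L ^ A) := by gcongr
      _ = _ := by
          rw [← Real.rpow_add (by linarith)]
          norm_num
  rw [mul_add]
  linarith

end Pool.Agent.helper24_UT.TI2
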