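import Pool.Agent.H43.G.R_pool_sql_team_seeded_620a6dc7.helper24_UT_.Stm4
import Pool.Agent.H43.G.R_seed8.H373R2.T7.LamMaj

set_option autoImplicit false

namespace Pool.Agent.helper24_UT.Fr2

open Finset
open Pool.Agent.helper24_UT
open Pool.Agent.H376R2.MR (ch er DP FK)

lemma norm_ch (k : ℤ) (x : ℝ) : ‖ch k x‖ = 1 := by
  unfold ch
  rw [← Complex.ofReal_neg, Complex.norm_exp_ofReal_mul_I]

lemma ch_sub (k : ℤ) (x y : ℝ) : ‖ch k x - ch k y‖ ≤ |(k : ℝ)| * |x - y| := by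
  have h1 : ch k x = ch k y * Complex.exp (Complex.I * ((-(k * (x - y)) : ℝ) : ℂ)) := by
    unfold ch
    rw [← Complex.exp_add]
    congr 1
    push_cast
    ring
  have h2 : ch k x - ch k y = ch k y * (Complex.exp (Complex.I * ((-(k * (x - y)) : ℝ) : ℂ)) - 1) := by
    rw [h1]; ring
  rw [h2, norm_mul, norm_ch, one_mul]
  refine (Real.norm_exp_I_mul_ofReal_sub_one_le).trans ?_
  rw [Real.norm_eq_abs, abs_neg, abs_mul]

lemma log_sub_le {x y : ℝ} (hx : 0 < x) (hxy : x ≤ y) : |Real.log x - Real.log y| ≤ (y - x) / x := by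
  have hy : 0 < y := hx.trans_le hxy
  have h1 : Real.log x ≤ Real.log y := Real.log_le_log hx hxy
  rw [abs_sub_comm, abs_of_nonneg (by linarith), ← Real.log_div hy.ne' hx.ne']
  have h2 := Real.log_le_sub_one_of_pos (div_pos hy hx)
  have h3 : y / x - 1 = (y - x) / x := by field_simp
  linarith

/-- primitive of `x^{-ik}` -/
noncomputable def F (k : ℤ) (x : ℝ) : ℂ := (x : ℂ) * ch k (Real.log x) / (1 - (k : ℂ) * Complex.I)

lemma den_ne (k : ℤ) : (1 - (k : ℂ) * Complex.I) ≠ 0 := by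
  intro h
  have := congrArg Complex.re h
  simp at this

lemma den_norm (k : ℤ) : |(k : ℝ)| ≤ ‖(1 - (k : ℂ) * Complex.I)‖ := by
  have h := Complex.abs_im_le_norm (1 - (k : ℂ) * Complex.I)
  simp at h
  simpa using h

lemma F_norm {k : ℤ} (hk : k ≠ 0) {x : ℝ} (hx : 0 ≤ x) : ‖F k x‖ ≤ x / |(k : ℝ)| := by
  have hk0 : 0 < |(k : ℝ)| := abs_pos.2 (by exact_mod_cast hk)
  unfold F
  rw [norm_div, norm_mul, norm_ch, mul_one, Complex.norm_real, Real.norm_eq_abs, abs_of_nonneg hx]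
  exact div_le_div_of_nonneg_left hx hk0 (den_norm k)

lemma F_deriv (k : ℤ) {x : ℝ} (hx : 0 < x) : HasDerivAt (F k) (ch k (Real.log x)) x := by
  have h1 : HasDerivAt (fun x : ℝ => ((Real.log x : ℝ) : ℂ)) (((x⁻¹ : ℝ)) : ℂ) x :=
    (Real.hasDerivAt_log hx.ne').ofReal_comp
  have h2 : HasDerivAt (fun x : ℝ => -(((k : ℝ) * Real.log x : ℝ) : ℂ) * Complex.I)
      (-((k : ℂ) * ((x⁻¹ : ℝ) : ℂ)) * Complex.I) x := by
    have h3 := ((h1.const_mul (k : ℂ)).neg).mul_const Complex.I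
    refine h3.congr_of_eventuallyEq (Filter.Eventually.of_forall fun y => ?_)
    simp
  have h4 : HasDerivAt (fun x : ℝ => ch k (Real.log x))
      (ch k (Real.log x) * (-((k : ℂ) * ((x⁻¹ : ℝ) : ℂ)) * Complex.I)) x := h2.cexp
  have h5 : HasDerivAt (fun x : ℝ => (x : ℂ)) 1 x := by
    simpa using (hasDerivAt_id x).ofReal_comp
  have h6 := (h5.mul h4).div_const (1 - (k : ℂ) * Complex.I)
  refine h6.congr_deriv ?_
  have hx' : (x : ℂ) ≠ 0 := by exact_mod_cast hx.ne'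
  rw [div_eq_iff (den_ne k)]
  push_cast
  field_simp
  ring

lemma step (k : ℤ) {n : ℕ} (hn : 1 ≤ n) :
    ‖F k ((n + 1 : ℕ) : ℝ) - F k n - ch k (Real.log ((n + 1 : ℕ) : ℝ))‖ ≤ |(k : ℝ)| / n := by
  have hn0 : (0 : ℝ) < n := by exact_mod_cast hn
  set c := ch k (Real.log ((n + 1 : ℕ) : ℝ)) with hc
  have hd : ∀ x ∈ Set.Icc (n : ℝ) ((n + 1 : ℕ) : ℝ),
      HasDerivWithinAt (fun x : ℝ => F k x - (x : ℂ) * c) (ch k (Real.log x) - c)
        (Set.Icc (n : ℝ) ((n + 1 : ℕ) : ℝ)) x := by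
    intro x hx
    have hx0 : 0 < x := hn0.trans_le hx.1
    have h5 : HasDerivAt (fun x : ℝ => (x : ℂ)) 1 x := by
      simpa using (hasDerivAt_id x).ofReal_comp
    have := (F_deriv k hx0).sub (h5.mul_const c)
    rw [one_mul] at this
    exact this.hasDerivWithinAt
  have hb : ∀ x ∈ Set.Icc (n : ℝ) ((n + 1 : ℕ) : ℝ), ‖ch k (Real.log x) - c‖ ≤ |(k : ℝ)| / n := by
    intro x hx
    have hx0 : 0 < x := hn0.trans_le hx.1
    refine (ch_sub k _ _).trans ?_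
    have h1 := log_sub_le hx0 hx.2
    rw [div_eq_mul_one_div |(k : ℝ)|]
    apply mul_le_mul_of_nonneg_left _ (abs_nonneg _)
    refine h1.trans ?_
    have h2 : ((n + 1 : ℕ) : ℝ) - x ≤ 1 := by
      have := hx.1
      push_cast
      linarith
    exact div_le_div₀ zero_le_one h2 hn0 hx.1
  have hle : (n : ℝ) ≤ ((n + 1 : ℕ) : ℝ) := by push_cast; linarith
  have h := (convex_Icc (n : ℝ) ((n + 1 : ℕ) : ℝ)).norm_image_sub_le_of_norm_hasDerivWithin_le hd hb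
    (Set.left_mem_Icc.2 hle) (Set.right_mem_Icc.2 hle)
  have e1 : ‖(((n + 1 : ℕ) : ℝ)) - (n : ℝ)‖ = 1 := by push_cast; simp
  rw [e1, mul_one] at h
  refine le_trans (le_of_eq ?_) h
  congr 1
  push_cast
  ring

lemma Z_aux (k : ℤ) {Y : ℕ} (hY : 1 ≤ Y) : ∀ m : ℕ, Y ≤ m →
    ‖∑ n ∈ Ioc Y m, ch k (Real.log n) - (F k m - F k Y)‖ ≤ (m - Y) * (|(k : ℝ)| / Y) := by
  intro m hm
  induction m, hm using Nat.le_induction with
  | base => simp
  | succ m hm ih =>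
    have hY0 : (0 : ℝ) < Y := by exact_mod_cast hY
    have hmY : (Y : ℝ) ≤ m := by exact_mod_cast hm
    rw [Finset.sum_Ioc_succ_top (by omega)]
    have h1 := step k (n := m) (by omega)
    have h2 : |(k : ℝ)| / m ≤ |(k : ℝ)| / Y := div_le_div_of_nonneg_left (abs_nonneg _) hY0 hmY
    have e : ∑ n ∈ Ioc Y m, ch k (Real.log n) + ch k (Real.log ((m + 1 : ℕ) : ℝ)) -
        (F k ((m + 1 : ℕ) : ℝ) - F k Y) =
        (∑ n ∈ Ioc Y m, ch k (Real.log n) - (F k m - F k Y)) -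
        (F k ((m + 1 : ℕ) : ℝ) - F k m - ch k (Real.log ((m + 1 : ℕ) : ℝ))) := by ring
    rw [e]
    refine (norm_sub_le _ _).trans ?_
    have e2 : (((m + 1 : ℕ) : ℝ) - Y) * (|(k : ℝ)| / Y) = (m - Y) * (|(k : ℝ)| / Y) + |(k : ℝ)| / Y := by
      push_cast; ring
    rw [e2]
    linarith

lemma Z_bound {k : ℤ} (hk : k ≠ 0) {Y : ℕ} (hY : 1 ≤ Y) :
    ‖∑ n ∈ Ioc Y (3 * Y), ch k (Real.log n)‖ ≤ 4 * Y / |(k : ℝ)| + 2 * |(k : ℝ)| := by
  have hY0 : (0 : ℝ) < Y := by exact_mod_cast hY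
  have h1 := Z_aux k hY (3 * Y) (by omega)
  have h2 := F_norm hk (x := ((3 * Y : ℕ) : ℝ)) (Nat.cast_nonneg _)
  have h3 := F_norm hk (x := (Y : ℝ)) hY0.le
  have e1 : (((3 * Y : ℕ) : ℝ) - Y) * (|(k : ℝ)| / Y) = 2 * |(k : ℝ)| := by
    push_cast; field_simp; ring
  rw [e1] at h1
  have e2 : ((3 * Y : ℕ) : ℝ) / |(k : ℝ)| + Y / |(k : ℝ)| = 4 * Y / |(k : ℝ)| := by
    push_cast; ring
  have h4 : ‖∑ n ∈ Ioc Y (3 * Y), ch k (Real.log n)‖ ≤
      ‖∑ n ∈ Ioc Y (3 * Y), ch k (Real.log n) - (F k ((3 * Y : ℕ) : ℝ) - F k Y)‖ +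
      ‖F k ((3 * Y : ℕ) : ℝ) - F k Y‖ := by
    have := norm_add_le (∑ n ∈ Ioc Y (3 * Y), ch k (Real.log n) - (F k ((3 * Y : ℕ) : ℝ) - F k Y))
      (F k ((3 * Y : ℕ) : ℝ) - F k Y)
    rwa [sub_add_cancel] at this
  have h5 := norm_sub_le (F k ((3 * Y : ℕ) : ℝ)) (F k Y)
  linarith

/-! ### Partial summation -/

lemma psum (a c : ℕ → ℂ) (Y : ℕ) : ∀ m : ℕ, Y ≤ m →
    ∑ n ∈ Ioc Y m, a n * c n = (∑ n ∈ Ioc Y m, a n) * c m -
      ∑ n ∈ Ico Y m, (∑ j ∈ Ioc Y n, a j) * (c (n + 1) - c n) := by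
  intro m hm
  induction m, hm using Nat.le_induction with
  | base => simp
  | succ m hm ih =>
    rw [Finset.sum_Ioc_succ_top (by omega), Finset.sum_Ioc_succ_top (by omega),
      Finset.sum_Ico_succ_top hm, ih]
    ring

lemma DP_small {Y : ℕ} (hY : 1 ≤ Y) (a : ℕ → ℂ) {B : ℝ} (hB : 0 ≤ B)
    (h : ∀ m, Y ≤ m → m ≤ 3 * Y → ‖∑ n ∈ Ioc Y m, a n‖ ≤ B) (k : ℤ) :
    ‖DP (Ioc Y (3 * Y)) a k‖ ≤ B * (1 + 2 * |(k : ℝ)|) := by
  have hY0 : (0 : ℝ) < Y := by exact_mod_cast hY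
  unfold DP
  rw [psum a (fun n => ch k (Real.log n)) Y (3 * Y) (by omega)]
  have h1 : ‖(∑ n ∈ Ioc Y (3 * Y), a n) * ch k (Real.log ((3 * Y : ℕ) : ℝ))‖ ≤ B := by
    rw [norm_mul, norm_ch, mul_one]
    exact h _ (by omega) le_rfl
  have h2 : ‖∑ n ∈ Ico Y (3 * Y), (∑ j ∈ Ioc Y n, a j) *
      (ch k (Real.log ((n + 1 : ℕ) : ℝ)) - ch k (Real.log n))‖ ≤ B * (2 * |(k : ℝ)|) := by
    refine (norm_sum_le _ _).trans ?_
    have h3 : ∀ n ∈ Ico Y (3 * Y), ‖(∑ j ∈ Ioc Y n, a j) *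
      (ch k (Real.log ((n + 1 : ℕ) : ℝ)) - ch k (Real.log n))‖ ≤ B * (|(k : ℝ)| / Y) := by
      intro n hn
      rw [mem_Ico] at hn
      rw [norm_mul]
      apply mul_le_mul (h n hn.1 hn.2.le) _ (norm_nonneg _) hB
      have hn0 : (0 : ℝ) < n := lt_of_lt_of_le hY0 (by exact_mod_cast hn.1)
      rw [norm_sub_rev]
      refine (ch_sub k _ _).trans ?_
      have h4 := log_sub_le hn0 (show (n : ℝ) ≤ ((n + 1 : ℕ) : ℝ) by push_cast; linarith)
      have h5 : (((n + 1 : ℕ) : ℝ) - n) / n ≤ 1 / Y := by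
        push_cast
        rw [add_sub_cancel_left]
        exact one_div_le_one_div_of_le hY0 (by exact_mod_cast hn.1)
      rw [div_eq_mul_one_div |(k : ℝ)|]
      exact mul_le_mul_of_nonneg_left (h4.trans h5) (abs_nonneg _)
    refine (sum_le_sum h3).trans ?_
    rw [sum_const, Nat.card_Ico, nsmul_eq_mul]
    have e : ((3 * Y - Y : ℕ) : ℝ) = 2 * Y := by
      rw [show 3 * Y - Y = 2 * Y by omega]; push_cast; ring
    rw [e]
    apply le_of_eq
    field_simp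
  refine (norm_sub_le _ _).trans ?_
  have e2 : B * (1 + 2 * |(k : ℝ)|) = B + B * (2 * |(k : ℝ)|) := by ring
  rw [e2]
  exact add_le_add h1 h2

open Pool.Agent.H373R2.T7 in
lemma D_eq (q r Y : ℕ) : ∀ m : ℕ, Y ≤ m → ∑ n ∈ Ioc Y m, pdev q r n =
    (((lamAP m q r - m / (Nat.totient q : ℝ)) - (lamAP Y q r - Y / (Nat.totient q : ℝ)) : ℝ) : ℂ) := by
  intro m hm
  induction m, hm using Nat.le_induction with
  | base => simp
  | succ m hm ih =>
    rw [Finset.sum_Ioc_succ_top (by omega), ih]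
    have e : lamAP (m + 1) q r = lamAP m q r +
        (if (m + 1) % q = r % q then ArithmeticFunction.vonMangoldt (m + 1) else 0) := by
      unfold lamAP
      rw [sum_filter, sum_filter, Finset.sum_Icc_succ_top (by omega)]
      rfl
    rw [e]
    unfold pdev
    push_cast
    split_ifs with hc
    · ring
    · push_cast
      ring

/-! ### Sums over the frequencies -/

lemma FK_sum_le (K : ℕ) (g : ℕ → ℝ) (hg : ∀ m, 0 ≤ g m) :
    ∑ k ∈ FK K, g k.natAbs ≤ 2 * ∑ m ∈ range K, g m := by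
  have hsub : FK K ⊆ (range K).image (fun m : ℕ => (m : ℤ)) ∪ (range K).image (fun m : ℕ => -(m : ℤ)) := by
    intro k hk
    unfold FK at hk
    rw [mem_Ioo] at hk
    rw [mem_union, mem_image, mem_image]
    rcases le_total 0 k with h | h
    · left
      exact ⟨k.natAbs, by rw [mem_range]; omega, by omega⟩
    · right
      exact ⟨k.natAbs, by rw [mem_range]; omega, by omega⟩
  refine (sum_le_sum_of_subset_of_nonneg hsub (fun _ _ _ => hg _)).trans ?_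
  have h1 : ∑ k ∈ (range K).image (fun m : ℕ => (m : ℤ)) ∪ (range K).image (fun m : ℕ => -(m : ℤ)),
      g k.natAbs ≤ ∑ k ∈ (range K).image (fun m : ℕ => (m : ℤ)), g k.natAbs +
        ∑ k ∈ (range K).image (fun m : ℕ => -(m : ℤ)), g k.natAbs := by
    rw [← sum_union_inter]
    have : 0 ≤ ∑ k ∈ (range K).image (fun m : ℕ => (m : ℤ)) ∩ (range K).image (fun m : ℕ => -(m : ℤ)),
        g k.natAbs := sum_nonneg fun _ _ => hg _
    linarith
  refine h1.trans ?_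
  rw [sum_image (by intro a _ b _ h; simpa using h), sum_image (by intro a _ b _ h; simpa using h)]
  simp only [Int.natAbs_natCast, Int.natAbs_neg]
  linarith

lemma inv_sq_sum {m₀ : ℕ} (h₀ : 1 ≤ m₀) : ∀ n : ℕ, m₀ ≤ n →
    ∑ m ∈ Ico m₀ n, 1 / (m : ℝ) ^ 2 ≤ 2 / (m₀ : ℝ) - 2 / (n : ℝ) := by
  intro n hn
  induction n, hn using Nat.le_induction with
  | base => simp
  | succ n hn ih =>
    rw [Finset.sum_Ico_succ_top hn]
    have hn0 : (1 : ℝ) ≤ n := by exact_mod_cast h₀.trans hn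
    have h1 : 1 / (n : ℝ) ^ 2 ≤ 2 / n - 2 / ((n + 1 : ℕ) : ℝ) := by
      push_cast
      rw [div_sub_div _ _ (by positivity) (by positivity), div_le_div_iff₀ (by positivity) (by positivity)]
      nlinarith
    linarith

lemma inv_sq_sum' {T : ℝ} (hT : 1 ≤ T) (K : ℕ) :
    ∑ m ∈ range K, (if T ≤ (m : ℝ) then 1 / (m : ℝ) ^ 2 else 0) ≤ 2 / T := by
  set m₀ := ⌈T⌉₊ with hm₀
  have hT0 : 0 < T := by linarith
  have h1 : 1 ≤ m₀ := Nat.one_le_ceil_iff.2 hT0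
  have h2 : T ≤ m₀ := Nat.le_ceil T
  have h3 : ∑ m ∈ range K, (if T ≤ (m : ℝ) then 1 / (m : ℝ) ^ 2 else 0) ≤
      ∑ m ∈ Ico m₀ (max K m₀), 1 / (m : ℝ) ^ 2 := by
    rw [← sum_filter]
    apply sum_le_sum_of_subset_of_nonneg
    · intro m hm
      rw [mem_filter, mem_range] at hm
      rw [mem_Ico]
      exact ⟨Nat.ceil_le.2 hm.2, lt_of_lt_of_le hm.1 (le_max_left _ _)⟩
    · intro _ _ _
      positivity
  refine h3.trans ((inv_sq_sum h1 _ (le_max_right _ _)).trans ?_)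
  have h4 : (0 : ℝ) ≤ 2 / ((max K m₀ : ℕ) : ℝ) := by positivity
  have h5 : 2 / (m₀ : ℝ) ≤ 2 / T := div_le_div_of_nonneg_left (by norm_num) hT0 h2
  linarith

lemma card_FK (K : ℕ) : ((FK K).card : ℝ) ≤ 2 * K := by
  have h := FK_sum_le K (fun _ => 1) (fun _ => zero_le_one)
  simpa using h

lemma card_small {T : ℝ} (hT : 1 ≤ T) (K : ℕ) :
    (((FK K).filter (fun k : ℤ => ¬ T ≤ |(k : ℝ)|)).card : ℝ) ≤ 4 * T := by
  have hsub : (FK K).filter (fun k : ℤ => ¬ T ≤ |(k : ℝ)|) ⊆ FK ⌈T⌉₊ := by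
    intro k hk
    rw [mem_filter, not_le] at hk
    have h1 : |(k : ℝ)| < (⌈T⌉₊ : ℝ) := hk.2.trans_le (Nat.le_ceil T)
    have h2 : |k| < (⌈T⌉₊ : ℤ) := by exact_mod_cast h1
    unfold FK
    rw [mem_Ioo]
    exact abs_lt.1 h2
  have h1 : (((FK K).filter (fun k : ℤ => ¬ T ≤ |(k : ℝ)|)).card : ℝ) ≤ (FK ⌈T⌉₊).card := by
    exact_mod_cast card_le_card hsub
  have h2 := card_FK ⌈T⌉₊
  have h3 := Nat.ceil_lt_add_one (show 0 ≤ T by linarith)
  linarith

/-! ### The theorem -/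

open Pool.Agent.H373R2.T7 in
theorem main : S_FRL2 → S_FR2 := by
  intro hFRL A B
  obtain ⟨K₂, Y₁, h1⟩ := hFRL (A + 2) B
  set K := max K₂ (A + 4) with hK
  have hKK : K₂ ≤ K := le_max_left _ _
  have hKA : A + 4 ≤ K := le_max_right _ _
  obtain ⟨N0, hap⟩ := lam_ap B (2 * K + A + 4)
  obtain ⟨n1, hn1⟩ := ev_log' (A + 2) 16
  obtain ⟨n2, hn2⟩ := ev_L' 100
  refine ⟨max (max Y₁ N0) (max n1 (max n2 4)), fun Y hY q r hq hqL hr K₁ hK₁ => ?_⟩
  have hY1 : Y₁ ≤ Y := le_trans (le_trans (le_max_left _ _) (le_max_left _ _)) hY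
  have hYN : N0 ≤ Y := le_trans (le_trans (le_max_right _ _) (le_max_left _ _)) hY
  have hYn1 : n1 ≤ Y := le_trans (le_trans (le_max_left _ _) (le_max_right _ _)) hY
  have hYn2 : n2 ≤ Y :=
    le_trans (le_trans (le_trans (le_max_left _ _) (le_max_right _ _)) (le_max_right _ _)) hY
  have hY4 : 4 ≤ Y :=
    le_trans (le_trans (le_trans (le_max_right _ _) (le_max_right _ _)) (le_max_right _ _)) hY
  have hYr : (4 : ℝ) ≤ Y := by exact_mod_cast hY4
  have hY0 : (0 : ℝ) < Y := by linarith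
  have hsq := hn1 Y hYn1
  have hL := hn2 Y hYn2
  have hS := h1 Y hY1 q r hq hqL hr K₁ hK₁
  set L := Real.log Y with hLd
  have hL0 : 0 < L := by linarith
  have hL1 : 1 ≤ L := by linarith
  set T := L ^ K with hT
  have hT1 : 1 ≤ T := one_le_pow₀ hL1
  have hT0 : 0 < T := by linarith
  have hφ : (1 : ℝ) ≤ (Nat.totient q : ℝ) := by exact_mod_cast Nat.totient_pos.2 hq
  have hφ0 : (0 : ℝ) < (Nat.totient q : ℝ) := by linarith
  set W := (Y : ℝ) ^ 2 / L ^ (A + 2) with hW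
  have hW0 : 0 < W := by positivity
  rw [← Finset.sum_filter_add_sum_filter_not (FK K₁) (fun k : ℤ => T ≤ |(k : ℝ)|)]
  -- large frequencies
  have hlarge : ∑ k ∈ (FK K₁).filter (fun k : ℤ => T ≤ |(k : ℝ)|), ‖DP (Ioc Y (3 * Y)) (pdev q r) k‖ ^ 2 ≤
      260 * W := by
    set P : ℤ → ℂ := fun k => DP ((Ioc Y (3 * Y)).filter (fun n => n % q = r % q))
      (fun n => (ArithmeticFunction.vonMangoldt n : ℂ)) k with hP
    have hterm : ∀ k ∈ (FK K₁).filter (fun k : ℤ => T ≤ |(k : ℝ)|),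
        ‖DP (Ioc Y (3 * Y)) (pdev q r) k‖ ^ 2 ≤
          2 * ‖P k‖ ^ 2 + (64 * (Y : ℝ) ^ 2 * (if T ≤ ((k.natAbs : ℕ) : ℝ) then 1 / ((k.natAbs : ℕ) : ℝ) ^ 2 else 0)
            + 16 * (K₁ : ℝ) ^ 2) := by
      intro k hk
      rw [mem_filter] at hk
      have hkT := hk.2
      have hk0 : 0 < |(k : ℝ)| := by linarith
      have hkne : k ≠ 0 := by
        rintro rfl
        simp at hk0
      have hnat : ((k.natAbs : ℕ) : ℝ) = |(k : ℝ)| := by
        rw [Nat.cast_natAbs, Int.cast_abs]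
      rw [hnat, if_pos hkT]
      have hkK : |(k : ℝ)| ≤ K₁ := by
        have h2 := hk.1
        unfold FK at h2
        rw [mem_Ioo] at h2
        have h3 : |k| < (K₁ : ℤ) := abs_lt.2 h2
        have h4 : |(k : ℝ)| < (K₁ : ℝ) := by exact_mod_cast h3
        exact h4.le
      have hdp : DP (Ioc Y (3 * Y)) (pdev q r) k = P k -
          (∑ n ∈ Ioc Y (3 * Y), ch k (Real.log n)) / (Nat.totient q : ℂ) := by
        have hPk : P k = ∑ n ∈ (Ioc Y (3 * Y)).filter (fun n => n % q = r % q),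
            (ArithmeticFunction.vonMangoldt n : ℂ) * ch k (Real.log n) := rfl
        rw [hPk]
        unfold DP pdev
        rw [sum_filter, sum_div, ← sum_sub_distrib]
        apply sum_congr rfl
        intro n _
        split_ifs <;> ring
      have hZ := Z_bound hkne (show 1 ≤ Y by omega)
      have hZ' : ‖(∑ n ∈ Ioc Y (3 * Y), ch k (Real.log n)) / (Nat.totient q : ℂ)‖ ≤
          4 * Y / |(k : ℝ)| + 2 * |(k : ℝ)| := by
        rw [norm_div]
        have : ‖(Nat.totient q : ℂ)‖ = (Nat.totient q : ℝ) := by simp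
        rw [this]
        exact (div_le_self (norm_nonneg _) hφ).trans hZ
      rw [hdp]
      have h5 := norm_sub_le (P k) ((∑ n ∈ Ioc Y (3 * Y), ch k (Real.log n)) / (Nat.totient q : ℂ))
      set z := ‖(∑ n ∈ Ioc Y (3 * Y), ch k (Real.log n)) / (Nat.totient q : ℂ)‖ with hz
      have hz0 : 0 ≤ z := norm_nonneg _
      have h6 : z ^ 2 ≤ 32 * (Y : ℝ) ^ 2 * (1 / |(k : ℝ)| ^ 2) + 8 * (K₁ : ℝ) ^ 2 := by
        have h7 : z ^ 2 ≤ (4 * Y / |(k : ℝ)| + 2 * |(k : ℝ)|) ^ 2 := pow_le_pow_left₀ hz0 hZ' 2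
        have h8 : (4 * Y / |(k : ℝ)| + 2 * |(k : ℝ)|) ^ 2 ≤
            2 * (4 * Y / |(k : ℝ)|) ^ 2 + 2 * (2 * |(k : ℝ)|) ^ 2 := by
          nlinarith [sq_nonneg (4 * Y / |(k : ℝ)| - 2 * |(k : ℝ)|)]
        have h9 : (2 * |(k : ℝ)|) ^ 2 ≤ (2 * (K₁ : ℝ)) ^ 2 :=
          pow_le_pow_left₀ (by positivity) (by linarith) 2
        have h10 : 2 * (4 * Y / |(k : ℝ)|) ^ 2 = 32 * (Y : ℝ) ^ 2 * (1 / |(k : ℝ)| ^ 2) := by
          field_simp; ring
        linarith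
      have h7 : ‖P k - (∑ n ∈ Ioc Y (3 * Y), ch k (Real.log n)) / (Nat.totient q : ℂ)‖ ^ 2 ≤
          (‖P k‖ + z) ^ 2 := pow_le_pow_left₀ (norm_nonneg _) h5 2
      nlinarith [sq_nonneg (‖P k‖ - z)]
    refine (sum_le_sum hterm).trans ?_
    rw [sum_add_distrib, sum_add_distrib, ← mul_sum, ← mul_sum]
    have hA1 : ∑ k ∈ (FK K₁).filter (fun k : ℤ => T ≤ |(k : ℝ)|), ‖P k‖ ^ 2 ≤ W := by
      refine le_trans ?_ hS
      apply sum_le_sum_of_subset_of_nonneg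
      · intro k hk
        rw [mem_filter] at hk ⊢
        exact ⟨hk.1, (pow_le_pow_right₀ hL1 hKK).trans hk.2⟩
      · intro _ _ _
        positivity
    have hA2 : ∑ k ∈ (FK K₁).filter (fun k : ℤ => T ≤ |(k : ℝ)|),
        (if T ≤ ((k.natAbs : ℕ) : ℝ) then 1 / ((k.natAbs : ℕ) : ℝ) ^ 2 else 0) ≤ 4 / T := by
      have hg : ∀ m : ℕ, 0 ≤ (if T ≤ (m : ℝ) then 1 / (m : ℝ) ^ 2 else 0) := by
        intro m
        split_ifs <;> positivity
      calc ∑ k ∈ (FK K₁).filter (fun k : ℤ => T ≤ |(k : ℝ)|),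
          (if T ≤ ((k.natAbs : ℕ) : ℝ) then 1 / ((k.natAbs : ℕ) : ℝ) ^ 2 else 0)
          ≤ ∑ k ∈ FK K₁, (if T ≤ ((k.natAbs : ℕ) : ℝ) then 1 / ((k.natAbs : ℕ) : ℝ) ^ 2 else 0) :=
            sum_le_sum_of_subset_of_nonneg (filter_subset _ _) (fun k _ _ => hg _)
        _ ≤ 2 * ∑ m ∈ range K₁, (if T ≤ (m : ℝ) then 1 / (m : ℝ) ^ 2 else 0) :=
            FK_sum_le K₁ (fun m => if T ≤ (m : ℝ) then 1 / (m : ℝ) ^ 2 else 0) hg
        _ ≤ 2 * (2 / T) := by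
            have := inv_sq_sum' hT1 K₁
            linarith
        _ = 4 / T := by ring
    have hA3 : ∑ _k ∈ (FK K₁).filter (fun k : ℤ => T ≤ |(k : ℝ)|), 16 * (K₁ : ℝ) ^ 2 ≤ 2 * W := by
      rw [sum_const, nsmul_eq_mul]
      have h2 : (((FK K₁).filter (fun k : ℤ => T ≤ |(k : ℝ)|)).card : ℝ) ≤ 2 * K₁ := by
        refine le_trans ?_ (card_FK K₁)
        exact_mod_cast card_le_card (filter_subset _ _)
      have h3 : (K₁ : ℝ) ≤ √(Y : ℝ) := by
        refine hK₁.trans ?_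
        rw [Real.sqrt_eq_rpow]
      have hs0 : 0 ≤ √(Y : ℝ) := Real.sqrt_nonneg _
      have hss : √(Y : ℝ) * √(Y : ℝ) = Y := Real.mul_self_sqrt hY0.le
      have hK0 : (0 : ℝ) ≤ K₁ := Nat.cast_nonneg _
      calc (((FK K₁).filter (fun k : ℤ => T ≤ |(k : ℝ)|)).card : ℝ) * (16 * (K₁ : ℝ) ^ 2)
          ≤ 2 * K₁ * (16 * (K₁ : ℝ) ^ 2) := mul_le_mul_of_nonneg_right h2 (by positivity)
        _ = 32 * (K₁ : ℝ) ^ 3 := by ring
        _ ≤ 32 * √(Y : ℝ) ^ 3 := by gcongr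
        _ = 2 * (Y * (16 * √(Y : ℝ))) := by
            have : √(Y : ℝ) ^ 3 = Y * √(Y : ℝ) := by
              rw [pow_succ, pow_two, hss]
            rw [this]; ring
        _ ≤ 2 * W := by
            apply mul_le_mul_of_nonneg_left _ (by norm_num)
            rw [hW, le_div_iff₀ (by positivity)]
            calc (Y : ℝ) * (16 * √(Y : ℝ)) * L ^ (A + 2) = Y * √(Y : ℝ) * (16 * L ^ (A + 2)) := by ring
              _ ≤ Y * √(Y : ℝ) * √(Y : ℝ) := mul_le_mul_of_nonneg_left hsq (by positivity)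
              _ = (Y : ℝ) ^ 2 := by rw [mul_assoc, hss]; ring
    have hA4 : 64 * (Y : ℝ) ^ 2 * (4 / T) ≤ 256 * W := by
      have h2 : L ^ (A + 2) ≤ T := pow_le_pow_right₀ hL1 (by omega)
      have h3 : (Y : ℝ) ^ 2 / T ≤ W := div_le_div_of_nonneg_left (by positivity) (by positivity) h2
      have e2 : 64 * (Y : ℝ) ^ 2 * (4 / T) = 256 * ((Y : ℝ) ^ 2 / T) := by ring
      rw [e2]
      linarith
    have hA5 := mul_le_mul_of_nonneg_left hA2 (show 0 ≤ 64 * (Y : ℝ) ^ 2 by positivity)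
    linarith
  -- small frequencies
  have hsmall : ∑ k ∈ (FK K₁).filter (fun k : ℤ => ¬ T ≤ |(k : ℝ)|), ‖DP (Ioc Y (3 * Y)) (pdev q r) k‖ ^ 2 ≤
      1296 * W := by
    set U := 2 * K + A + 4 with hU
    set Bd := 6 * (Y : ℝ) / L ^ U with hBd
    have hBd0 : 0 ≤ Bd := by positivity
    have h3Y : N0 ≤ 3 * Y := by omega
    have hlog3 : L ≤ Real.log ((3 * Y : ℕ) : ℝ) := by
      apply Real.log_le_log hY0
      push_cast
      linarith
    have hq3 : (q : ℝ) ≤ Real.log ((3 * Y : ℕ) : ℝ) ^ B := hqL.trans (pow_le_pow_left₀ hL0.le hlog3 B)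
    have hE : ∀ y : ℕ, y ≤ 3 * Y → |lamAP y q r - y / (Nat.totient q : ℝ)| ≤ 3 * Y / L ^ U := by
      intro y hy
      have h2 := hap (3 * Y) h3Y q hq hq3 r y hy
      rw [if_pos hr] at h2
      have h3 : lamAP y q r = ∑ n ∈ (Icc 1 y).filter (fun n => n ≡ r [MOD q]), ArithmeticFunction.vonMangoldt n := rfl
      rw [h3]
      refine h2.trans ?_
      push_cast
      apply div_le_div_of_nonneg_left (by positivity) (by positivity)
      apply pow_le_pow_left₀ hL0.le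
      have := hlog3
      push_cast at this
      exact this
    have hD : ∀ m, Y ≤ m → m ≤ 3 * Y → ‖∑ n ∈ Ioc Y m, pdev q r n‖ ≤ Bd := by
      intro m hm hm'
      rw [D_eq q r Y m hm, Complex.norm_real, Real.norm_eq_abs]
      have h2 := hE m hm'
      have h3 := hE Y (by omega)
      refine (abs_sub _ _).trans ?_
      have e2 : Bd = 3 * Y / L ^ U + 3 * Y / L ^ U := by rw [hBd]; ring
      rw [e2]
      exact add_le_add h2 h3
    have hterm : ∀ k ∈ (FK K₁).filter (fun k : ℤ => ¬ T ≤ |(k : ℝ)|),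
        ‖DP (Ioc Y (3 * Y)) (pdev q r) k‖ ^ 2 ≤ (Bd * (3 * T)) ^ 2 := by
      intro k hk
      rw [mem_filter, not_le] at hk
      apply pow_le_pow_left₀ (norm_nonneg _)
      refine (DP_small (show 1 ≤ Y by omega) _ hBd0 hD k).trans ?_
      apply mul_le_mul_of_nonneg_left _ hBd0
      linarith [hk.2]
    refine (sum_le_sum hterm).trans ?_
    rw [sum_const, nsmul_eq_mul]
    calc (((FK K₁).filter (fun k : ℤ => ¬ T ≤ |(k : ℝ)|)).card : ℝ) * (Bd * (3 * T)) ^ 2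
        ≤ 4 * T * (Bd * (3 * T)) ^ 2 := mul_le_mul_of_nonneg_right (card_small hT1 K₁) (by positivity)
      _ = 1296 * ((Y : ℝ) ^ 2 * (L ^ (3 * K) / L ^ (2 * U))) := by
          rw [hBd, hT]
          field_simp
          ring
      _ ≤ 1296 * W := by
          apply mul_le_mul_of_nonneg_left _ (by norm_num)
          rw [hW, div_eq_mul_one_div ((Y : ℝ) ^ 2)]
          apply mul_le_mul_of_nonneg_left _ (by positivity)
          rw [div_le_div_iff₀ (by positivity) (by positivity), one_mul, ← pow_add]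
          exact pow_le_pow_right₀ hL1 (by omega)
  have hfin : 260 * W + 1296 * W ≤ (Y : ℝ) ^ 2 / L ^ A := by
    rw [hW, pow_add]
    have h2 : (1556 : ℝ) ≤ L ^ 2 := by nlinarith
    calc 260 * ((Y : ℝ) ^ 2 / (L ^ A * L ^ 2)) + 1296 * ((Y : ℝ) ^ 2 / (L ^ A * L ^ 2))
        = (1556 / L ^ 2) * ((Y : ℝ) ^ 2 / L ^ A) := by field_simp; ring
      _ ≤ 1 * ((Y : ℝ) ^ 2 / L ^ A) := by
          apply mul_le_mul_of_nonneg_right _ (by positivity)
          rw [div_le_one (by positivity)]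
          exact h2
      _ = _ := one_mul _
  linarith

end Pool.Agent.helper24_UT.Fr2
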