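import Pool.Agent.H43.G.R_pool_sql_team_seeded_620a6dc7.helper24_UT_.Stm
import Pool.Agent.H43.G.R_seed8.H376R2.MR.Mv

set_option autoImplicit false

namespace Pool.Agent.helper24_UT.II

open Finset
open Pool.Agent.helper24_UT
open Pool.Agent.H376R2.MR (ch er DP FK)

/-- the number of divisors -/
noncomputable def tau (n : ℕ) : ℝ := (n.divisors.card : ℝ)

lemma tau_nonneg (n : ℕ) : 0 ≤ tau n := Nat.cast_nonneg _

lemma one_le_tau {n : ℕ} (hn : n ≠ 0) : 1 ≤ tau n := by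
  unfold tau
  have : 0 < n.divisors.card := Finset.card_pos.mpr (Nat.nonempty_divisors.mpr hn)
  exact_mod_cast this

lemma tau_mul_le (m n : ℕ) : tau (m * n) ≤ tau m * tau n := by
  unfold tau
  rw [Nat.divisors_mul]
  exact_mod_cast Finset.card_mul_le

lemma tau_mono {m n : ℕ} (hn : n ≠ 0) (h : m ∣ n) : tau m ≤ tau n := by
  unfold tau
  exact_mod_cast Finset.card_le_card (Nat.divisors_subset_of_dvd hn h)

/-- pairs with product `n` inside a box -/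
lemma fiber_eq {x n : ℕ} (hn : n ∈ Icc 1 x) :
    (((Icc 1 x ×ˢ Icc 1 x).filter (fun p : ℕ × ℕ => p.1 * p.2 ≤ x)).filter (fun p => p.1 * p.2 = n)) =
      n.divisorsAntidiagonal := by
  ext p
  simp only [Finset.mem_filter, Finset.mem_product, Finset.mem_Icc, Nat.mem_divisorsAntidiagonal]
  rw [Finset.mem_Icc] at hn
  constructor
  · rintro ⟨_, h⟩
    exact ⟨h, by omega⟩
  · rintro ⟨h, h0⟩
    have h1 : p.1 ≠ 0 := by
      rintro h2
      rw [h2] at h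
      omega
    have h2 : p.2 ≠ 0 := by
      rintro h3
      rw [h3] at h
      omega
    have h3 : p.1 ≤ n := by rw [← h]; exact Nat.le_mul_of_pos_right _ (Nat.pos_of_ne_zero h2)
    have h4 : p.2 ≤ n := by rw [← h]; exact Nat.le_mul_of_pos_left _ (Nat.pos_of_ne_zero h1)
    omega

lemma tau_sum (k x : ℕ) : ∑ n ∈ Icc 1 x, tau n ^ k / n ≤ (1 + Real.log x) ^ (2 ^ k) := by
  induction k with
  | zero =>
    have h := harmonic_le_one_add_log x
    rw [harmonic_eq_sum_Icc] at h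
    push_cast at h
    simpa [one_div] using h
  | succ k ih =>
    have h1 : ∑ n ∈ Icc 1 x, tau n ^ (k + 1) / n ≤
        ∑ n ∈ Icc 1 x, ∑ p ∈ n.divisorsAntidiagonal, (tau p.1 ^ k / p.1) * (tau p.2 ^ k / p.2) := by
      refine Finset.sum_le_sum fun n hn => ?_
      rw [Finset.mem_Icc] at hn
      have hn0 : (0 : ℝ) < n := by exact_mod_cast (by omega : 0 < n)
      have h2 : tau n ^ (k + 1) / n = ∑ p ∈ n.divisorsAntidiagonal, tau n ^ k / n := by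
        rw [Finset.sum_const, nsmul_eq_mul, pow_succ]
        have : (n.divisorsAntidiagonal.card : ℝ) = tau n := by
          unfold tau
          rw [Finset.card_eq_sum_ones, Finset.card_eq_sum_ones,
            Nat.sum_divisorsAntidiagonal (f := fun _ _ => (1 : ℕ))]
        rw [this]
        ring
      rw [h2]
      refine Finset.sum_le_sum fun p hp => ?_
      rw [Nat.mem_divisorsAntidiagonal] at hp
      have h3 : ((p.1 : ℝ) * p.2) = n := by exact_mod_cast hp.1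
      have h4 : tau n ≤ tau p.1 * tau p.2 := by rw [← hp.1]; exact tau_mul_le _ _
      rw [div_mul_div_comm, h3, ← mul_pow]
      gcongr
      exact tau_nonneg _
    have h5 : ∑ n ∈ Icc 1 x, ∑ p ∈ n.divisorsAntidiagonal, (tau p.1 ^ k / p.1) * (tau p.2 ^ k / p.2) =
        ∑ p ∈ (Icc 1 x ×ˢ Icc 1 x).filter (fun p : ℕ × ℕ => p.1 * p.2 ≤ x),
          (tau p.1 ^ k / p.1) * (tau p.2 ^ k / p.2) := by
      rw [← Finset.sum_fiberwise_of_maps_to (s := (Icc 1 x ×ˢ Icc 1 x).filter (fun p : ℕ × ℕ => p.1 * p.2 ≤ x))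
        (t := Icc 1 x) (g := fun p => p.1 * p.2)]
      · refine Finset.sum_congr rfl fun n hn => ?_
        rw [fiber_eq hn]
      · intro p hp
        simp only [Finset.mem_filter, Finset.mem_product, Finset.mem_Icc] at hp ⊢
        refine ⟨?_, hp.2⟩
        exact Nat.mul_pos hp.1.1.1 hp.1.2.1
    have h6 : ∑ p ∈ (Icc 1 x ×ˢ Icc 1 x).filter (fun p : ℕ × ℕ => p.1 * p.2 ≤ x),
          (tau p.1 ^ k / p.1) * (tau p.2 ^ k / p.2) ≤
        ∑ p ∈ (Icc 1 x ×ˢ Icc 1 x), (tau p.1 ^ k / p.1) * (tau p.2 ^ k / p.2) := by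
      refine Finset.sum_le_sum_of_subset_of_nonneg (Finset.filter_subset _ _) fun p _ _ => ?_
      have := tau_nonneg p.1
      have := tau_nonneg p.2
      positivity
    have h7 : ∑ p ∈ (Icc 1 x ×ˢ Icc 1 x), (tau p.1 ^ k / p.1) * (tau p.2 ^ k / p.2) =
        (∑ n ∈ Icc 1 x, tau n ^ k / n) ^ 2 := by
      rw [sq, Finset.sum_mul_sum, Finset.sum_product]
    have h8 : 0 ≤ ∑ n ∈ Icc 1 x, tau n ^ k / n := Finset.sum_nonneg fun n _ => by
      have := tau_nonneg n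
      positivity
    calc ∑ n ∈ Icc 1 x, tau n ^ (k + 1) / n ≤ (∑ n ∈ Icc 1 x, tau n ^ k / n) ^ 2 := by
          rw [← h7]
          exact (h1.trans h5.le).trans h6
      _ ≤ ((1 + Real.log x) ^ (2 ^ k)) ^ 2 := pow_le_pow_left₀ h8 ih 2
      _ = (1 + Real.log x) ^ (2 ^ (k + 1)) := by rw [← pow_mul, pow_succ]

lemma tau_pow_sum (k x : ℕ) (hx : 1 ≤ x) : ∑ n ∈ Icc 1 x, tau n ^ k ≤ x * (1 + Real.log x) ^ (2 ^ k) := by
  have h := tau_sum k x
  have hx0 : (0 : ℝ) < x := by exact_mod_cast hx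
  calc ∑ n ∈ Icc 1 x, tau n ^ k ≤ ∑ n ∈ Icc 1 x, x * (tau n ^ k / n) := by
        refine Finset.sum_le_sum fun n hn => ?_
        rw [Finset.mem_Icc] at hn
        have hn0 : (0 : ℝ) < n := by exact_mod_cast (by omega : 0 < n)
        have hnx : (n : ℝ) ≤ x := by exact_mod_cast hn.2
        have := tau_nonneg n
        rw [mul_div_assoc', le_div_iff₀ hn0, mul_comm]
        gcongr
    _ = x * ∑ n ∈ Icc 1 x, tau n ^ k / n := by rw [Finset.mul_sum]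
    _ ≤ _ := by gcongr

/-- second moment over a set by the fourth moment -/
lemma tau_set (T : Finset ℕ) (x : ℕ) (hx : 1 ≤ x) (hT : T ⊆ Icc 1 x) :
    ∑ n ∈ T, tau n ^ 2 ≤ Real.sqrt (T.card * (x * (1 + Real.log x) ^ 16)) := by
  apply Real.le_sqrt_of_sq_le
  have h1 := sq_sum_le_card_mul_sum_sq (s := T) (f := fun n => tau n ^ 2)
  refine h1.trans ?_
  have h2 : ∑ n ∈ T, (tau n ^ 2) ^ 2 ≤ x * (1 + Real.log x) ^ 16 := by
    calc ∑ n ∈ T, (tau n ^ 2) ^ 2 = ∑ n ∈ T, tau n ^ 4 := by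
          refine Finset.sum_congr rfl fun n _ => ?_
          ring
      _ ≤ ∑ n ∈ Icc 1 x, tau n ^ 4 := Finset.sum_le_sum_of_subset_of_nonneg hT fun n _ _ => by
          have := tau_nonneg n
          positivity
      _ ≤ _ := tau_pow_sum 4 x hx
  gcongr

lemma alU_le (U m : ℕ) : |(alU U m : ℝ)| ≤ tau m := by
  unfold alU tau
  have h : |∑ b ∈ m.divisors.filter (fun b => b ≤ U), ArithmeticFunction.moebius b| ≤ (m.divisors.card : ℤ) := by
    calc |∑ b ∈ m.divisors.filter (fun b => b ≤ U), ArithmeticFunction.moebius b|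
        ≤ ∑ b ∈ m.divisors.filter (fun b => b ≤ U), |ArithmeticFunction.moebius b| := Finset.abs_sum_le_sum_abs _ _
      _ ≤ ∑ b ∈ m.divisors.filter (fun b => b ≤ U), 1 :=
          Finset.sum_le_sum fun b _ => ArithmeticFunction.abs_moebius_le_one
      _ = ((m.divisors.filter (fun b => b ≤ U)).card : ℤ) := by simp
      _ ≤ _ := by exact_mod_cast Finset.card_le_card (Finset.filter_subset _ _)
  exact_mod_cast h

lemma alU_norm (U m : ℕ) : ‖(alU U m : ℂ)‖ ≤ tau m := by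
  have := alU_le U m
  rwa [Complex.norm_intCast]

/-- the coefficients of a bilinear sum -/
lemma coef_le (U n : ℕ) (hn : 1 ≤ n) (P : Finset (ℕ × ℕ)) (hP : ∀ p ∈ P, p.1 * p.2 = n) :
    ‖∑ p ∈ P, (alU U p.1 : ℂ) * (ArithmeticFunction.vonMangoldt p.2 : ℂ)‖ ≤ tau n * Real.log n := by
  have hn0 : n ≠ 0 := by omega
  have hsub : P ⊆ n.divisorsAntidiagonal := by
    intro p hp
    rw [Nat.mem_divisorsAntidiagonal]
    exact ⟨hP p hp, hn0⟩
  calc ‖∑ p ∈ P, (alU U p.1 : ℂ) * (ArithmeticFunction.vonMangoldt p.2 : ℂ)‖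
      ≤ ∑ p ∈ P, ‖(alU U p.1 : ℂ) * (ArithmeticFunction.vonMangoldt p.2 : ℂ)‖ := norm_sum_le _ _
    _ ≤ ∑ p ∈ n.divisorsAntidiagonal, ‖(alU U p.1 : ℂ) * (ArithmeticFunction.vonMangoldt p.2 : ℂ)‖ :=
        Finset.sum_le_sum_of_subset_of_nonneg hsub fun _ _ _ => norm_nonneg _
    _ ≤ ∑ p ∈ n.divisorsAntidiagonal, tau n * ArithmeticFunction.vonMangoldt p.2 := by
        refine Finset.sum_le_sum fun p hp => ?_
        rw [Nat.mem_divisorsAntidiagonal] at hp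
        rw [norm_mul, Complex.norm_real, Real.norm_of_nonneg ArithmeticFunction.vonMangoldt_nonneg]
        refine mul_le_mul_of_nonneg_right ((alU_norm U p.1).trans ?_) ArithmeticFunction.vonMangoldt_nonneg
        exact tau_mono hn0 ⟨p.2, hp.1.symm⟩
    _ = tau n * ∑ p ∈ n.divisorsAntidiagonal, ArithmeticFunction.vonMangoldt p.2 := by rw [Finset.mul_sum]
    _ = tau n * Real.log n := by
        rw [← ArithmeticFunction.vonMangoldt_sum, Nat.sum_divisorsAntidiagonal' (f := fun _ j => ArithmeticFunction.vonMangoldt j)]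

lemma ch_eq_tw (k : ℤ) (n : ℕ) : ch k (Real.log n) = tw k n := by
  unfold tw ch er
  congr 1
  push_cast
  ring

lemma ch_norm (k : ℤ) (x : ℝ) : ‖ch k x‖ = 1 := by
  unfold ch
  have h2 := Complex.norm_exp_ofReal_mul_I (-(k * x))
  push_cast at h2 ⊢
  exact h2

lemma ch_mul (k : ℤ) {m l : ℕ} (hm : m ≠ 0) (hl : l ≠ 0) :
    ch k (Real.log ((m * l : ℕ) : ℝ)) = ch k (Real.log m) * ch k (Real.log l) := by
  unfold ch
  rw [← Complex.exp_add]
  congr 1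
  push_cast
  rw [Real.log_mul (by exact_mod_cast hm) (by exact_mod_cast hl)]
  push_cast
  ring

/-- collecting a bilinear sum by products -/
lemma collect (s : Finset ℕ) (T : Finset (ℕ × ℕ)) (a b : ℕ → ℂ) (k : ℤ) (h0 : ∀ p ∈ T, p.1 ≠ 0 ∧ p.2 ≠ 0)
    (hs : ∀ p ∈ T, p.1 * p.2 ∈ s) :
    ∑ p ∈ T, (a p.1 * ch k (Real.log p.1)) * (b p.2 * ch k (Real.log p.2)) =
      DP s (fun n => ∑ p ∈ T.filter (fun p => p.1 * p.2 = n), a p.1 * b p.2) k := by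
  unfold DP
  rw [← Finset.sum_fiberwise_of_maps_to (s := T) (t := s) (g := fun p => p.1 * p.2) hs]
  refine Finset.sum_congr rfl fun n _ => ?_
  rw [Finset.sum_mul]
  refine Finset.sum_congr rfl fun p hp => ?_
  rw [Finset.mem_filter] at hp
  obtain ⟨h1, h2⟩ := h0 p hp.1
  have h3 := ch_mul k h1 h2
  rw [hp.2] at h3
  rw [h3]
  ring

/-- the index of the cell of `m` -/
noncomputable def idx (D : ℝ) (U m : ℕ) : ℕ := ⌈D * Real.log (m / U)⌉₊ - 1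

/-- the end points of the cells -/
noncomputable def MM (D : ℝ) (U i : ℕ) : ℝ := U * Real.exp (i / D)

lemma MM_ge {D : ℝ} (hD : 0 < D) (U i : ℕ) : (U : ℝ) ≤ MM D U i := by
  unfold MM
  have h1 : (1 : ℝ) ≤ Real.exp (i / D) := Real.one_le_exp (by positivity)
  nlinarith [(Nat.cast_nonneg U : (0 : ℝ) ≤ U)]

lemma MM_succ {D : ℝ} (U i : ℕ) : MM D U (i + 1) = MM D U i * Real.exp (1 / D) := by
  unfold MM
  rw [mul_assoc, ← Real.exp_add]
  congr 2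
  push_cast
  ring

lemma MM_lt_iff {D : ℝ} (hD : 0 < D) {U m : ℕ} (hU : 1 ≤ U) (hm : U < m) (i : ℕ) :
    MM D U i < m ↔ (i : ℝ) < D * Real.log (m / U) := by
  have hU0 : (0 : ℝ) < U := by exact_mod_cast hU
  have hm0 : (0 : ℝ) < m := by exact_mod_cast (by omega : 0 < m)
  unfold MM
  rw [mul_comm, ← lt_div_iff₀ hU0, ← Real.lt_log_iff_exp_lt (by positivity), div_lt_iff₀ hD, mul_comm (Real.log _)]

lemma idx_iff {D : ℝ} (hD : 0 < D) {U m : ℕ} (hU : 1 ≤ U) (hm : U < m) (i : ℕ) :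
    idx D U m = i ↔ MM D U i < m ∧ (m : ℝ) ≤ MM D U (i + 1) := by
  have hU0 : (0 : ℝ) < U := by exact_mod_cast hU
  have hmU : (U : ℝ) < m := by exact_mod_cast hm
  have hx : 0 < D * Real.log (m / U) := by
    apply mul_pos hD
    apply Real.log_pos
    rwa [one_lt_div hU0]
  have h1 : 0 < ⌈D * Real.log (m / U)⌉₊ := Nat.ceil_pos.mpr hx
  have h2 : idx D U m = i ↔ ⌈D * Real.log (m / U)⌉₊ = i + 1 := by
    unfold idx
    omega
  rw [h2, Nat.ceil_eq_iff (by omega), MM_lt_iff hD hU hm, ← not_lt (a := MM D U (i + 1)),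
    MM_lt_iff hD hU hm, not_lt]
  simp

lemma idx_lt {D : ℝ} (hD : 0 < D) {U m X : ℕ} (hU : 1 ≤ U) (hm : U < m) (hX : m ≤ X) :
    idx D U m < ⌈D * Real.log X⌉₊ := by
  have hU0 : (1 : ℝ) ≤ U := by exact_mod_cast hU
  have hm0 : (0 : ℝ) < m := by exact_mod_cast (by omega : 0 < m)
  have h1 := ((idx_iff hD hU hm _).mp rfl).1
  rw [MM_lt_iff hD hU hm] at h1
  apply Nat.lt_ceil.mpr
  refine h1.trans_le ?_
  apply mul_le_mul_of_nonneg_left _ hD.le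
  apply Real.log_le_log (by positivity)
  have : (m : ℝ) ≤ X := by exact_mod_cast hX
  exact (div_le_self hm0.le hU0).trans this

/-- the cells -/
noncomputable def ce (D : ℝ) (U Y i : ℕ) : Finset ℕ := Ioc ⌊MM D U i⌋₊ (min ⌊MM D U (i + 1)⌋₊ (3 * Y))

/-- the intervals of the other variable -/
noncomputable def JJ (D : ℝ) (U V Y i : ℕ) : Finset ℕ :=
  Ioc (max V ⌊(Y : ℝ) / MM D U i⌋₊) (min ⌊3 * (Y : ℝ) / MM D U i⌋₊ (3 * Y))

/-- the residue classes -/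
def Qs (q r : ℕ) : Finset (ℕ × ℕ) := ((range q) ×ˢ (range q)).filter (fun s => s.1 * s.2 % q = r % q)

/-- the short intervals -/
noncomputable def Sh (D : ℝ) (Y : ℕ) : Finset ℕ :=
  Ioc Y ⌊(Y : ℝ) * Real.exp (1 / D)⌋₊ ∪ Ioc (3 * Y) ⌊3 * (Y : ℝ) * Real.exp (1 / D)⌋₊

/-- the pairs -/
def T1 (U V Y q r : ℕ) : Finset (ℕ × ℕ) := ((Ioc U (3 * Y)) ×ˢ (Ioc V (3 * Y))).filter
  (fun p => (Y < p.1 * p.2 ∧ p.1 * p.2 ≤ 3 * Y) ∧ p.1 * p.2 % q = r % q)

/-- the pairs after the separation of the variables -/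
noncomputable def T2 (D : ℝ) (U V Y q r : ℕ) : Finset (ℕ × ℕ) := ((Ioc U (3 * Y)) ×ˢ (Ioc V (3 * Y))).filter
  (fun p => (⌊(Y : ℝ) / MM D U (idx D U p.1)⌋₊ < p.2 ∧ p.2 ≤ ⌊3 * (Y : ℝ) / MM D U (idx D U p.1)⌋₊) ∧
    p.1 * p.2 % q = r % q)

lemma sd1 {D : ℝ} (hD : 0 < D) {U V Y q r : ℕ} (hU : 1 ≤ U) {p : ℕ × ℕ} (hp : p ∈ T1 U V Y q r \ T2 D U V Y q r) :
    p.1 * p.2 ∈ Sh D Y := by
  simp only [T1, T2, Finset.mem_sdiff, Finset.mem_filter, Finset.mem_product, Finset.mem_Ioc] at hp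
  obtain ⟨⟨⟨⟨h1, h2⟩, h3, h4⟩, ⟨h5, h6⟩, h7⟩, h8⟩ := hp
  obtain ⟨h9, h10⟩ := (idx_iff hD hU h1 _).mp rfl
  set M := MM D U (idx D U p.1) with hM
  have hM0 : 0 < M := lt_of_lt_of_le (by exact_mod_cast hU) (MM_ge hD U _)
  rw [MM_succ, ← hM] at h10
  have hl0 : (0 : ℝ) ≤ p.2 := Nat.cast_nonneg _
  have h11 : (p.1 : ℝ) * p.2 ≤ 3 * Y := by exact_mod_cast h6
  have h12 : p.2 ≤ ⌊3 * (Y : ℝ) / M⌋₊ := by
    apply Nat.le_floor
    rw [le_div_iff₀ hM0]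
    nlinarith
  have h13 : p.2 ≤ ⌊(Y : ℝ) / M⌋₊ := by
    by_contra h
    exact h8 ⟨⟨⟨h1, h2⟩, h3, h4⟩, ⟨not_le.mp h, h12⟩, h7⟩
  have h14 : (p.2 : ℝ) ≤ Y / M := (Nat.cast_le.mpr h13).trans (Nat.floor_le (by positivity))
  rw [le_div_iff₀ hM0] at h14
  unfold Sh
  rw [Finset.mem_union, Finset.mem_Ioc]
  left
  refine ⟨h5, Nat.le_floor ?_⟩
  push_cast
  have he : 0 < Real.exp (1 / D) := Real.exp_pos _
  calc (p.1 : ℝ) * p.2 ≤ (M * Real.exp (1 / D)) * p.2 := mul_le_mul_of_nonneg_right h10 hl0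
    _ = (p.2 * M) * Real.exp (1 / D) := by ring
    _ ≤ Y * Real.exp (1 / D) := mul_le_mul_of_nonneg_right h14 he.le

lemma sd2 {D : ℝ} (hD : 0 < D) {U V Y q r : ℕ} (hU : 1 ≤ U) {p : ℕ × ℕ} (hp : p ∈ T2 D U V Y q r \ T1 U V Y q r) :
    p.1 * p.2 ∈ Sh D Y := by
  simp only [T1, T2, Finset.mem_sdiff, Finset.mem_filter, Finset.mem_product, Finset.mem_Ioc] at hp
  obtain ⟨⟨⟨⟨h1, h2⟩, h3, h4⟩, ⟨h5, h6⟩, h7⟩, h8⟩ := hp
  obtain ⟨h9, h10⟩ := (idx_iff hD hU h1 _).mp rfl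
  set M := MM D U (idx D U p.1) with hM
  have hM0 : 0 < M := lt_of_lt_of_le (by exact_mod_cast hU) (MM_ge hD U _)
  rw [MM_succ, ← hM] at h10
  have hl0 : (0 : ℝ) < p.2 := by exact_mod_cast (by omega : 0 < p.2)
  have h11 : (Y : ℝ) / M < p.2 := (Nat.floor_lt (by positivity)).mp h5
  rw [div_lt_iff₀ hM0] at h11
  have h12 : (Y : ℝ) < (p.1 : ℝ) * p.2 := by nlinarith
  have h13 : Y < p.1 * p.2 := by exact_mod_cast h12
  have h14 : 3 * Y < p.1 * p.2 := by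
    by_contra h
    exact h8 ⟨⟨⟨h1, h2⟩, h3, h4⟩, ⟨h13, not_lt.mp h⟩, h7⟩
  have h15 : (p.2 : ℝ) ≤ 3 * Y / M := (Nat.cast_le.mpr h6).trans (Nat.floor_le (by positivity))
  rw [le_div_iff₀ hM0] at h15
  unfold Sh
  rw [Finset.mem_union, Finset.mem_Ioc, Finset.mem_Ioc]
  right
  refine ⟨h14, Nat.le_floor ?_⟩
  push_cast
  have he : 0 < Real.exp (1 / D) := Real.exp_pos _
  calc (p.1 : ℝ) * p.2 ≤ (M * Real.exp (1 / D)) * p.2 := mul_le_mul_of_nonneg_right h10 hl0.le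
    _ = (p.2 * M) * Real.exp (1 / D) := by ring
    _ ≤ 3 * Y * Real.exp (1 / D) := mul_le_mul_of_nonneg_right h15 he.le

lemma decomp {D : ℝ} (hD : 0 < D) {U V Y q r : ℕ} (hU : 1 ≤ U) (hq : 1 ≤ q) (f g : ℕ → ℂ) :
    ∑ p ∈ T2 D U V Y q r, f p.1 * g p.2 =
      ∑ j ∈ range ⌈D * Real.log ((3 * Y : ℕ) : ℝ)⌉₊ ×ˢ Qs q r,
        (∑ m ∈ (ce D U Y j.1).filter (fun m => m % q = j.2.1), f m) *
        (∑ l ∈ (JJ D U V Y j.1).filter (fun l => l % q = j.2.2), g l) := by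
  rw [← Finset.sum_fiberwise_of_maps_to (s := T2 D U V Y q r)
    (t := range ⌈D * Real.log ((3 * Y : ℕ) : ℝ)⌉₊ ×ˢ Qs q r)
    (g := fun p => (idx D U p.1, (p.1 % q, p.2 % q)))]
  · refine Finset.sum_congr rfl fun j hj => ?_
    rw [Finset.sum_mul_sum, ← Finset.sum_product']
    refine Finset.sum_congr ?_ fun _ _ => rfl
    ext p
    simp only [Finset.mem_product, Finset.mem_range, Qs, Finset.mem_filter] at hj
    simp only [T2, ce, JJ, Finset.mem_filter, Finset.mem_product, Finset.mem_Ioc, Prod.ext_iff]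
    obtain ⟨hj1, ⟨hj2, hj3⟩, hj4⟩ := hj
    constructor
    · rintro ⟨⟨⟨⟨h1, h2⟩, h3, h4⟩, ⟨h5, h6⟩, h7⟩, h8, h9, h10⟩
      obtain ⟨h11, h12⟩ := (idx_iff hD hU h1 _).mp h8
      have hM0 : 0 < MM D U j.1 := lt_of_lt_of_le (by exact_mod_cast hU) (MM_ge hD U _)
      rw [h8] at h5 h6
      refine ⟨⟨⟨(Nat.floor_lt hM0.le).mpr h11, le_min (Nat.le_floor h12) h2⟩, h9⟩,
        ⟨max_lt h3 h5, le_min h6 h4⟩, h10⟩
    · rintro ⟨⟨⟨h1, h2⟩, h3⟩, ⟨h4, h5⟩, h6⟩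
      have hM0 : 0 < MM D U j.1 := lt_of_lt_of_le (by exact_mod_cast hU) (MM_ge hD U _)
      have h7 : MM D U j.1 < p.1 := (Nat.floor_lt hM0.le).mp h1
      have h8 : U < p.1 := by exact_mod_cast (MM_ge hD U j.1).trans_lt h7
      have h9 : (p.1 : ℝ) ≤ MM D U (j.1 + 1) := by
        have h10 : 0 ≤ MM D U (j.1 + 1) := (Nat.cast_nonneg U).trans (MM_ge hD U _)
        exact (Nat.cast_le.mpr (h2.trans (min_le_left _ _))).trans (Nat.floor_le h10)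
      have h10 : idx D U p.1 = j.1 := (idx_iff hD hU h8 _).mpr ⟨h7, h9⟩
      rw [h10]
      refine ⟨⟨⟨⟨h8, h2.trans (min_le_right _ _)⟩, (le_max_left _ _).trans_lt h4, h5.trans (min_le_right _ _)⟩,
        ⟨(le_max_right _ _).trans_lt h4, h5.trans (min_le_left _ _)⟩, ?_⟩, rfl, h3, h6⟩
      rw [Nat.mul_mod, h3, h6, hj4]
  · intro p hp
    simp only [T2, Finset.mem_filter, Finset.mem_product, Finset.mem_Ioc] at hp
    obtain ⟨⟨⟨h1, h2⟩, h3, h4⟩, ⟨h5, h6⟩, h7⟩ := hp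
    simp only [Finset.mem_product, Finset.mem_range, Qs, Finset.mem_filter]
    refine ⟨idx_lt hD hU h1 h2, ⟨Nat.mod_lt _ hq, Nat.mod_lt _ hq⟩, ?_⟩
    rw [← Nat.mul_mod, h7]

/-- the mean value theorem with constant `C` -/
def Mv (C : ℝ) : Prop := ∀ (s : Finset ℕ) (a : ℕ → ℂ) (N₁ N₂ : ℝ) (K : ℕ), 1 ≤ N₁ → N₁ ≤ N₂ →
    (∀ n ∈ s, N₁ ≤ (n : ℝ) ∧ (n : ℝ) ≤ N₂) → 1 ≤ K →
    ∑ k ∈ FK K, ‖DP s a k‖ ^ 2 ≤
      C * (1 + Real.log (N₂ / N₁)) * ∑ n ∈ s, ‖a n‖ ^ 2 * ((n : ℝ) + K)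

lemma energy {C : ℝ} (hC : 0 < C) (hmv : Mv C) (s : Finset ℕ) (a : ℕ → ℂ) (N R G : ℝ) (K : ℕ) (hN : 1 ≤ N)
    (hR0 : 0 ≤ R) (hR : R ≤ N) (hs : ∀ n ∈ s, 1 ≤ n ∧ (n : ℝ) ≤ R) (hG : ∑ n ∈ s, ‖a n‖ ^ 2 ≤ G) (hK : 1 ≤ K) :
    ∑ k ∈ FK K, ‖DP s a k‖ ^ 2 ≤ C * (1 + Real.log N) * ((R + K) * G) := by
  have h := hmv s a 1 N K le_rfl hN (fun n hn => ⟨by exact_mod_cast (hs n hn).1, (hs n hn).2.trans hR⟩) hK
  rw [div_one] at h
  refine h.trans ?_
  have hlog : 0 ≤ Real.log N := Real.log_nonneg hN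
  refine mul_le_mul_of_nonneg_left ?_ (by positivity)
  calc ∑ n ∈ s, ‖a n‖ ^ 2 * ((n : ℝ) + K) ≤ ∑ n ∈ s, ‖a n‖ ^ 2 * (R + K) := by
        refine Finset.sum_le_sum fun n hn => ?_
        refine mul_le_mul_of_nonneg_left ?_ (by positivity)
        linarith [(hs n hn).2]
    _ = (R + K) * ∑ n ∈ s, ‖a n‖ ^ 2 := by rw [← Finset.sum_mul, mul_comm]
    _ ≤ _ := by gcongr

lemma supb (f : ℕ → ℂ) (k : ℤ) (q s N₀ X : ℕ) (H : ℝ) (hH : 0 < H)
    (h : ∀ N : ℕ, N₀ ≤ N → N ≤ X → ‖∑ n ∈ (Icc 1 N).filter (fun n => n % q = s), f n * tw k n‖ ≤ N / H)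
    (N₁ N₂ : ℕ) (h1 : N₀ ≤ N₁) (h2 : N₂ ≤ X) :
    ‖DP ((Ioc N₁ N₂).filter (fun n => n % q = s)) f k‖ ≤ 2 * N₂ / H := by
  rcases le_total N₂ N₁ with h3 | h3
  · rw [Finset.Ioc_eq_empty (by omega)]
    unfold DP
    simp only [Finset.filter_empty, Finset.sum_empty, norm_zero]
    positivity
  · have h4 : DP ((Ioc N₁ N₂).filter (fun n => n % q = s)) f k =
        ∑ n ∈ (Icc 1 N₂).filter (fun n => n % q = s), f n * tw k n -
        ∑ n ∈ (Icc 1 N₁).filter (fun n => n % q = s), f n * tw k n := by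
      have h5 : (Icc 1 N₂).filter (fun n => n % q = s) =
          (Icc 1 N₁).filter (fun n => n % q = s) ∪ (Ioc N₁ N₂).filter (fun n => n % q = s) := by
        ext n
        simp only [Finset.mem_filter, Finset.mem_union, Finset.mem_Icc, Finset.mem_Ioc]
        constructor
        · rintro ⟨⟨h5, h6⟩, h7⟩
          by_cases h8 : n ≤ N₁
          · exact Or.inl ⟨⟨h5, h8⟩, h7⟩
          · exact Or.inr ⟨⟨not_le.mp h8, h6⟩, h7⟩
        · rintro (⟨⟨h5, h6⟩, h7⟩ | ⟨⟨h5, h6⟩, h7⟩)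
          · exact ⟨⟨h5, h6.trans h3⟩, h7⟩
          · exact ⟨⟨by omega, h6⟩, h7⟩
      rw [h5, Finset.sum_union]
      · rw [add_sub_cancel_left]
        unfold DP
        refine Finset.sum_congr rfl fun n _ => ?_
        rw [ch_eq_tw]
      · rw [Finset.disjoint_left]
        intro n hn hn'
        simp only [Finset.mem_filter, Finset.mem_Icc, Finset.mem_Ioc] at hn hn'
        omega
    rw [h4]
    refine (norm_sub_le _ _).trans ?_
    have h6 := h N₂ (h1.trans h3) h2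
    have h7 := h N₁ h1 (h3.trans h2)
    have h8 : (N₁ : ℝ) / H ≤ N₂ / H := by
      have : (N₁ : ℝ) ≤ N₂ := by exact_mod_cast h3
      gcongr
    have h9 : 2 * (N₂ : ℝ) / H = N₂ / H + N₂ / H := by ring
    rw [h9]
    linarith

lemma exp_le_two {x : ℝ} (h0 : 0 ≤ x) (h1 : x ≤ 1 / 2) : Real.exp x ≤ 1 + 2 * x := by
  have h := Real.exp_bound_div_one_sub_of_interval h0 (by linarith : x < 1)
  refine h.trans ?_
  rw [div_le_iff₀ (by linarith)]
  nlinarith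

lemma card_Sh {D : ℝ} (hD : 2 ≤ D) (Y : ℕ) : ((Sh D Y).card : ℝ) ≤ 8 * Y / D := by
  have hD0 : 0 < D := by linarith
  have h1 : Real.exp (1 / D) ≤ 1 + 2 * (1 / D) := by
    apply exp_le_two (by positivity)
    apply one_div_le_one_div_of_le (by norm_num) hD
  have h2 : ((Sh D Y).card : ℝ) ≤ ((Ioc Y ⌊(Y : ℝ) * Real.exp (1 / D)⌋₊).card : ℝ) +
      ((Ioc (3 * Y) ⌊3 * (Y : ℝ) * Real.exp (1 / D)⌋₊).card : ℝ) := by
    unfold Sh
    exact_mod_cast Finset.card_union_le _ _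
  have hY : (0 : ℝ) ≤ Y := Nat.cast_nonneg _
  have he : 1 ≤ Real.exp (1 / D) := Real.one_le_exp (by positivity)
  have h3 : ((Ioc Y ⌊(Y : ℝ) * Real.exp (1 / D)⌋₊).card : ℝ) ≤ 2 * Y / D := by
    rw [Nat.card_Ioc, Nat.cast_sub]
    · have := Nat.floor_le (show 0 ≤ (Y : ℝ) * Real.exp (1 / D) by positivity)
      have h4 : 2 * Y / D = Y * (2 * (1 / D)) := by ring
      rw [h4]
      nlinarith
    · apply Nat.le_floor
      nlinarith
  have h5 : ((Ioc (3 * Y) ⌊3 * (Y : ℝ) * Real.exp (1 / D)⌋₊).card : ℝ) ≤ 6 * Y / D := by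
    rw [Nat.card_Ioc, Nat.cast_sub]
    · have := Nat.floor_le (show 0 ≤ 3 * (Y : ℝ) * Real.exp (1 / D) by positivity)
      have h4 : 6 * Y / D = 3 * Y * (2 * (1 / D)) := by ring
      rw [h4]
      push_cast
      nlinarith
    · apply Nat.le_floor
      push_cast
      nlinarith
  have h6 : 8 * Y / D = 2 * Y / D + 6 * Y / D := by ring
  rw [h6]
  linarith

lemma Sh_sub {D : ℝ} (hD : 2 ≤ D) (Y : ℕ) : Sh D Y ⊆ Icc 1 (9 * Y) := by
  have hD0 : 0 < D := by linarith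
  have h1 : Real.exp (1 / D) ≤ 1 + 2 * (1 / D) := by
    apply exp_le_two (by positivity)
    apply one_div_le_one_div_of_le (by norm_num) hD
  have h2 : 1 / D ≤ 1 / 2 := one_div_le_one_div_of_le (by norm_num) hD
  have h3 : Real.exp (1 / D) ≤ 2 := by linarith
  have hY : (0 : ℝ) ≤ Y := Nat.cast_nonneg _
  intro n hn
  unfold Sh at hn
  rw [Finset.mem_union, Finset.mem_Ioc, Finset.mem_Ioc] at hn
  rw [Finset.mem_Icc]
  rcases hn with ⟨h4, h5⟩ | ⟨h4, h5⟩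
  · refine ⟨by omega, ?_⟩
    have h6 : (n : ℝ) ≤ Y * Real.exp (1 / D) := (Nat.cast_le.mpr h5).trans (Nat.floor_le (by positivity))
    have h7 : (n : ℝ) ≤ ((9 * Y : ℕ) : ℝ) := by
      push_cast
      nlinarith
    exact_mod_cast h7
  · refine ⟨by omega, ?_⟩
    have h6 : (n : ℝ) ≤ 3 * Y * Real.exp (1 / D) := (Nat.cast_le.mpr h5).trans (Nat.floor_le (by positivity))
    have h7 : (n : ℝ) ≤ ((9 * Y : ℕ) : ℝ) := by
      push_cast
      nlinarith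
    exact_mod_cast h7

/-- the energy of the error term -/
lemma errE {C : ℝ} (hC : 0 < C) (hmv : Mv C) (D ℓ E : ℝ) (Y K : ℕ) (hD : 2 ≤ D) (hK : 1 ≤ K) (hY : 1 ≤ Y) (hKY : (K : ℝ) ≤ Y)
    (hl : 1 ≤ ℓ) (hlog : Real.log (9 * Y) ≤ 2 * ℓ) (hE0 : 0 < E) (hE : E ^ 2 ≤ D) (a : ℕ → ℂ)
    (ha : ∀ n ∈ Sh D Y, ‖a n‖ ≤ 2 * (tau n * Real.log n)) :
    ∑ k ∈ FK K, ‖DP (Sh D Y) a k‖ ^ 2 ≤ 28343520 * C * ℓ ^ 11 * Y ^ 2 / E := by
  have hD0 : 0 < D := by linarith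
  have hY0 : (0 : ℝ) < Y := by exact_mod_cast hY
  have hsub := Sh_sub hD Y
  have h1 : ∑ n ∈ Sh D Y, tau n ^ 2 ≤ 9 * 3 ^ 8 * ℓ ^ 8 * Y / E := by
    refine (tau_set (Sh D Y) (9 * Y) (by omega) hsub).trans ?_
    apply Real.sqrt_le_iff.mpr
    refine ⟨by positivity, ?_⟩
    have h2 : (1 + Real.log ((9 * Y : ℕ) : ℝ)) ^ 16 ≤ (3 * ℓ) ^ 16 := by
      push_cast
      have : 0 ≤ Real.log (9 * (Y : ℝ)) := Real.log_nonneg (by
        have : (1 : ℝ) ≤ Y := by exact_mod_cast hY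
        linarith)
      gcongr
      linarith
    calc ((Sh D Y).card : ℝ) * (((9 * Y : ℕ) : ℝ) * (1 + Real.log ((9 * Y : ℕ) : ℝ)) ^ 16)
        ≤ (8 * Y / D) * (((9 * Y : ℕ) : ℝ) * (3 * ℓ) ^ 16) := by
          have := card_Sh hD Y
          gcongr
      _ = 72 * 3 ^ 16 * ℓ ^ 16 * Y ^ 2 / D := by
          push_cast
          ring
      _ ≤ 72 * 3 ^ 16 * ℓ ^ 16 * Y ^ 2 / E ^ 2 := by gcongr
      _ ≤ 81 * 3 ^ 16 * ℓ ^ 16 * Y ^ 2 / E ^ 2 := by gcongr; norm_num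
      _ = (9 * 3 ^ 8 * ℓ ^ 8 * Y / E) ^ 2 := by ring
  have h3 : ∑ n ∈ Sh D Y, ‖a n‖ ^ 2 ≤ 16 * ℓ ^ 2 * (9 * 3 ^ 8 * ℓ ^ 8 * Y / E) := by
    calc ∑ n ∈ Sh D Y, ‖a n‖ ^ 2 ≤ ∑ n ∈ Sh D Y, 16 * ℓ ^ 2 * tau n ^ 2 := by
          refine Finset.sum_le_sum fun n hn => ?_
          have h4 := hsub hn
          rw [Finset.mem_Icc] at h4
          have hn1 : (1 : ℝ) ≤ n := by exact_mod_cast h4.1
          have h5 : Real.log n ≤ 2 * ℓ := by
            refine (Real.log_le_log (by linarith) ?_).trans hlog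
            exact_mod_cast h4.2
          have h6 : 0 ≤ Real.log n := Real.log_nonneg hn1
          have h7 := tau_nonneg n
          have h8 : ‖a n‖ ≤ 4 * ℓ * tau n := by
            refine (ha n hn).trans ?_
            nlinarith [mul_le_mul_of_nonneg_left h5 h7]
          calc ‖a n‖ ^ 2 ≤ (4 * ℓ * tau n) ^ 2 := pow_le_pow_left₀ (norm_nonneg _) h8 2
            _ = _ := by ring
      _ = 16 * ℓ ^ 2 * ∑ n ∈ Sh D Y, tau n ^ 2 := by rw [Finset.mul_sum]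
      _ ≤ _ := by gcongr
  have h4 := energy hC hmv (Sh D Y) a (9 * Y) (9 * Y) _ K (by
    have : (1 : ℝ) ≤ Y := by exact_mod_cast hY
    linarith) (by positivity) le_rfl (fun n hn => by
      have h4 := hsub hn
      rw [Finset.mem_Icc] at h4
      exact ⟨h4.1, by exact_mod_cast h4.2⟩) h3 hK
  refine h4.trans ?_
  calc C * (1 + Real.log (9 * Y)) * ((9 * Y + K) * (16 * ℓ ^ 2 * (9 * 3 ^ 8 * ℓ ^ 8 * Y / E)))
      ≤ C * (3 * ℓ) * ((10 * Y) * (16 * ℓ ^ 2 * (9 * 3 ^ 8 * ℓ ^ 8 * Y / E))) := by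
        gcongr
        · linarith
        · linarith
    _ = 28343520 * C * ℓ ^ 11 * Y ^ 2 / E := by ring

/-- the energy of one product -/
lemma cellb {C : ℝ} (hC : 0 < C) (hmv : Mv C) (D ℓ H S : ℝ) (Y q s s' U V i K : ℕ) (hD : 2 ≤ D) (hK : 1 ≤ K)
    (hY : 1 ≤ Y) (hU : 1 ≤ U) (hS : S ^ 2 = Y) (hS0 : 0 < S) (hKS : (K : ℝ) ≤ S)
    (hl : 1 ≤ ℓ) (hlog : Real.log (3 * Y) ≤ 2 * ℓ) (hH : 0 < H) (KK : Finset ℤ) (hKK : KK ⊆ FK K)
    (hA : ∀ k ∈ KK, ‖DP ((ce D U Y i).filter (fun m => m % q = s)) (fun m => (alU U m : ℂ)) k‖ ≤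
      2 * ((min ⌊MM D U (i + 1)⌋₊ (3 * Y) : ℕ) : ℝ) / H)
    (hB : ∀ k ∈ KK, ‖DP ((JJ D U V Y i).filter (fun m => m % q = s'))
      (fun l => (ArithmeticFunction.vonMangoldt l : ℂ)) k‖ ≤
      2 * ((min ⌊3 * (Y : ℝ) / MM D U i⌋₊ (3 * Y) : ℕ) : ℝ) / H) :
    ∑ k ∈ KK, (‖DP ((ce D U Y i).filter (fun m => m % q = s)) (fun m => (alU U m : ℂ)) k‖ *
      ‖DP ((JJ D U V Y i).filter (fun m => m % q = s')) (fun l => (ArithmeticFunction.vonMangoldt l : ℂ)) k‖) ^ 2 ≤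
      104976 * C * ℓ ^ 5 * Y ^ 2 / H ^ 2 := by
  have hD0 : 0 < D := by linarith
  have hY1 : (1 : ℝ) ≤ Y := by exact_mod_cast hY
  have hY0 : (0 : ℝ) < Y := by linarith
  have hU0 : (1 : ℝ) ≤ U := by exact_mod_cast hU
  have hMU : (U : ℝ) ≤ MM D U i := MM_ge hD0 U i
  have hMs : MM D U (i + 1) = MM D U i * Real.exp (1 / D) := MM_succ U i
  set M := MM D U i with hM
  have hM1 : 1 ≤ M := by linarith
  have hM0 : 0 < M := by linarith
  have hexp : Real.exp (1 / D) ≤ 2 := by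
    have h2 : 1 / D ≤ 1 / 2 := one_div_le_one_div_of_le (by norm_num) hD
    have := exp_le_two (by positivity) h2
    linarith
  set N₂ : ℕ := min ⌊MM D U (i + 1)⌋₊ (3 * Y) with hN₂
  set N₂' : ℕ := min ⌊3 * (Y : ℝ) / M⌋₊ (3 * Y) with hN₂'
  have hN2M : (N₂ : ℝ) ≤ 3 * M := by
    have h1 : (N₂ : ℝ) ≤ MM D U (i + 1) := by
      have h2 : 0 ≤ MM D U (i + 1) := (Nat.cast_nonneg U).trans (MM_ge hD0 U _)
      exact (Nat.cast_le.mpr (min_le_left _ _)).trans (Nat.floor_le h2)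
    rw [hMs] at h1
    nlinarith
  have hN2Y : (N₂ : ℝ) ≤ 3 * Y := by
    have : N₂ ≤ 3 * Y := min_le_right _ _
    exact_mod_cast this
  have hN2M' : (N₂' : ℝ) ≤ 3 * Y / M :=
    (Nat.cast_le.mpr (min_le_left _ _)).trans (Nat.floor_le (by positivity))
  have hN2Y' : (N₂' : ℝ) ≤ 3 * Y := by
    have : N₂' ≤ 3 * Y := min_le_right _ _
    exact_mod_cast this
  have h3Y : (1 : ℝ) ≤ 3 * Y := by linarith
  have hlog0 : 0 ≤ Real.log (3 * Y) := Real.log_nonneg h3Y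
  have hlog1 : 1 + Real.log (3 * Y) ≤ 3 * ℓ := by linarith
  set fA : ℤ → ℝ := fun k => ‖DP ((ce D U Y i).filter (fun m => m % q = s)) (fun m => (alU U m : ℂ)) k‖ with hfA
  set fB : ℤ → ℝ := fun k => ‖DP ((JJ D U V Y i).filter (fun m => m % q = s'))
    (fun l => (ArithmeticFunction.vonMangoldt l : ℂ)) k‖ with hfB
  have hfA0 : ∀ k, 0 ≤ fA k := fun k => norm_nonneg _
  have hfB0 : ∀ k, 0 ≤ fB k := fun k => norm_nonneg _
  change ∑ k ∈ KK, (fA k * fB k) ^ 2 ≤ _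
  rcases le_or_gt M S with hMS | hMS
  · -- the sum over `m` is short
    have hKM : (K : ℝ) ≤ Y / M := by
      rw [le_div_iff₀ hM0]
      have : (K : ℝ) * M ≤ S * S := mul_le_mul hKS hMS hM0.le hS0.le
      nlinarith
    have hEn : ∑ k ∈ FK K, fB k ^ 2 ≤ C * (1 + Real.log (3 * Y)) * ((3 * Y / M + K) * (3 * Y / M * (2 * ℓ) ^ 2)) := by
      refine energy hC hmv _ _ (3 * Y) (3 * Y / M) _ K h3Y (by positivity) (div_le_self (by positivity) hM1) ?_ ?_ hK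
      · intro n hn
        rw [Finset.mem_filter, JJ, Finset.mem_Ioc] at hn
        refine ⟨by omega, ?_⟩
        exact (Nat.cast_le.mpr hn.1.2).trans hN2M'
      · have hsub : (JJ D U V Y i).filter (fun m => m % q = s') ⊆ Icc 1 N₂' := by
          intro n hn
          rw [Finset.mem_filter, JJ, Finset.mem_Ioc] at hn
          rw [Finset.mem_Icc]
          exact ⟨by omega, hn.1.2⟩
        calc ∑ n ∈ (JJ D U V Y i).filter (fun m => m % q = s'), ‖(ArithmeticFunction.vonMangoldt n : ℂ)‖ ^ 2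
            ≤ ∑ n ∈ Icc 1 N₂', ‖(ArithmeticFunction.vonMangoldt n : ℂ)‖ ^ 2 :=
              Finset.sum_le_sum_of_subset_of_nonneg hsub fun _ _ _ => by positivity
          _ ≤ ∑ n ∈ Icc 1 N₂', (2 * ℓ) ^ 2 := by
              refine Finset.sum_le_sum fun n hn => ?_
              rw [Finset.mem_Icc] at hn
              rw [Complex.norm_real, Real.norm_of_nonneg ArithmeticFunction.vonMangoldt_nonneg]
              refine pow_le_pow_left₀ ArithmeticFunction.vonMangoldt_nonneg ?_ 2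
              refine ArithmeticFunction.vonMangoldt_le_log.trans ?_
              refine (Real.log_le_log (by exact_mod_cast hn.1) ?_).trans hlog
              exact (Nat.cast_le.mpr hn.2).trans hN2Y'
          _ = N₂' * (2 * ℓ) ^ 2 := by rw [Finset.sum_const, Nat.card_Icc]; simp
          _ ≤ _ := by gcongr
    calc ∑ k ∈ KK, (fA k * fB k) ^ 2 ≤ ∑ k ∈ KK, (6 * M / H) ^ 2 * fB k ^ 2 := by
          refine Finset.sum_le_sum fun k hk => ?_
          rw [mul_pow]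
          refine mul_le_mul_of_nonneg_right (pow_le_pow_left₀ (hfA0 k) ?_ 2) (by positivity)
          refine (hA k hk).trans ?_
          have : 6 * M = 2 * (3 * M) := by ring
          rw [this]
          gcongr
      _ = (6 * M / H) ^ 2 * ∑ k ∈ KK, fB k ^ 2 := by rw [Finset.mul_sum]
      _ ≤ (6 * M / H) ^ 2 * ∑ k ∈ FK K, fB k ^ 2 := by
          gcongr
      _ ≤ (6 * M / H) ^ 2 * (C * (1 + Real.log (3 * Y)) * ((3 * Y / M + K) * (3 * Y / M * (2 * ℓ) ^ 2))) := by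
          gcongr
      _ ≤ (6 * M / H) ^ 2 * (C * (3 * ℓ) * ((3 * Y / M + Y / M) * (3 * Y / M * (2 * ℓ) ^ 2))) := by
          gcongr
      _ = 5184 * C * ℓ ^ 3 * Y ^ 2 / H ^ 2 := by
          field_simp
          ring
      _ ≤ 104976 * C * ℓ ^ 5 * Y ^ 2 / H ^ 2 := by
          have : ℓ ^ 3 ≤ ℓ ^ 5 := pow_le_pow_right₀ hl (by norm_num)
          gcongr
          norm_num
  · -- the sum over `m` is long
    have hKM : (K : ℝ) ≤ M := hKS.trans hMS.le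
    have hEn : ∑ k ∈ FK K, fA k ^ 2 ≤ C * (1 + Real.log (3 * Y)) *
        ((min (3 * M) (3 * Y) + K) * (3 * M * (3 * ℓ) ^ 4)) := by
      refine energy hC hmv _ _ (3 * Y) (min (3 * M) (3 * Y)) _ K h3Y (by positivity) (min_le_right _ _) ?_ ?_ hK
      · intro n hn
        rw [Finset.mem_filter, ce, Finset.mem_Ioc] at hn
        refine ⟨by omega, le_min ((Nat.cast_le.mpr hn.1.2).trans hN2M) ((Nat.cast_le.mpr hn.1.2).trans hN2Y)⟩
      · have hsub : (ce D U Y i).filter (fun m => m % q = s) ⊆ Icc 1 N₂ := by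
          intro n hn
          rw [Finset.mem_filter, ce, Finset.mem_Ioc] at hn
          rw [Finset.mem_Icc]
          exact ⟨by omega, hn.1.2⟩
        rcases Nat.eq_zero_or_pos N₂ with h0 | h0
        · rw [h0, Finset.Icc_eq_empty (by norm_num), Finset.subset_empty] at hsub
          rw [hsub, Finset.sum_empty]
          positivity
        · calc ∑ n ∈ (ce D U Y i).filter (fun m => m % q = s), ‖(alU U n : ℂ)‖ ^ 2
              ≤ ∑ n ∈ Icc 1 N₂, ‖(alU U n : ℂ)‖ ^ 2 :=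
                Finset.sum_le_sum_of_subset_of_nonneg hsub fun _ _ _ => by positivity
            _ ≤ ∑ n ∈ Icc 1 N₂, tau n ^ 2 := by
                refine Finset.sum_le_sum fun n _ => ?_
                exact pow_le_pow_left₀ (norm_nonneg _) (alU_norm U n) 2
            _ ≤ N₂ * (1 + Real.log N₂) ^ (2 ^ 2) := tau_pow_sum 2 N₂ h0
            _ ≤ 3 * M * (3 * ℓ) ^ 4 := by
                have h1 : Real.log N₂ ≤ Real.log (3 * Y) := Real.log_le_log (by exact_mod_cast h0) hN2Y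
                have h2 : 0 ≤ Real.log N₂ := Real.log_nonneg (by exact_mod_cast h0)
                have h3 : (1 + Real.log N₂) ^ (2 ^ 2) ≤ (3 * ℓ) ^ 4 := by
                  norm_num only
                  exact pow_le_pow_left₀ (by linarith) (by linarith) 4
                exact mul_le_mul hN2M h3 (by positivity) (by positivity)
    calc ∑ k ∈ KK, (fA k * fB k) ^ 2 ≤ ∑ k ∈ KK, (6 * Y / M / H) ^ 2 * fA k ^ 2 := by
          refine Finset.sum_le_sum fun k hk => ?_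
          rw [mul_comm (fA k), mul_pow]
          refine mul_le_mul_of_nonneg_right (pow_le_pow_left₀ (hfB0 k) ?_ 2) (by positivity)
          refine (hB k hk).trans ?_
          have : 6 * (Y : ℝ) / M = 2 * (3 * Y / M) := by ring
          rw [this]
          gcongr
      _ = (6 * Y / M / H) ^ 2 * ∑ k ∈ KK, fA k ^ 2 := by rw [Finset.mul_sum]
      _ ≤ (6 * Y / M / H) ^ 2 * ∑ k ∈ FK K, fA k ^ 2 := by
          gcongr
      _ ≤ (6 * Y / M / H) ^ 2 * (C * (1 + Real.log (3 * Y)) *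
        ((min (3 * M) (3 * Y) + K) * (3 * M * (3 * ℓ) ^ 4))) := by
          gcongr
      _ ≤ (6 * Y / M / H) ^ 2 * (C * (3 * ℓ) * ((3 * M + M) * (3 * M * (3 * ℓ) ^ 4))) := by
          gcongr
          exact min_le_left _ _
      _ = 104976 * C * ℓ ^ 5 * Y ^ 2 / H ^ 2 := by
          field_simp
          ring

lemma card_Qs (q r : ℕ) : ((Qs q r).card : ℝ) ≤ (q : ℝ) ^ 2 := by
  have h : (Qs q r).card ≤ q * q := by
    refine (Finset.card_filter_le _ _).trans ?_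
    rw [Finset.card_product, Finset.card_range]
  rw [sq]
  exact_mod_cast h

theorem core {C : ℝ} (hC : 0 < C) (hmv : Mv C) (D ℓ E H S : ℝ) (Y q r U V K : ℕ) (hD : 2 ≤ D) (hK : 1 ≤ K)
    (hY : 1 ≤ Y) (hU : 1 ≤ U) (hq : 1 ≤ q) (hrq : r.Coprime q) (hS : S ^ 2 = Y) (hS0 : 0 < S) (hKS : (K : ℝ) ≤ S)
    (hl : 1 ≤ ℓ) (hlog : Real.log (9 * Y) ≤ 2 * ℓ) (hH : 0 < H) (hE0 : 0 < E) (hE : E ^ 2 ≤ D)
    (KK : Finset ℤ) (hKK : KK ⊆ FK K)
    (hA : ∀ k ∈ KK, ∀ s : ℕ, s < q → s.Coprime q → ∀ N : ℕ, U ≤ N → N ≤ 3 * Y →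
      ‖∑ n ∈ (Icc 1 N).filter (fun n => n % q = s), (alU U n : ℂ) * tw k n‖ ≤ N / H)
    (hB : ∀ k ∈ KK, ∀ s : ℕ, s < q → s.Coprime q → ∀ N : ℕ, V ≤ N → N ≤ 3 * Y →
      ‖∑ n ∈ (Icc 1 N).filter (fun n => n % q = s), (ArithmeticFunction.vonMangoldt n : ℂ) * tw k n‖ ≤ N / H) :
    ∑ k ∈ KK, ‖DP ((Ioc Y (3 * Y)).filter (fun n => n % q = r % q)) (fun n => ∑ x ∈ n.divisorsAntidiagonal.filter
      (fun x => U < x.1 ∧ V < x.2), (alU U x.1 : ℂ) * (ArithmeticFunction.vonMangoldt x.2 : ℂ)) k‖ ^ 2 ≤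
    2 * (28343520 * C * ℓ ^ 11 * Y ^ 2 / E) +
      2 * (((⌈D * Real.log ((3 * Y : ℕ) : ℝ)⌉₊ : ℝ) * q ^ 2) ^ 2 * (104976 * C * ℓ ^ 5 * Y ^ 2 / H ^ 2)) := by
  have hD0 : 0 < D := by linarith
  have hY1 : (1 : ℝ) ≤ Y := by exact_mod_cast hY
  have hY0 : (0 : ℝ) < Y := by linarith
  have hlog3 : Real.log (3 * Y) ≤ 2 * ℓ := by
    refine (Real.log_le_log (by positivity) ?_).trans hlog
    linarith
  have hKY : (K : ℝ) ≤ Y := by
    have hS1 : 1 ≤ S := le_trans (by exact_mod_cast hK) hKS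
    nlinarith
  -- abbreviations
  set a : ℕ → ℂ := fun m => (alU U m : ℂ) with ha
  set b : ℕ → ℂ := fun l => (ArithmeticFunction.vonMangoldt l : ℂ) with hb
  set J := range ⌈D * Real.log ((3 * Y : ℕ) : ℝ)⌉₊ ×ˢ Qs q r with hJ
  set c : ℕ → ℂ := fun n => ∑ x ∈ n.divisorsAntidiagonal.filter
      (fun x => U < x.1 ∧ V < x.2), (alU U x.1 : ℂ) * (ArithmeticFunction.vonMangoldt x.2 : ℂ) with hc
  set c1 : ℕ → ℂ := fun n => ∑ p ∈ (T1 U V Y q r \ T2 D U V Y q r).filter (fun p => p.1 * p.2 = n),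
    a p.1 * b p.2 with hc1
  set c2 : ℕ → ℂ := fun n => ∑ p ∈ (T2 D U V Y q r \ T1 U V Y q r).filter (fun p => p.1 * p.2 = n),
    a p.1 * b p.2 with hc2
  set fA : ℕ × (ℕ × ℕ) → ℤ → ℂ := fun j k => DP ((ce D U Y j.1).filter (fun m => m % q = j.2.1)) a k with hfA
  set fB : ℕ × (ℕ × ℕ) → ℤ → ℂ := fun j k => DP ((JJ D U V Y j.1).filter (fun m => m % q = j.2.2)) b k with hfB
  have hT1 : ∀ p ∈ T1 U V Y q r, p.1 ≠ 0 ∧ p.2 ≠ 0 := by
    intro p hp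
    simp only [T1, Finset.mem_filter, Finset.mem_product, Finset.mem_Ioc] at hp
    omega
  have hT2 : ∀ p ∈ T2 D U V Y q r, p.1 ≠ 0 ∧ p.2 ≠ 0 := by
    intro p hp
    simp only [T2, Finset.mem_filter, Finset.mem_product, Finset.mem_Ioc] at hp
    omega
  -- the main identity
  have hmain : ∀ k : ℤ, DP ((Ioc Y (3 * Y)).filter (fun n => n % q = r % q)) c k =
      DP (Sh D Y) (fun n => c1 n - c2 n) k + ∑ j ∈ J, fA j k * fB j k := by
    intro k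
    set F : ℕ × ℕ → ℂ := fun p => (a p.1 * ch k (Real.log p.1)) * (b p.2 * ch k (Real.log p.2)) with hF
    have h1 : DP ((Ioc Y (3 * Y)).filter (fun n => n % q = r % q)) c k = ∑ p ∈ T1 U V Y q r, F p := by
      rw [hF, collect ((Ioc Y (3 * Y)).filter (fun n => n % q = r % q)) (T1 U V Y q r) a b k hT1]
      · unfold DP
        refine Finset.sum_congr rfl fun n hn => ?_
        congr 1
        rw [hc]
        refine Finset.sum_congr ?_ fun _ _ => rfl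
        ext p
        simp only [Finset.mem_filter, Finset.mem_Ioc] at hn
        simp only [T1, Finset.mem_filter, Finset.mem_product, Finset.mem_Ioc, Nat.mem_divisorsAntidiagonal]
        constructor
        · rintro ⟨⟨h2, h3⟩, h4, h5⟩
          have h6 : p.1 ≤ n := by rw [← h2]; exact Nat.le_mul_of_pos_right _ (by omega)
          have h7 : p.2 ≤ n := by rw [← h2]; exact Nat.le_mul_of_pos_left _ (by omega)
          rw [h2]
          exact ⟨⟨⟨⟨h4, by omega⟩, h5, by omega⟩, ⟨hn.1.1, hn.1.2⟩, hn.2⟩, rfl⟩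
        · rintro ⟨⟨⟨⟨h2, h3⟩, h4, h5⟩, _, _⟩, h8⟩
          exact ⟨⟨h8, by omega⟩, h2, h4⟩
      · intro p hp
        simp only [T1, Finset.mem_filter, Finset.mem_product, Finset.mem_Ioc] at hp
        simp only [Finset.mem_filter, Finset.mem_Ioc]
        exact ⟨hp.2.1, hp.2.2⟩
    have h2 : ∑ p ∈ T2 D U V Y q r, F p = ∑ j ∈ J, fA j k * fB j k := by
      rw [hF]
      exact decomp hD0 hU hq (fun m => a m * ch k (Real.log m)) (fun l => b l * ch k (Real.log l))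
    have h3 : ∑ p ∈ T1 U V Y q r \ T2 D U V Y q r, F p = DP (Sh D Y) c1 k := by
      rw [hF, collect (Sh D Y) _ a b k (fun p hp => hT1 p (Finset.mem_sdiff.mp hp).1)
        (fun p hp => sd1 hD0 hU hp)]
    have h4 : ∑ p ∈ T2 D U V Y q r \ T1 U V Y q r, F p = DP (Sh D Y) c2 k := by
      rw [hF, collect (Sh D Y) _ a b k (fun p hp => hT2 p (Finset.mem_sdiff.mp hp).1)
        (fun p hp => sd2 hD0 hU hp)]
    have h5 := Finset.sum_sdiff_sub_sum_sdiff (s₁ := T1 U V Y q r) (s₂ := T2 D U V Y q r) (f := F)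
    have h6 : DP (Sh D Y) (fun n => c1 n - c2 n) k = DP (Sh D Y) c1 k - DP (Sh D Y) c2 k := by
      unfold DP
      rw [← Finset.sum_sub_distrib]
      refine Finset.sum_congr rfl fun n _ => ?_
      ring
    rw [h1, h6, ← h2, ← h3, ← h4]
    linear_combination h5
  -- the error term
  have herr : ∑ k ∈ KK, ‖DP (Sh D Y) (fun n => c1 n - c2 n) k‖ ^ 2 ≤ 28343520 * C * ℓ ^ 11 * Y ^ 2 / E := by
    refine le_trans (Finset.sum_le_sum_of_subset_of_nonneg hKK fun _ _ _ => by positivity) ?_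
    refine errE hC hmv D ℓ E Y K hD hK hY hKY hl hlog hE0 hE _ ?_
    intro n hn
    have hn1 := Finset.mem_Icc.mp (Sh_sub hD Y hn)
    refine (norm_sub_le _ _).trans ?_
    have h1 := coef_le U n hn1.1 ((T1 U V Y q r \ T2 D U V Y q r).filter (fun p => p.1 * p.2 = n))
      (fun p hp => (Finset.mem_filter.mp hp).2)
    have h2 := coef_le U n hn1.1 ((T2 D U V Y q r \ T1 U V Y q r).filter (fun p => p.1 * p.2 = n))
      (fun p hp => (Finset.mem_filter.mp hp).2)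
    have h3 : ‖c1 n‖ ≤ tau n * Real.log n := h1
    have h4 : ‖c2 n‖ ≤ tau n * Real.log n := h2
    linarith
  -- the products
  have hprod : ∀ j ∈ J, ∑ k ∈ KK, (‖fA j k‖ * ‖fB j k‖) ^ 2 ≤ 104976 * C * ℓ ^ 5 * Y ^ 2 / H ^ 2 := by
    intro j hj
    simp only [hJ, Finset.mem_product, Finset.mem_range, Qs, Finset.mem_filter] at hj
    obtain ⟨hj1, ⟨hj2, hj3⟩, hj4⟩ := hj
    have hco : (j.2.1 * j.2.2).Coprime q := by
      have h1 : Nat.gcd (j.2.1 * j.2.2) q = Nat.gcd r q := by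
        rw [Nat.gcd_comm, Nat.gcd_rec, hj4, ← Nat.gcd_rec, Nat.gcd_comm]
      rw [Nat.Coprime, h1]
      exact hrq
    have hco1 : j.2.1.Coprime q := Nat.Coprime.coprime_mul_right hco
    have hco2 : j.2.2.Coprime q := Nat.Coprime.coprime_mul_left hco
    have hM0 : (U : ℝ) ≤ MM D U j.1 := MM_ge hD0 U j.1
    refine cellb hC hmv D ℓ H S Y q j.2.1 j.2.2 U V j.1 K hD hK hY hU hS hS0 hKS hl hlog3 hH KK hKK ?_ ?_
    · intro k hk
      refine supb a k q j.2.1 U (3 * Y) H hH (fun N h1 h2 => hA k hk _ hj2 hco1 N h1 h2) _ _ ?_ (min_le_right _ _)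
      exact Nat.le_floor hM0
    · intro k hk
      exact supb b k q j.2.2 V (3 * Y) H hH (fun N h1 h2 => hB k hk _ hj3 hco2 N h1 h2) _ _ (le_max_left _ _)
        (min_le_right _ _)
  have hsum : ∑ k ∈ KK, ‖∑ j ∈ J, fA j k * fB j k‖ ^ 2 ≤
      (J.card : ℝ) ^ 2 * (104976 * C * ℓ ^ 5 * Y ^ 2 / H ^ 2) := by
    calc ∑ k ∈ KK, ‖∑ j ∈ J, fA j k * fB j k‖ ^ 2
        ≤ ∑ k ∈ KK, (J.card : ℝ) * ∑ j ∈ J, (‖fA j k‖ * ‖fB j k‖) ^ 2 := by
          refine Finset.sum_le_sum fun k _ => ?_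
          have h1 : ‖∑ j ∈ J, fA j k * fB j k‖ ≤ ∑ j ∈ J, ‖fA j k‖ * ‖fB j k‖ := by
            refine (norm_sum_le _ _).trans (le_of_eq ?_)
            refine Finset.sum_congr rfl fun j _ => norm_mul _ _
          exact (pow_le_pow_left₀ (norm_nonneg _) h1 2).trans sq_sum_le_card_mul_sum_sq
      _ = (J.card : ℝ) * ∑ j ∈ J, ∑ k ∈ KK, (‖fA j k‖ * ‖fB j k‖) ^ 2 := by
          rw [← Finset.mul_sum, Finset.sum_comm]
      _ ≤ (J.card : ℝ) * ∑ j ∈ J, (104976 * C * ℓ ^ 5 * Y ^ 2 / H ^ 2) := by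
          refine mul_le_mul_of_nonneg_left (Finset.sum_le_sum hprod) (Nat.cast_nonneg _)
      _ = _ := by rw [Finset.sum_const, nsmul_eq_mul]; ring
  have hcard : (J.card : ℝ) ≤ (⌈D * Real.log ((3 * Y : ℕ) : ℝ)⌉₊ : ℝ) * q ^ 2 := by
    rw [hJ, Finset.card_product, Finset.card_range, Nat.cast_mul]
    exact mul_le_mul_of_nonneg_left (card_Qs q r) (Nat.cast_nonneg _)
  calc ∑ k ∈ KK, ‖DP ((Ioc Y (3 * Y)).filter (fun n => n % q = r % q)) c k‖ ^ 2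
      ≤ ∑ k ∈ KK, (2 * ‖DP (Sh D Y) (fun n => c1 n - c2 n) k‖ ^ 2 + 2 * ‖∑ j ∈ J, fA j k * fB j k‖ ^ 2) := by
        refine Finset.sum_le_sum fun k _ => ?_
        rw [hmain k]
        have h1 := norm_add_le (DP (Sh D Y) (fun n => c1 n - c2 n) k) (∑ j ∈ J, fA j k * fB j k)
        have h2 := pow_le_pow_left₀ (norm_nonneg _) h1 2
        nlinarith [sq_nonneg (‖DP (Sh D Y) (fun n => c1 n - c2 n) k‖ - ‖∑ j ∈ J, fA j k * fB j k‖)]
    _ = 2 * ∑ k ∈ KK, ‖DP (Sh D Y) (fun n => c1 n - c2 n) k‖ ^ 2 +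
        2 * ∑ k ∈ KK, ‖∑ j ∈ J, fA j k * fB j k‖ ^ 2 := by
        rw [Finset.sum_add_distrib, Finset.mul_sum, Finset.mul_sum]
    _ ≤ _ := by
        have h1 : (J.card : ℝ) ^ 2 * (104976 * C * ℓ ^ 5 * Y ^ 2 / H ^ 2) ≤
            ((⌈D * Real.log ((3 * Y : ℕ) : ℝ)⌉₊ : ℝ) * q ^ 2) ^ 2 * (104976 * C * ℓ ^ 5 * Y ^ 2 / H ^ 2) := by
          gcongr
        linarith

lemma final_num (C ℓ Y : ℝ) (I q A B c K : ℕ) (hC : 0 < C) (hl : 10 ≤ ℓ) (hlC : 58576608 * C ≤ ℓ) (hY : 0 ≤ Y)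
    (hc : c = A + 12) (hK : K = 2 * c + 2 * B + 4 + A) (hI : (I : ℝ) ≤ 3 * ℓ ^ (2 * c + 1)) (hq : (q : ℝ) ≤ ℓ ^ B) :
    2 * (28343520 * C * ℓ ^ 11 * Y ^ 2 / ℓ ^ c) +
      2 * (((I : ℝ) * q ^ 2) ^ 2 * (104976 * C * ℓ ^ 5 * Y ^ 2 / (ℓ ^ K) ^ 2)) ≤ Y ^ 2 / ℓ ^ A := by
  have hl0 : 0 < ℓ := by linarith
  have hl1 : 1 ≤ ℓ := by linarith
  have h1 : 2 * (28343520 * C * ℓ ^ 11 * Y ^ 2 / ℓ ^ c) = 56687040 * C * Y ^ 2 / (ℓ * ℓ ^ A) := by
    rw [hc, pow_add]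
    field_simp
    ring
  have h2 : ((I : ℝ) * q ^ 2) ^ 2 ≤ (3 * ℓ ^ (2 * c + 1) * (ℓ ^ B) ^ 2) ^ 2 := by gcongr
  have h3 : 2 * (((I : ℝ) * q ^ 2) ^ 2 * (104976 * C * ℓ ^ 5 * Y ^ 2 / (ℓ ^ K) ^ 2)) ≤
      1889568 * C * Y ^ 2 / (ℓ * ℓ ^ A) := by
    calc 2 * (((I : ℝ) * q ^ 2) ^ 2 * (104976 * C * ℓ ^ 5 * Y ^ 2 / (ℓ ^ K) ^ 2))
        ≤ 2 * ((3 * ℓ ^ (2 * c + 1) * (ℓ ^ B) ^ 2) ^ 2 * (104976 * C * ℓ ^ 5 * Y ^ 2 / (ℓ ^ K) ^ 2)) := by gcongr
      _ = 1889568 * C * Y ^ 2 / (ℓ * (ℓ ^ A * ℓ ^ A)) := by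
          rw [hK]
          have e1 : (3 * ℓ ^ (2 * c + 1) * (ℓ ^ B) ^ 2) ^ 2 = 9 * ℓ ^ (4 * c + 2 + 4 * B) := by
            rw [mul_pow, mul_pow, ← pow_mul, ← pow_mul, ← pow_mul, mul_assoc, ← pow_add]
            norm_num
            congr 1
            ring
          have e2 : (ℓ ^ (2 * c + 2 * B + 4 + A)) ^ 2 = ℓ ^ (4 * c + 2 + 4 * B) * (ℓ ^ 6 * (ℓ ^ A * ℓ ^ A)) := by
            rw [← pow_mul, ← pow_add, ← pow_add, ← pow_add]
            congr 1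
            ring
          rw [e1, e2]
          field_simp
          ring
      _ ≤ 1889568 * C * Y ^ 2 / (ℓ * ℓ ^ A) := by
          have h4 : 1 ≤ ℓ ^ A := one_le_pow₀ hl1
          have h5 : 0 < ℓ ^ A := by positivity
          gcongr
          nlinarith
  rw [h1]
  have h4 : 56687040 * C * Y ^ 2 / (ℓ * ℓ ^ A) + 1889568 * C * Y ^ 2 / (ℓ * ℓ ^ A) ≤ Y ^ 2 / ℓ ^ A := by
    rw [← add_div, div_le_div_iff₀ (by positivity) (by positivity)]
    have h5 : 0 < ℓ ^ A := by positivity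
    have h6 : 56687040 * C * Y ^ 2 + 1889568 * C * Y ^ 2 = Y ^ 2 * (58576608 * C) := by ring
    rw [h6, mul_assoc]
    refine mul_le_mul_of_nonneg_left ?_ (by positivity)
    exact mul_le_mul_of_nonneg_right hlC h5.le
  linarith

theorem main : S_AL → S_PAP → S_II := by
  intro hAL hPAP e A B he
  obtain ⟨C, hC, hmv⟩ := Pool.Agent.H376R2.MR.mv
  obtain ⟨c, hc⟩ : ∃ c : ℕ, c = A + 12 := ⟨_, rfl⟩
  obtain ⟨K, hK⟩ : ∃ K : ℕ, K = 2 * c + 2 * B + 4 + A := ⟨_, rfl⟩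
  obtain ⟨Ka, La, hLa2, hAL⟩ := hAL (32 * e) B K
  obtain ⟨Kb, Lb, hLb2, hPAP⟩ := hPAP (32 * e) B K
  refine ⟨2 * max Ka Kb, ⌈Real.exp (max (max La Lb) (max 10 (58576608 * C)))⌉₊, ?_⟩
  intro Y hY q r hq hqB hrq K₁ hK₁ U V hU hU' hV hV'
  have hY1 : Real.exp (max (max La Lb) (max 10 (58576608 * C))) ≤ Y :=
    (Nat.le_ceil _).trans (Nat.cast_le.mpr hY)
  have hY0 : (0 : ℝ) < Y := (Real.exp_pos _).trans_le hY1
  have hl' : max (max La Lb) (max 10 (58576608 * C)) ≤ Real.log Y := by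
    rw [Real.le_log_iff_exp_le hY0]
    exact hY1
  set ℓ := Real.log Y with hℓ
  have hla : La ≤ ℓ := ((le_max_left _ _).trans (le_max_left _ _)).trans hl'
  have hlb : Lb ≤ ℓ := ((le_max_right _ _).trans (le_max_left _ _)).trans hl'
  have hl10 : 10 ≤ ℓ := ((le_max_left _ _).trans (le_max_right _ _)).trans hl'
  have hlC : 58576608 * C ≤ ℓ := ((le_max_right _ _).trans (le_max_right _ _)).trans hl'
  have hexpl : Real.exp ℓ = Y := Real.exp_log hY0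
  have hY11 : (11 : ℝ) ≤ Y := by
    have := Real.add_one_le_exp ℓ
    linarith
  have hYn : 11 ≤ Y := by exact_mod_cast hY11
  have hl0 : 0 < ℓ := by linarith
  rcases Nat.eq_zero_or_pos K₁ with h0 | hK1
  · have : FK K₁ = ∅ := by
      rw [h0]
      unfold FK
      simp
    rw [this, Finset.filter_empty, Finset.sum_empty]
    positivity
  have he0 : (1 : ℝ) ≤ e := by exact_mod_cast he
  -- the end points
  have hexp : Real.exp (2 * (2 * ℓ) / (((32 * e : ℕ) : ℝ) + 1)) ≤ (Y : ℝ) ^ (1 / (8 * e) : ℝ) := by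
    rw [Real.rpow_def_of_pos hY0]
    apply Real.exp_le_exp.mpr
    rw [← hℓ, mul_one_div, div_le_div_iff₀ (by positivity) (by positivity)]
    push_cast
    nlinarith
  have hexp' : Real.exp ((2 * ℓ) / (((32 * e : ℕ) : ℝ) + 1)) ≤ Real.exp (2 * (2 * ℓ) / (((32 * e : ℕ) : ℝ) + 1)) := by
    apply Real.exp_le_exp.mpr
    gcongr
    linarith
  have hN3 : ∀ N : ℕ, N ≤ 3 * Y → (N : ℝ) ≤ Real.exp (2 * ℓ) := by
    intro N hN
    have h1 : (N : ℝ) ≤ 3 * Y := by exact_mod_cast hN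
    rw [two_mul, Real.exp_add, hexpl]
    nlinarith
  have hU1 : 1 ≤ U := by
    have h1 : (0 : ℝ) < U := (Real.exp_pos _).trans_le (hexp.trans hU)
    exact_mod_cast h1
  -- the frequencies
  have hS2 : Real.sqrt Y ^ 2 = Y := Real.sq_sqrt hY0.le
  have hS0 : 0 < Real.sqrt Y := Real.sqrt_pos.mpr hY0
  rw [← Real.sqrt_eq_rpow] at hK₁
  have hkk : ∀ k ∈ (FK K₁).filter (fun k : ℤ => ℓ ^ (2 * max Ka Kb) ≤ |(k : ℝ)|), ∀ K' : ℕ, K' ≤ max Ka Kb →
      (2 * ℓ) ^ K' ≤ |(k : ℝ)| ∧ |(k : ℝ)| ≤ Real.exp (((32 * e : ℕ) : ℝ) * (2 * ℓ)) := by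
    intro k hk K' hK'
    rw [Finset.mem_filter] at hk
    constructor
    · refine le_trans ?_ hk.2
      calc (2 * ℓ) ^ K' ≤ (ℓ ^ 2) ^ K' := by
            gcongr
            nlinarith
        _ = ℓ ^ (2 * K') := by rw [← pow_mul]
        _ ≤ ℓ ^ (2 * max Ka Kb) := pow_le_pow_right₀ (by linarith) (by omega)
    · have h1 : |(k : ℝ)| ≤ K₁ := by
        have h2 := hk.1
        unfold FK at h2
        rw [Finset.mem_Ioo] at h2
        rw [abs_le]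
        constructor
        · exact_mod_cast h2.1.le
        · exact_mod_cast h2.2.le
      have h2 : Real.sqrt Y ≤ Y := by
        have : 1 ≤ Real.sqrt Y := Real.one_le_sqrt.mpr (by linarith)
        nlinarith
      refine (h1.trans (hK₁.trans h2)).trans ?_
      rw [← hexpl]
      apply Real.exp_le_exp.mpr
      push_cast
      nlinarith
  have hqB' : (q : ℝ) ≤ (2 * ℓ) ^ B := hqB.trans (pow_le_pow_left₀ hl0.le (by linarith) B)
  have hHle : ℓ ^ K ≤ (2 * ℓ) ^ K := pow_le_pow_left₀ hl0.le (by linarith) K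
  have hcore := core hC hmv (ℓ ^ (2 * c)) ℓ (ℓ ^ c) (ℓ ^ K) (Real.sqrt Y) Y q r U V K₁ (by
      calc (2 : ℝ) ≤ ℓ := by linarith
        _ ≤ ℓ ^ (2 * c) := le_self_pow₀ (by linarith) (by omega)) hK1 (by omega) hU1 hq hrq hS2 hS0 hK₁
      (by linarith) (by
        rw [Real.log_mul (by norm_num) hY0.ne', ← hℓ]
        have := Real.log_le_sub_one_of_pos (show (0 : ℝ) < 9 by norm_num)
        linarith) (by positivity) (by positivity) (by rw [← pow_mul, mul_comm])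
      ((FK K₁).filter (fun k : ℤ => ℓ ^ (2 * max Ka Kb) ≤ |(k : ℝ)|)) (Finset.filter_subset _ _)
      (by
        intro k hk s hs hsq N hN1 hN2
        obtain ⟨h1, h2⟩ := hkk k hk Ka (le_max_left _ _)
        have hUN : (U : ℝ) ≤ N := by exact_mod_cast hN1
        have h3 := hAL (2 * ℓ) (by linarith) q s hq hqB' hsq k h1 h2 U (hexp.trans hU) N
          ((hexp'.trans (hexp.trans hU)).trans hUN) (hN3 N hN2)
        rw [Nat.mod_eq_of_lt hs] at h3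
        refine h3.trans ?_
        gcongr)
      (by
        intro k hk s hs hsq N hN1 hN2
        obtain ⟨h1, h2⟩ := hkk k hk Kb (le_max_right _ _)
        have hVN : (V : ℝ) ≤ N := by exact_mod_cast hN1
        have h3 := hPAP (2 * ℓ) (by linarith) q s hq hqB' hsq k h1 h2 N
          ((hexp'.trans (hexp.trans hV)).trans hVN) (hN3 N hN2)
        rw [Nat.mod_eq_of_lt hs] at h3
        refine h3.trans ?_
        gcongr)
  refine hcore.trans ?_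
  refine final_num C ℓ Y _ q A B c K hC hl10 hlC hY0.le hc hK ?_ hqB
  have h1 : Real.log ((3 * Y : ℕ) : ℝ) ≤ 2 * ℓ := by
    push_cast
    rw [Real.log_mul (by norm_num) hY0.ne', ← hℓ]
    have := Real.log_le_sub_one_of_pos (show (0 : ℝ) < 3 by norm_num)
    linarith
  have h2 : 0 ≤ Real.log ((3 * Y : ℕ) : ℝ) := Real.log_natCast_nonneg _
  have h3 : (1 : ℝ) ≤ ℓ ^ (2 * c) := one_le_pow₀ (by linarith)
  have h4 := (Nat.ceil_lt_add_one (show 0 ≤ ℓ ^ (2 * c) * Real.log ((3 * Y : ℕ) : ℝ) by positivity)).le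
  refine h4.trans ?_
  rw [pow_succ]
  nlinarith

end Pool.Agent.helper24_UT.II
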