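import Pool.Agent.H43.G.R_pool_sql_team_seeded_620a6dc7.helper24_UT_.Stm7

set_option autoImplicit false

namespace Pool.Agent.helper24_UT.Pair3

open Finset
open Pool.Agent.helper24_UT
open Pool.Agent.H376R2.MR (ch er DP FK)

/-- the sum over a residue class -/
noncomputable def AA (a : ℤ → ℝ) (u : ℤ) (W q : ℕ) (r : ℕ) : ℝ :=
  ∑ m ∈ (Ioc u (u + W)).filter (fun m => m % (q : ℤ) = (r : ℤ)), a m

theorem NN_eq (a : ℤ → ℝ) (u : ℤ) (W q : ℕ) : NN a u W q = ∑ r ∈ range q, AA a u W q r ^ 2 := rfl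

theorem AA_eq (a : ℤ → ℝ) (u : ℤ) (W q : ℕ) (r : ℕ) :
    AA a u W q r = ∑ m ∈ Ioc u (u + W), if m % (q : ℤ) = (r : ℤ) then a m else 0 := by
  unfold AA; rw [Finset.sum_filter]

theorem emod_toNat (m : ℤ) (q : ℕ) (hq : 1 ≤ q) :
    (m % (q : ℤ)).toNat ∈ range q ∧ (((m % (q : ℤ)).toNat : ℕ) : ℤ) = m % (q : ℤ) := by
  have h0 : 0 ≤ m % (q : ℤ) := Int.emod_nonneg _ (by positivity)
  have h1 : m % (q : ℤ) < q := Int.emod_lt_of_pos _ (by exact_mod_cast hq)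
  have h2 : (((m % (q : ℤ)).toNat : ℕ) : ℤ) = m % (q : ℤ) := Int.toNat_of_nonneg h0
  refine ⟨?_, h2⟩
  rw [mem_range]
  have : (((m % (q : ℤ)).toNat : ℕ) : ℤ) < q := by rw [h2]; exact h1
  exact_mod_cast this

theorem inner_eq (a : ℤ → ℝ) (u u' D : ℤ) (W q : ℕ) (hq : 1 ≤ q) :
    ∑ m ∈ Ioc u (u + W), ∑ m' ∈ Ioc u' (u' + W), (if (q : ℤ) ∣ m - m' - D then a m * a m' else 0) =
      ∑ r ∈ range q, ∑ r' ∈ range q,
        (if (q : ℤ) ∣ (r : ℤ) - (r' : ℤ) - D then AA a u W q r * AA a u' W q r' else 0) := by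
  have e1 : ∀ r r' : ℕ, (if (q : ℤ) ∣ (r : ℤ) - (r' : ℤ) - D then AA a u W q r * AA a u' W q r' else 0) =
      ∑ m ∈ Ioc u (u + W), ∑ m' ∈ Ioc u' (u' + W),
        (if m % (q : ℤ) = (r : ℤ) then (if m' % (q : ℤ) = (r' : ℤ) then
          (if (q : ℤ) ∣ (r : ℤ) - (r' : ℤ) - D then a m * a m' else 0) else 0) else 0) := by
    intro r r'
    by_cases hd : (q : ℤ) ∣ (r : ℤ) - (r' : ℤ) - D
    · simp only [if_pos hd]
      rw [AA_eq, AA_eq, Finset.sum_mul_sum]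
      refine Finset.sum_congr rfl fun m _ => Finset.sum_congr rfl fun m' _ => ?_
      by_cases h1 : m % (q : ℤ) = (r : ℤ) <;> by_cases h2 : m' % (q : ℤ) = (r' : ℤ) <;> simp [h1, h2]
    · simp only [if_neg hd]
      symm
      refine Finset.sum_eq_zero fun m _ => Finset.sum_eq_zero fun m' _ => ?_
      split_ifs <;> rfl
  simp only [e1]
  have e2 : ∑ r ∈ range q, ∑ r' ∈ range q, ∑ m ∈ Ioc u (u + W), ∑ m' ∈ Ioc u' (u' + W),
        (if m % (q : ℤ) = (r : ℤ) then (if m' % (q : ℤ) = (r' : ℤ) then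
          (if (q : ℤ) ∣ (r : ℤ) - (r' : ℤ) - D then a m * a m' else 0) else 0) else 0) =
      ∑ m ∈ Ioc u (u + W), ∑ m' ∈ Ioc u' (u' + W), ∑ r ∈ range q, ∑ r' ∈ range q,
        (if m % (q : ℤ) = (r : ℤ) then (if m' % (q : ℤ) = (r' : ℤ) then
          (if (q : ℤ) ∣ (r : ℤ) - (r' : ℤ) - D then a m * a m' else 0) else 0) else 0) := by
    calc _ = ∑ r ∈ range q, ∑ m ∈ Ioc u (u + W), ∑ r' ∈ range q, ∑ m' ∈ Ioc u' (u' + W),
        (if m % (q : ℤ) = (r : ℤ) then (if m' % (q : ℤ) = (r' : ℤ) then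
          (if (q : ℤ) ∣ (r : ℤ) - (r' : ℤ) - D then a m * a m' else 0) else 0) else 0) := by
          refine Finset.sum_congr rfl fun r _ => ?_
          rw [Finset.sum_comm]
      _ = ∑ m ∈ Ioc u (u + W), ∑ r ∈ range q, ∑ r' ∈ range q, ∑ m' ∈ Ioc u' (u' + W),
        (if m % (q : ℤ) = (r : ℤ) then (if m' % (q : ℤ) = (r' : ℤ) then
          (if (q : ℤ) ∣ (r : ℤ) - (r' : ℤ) - D then a m * a m' else 0) else 0) else 0) := by
          rw [Finset.sum_comm]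
      _ = ∑ m ∈ Ioc u (u + W), ∑ r ∈ range q, ∑ m' ∈ Ioc u' (u' + W), ∑ r' ∈ range q,
        (if m % (q : ℤ) = (r : ℤ) then (if m' % (q : ℤ) = (r' : ℤ) then
          (if (q : ℤ) ∣ (r : ℤ) - (r' : ℤ) - D then a m * a m' else 0) else 0) else 0) := by
          refine Finset.sum_congr rfl fun m _ => Finset.sum_congr rfl fun r _ => ?_
          rw [Finset.sum_comm]
      _ = _ := by
          refine Finset.sum_congr rfl fun m _ => ?_
          rw [Finset.sum_comm]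
  rw [e2]
  refine Finset.sum_congr rfl fun m _ => Finset.sum_congr rfl fun m' _ => ?_
  obtain ⟨hr, er⟩ := emod_toNat m q hq
  obtain ⟨hr', er'⟩ := emod_toNat m' q hq
  rw [Finset.sum_eq_single_of_mem _ hr, Finset.sum_eq_single_of_mem _ hr']
  · rw [er, er', if_pos rfl, if_pos rfl]
    have : ((q : ℤ) ∣ m - m' - D) ↔ ((q : ℤ) ∣ m % (q : ℤ) - m' % (q : ℤ) - D) := by
      have h : m - m' - D = (m % (q : ℤ) - m' % (q : ℤ) - D) + (q : ℤ) * (m / q - m' / q) := by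
        have h1 := Int.emod_add_mul_ediv m (q : ℤ)
        have h2 := Int.emod_add_mul_ediv m' (q : ℤ)
        linarith [mul_sub (q : ℤ) (m / q) (m' / q)]
      rw [h]
      exact ⟨fun h' => (dvd_add_left (dvd_mul_right (q : ℤ) _)).1 h', fun h' => (dvd_add_left (dvd_mul_right (q : ℤ) _)).2 h'⟩
    by_cases h : (q : ℤ) ∣ m - m' - D
    · rw [if_pos h, if_pos (this.1 h)]
    · rw [if_neg h, if_neg (fun h' => h (this.2 h'))]
  · intro r' _ hne
    rw [if_neg (c := m' % (q : ℤ) = (r' : ℤ))]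
    · split_ifs <;> rfl
    · intro h; apply hne; rw [← er'] at h; exact_mod_cast h.symm
  · intro r _ hne
    refine Finset.sum_eq_zero fun r' _ => ?_
    rw [if_neg]
    intro h; apply hne; rw [← er] at h; exact_mod_cast h.symm

/-- at most one residue -/
theorem card_res (q : ℕ) (r D : ℤ) : ((range q).filter (fun r' : ℕ => (q : ℤ) ∣ r - (r' : ℤ) - D)).card ≤ 1 := by
  rw [Finset.card_le_one]
  intro x hx y hy
  rw [mem_filter, mem_range] at hx hy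
  have h : (q : ℤ) ∣ (y : ℤ) - x := by
    have := dvd_sub hx.2 hy.2
    have e : (r - (x : ℤ) - D) - (r - (y : ℤ) - D) = (y : ℤ) - x := by ring
    rwa [e] at this
  have h2 : (y : ℤ) % q = (x : ℤ) % q := (Int.ModEq.symm ((Int.modEq_iff_dvd).2 h))
  rw [Int.emod_eq_of_lt (by positivity) (by exact_mod_cast hy.1), Int.emod_eq_of_lt (by positivity) (by exact_mod_cast hx.1)] at h2
  exact_mod_cast h2.symm

theorem card_res' (q : ℕ) (r' D : ℤ) : ((range q).filter (fun r : ℕ => (q : ℤ) ∣ (r : ℤ) - r' - D)).card ≤ 1 := by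
  rw [Finset.card_le_one]
  intro x hx y hy
  rw [mem_filter, mem_range] at hx hy
  have h : (q : ℤ) ∣ (y : ℤ) - x := by
    have := dvd_sub hy.2 hx.2
    have e : ((y : ℤ) - r' - D) - ((x : ℤ) - r' - D) = (y : ℤ) - x := by ring
    rwa [e] at this
  have h2 : (y : ℤ) % q = (x : ℤ) % q := (Int.ModEq.symm ((Int.modEq_iff_dvd).2 h))
  rw [Int.emod_eq_of_lt (by positivity) (by exact_mod_cast hy.1), Int.emod_eq_of_lt (by positivity) (by exact_mod_cast hx.1)] at h2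
  exact_mod_cast h2.symm

theorem inner_le (a : ℤ → ℝ) (u u' D : ℤ) (W q : ℕ) (hq : 1 ≤ q) :
    |∑ m ∈ Ioc u (u + W), ∑ m' ∈ Ioc u' (u' + W), (if (q : ℤ) ∣ m - m' - D then a m * a m' else 0)| ≤
      (NN a u W q + NN a u' W q) / 2 := by
  rw [inner_eq a u u' D W q hq]
  calc |∑ r ∈ range q, ∑ r' ∈ range q,
        (if (q : ℤ) ∣ (r : ℤ) - (r' : ℤ) - D then AA a u W q r * AA a u' W q r' else 0)|
      ≤ ∑ r ∈ range q, ∑ r' ∈ range q,
        (if (q : ℤ) ∣ (r : ℤ) - (r' : ℤ) - D then (AA a u W q r ^ 2 / 2 + AA a u' W q r' ^ 2 / 2) else 0) := by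
        refine (Finset.abs_sum_le_sum_abs _ _).trans (Finset.sum_le_sum fun r _ => ?_)
        refine (Finset.abs_sum_le_sum_abs _ _).trans (Finset.sum_le_sum fun r' _ => ?_)
        split_ifs
        · rw [abs_le]
          constructor
          · nlinarith [sq_nonneg (AA a u W q r + AA a u' W q r')]
          · nlinarith [sq_nonneg (AA a u W q r - AA a u' W q r')]
        · simp
    _ = (∑ r ∈ range q, ∑ r' ∈ range q,
          (if (q : ℤ) ∣ (r : ℤ) - (r' : ℤ) - D then AA a u W q r ^ 2 / 2 else 0)) +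
        (∑ r' ∈ range q, ∑ r ∈ range q,
          (if (q : ℤ) ∣ (r : ℤ) - (r' : ℤ) - D then AA a u' W q r' ^ 2 / 2 else 0)) := by
        rw [Finset.sum_comm (s := range q) (t := range q)
          (f := fun r' r => (if (q : ℤ) ∣ (r : ℤ) - (r' : ℤ) - D then AA a u' W q r' ^ 2 / 2 else 0)),
          ← Finset.sum_add_distrib]
        refine Finset.sum_congr rfl fun r _ => ?_
        rw [← Finset.sum_add_distrib]
        refine Finset.sum_congr rfl fun r' _ => ?_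
        split_ifs <;> simp
    _ ≤ (∑ r ∈ range q, AA a u W q r ^ 2 / 2) + (∑ r' ∈ range q, AA a u' W q r' ^ 2 / 2) := by
        refine add_le_add (Finset.sum_le_sum fun r _ => ?_) (Finset.sum_le_sum fun r' _ => ?_)
        · rw [← Finset.sum_filter, Finset.sum_const, nsmul_eq_mul]
          have h1 : (((range q).filter (fun r' : ℕ => (q : ℤ) ∣ (r : ℤ) - (r' : ℤ) - D)).card : ℝ) ≤ 1 := by
            exact_mod_cast card_res q r D
          have h2 : 0 ≤ AA a u W q r ^ 2 / 2 := by positivity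
          nlinarith
        · rw [← Finset.sum_filter, Finset.sum_const, nsmul_eq_mul]
          have h1 : (((range q).filter (fun r : ℕ => (q : ℤ) ∣ (r : ℤ) - (r' : ℤ) - D)).card : ℝ) ≤ 1 := by
            exact_mod_cast card_res' q r' D
          have h2 : 0 ≤ AA a u' W q r' ^ 2 / 2 := by positivity
          nlinarith
    _ = _ := by
        rw [NN_eq, NN_eq, ← Finset.sum_div, ← Finset.sum_div]; ring

theorem NN_nonneg (a : ℤ → ℝ) (u : ℤ) (W q : ℕ) : 0 ≤ NN a u W q := by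
  rw [NN_eq]; exact Finset.sum_nonneg fun _ _ => sq_nonneg _

/-- integers in a short real interval -/
theorem card_short (S : Finset ℤ) (n K : ℕ) (hn : 1 ≤ n) (h : ∀ x ∈ S, ∀ y ∈ S, (n : ℤ) * (x - y) ≤ K) :
    (S.card : ℝ) ≤ (K : ℝ) / n + 1 := by
  rcases S.eq_empty_or_nonempty with rfl | hS
  · simp; positivity
  have hsub : S ⊆ Icc (S.min' hS) (S.min' hS + ((K / n : ℕ) : ℤ)) := by
    intro x hx
    rw [mem_Icc]
    refine ⟨S.min'_le x hx, ?_⟩
    have h1 := h x hx _ (S.min'_mem hS)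
    have h2 : x - S.min' hS ≤ (K : ℤ) / n := by
      rw [Int.le_ediv_iff_mul_le (by exact_mod_cast hn)]
      linarith
    push_cast
    linarith
  have h1 := Finset.card_le_card hsub
  rw [Int.card_Icc] at h1
  have h2 : (S.min' hS + ((K / n : ℕ) : ℤ) + 1 - S.min' hS).toNat = K / n + 1 := by
    have : S.min' hS + ((K / n : ℕ) : ℤ) + 1 - S.min' hS = ((K / n + 1 : ℕ) : ℤ) := by push_cast; ring
    rw [this]; exact Int.toNat_natCast _
  rw [h2] at h1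
  have h3 : ((K / n : ℕ) : ℝ) ≤ (K : ℝ) / n := Nat.cast_div_le
  have h4 : (S.card : ℝ) ≤ ((K / n : ℕ) : ℝ) + 1 := by exact_mod_cast h1
  linarith

/-- the region of the pairs -/
def RR (q Q R n s D x x' : ℤ) : Prop :=
  q ≤ x - x' - D ∧ x - x' - D ≤ q * Q ∧ q ≤ q * (x - s) - n * (x - x' - D) ∧ q * (x - s) - n * (x - x' - D) ≤ q * R

instance (q Q R n s D x x' : ℤ) : Decidable (RR q Q R n s D x x') := by unfold RR; infer_instance

theorem sum_cast (g : ℤ → ℝ) (H : ℕ) : ∑ b ∈ Icc 1 H, g (b : ℤ) = ∑ b ∈ Icc (1 : ℤ) H, g b := by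
  refine Finset.sum_nbij' (fun b : ℕ => (b : ℤ)) (fun b : ℤ => b.toNat) ?_ ?_ ?_ ?_ ?_
  · intro b hb; rw [mem_Icc] at hb ⊢; exact ⟨by exact_mod_cast hb.1, by exact_mod_cast hb.2⟩
  · intro b hb; rw [mem_Icc] at hb ⊢; omega
  · intro b _; simp
  · intro b hb; rw [mem_Icc] at hb; exact Int.toNat_of_nonneg (by omega)
  · intro b _; rfl

theorem sum_shift (g : ℤ → ℝ) (u : ℤ) (W : ℕ) : ∑ m ∈ Ioc u (u + W), g m = ∑ i ∈ Icc (1 : ℤ) W, g (u + i) := by
  refine Finset.sum_nbij' (fun m : ℤ => m - u) (fun i : ℤ => u + i) ?_ ?_ ?_ ?_ ?_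
  · intro m hm; rw [mem_Ioc] at hm; rw [mem_Icc]; omega
  · intro i hi; rw [mem_Icc] at hi; rw [mem_Ioc]; omega
  · intro m _; ring
  · intro i _; ring
  · intro m _; congr 1; ring

section main
variable (a : ℤ → ℝ) (P : ℝ) (n n' Q R W X : ℕ) (s s' : ℤ)

/-- the summand -/
noncomputable def FF (p : ℤ × ℤ) : ℝ := a (p.1 * n + p.2 + s) * a (p.1 * n' + p.2 + s')

theorem FF_le (hP : 0 ≤ P) (hb : ∀ m, |a m| ≤ P) (p : ℤ × ℤ) : |FF a n n' s s' p| ≤ P ^ 2 := by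
  unfold FF; rw [abs_mul, sq]
  exact mul_le_mul (hb _) (hb _) (abs_nonneg _) hP

/-- region after the shift -/
def RS (i j : ℤ) (p : ℤ × ℤ) : Prop :=
  RR ((n : ℤ) - n') Q R n s (s - s') (p.1 * n + p.2 + s - i) (p.1 * n' + p.2 + s' - j)

instance (i j : ℤ) (p : ℤ × ℤ) : Decidable (RS n n' Q R s s' i j p) := by unfold RS; infer_instance

theorem RS_iff (i j : ℤ) (p : ℤ × ℤ) : RS n n' Q R s s' i j p ↔
    ((n : ℤ) - n' ≤ ((n : ℤ) - n') * p.1 - (i - j) ∧ ((n : ℤ) - n') * p.1 - (i - j) ≤ ((n : ℤ) - n') * Q ∧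
      (n : ℤ) - n' ≤ ((n : ℤ) - n') * (p.2 - i) + n * (i - j) ∧
      ((n : ℤ) - n') * (p.2 - i) + n * (i - j) ≤ ((n : ℤ) - n') * R) := by
  unfold RS RR
  have e1 : p.1 * n + p.2 + s - i - (p.1 * n' + p.2 + s' - j) - (s - s') = ((n : ℤ) - n') * p.1 - (i - j) := by ring
  have e2 : ((n : ℤ) - n') * (p.1 * n + p.2 + s - i - s) - n * (((n : ℤ) - n') * p.1 - (i - j)) =
      ((n : ℤ) - n') * (p.2 - i) + n * (i - j) := by ring
  rw [e1, e2]

/-- the box -/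
noncomputable def BX (lo hi lo' hi' : ℤ) : Finset (ℤ × ℤ) := Icc lo hi ×ˢ Icc lo' hi' 

theorem strip (hnn : n' < n) (w : ℕ) (hw : W * (n / (n - n') + 2) ≤ w) (i j : ℤ) (hi : 1 ≤ i ∧ i ≤ W)
    (hj : 1 ≤ j ∧ j ≤ W) (b c : ℤ) :
    (RS n n' Q R s s' i j (b, c) → (1 - (w : ℤ) ≤ b ∧ b ≤ Q + w) ∧ (1 - (w : ℤ) ≤ c ∧ c ≤ R + w)) ∧
    ((1 + (w : ℤ) ≤ b ∧ b ≤ Q - w) → (1 + (w : ℤ) ≤ c ∧ c ≤ R - w) → RS n n' Q R s s' i j (b, c)) := by
  obtain ⟨q, hq⟩ : ∃ q : ℕ, q = n - n' := ⟨_, rfl⟩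
  have hq1 : 1 ≤ q := by omega
  have hqz : (n : ℤ) - n' = q := by omega
  rw [← hq] at hw
  rw [RS_iff, hqz]
  simp only
  have hd : |i - j| ≤ W := by rw [abs_le]; constructor <;> linarith
  have hnq : n < q * (n / q + 1) := by
    have := Nat.lt_mul_div_succ n (by omega : 0 < q)
    simpa using this
  have hnqz : (n : ℤ) ≤ q * ((n / q : ℕ) + 1) := by exact_mod_cast hnq.le
  obtain ⟨k, hk⟩ : ∃ k : ℕ, k = n / q := ⟨_, rfl⟩
  rw [← hk] at hw hnqz
  have hwz : (W : ℤ) * (k + 2) ≤ w := by exact_mod_cast hw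
  have hq1z : (1 : ℤ) ≤ q := by exact_mod_cast hq1
  have hW0 : (0 : ℤ) ≤ W := by positivity
  have hk0 : (0 : ℤ) ≤ k := by positivity
  obtain ⟨d, hdd⟩ : ∃ d : ℤ, d = i - j := ⟨_, rfl⟩
  rw [← hdd] at hd ⊢
  -- bounds for d and n d
  have hd1 : -(W : ℤ) ≤ d := (abs_le.1 hd).1
  have hd2 : d ≤ W := (abs_le.1 hd).2
  have hWw : (W : ℤ) ≤ w := by nlinarith
  have hn0 : (0 : ℤ) ≤ n := by positivity
  have hnd : |(n : ℤ) * d| ≤ q * (w - W) := by
    rw [abs_mul, abs_of_nonneg hn0]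
    calc (n : ℤ) * |d| ≤ (q * (k + 1)) * W := mul_le_mul hnqz hd (abs_nonneg _) (by positivity)
      _ = q * (W * (k + 2) - W) := by ring
      _ ≤ q * (w - W) := by
        apply mul_le_mul_of_nonneg_left _ (by positivity)
        linarith
  obtain ⟨hnd1, hnd2⟩ := abs_le.1 hnd
  have hqW : (W : ℤ) ≤ q * W := by nlinarith
  have hqw : (w : ℤ) ≤ q * w := by nlinarith
  constructor
  · rintro ⟨h1, h2, h3, h4⟩
    refine ⟨⟨?_, ?_⟩, ⟨?_, ?_⟩⟩
    · have : (q : ℤ) * (1 - w) ≤ q * b := by linarith [mul_sub (q : ℤ) 1 w]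
      exact le_of_mul_le_mul_left this (by linarith)
    · have : (q : ℤ) * b ≤ q * (Q + w) := by linarith [mul_add (q : ℤ) Q w]
      exact le_of_mul_le_mul_left this (by linarith)
    · have : (q : ℤ) * (1 - w) ≤ q * c := by
        have e1 := mul_sub (q : ℤ) c i
        have e2 := mul_sub (q : ℤ) 1 w
        have e3 := mul_sub (q : ℤ) w W
        have e4 := mul_le_mul_of_nonneg_left hi.1 (by linarith : (0 : ℤ) ≤ q)
        linarith
      exact le_of_mul_le_mul_left this (by linarith)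
    · have : (q : ℤ) * c ≤ q * (R + w) := by
        have e1 := mul_sub (q : ℤ) c i
        have e2 := mul_add (q : ℤ) R w
        have e3 := mul_sub (q : ℤ) w W
        have e4 := mul_le_mul_of_nonneg_left hi.2 (by linarith : (0 : ℤ) ≤ q)
        linarith
      exact le_of_mul_le_mul_left this (by linarith)
  · rintro ⟨h1, h2⟩ ⟨h3, h4⟩
    have g1 := mul_le_mul_of_nonneg_left h1 (by linarith : (0 : ℤ) ≤ q)
    have g2 := mul_le_mul_of_nonneg_left h2 (by linarith : (0 : ℤ) ≤ q)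
    have g3 := mul_le_mul_of_nonneg_left h3 (by linarith : (0 : ℤ) ≤ q)
    have g4 := mul_le_mul_of_nonneg_left h4 (by linarith : (0 : ℤ) ≤ q)
    have g5 := mul_le_mul_of_nonneg_left hi.1 (by linarith : (0 : ℤ) ≤ q)
    have g6 := mul_le_mul_of_nonneg_left hi.2 (by linarith : (0 : ℤ) ≤ q)
    have e1 := mul_add (q : ℤ) 1 w
    have e2 := mul_sub (q : ℤ) Q w
    have e2' := mul_sub (q : ℤ) R w
    have e3 := mul_sub (q : ℤ) c i
    have e4 := mul_sub (q : ℤ) w W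
    refine ⟨by linarith, by linarith, by linarith, by linarith⟩


/-- the shifted sum -/
noncomputable def SS (w : ℕ) (i j : ℤ) : ℝ :=
  ∑ p ∈ BX (1 - w) (Q + w) (1 - w) (R + w), if RS n n' Q R s s' i j p then FF a n n' s s' p else 0

theorem card_strip (Q R w : ℕ) (hRQ : R ≤ Q) (hwR : w ≤ R) :
    (((BX (1 - w) (Q + w) (1 - w) (R + w)).filter (fun p : ℤ × ℤ => ¬ ((1 + (w : ℤ) ≤ p.1 ∧ p.1 ≤ (Q : ℤ) - w) ∧ (1 + (w : ℤ) ≤ p.2 ∧ p.2 ≤ (R : ℤ) - w)))).card : ℝ) ≤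
      24 * (Q * w) := by
  have hsub : (BX (1 - w) (Q + w) (1 - w) (R + w)).filter (fun p : ℤ × ℤ => ¬ ((1 + (w : ℤ) ≤ p.1 ∧ p.1 ≤ (Q : ℤ) - w) ∧ (1 + (w : ℤ) ≤ p.2 ∧ p.2 ≤ (R : ℤ) - w))) ⊆
      ((Icc (1 - (w : ℤ)) w ×ˢ Icc (1 - (w : ℤ)) (R + w)) ∪ (Icc (Q - (w : ℤ) + 1) (Q + w) ×ˢ Icc (1 - (w : ℤ)) (R + w))) ∪
      ((Icc (1 - (w : ℤ)) (Q + w) ×ˢ Icc (1 - (w : ℤ)) w) ∪ (Icc (1 - (w : ℤ)) (Q + w) ×ˢ Icc (R - (w : ℤ) + 1) (R + w))) := by
    rintro ⟨b, c⟩ h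
    simp only [BX, mem_filter, mem_product, mem_Icc, mem_union] at h ⊢
    omega
  have h1 := Finset.card_le_card hsub
  have h2 := h1.trans (Finset.card_union_le _ _)
  have h3 := h2.trans (add_le_add (Finset.card_union_le _ _) (Finset.card_union_le _ _))
  simp only [card_product, Int.card_Icc] at h3
  have t1 : ((w : ℤ) + 1 - (1 - w)).toNat = 2 * w := by omega
  have t2 : ((Q : ℤ) + w + 1 - (1 - w)).toNat = Q + 2 * w := by omega
  have t2' : ((R : ℤ) + w + 1 - (1 - w)).toNat = R + 2 * w := by omega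
  have t3 : ((Q : ℤ) + w + 1 - (Q - w + 1)).toNat = 2 * w := by omega
  have t3' : ((R : ℤ) + w + 1 - (R - w + 1)).toNat = 2 * w := by omega
  rw [t1, t2, t2', t3, t3'] at h3
  have h4 : 2 * w * (R + 2 * w) + 2 * w * (R + 2 * w) + ((Q + 2 * w) * (2 * w) + (Q + 2 * w) * (2 * w)) ≤ 24 * (Q * w) := by
    have h5 : w * w ≤ Q * w := Nat.mul_le_mul_right _ (hwR.trans hRQ)
    have h6 : R * w ≤ Q * w := Nat.mul_le_mul_right _ hRQ
    nlinarith
  calc _ ≤ ((24 * (Q * w) : ℕ) : ℝ) := Nat.cast_le.2 (h3.trans h4)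
    _ = _ := by push_cast; ring

theorem claimA (hP : 0 ≤ P) (hb : ∀ m, |a m| ≤ P) (hnn : n' < n) (w : ℕ) (hw : W * (n / (n - n') + 2) ≤ w)
    (hRQ : R ≤ Q) (hwR : w ≤ R) (i j : ℤ) (hi : 1 ≤ i ∧ i ≤ W) (hj : 1 ≤ j ∧ j ≤ W) :
    |(∑ p ∈ BX 1 Q 1 R, FF a n n' s s' p) - SS a n n' Q R s s' w i j| ≤ 24 * (Q * w) * P ^ 2 := by
  have e1 : ∑ p ∈ BX 1 Q 1 R, FF a n n' s s' p = ∑ p ∈ BX (1 - w) (Q + w) (1 - w) (R + w),
      if p ∈ BX 1 Q 1 R then FF a n n' s s' p else 0 := by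
    rw [← Finset.sum_filter]
    congr 1
    ext ⟨b, c⟩
    simp only [BX, mem_filter, mem_product, mem_Icc]
    omega
  rw [e1, SS, ← Finset.sum_sub_distrib]
  calc |∑ p ∈ BX (1 - w) (Q + w) (1 - w) (R + w), ((if p ∈ BX 1 Q 1 R then FF a n n' s s' p else 0) -
        (if RS n n' Q R s s' i j p then FF a n n' s s' p else 0))|
      ≤ ∑ p ∈ BX (1 - w) (Q + w) (1 - w) (R + w), (if ¬ ((1 + (w : ℤ) ≤ p.1 ∧ p.1 ≤ Q - w) ∧ (1 + (w : ℤ) ≤ p.2 ∧ p.2 ≤ R - w)) then P ^ 2 else 0) := by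
        refine (Finset.abs_sum_le_sum_abs _ _).trans (Finset.sum_le_sum ?_)
        rintro ⟨b, c⟩ _
        by_cases h : (1 + (w : ℤ) ≤ b ∧ b ≤ Q - w) ∧ (1 + (w : ℤ) ≤ c ∧ c ≤ R - w)
        · rw [if_neg (not_not.2 h)]
          have h1 : RS n n' Q R s s' i j (b, c) := (strip n n' Q R W s s' hnn w hw i j hi hj b c).2 h.1 h.2
          have h2 : (b, c) ∈ BX 1 (Q : ℤ) 1 (R : ℤ) := by
            simp only [BX, mem_product, mem_Icc]; omega
          rw [if_pos h1, if_pos h2]; simp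
        · rw [if_pos h]
          have h0 := FF_le a P n n' s s' hP hb (b, c)
          have h1 : 0 ≤ P ^ 2 := sq_nonneg _
          split_ifs
          · simpa using h1
          · simpa using h0
          · simpa using h0
          · simpa using h1
    _ = (((BX (1 - w) (Q + w) (1 - w) (R + w)).filter (fun p : ℤ × ℤ => ¬ ((1 + (w : ℤ) ≤ p.1 ∧ p.1 ≤ (Q : ℤ) - w) ∧ (1 + (w : ℤ) ≤ p.2 ∧ p.2 ≤ (R : ℤ) - w)))).card : ℝ) * P ^ 2 := by
        rw [← Finset.sum_filter, Finset.sum_const, nsmul_eq_mul]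
    _ ≤ 24 * (Q * w) * P ^ 2 := mul_le_mul_of_nonneg_right (card_strip Q R w hRQ hwR) (sq_nonneg _)

/-- the region is inside the square -/
theorem RR_bound (hnn : n' < n) (hRQ : R ≤ Q) (hX : |s| + n * Q + Q + W ≤ X) (hX' : |s'| + n * Q + Q + W ≤ X) (x x' : ℤ)
    (h : RR ((n : ℤ) - n') Q R n s (s - s') x x') : (-(X : ℤ) ≤ x ∧ x ≤ X) ∧ (-(X : ℤ) ≤ x' ∧ x' ≤ X) := by
  obtain ⟨q, hq⟩ : ∃ q : ℕ, q = n - n' := ⟨_, rfl⟩
  have hq1 : 1 ≤ q := by omega
  have hqz : (n : ℤ) - n' = q := by omega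
  have hn' : (n' : ℤ) = n - q := by omega
  rw [hqz] at h
  obtain ⟨h1, h2, h3, h4⟩ := h
  have hq1z : (1 : ℤ) ≤ q := by exact_mod_cast hq1
  have hn'0 : (0 : ℤ) ≤ n - q := by rw [← hn']; positivity
  have hn0 : (0 : ℤ) ≤ n := by positivity
  have hH0 : (0 : ℤ) ≤ Q := by positivity
  have hRQz : (R : ℤ) ≤ Q := by exact_mod_cast hRQ
  have hqRQ : (q : ℤ) * R ≤ q * Q := mul_le_mul_of_nonneg_left hRQz (by positivity)
  have hW0 : (0 : ℤ) ≤ W := by positivity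
  obtain ⟨s1, s2⟩ := abs_le.1 (le_refl |s|)
  obtain ⟨s3, s4⟩ := abs_le.1 (le_refl |s'|)
  obtain ⟨y, hy⟩ : ∃ y : ℤ, y = x - x' - (s - s') := ⟨_, rfl⟩
  rw [← hy] at h1 h2 h3 h4
  have g1 : (n : ℤ) * q ≤ n * y := mul_le_mul_of_nonneg_left h1 hn0
  have g2 : (n : ℤ) * y ≤ n * (q * Q) := mul_le_mul_of_nonneg_left h2 hn0
  have g3 : ((n : ℤ) - q) * q ≤ (n - q) * y := mul_le_mul_of_nonneg_left h1 hn'0
  have g4 : ((n : ℤ) - q) * y ≤ (n - q) * (q * Q) := mul_le_mul_of_nonneg_left h2 hn'0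
  have f1 : (q : ℤ) * (x - s) ≤ q * (n * Q + Q) := by nlinarith
  have f2 : (q : ℤ) * 0 ≤ q * (x - s) := by nlinarith
  have f3 : (q : ℤ) * (x' - s') ≤ q * (n * Q + Q) := by
    have e : (x' - s') = (x - s) - y := by rw [hy]; ring
    rw [e]
    have : (0 : ℤ) ≤ q * (q * Q) := by positivity
    nlinarith
  have f4 : (q : ℤ) * 0 ≤ q * (x' - s') := by
    have e : (x' - s') = (x - s) - y := by rw [hy]; ring
    rw [e]
    have : (0 : ℤ) ≤ (n - q) * q := by positivity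
    nlinarith
  have hq0 : (0 : ℤ) < q := by linarith
  have k1 := le_of_mul_le_mul_left f1 hq0
  have k2 := le_of_mul_le_mul_left f2 hq0
  have k3 := le_of_mul_le_mul_left f3 hq0
  have k4 := le_of_mul_le_mul_left f4 hq0
  have hnH : (0 : ℤ) ≤ n * Q := by positivity
  refine ⟨⟨?_, ?_⟩, ⟨?_, ?_⟩⟩ <;> linarith


theorem claimB (hnn : n' < n) (hRQ : R ≤ Q) (hX : |s| + n * Q + Q + W ≤ X) (hX' : |s'| + n * Q + Q + W ≤ X)
    (w : ℕ) (hw : W * (n / (n - n') + 2) ≤ w) (i j : ℤ) (hi : 1 ≤ i ∧ i ≤ W) (hj : 1 ≤ j ∧ j ≤ W) :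
    SS a n n' Q R s s' w i j = ∑ v ∈ BX (-X) X (-X) X, if RR ((n : ℤ) - n') Q R n s (s - s') v.1 v.2 then
      (if ((n : ℤ) - n') ∣ (v.1 + i) - (v.2 + j) - (s - s') then a (v.1 + i) * a (v.2 + j) else 0) else 0 := by
  unfold SS
  have hqz : (0 : ℤ) < (n : ℤ) - n' := by omega
  have e : ∀ v : ℤ × ℤ, (if RR ((n : ℤ) - n') Q R n s (s - s') v.1 v.2 then
      (if ((n : ℤ) - n') ∣ (v.1 + i) - (v.2 + j) - (s - s') then a (v.1 + i) * a (v.2 + j) else 0) else 0) =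
      if RR ((n : ℤ) - n') Q R n s (s - s') v.1 v.2 ∧ ((n : ℤ) - n') ∣ (v.1 + i) - (v.2 + j) - (s - s') then
        a (v.1 + i) * a (v.2 + j) else 0 := by
    intro v; rw [ite_and]
  simp only [e]
  rw [← Finset.sum_filter, ← Finset.sum_filter]
  refine Finset.sum_nbij' (fun p : ℤ × ℤ => (p.1 * n + p.2 + s - i, p.1 * n' + p.2 + s' - j))
    (fun v : ℤ × ℤ => (((v.1 + i) - (v.2 + j) - (s - s')) / ((n : ℤ) - n'),
      v.1 + i - s - (((v.1 + i) - (v.2 + j) - (s - s')) / ((n : ℤ) - n')) * n)) ?_ ?_ ?_ ?_ ?_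
  · rintro ⟨b, c⟩ h
    rw [mem_filter] at h ⊢
    have h2 : RR ((n : ℤ) - n') Q R n s (s - s') (b * n + c + s - i) (b * n' + c + s' - j) := h.2
    refine ⟨?_, h2, ?_⟩
    · simp only [BX, mem_product, mem_Icc]
      exact RR_bound n n' Q R W X s s' hnn hRQ hX hX' _ _ h2
    · simp only
      have : b * n + c + s - i + i - (b * n' + c + s' - j + j) - (s - s') = ((n : ℤ) - n') * b := by ring
      rw [this]; exact dvd_mul_right _ _
  · rintro ⟨v, v'⟩ h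
    rw [mem_filter] at h ⊢
    obtain ⟨h1, h2, h3⟩ := h
    obtain ⟨b, hb⟩ := h3
    simp only at hb h2 ⊢
    rw [hb, Int.mul_ediv_cancel_left _ hqz.ne']
    have h4 : RS n n' Q R s s' i j (b, v + i - s - b * n) := by
      unfold RS
      simp only
      have e1 : b * n + (v + i - s - b * n) + s - i = v := by ring
      have e2 : b * n' + (v + i - s - b * n) + s' - j = v' := by linarith
      rw [e1, e2]; exact h2
    refine ⟨?_, h4⟩
    simp only [BX, mem_product, mem_Icc]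
    exact (strip n n' Q R W s s' hnn w hw i j hi hj _ _).1 h4
  · rintro ⟨b, c⟩ h
    simp only
    have e1 : b * n + c + s - i + i - (b * n' + c + s' - j + j) - (s - s') = ((n : ℤ) - n') * b := by ring
    rw [e1, Int.mul_ediv_cancel_left _ hqz.ne']
    ext
    · simp only
    · simp only; ring
  · rintro ⟨v, v'⟩ h
    rw [mem_filter] at h
    obtain ⟨h1, h2, h3⟩ := h
    obtain ⟨b, hb⟩ := h3
    simp only at hb ⊢
    rw [hb, Int.mul_ediv_cancel_left _ hqz.ne']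
    ext
    · simp only; ring
    · simp only; linarith
  · rintro ⟨b, c⟩ h
    simp only [FF]
    congr 2 <;> ring

theorem claimC (hnn : n' < n) (hRQ : R ≤ Q) (hX : |s| + n * Q + Q + W ≤ X) (hX' : |s'| + n * Q + Q + W ≤ X)
    (w : ℕ) (hw : W * (n / (n - n') + 2) ≤ w) :
    ∑ i ∈ Icc (1 : ℤ) W, ∑ j ∈ Icc (1 : ℤ) W, SS a n n' Q R s s' w i j =
      ∑ v ∈ BX (-X) X (-X) X, if RR ((n : ℤ) - n') Q R n s (s - s') v.1 v.2 then
        (∑ m ∈ Ioc v.1 (v.1 + W), ∑ m' ∈ Ioc v.2 (v.2 + W),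
          (if (((n - n' : ℕ) : ℤ)) ∣ m - m' - (s - s') then a m * a m' else 0)) else 0 := by
  have hqz : (((n - n' : ℕ) : ℤ)) = (n : ℤ) - n' := by omega
  rw [hqz]
  calc _ = ∑ i ∈ Icc (1 : ℤ) W, ∑ j ∈ Icc (1 : ℤ) W, ∑ v ∈ BX (-X) X (-X) X, (if RR ((n : ℤ) - n') Q R n s (s - s') v.1 v.2 then
      (if ((n : ℤ) - n') ∣ (v.1 + i) - (v.2 + j) - (s - s') then a (v.1 + i) * a (v.2 + j) else 0) else 0) := by
        refine Finset.sum_congr rfl fun i hi => Finset.sum_congr rfl fun j hj => ?_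
        exact claimB a n n' Q R W X s s' hnn hRQ hX hX' w hw i j (mem_Icc.1 hi) (mem_Icc.1 hj)
    _ = ∑ v ∈ BX (-X) X (-X) X, ∑ i ∈ Icc (1 : ℤ) W, ∑ j ∈ Icc (1 : ℤ) W, (if RR ((n : ℤ) - n') Q R n s (s - s') v.1 v.2 then
      (if ((n : ℤ) - n') ∣ (v.1 + i) - (v.2 + j) - (s - s') then a (v.1 + i) * a (v.2 + j) else 0) else 0) := by
        symm
        rw [Finset.sum_comm]
        refine Finset.sum_congr rfl fun i _ => ?_
        rw [Finset.sum_comm]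
    _ = _ := by
        refine Finset.sum_congr rfl fun v _ => ?_
        by_cases h : RR ((n : ℤ) - n') Q R n s (s - s') v.1 v.2
        · simp only [if_pos h]
          rw [sum_shift _ v.1 W]
          refine Finset.sum_congr rfl fun i _ => ?_
          rw [sum_shift _ v.2 W]
        · simp only [if_neg h]; simp


theorem card_x' (hn' : 1 ≤ n') (hnn : n' < n) (hnH : n ≤ R) (x : ℤ) (S : Finset ℤ) :
    (((S.filter (fun x' : ℤ => RR ((n : ℤ) - n') Q R n s (s - s') x x')).card : ℕ) : ℝ) ≤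
      2 * (((n : ℝ) - n') * R / n') := by
  obtain ⟨q, hq⟩ : ∃ q : ℕ, q = n - n' := ⟨_, rfl⟩
  have hq1 : 1 ≤ q := by omega
  have hqz : (n : ℤ) - n' = q := by omega
  have hqr : (n : ℝ) - n' = q := by
    have : (((n : ℤ) - n' : ℤ) : ℝ) = ((q : ℤ) : ℝ) := by rw [hqz]
    push_cast at this; exact this
  rw [hqz, hqr]
  have h1 := card_short (S.filter (fun x' : ℤ => RR (q : ℤ) Q R n s (s - s') x x')) n (q * R) (by omega) (by
    intro y hy z hz
    rw [mem_filter] at hy hz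
    obtain ⟨-, -, -, -, h4⟩ := hy
    obtain ⟨-, -, -, h3, -⟩ := hz
    have : (0 : ℤ) ≤ q := by positivity
    push_cast
    nlinarith)
  refine h1.trans ?_
  have hn'r : (1 : ℝ) ≤ n' := by exact_mod_cast hn'
  have hnr : (n' : ℝ) ≤ n := by exact_mod_cast hnn.le
  have hHr : (n : ℝ) ≤ R := by exact_mod_cast hnH
  have hqr1 : (1 : ℝ) ≤ q := by exact_mod_cast hq1
  push_cast
  have h2 : (q : ℝ) * R / n ≤ q * R / n' :=
    div_le_div_of_nonneg_left (by positivity) (by linarith) hnr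
  have h3 : (1 : ℝ) ≤ q * R / n' := by
    rw [le_div_iff₀ (by linarith)]; nlinarith
  linarith

theorem card_x (hn' : 1 ≤ n') (hnn : n' < n) (hnH : n ≤ R) (x' : ℤ) (S : Finset ℤ) :
    (((S.filter (fun x : ℤ => RR ((n : ℤ) - n') Q R n s (s - s') x x')).card : ℕ) : ℝ) ≤
      2 * (((n : ℝ) - n') * R / n') := by
  obtain ⟨q, hq⟩ : ∃ q : ℕ, q = n - n' := ⟨_, rfl⟩
  have hq1 : 1 ≤ q := by omega
  have hqz : (n : ℤ) - n' = q := by omega
  have hqn : (n : ℤ) - q = n' := by omega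
  have hqr : (n : ℝ) - n' = q := by
    have : (((n : ℤ) - n' : ℤ) : ℝ) = ((q : ℤ) : ℝ) := by rw [hqz]
    push_cast at this; exact this
  rw [hqz, hqr]
  have h1 := card_short (S.filter (fun x : ℤ => RR (q : ℤ) Q R n s (s - s') x x')) n' (q * R) (by omega) (by
    intro y hy z hz
    rw [mem_filter] at hy hz
    obtain ⟨-, -, -, h3, -⟩ := hy
    obtain ⟨-, -, -, -, h4⟩ := hz
    have : (0 : ℤ) ≤ q := by positivity
    rw [← hqn]
    push_cast
    nlinarith)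
  refine h1.trans ?_
  have hn'r : (1 : ℝ) ≤ n' := by exact_mod_cast hn'
  have hnr : (n' : ℝ) ≤ n := by exact_mod_cast hnn.le
  have hHr : (n : ℝ) ≤ R := by exact_mod_cast hnH
  have hqr1 : (1 : ℝ) ≤ q := by exact_mod_cast hq1
  push_cast
  have h3 : (1 : ℝ) ≤ q * R / n' := by
    rw [le_div_iff₀ (by linarith)]; nlinarith
  linarith

theorem claimD (hn' : 1 ≤ n') (hnn : n' < n) (hnH : n ≤ R) (hRQ : R ≤ Q) (hX : |s| + n * Q + Q + W ≤ X)
    (hX' : |s'| + n * Q + Q + W ≤ X) (w : ℕ) (hw : W * (n / (n - n') + 2) ≤ w) :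
    |∑ i ∈ Icc (1 : ℤ) W, ∑ j ∈ Icc (1 : ℤ) W, SS a n n' Q R s s' w i j| ≤
      2 * (((n : ℝ) - n') * R / n') * ∑ u ∈ Icc (-(X : ℤ)) X, NN a u W (n - n') := by
  rw [claimC a n n' Q R W X s s' hnn hRQ hX hX' w hw]
  have hq1 : 1 ≤ n - n' := by omega
  set K : ℝ := 2 * (((n : ℝ) - n') * R / n') with hK
  calc _ ≤ ∑ v ∈ BX (-X) X (-X) X, (if RR ((n : ℤ) - n') Q R n s (s - s') v.1 v.2 then
        (NN a v.1 W (n - n') + NN a v.2 W (n - n')) / 2 else 0) := by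
        refine (Finset.abs_sum_le_sum_abs _ _).trans (Finset.sum_le_sum fun v _ => ?_)
        split_ifs with h
        · exact inner_le a v.1 v.2 (s - s') W (n - n') hq1
        · simp
    _ = (∑ x ∈ Icc (-(X : ℤ)) X, ∑ x' ∈ Icc (-(X : ℤ)) X, (if RR ((n : ℤ) - n') Q R n s (s - s') x x' then
          NN a x W (n - n') / 2 else 0)) + (∑ x' ∈ Icc (-(X : ℤ)) X, ∑ x ∈ Icc (-(X : ℤ)) X,
          (if RR ((n : ℤ) - n') Q R n s (s - s') x x' then NN a x' W (n - n') / 2 else 0)) := by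
        rw [Finset.sum_comm (s := Icc (-(X : ℤ)) X) (t := Icc (-(X : ℤ)) X)
          (f := fun x' x => (if RR ((n : ℤ) - n') Q R n s (s - s') x x' then NN a x' W (n - n') / 2 else 0)),
          ← Finset.sum_add_distrib, BX, Finset.sum_product]
        refine Finset.sum_congr rfl fun x _ => ?_
        rw [← Finset.sum_add_distrib]
        refine Finset.sum_congr rfl fun x' _ => ?_
        simp only
        split_ifs
        · ring
        · simp
    _ ≤ (∑ x ∈ Icc (-(X : ℤ)) X, K * (NN a x W (n - n') / 2)) +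
        (∑ x' ∈ Icc (-(X : ℤ)) X, K * (NN a x' W (n - n') / 2)) := by
        refine add_le_add (Finset.sum_le_sum fun x _ => ?_) (Finset.sum_le_sum fun x' _ => ?_)
        · rw [← Finset.sum_filter, Finset.sum_const, nsmul_eq_mul]
          exact mul_le_mul_of_nonneg_right (card_x' n n' Q R s s' hn' hnn hnH x _)
            (by have := NN_nonneg a x W (n - n'); linarith)
        · rw [← Finset.sum_filter, Finset.sum_const, nsmul_eq_mul]
          exact mul_le_mul_of_nonneg_right (card_x n n' Q R s s' hn' hnn hnH x' _)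
            (by have := NN_nonneg a x' W (n - n'); linarith)
    _ = _ := by
        rw [← Finset.sum_add_distrib, Finset.mul_sum]
        refine Finset.sum_congr rfl fun x _ => by ring

end main

theorem main : S_PAIR3 := by
  refine ⟨48, by norm_num, ?_⟩
  intro a P hP hb n n' Q R W X s s' hn' hnn hnH hRQ hW hX hX'
  have eV : ∑ b ∈ Icc 1 Q, ∑ c ∈ Icc 1 R, a ((b : ℤ) * n + c + s) * a ((b : ℤ) * n' + c + s') =
      ∑ p ∈ BX 1 Q 1 R, FF a n n' s s' p := by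
    rw [BX, Finset.sum_product]
    rw [← sum_cast (fun b => ∑ y ∈ Icc (1 : ℤ) R, FF a n n' s s' (b, y)) Q]
    refine Finset.sum_congr rfl fun b _ => ?_
    rw [← sum_cast (fun c => FF a n n' s s' ((b : ℤ), c)) R]
    rfl
  rw [eV]
  obtain ⟨q, hq⟩ : ∃ q : ℕ, q = n - n' := ⟨_, rfl⟩
  have hq1 : 1 ≤ q := by omega
  have hqz : (n : ℤ) - n' = q := by omega
  have hqr : (n : ℝ) - n' = q := by
    have : (((n : ℤ) - n' : ℤ) : ℝ) = ((q : ℤ) : ℝ) := by rw [hqz]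
    push_cast at this; exact this
  obtain ⟨w, hw⟩ : ∃ w : ℕ, w = W * (n / (n - n') + 2) := ⟨_, rfl⟩
  have hWr : (1 : ℝ) ≤ W := by exact_mod_cast hW
  have hqr1 : (1 : ℝ) ≤ q := by exact_mod_cast hq1
  have hn'r : (1 : ℝ) ≤ n' := by exact_mod_cast hn'
  have hn0 : (0 : ℝ) ≤ n := by positivity
  have hH0 : (0 : ℝ) ≤ Q := by positivity
  have hR0 : (0 : ℝ) ≤ R := by positivity
  have hRQr : (R : ℝ) ≤ Q := by exact_mod_cast hRQ
  have hP2 : 0 ≤ P ^ 2 := sq_nonneg _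
  have hwr : (w : ℝ) ≤ 2 * (W * (n / ((n : ℝ) - n') + 1)) := by
    rw [hw, hqr, ← hq]
    push_cast
    have h1 : ((n / q : ℕ) : ℝ) ≤ (n : ℝ) / q := Nat.cast_div_le
    have h2 : 0 ≤ (n : ℝ) / q := by positivity
    nlinarith
  have hw0 : 0 ≤ (w : ℝ) := by positivity
  have hNN : 0 ≤ ∑ u ∈ Icc (-(X : ℤ)) X, NN a u W (n - n') :=
    Finset.sum_nonneg fun u _ => NN_nonneg a u W _
  have hA0 : 0 ≤ ((n : ℝ) - n') * R / ((W : ℝ) ^ 2 * n') := by rw [hqr]; positivity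
  by_cases hwH : w ≤ R
  · -- main case
    have hA : |(W : ℝ) ^ 2 * (∑ p ∈ BX 1 Q 1 R, FF a n n' s s' p) -
        ∑ i ∈ Icc (1 : ℤ) W, ∑ j ∈ Icc (1 : ℤ) W, SS a n n' Q R s s' w i j| ≤ (W : ℝ) ^ 2 * (24 * (Q * w) * P ^ 2) := by
      have e : (W : ℝ) ^ 2 * (∑ p ∈ BX 1 Q 1 R, FF a n n' s s' p) =
          ∑ i ∈ Icc (1 : ℤ) W, ∑ j ∈ Icc (1 : ℤ) W, (∑ p ∈ BX 1 Q 1 R, FF a n n' s s' p) := by
        simp only [Finset.sum_const, Int.card_Icc, nsmul_eq_mul]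
        have : ((W : ℤ) + 1 - 1).toNat = W := by simp
        rw [this]; ring
      rw [e, ← Finset.sum_sub_distrib]
      calc _ ≤ ∑ i ∈ Icc (1 : ℤ) W, ∑ j ∈ Icc (1 : ℤ) W, (24 * (Q * w) * P ^ 2 : ℝ) := by
            refine (Finset.abs_sum_le_sum_abs _ _).trans (Finset.sum_le_sum fun i hi => ?_)
            rw [← Finset.sum_sub_distrib]
            refine (Finset.abs_sum_le_sum_abs _ _).trans (Finset.sum_le_sum fun j hj => ?_)
            exact claimA a P n n' Q R W s s' hP hb hnn w hw.ge hRQ hwH i j (mem_Icc.1 hi) (mem_Icc.1 hj)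
        _ = _ := by
            simp only [Finset.sum_const, Int.card_Icc, nsmul_eq_mul]
            have : ((W : ℤ) + 1 - 1).toNat = W := by simp
            rw [this]; ring
    have hD := claimD a n n' Q R W X s s' hn' hnn hnH hRQ hX hX' w hw.ge
    set V := ∑ p ∈ BX 1 Q 1 R, FF a n n' s s' p with hV
    set T := ∑ i ∈ Icc (1 : ℤ) W, ∑ j ∈ Icc (1 : ℤ) W, SS a n n' Q R s s' w i j with hT
    set Z := ∑ u ∈ Icc (-(X : ℤ)) X, NN a u W (n - n') with hZ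
    have hW2 : (0 : ℝ) < (W : ℝ) ^ 2 := by positivity
    have h1 : (W : ℝ) ^ 2 * |V| ≤ 2 * (((n : ℝ) - n') * R / n') * Z + (W : ℝ) ^ 2 * (24 * (Q * w) * P ^ 2) := by
      have : (W : ℝ) ^ 2 * |V| = |(W : ℝ) ^ 2 * V| := by rw [abs_mul, abs_of_pos hW2]
      rw [this]
      have h2 : |(W : ℝ) ^ 2 * V| ≤ |(W : ℝ) ^ 2 * V - T| + |T| := by
        have := abs_add_le ((W : ℝ) ^ 2 * V - T) T
        simpa using this
      linarith
    have h3 : |V| ≤ 2 * (((n : ℝ) - n') * R / ((W : ℝ) ^ 2 * n') * Z) + 24 * (Q * w) * P ^ 2 := by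
      have e : (W : ℝ) ^ 2 * (2 * (((n : ℝ) - n') * R / ((W : ℝ) ^ 2 * n') * Z) + 24 * (Q * w) * P ^ 2) =
          2 * (((n : ℝ) - n') * R / n') * Z + (W : ℝ) ^ 2 * (24 * (Q * w) * P ^ 2) := by
        field_simp
      rw [← e] at h1
      exact le_of_mul_le_mul_left h1 hW2
    refine h3.trans ?_
    have h4 : 24 * (Q * w) * P ^ 2 ≤ 48 * (P ^ 2 * Q * (W * (n / ((n : ℝ) - n') + 1) + 1)) := by
      have : P ^ 2 * Q * w ≤ P ^ 2 * Q * (2 * (W * (n / ((n : ℝ) - n') + 1))) :=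
        mul_le_mul_of_nonneg_left hwr (by positivity)
      have h5 : 0 ≤ P ^ 2 * Q := by positivity
      nlinarith
    have h6 : 0 ≤ ((n : ℝ) - n') * R / ((W : ℝ) ^ 2 * n') * Z := mul_nonneg hA0 hNN
    linarith
  · -- trivial case
    have h1 : |∑ p ∈ BX 1 Q 1 R, FF a n n' s s' p| ≤ (Q : ℝ) * R * P ^ 2 := by
      refine (Finset.abs_sum_le_sum_abs _ _).trans ((Finset.sum_le_sum fun p _ => FF_le a P n n' s s' hP hb p).trans ?_)
      rw [Finset.sum_const, nsmul_eq_mul, BX, card_product, Int.card_Icc, Int.card_Icc]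
      have : ((Q : ℤ) + 1 - 1).toNat = Q := by simp
      have h' : ((R : ℤ) + 1 - 1).toNat = R := by simp
      rw [this, h']; push_cast; exact le_rfl
    refine h1.trans ?_
    have h2 : (R : ℝ) ≤ w := by exact_mod_cast (not_le.1 hwH).le
    have h3 : P ^ 2 * Q * R ≤ P ^ 2 * Q * (2 * (W * (n / ((n : ℝ) - n') + 1))) :=
      mul_le_mul_of_nonneg_left (h2.trans hwr) (by positivity)
    have h5 : 0 ≤ P ^ 2 * Q := by positivity
    have h6 : 0 ≤ ((n : ℝ) - n') * R / ((W : ℝ) ^ 2 * n') * ∑ u ∈ Icc (-(X : ℤ)) X, NN a u W (n - n') :=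
      mul_nonneg hA0 hNN
    have h7 : 0 ≤ P ^ 2 * Q * (2 * (W * (n / ((n : ℝ) - n') + 1))) := (by positivity : 0 ≤ P ^ 2 * Q * R).trans h3
    nlinarith

end Pool.Agent.helper24_UT.Pair3
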