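/-
UT_SIL2   (project UT of helper24: primes at almost all systems of polynomials; very_famous ids, partial results)
TARGET: prove the theorem at the end: it is a variant of a theorem ALREADY PROVED in Pool/Agent/helper24_UT/Sil.lean (on origin/main;
`git -C /workdir/pool/outputs/live pull`, copy the directory Pool/Agent/helper24_UT and the starting modules its files import to the
same paths under /workdir/pool). So: copy that file, change the namespace to the one below, and adapt the exponents as described.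
The statements are in Pool/Agent/helper24_UT/Stm4.lean (compare with Stm.lean, Stm2.lean, Stm3.lean).
Do not import the old file, only its imports; no sorry, no native_decide, no new axioms, no straight double quotes.
Paste the full proved file back as the result (theorem name `main`). If a constant does not work out, set status='problem' and say why.

WHAT TO CHANGE
The parameter e is gone. The windows are now W >= X^(1/2) (log X)^C with C = C(A,B) chosen by you (large compared with the powers of log X that the old proof loses in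
K1 = ceil(Y (log X)^c / W), so that K1 <= Y^(1/2) for every dyadic Y in [X/(log X)^c', X]; for C large this holds since Y/W <= Y^(1/2) (Y/X)^(1/2) (log X)^(-C)).
-/
import Pool.Agent.H43.G.R_pool_sql_team_seeded_620a6dc7.helper24_UT_.Stm4
import Pool.Agent.H43.G.R_seed8.H373R2.T7.LamMaj

set_option autoImplicit false

namespace Pool.Agent.helper24_UT.Sil2

open Finset
open Pool.Agent.helper24_UT
open Pool.Agent.H376R2.MR (ch er DP FK)

theorem arith (C L y w J K S P l : ℝ) (A : ℕ) (hC : 1 ≤ C) (hL : 320 * C * 2 ^ (A + 1) ≤ L)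
    (hL4 : 4 ≤ L) (hy : 1 ≤ y) (hw : 320 * C ≤ w) (hw2 : 80 * C * L ^ (A + 2) ≤ w ^ 2)
    (hJ1 : L ^ (A + 3) ≤ J) (hJ2 : J ≤ 2 * L ^ (A + 3)) (hK : y / w * L ^ (3 * A + 8) ≤ K)
    (hP0 : 0 ≤ P) (hP : P ≤ 2 * L) (hl : L / 2 ≤ l) (hS : S ≤ y ^ 2 / l ^ (A + 1)) :
    C * (w ^ 2 / y * S + J ^ 2 * y ^ 2 * P ^ 2 * (y / K ^ 2 + 1 / K) + y * P ^ 2 * (w ^ 2 / J ^ 2 + 1)) ≤
      y * w ^ 2 / (4 * L ^ A) := by
  have hL0 : 0 < L := by linarith
  have hw0 : 0 < w := by linarith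
  have hy0 : 0 < y := by linarith
  have hC0 : 0 < C := by linarith
  have hl0 : 0 < l := by linarith
  have hLA : 0 < L ^ A := by positivity
  have h2A : (1 : ℝ) ≤ 2 ^ (A + 1) := one_le_pow₀ (by norm_num)
  have hL320 : 320 * C ≤ L := by nlinarith
  have hJ0 : 0 < J := lt_of_lt_of_le (by positivity) hJ1
  have hK0 : 0 < K := lt_of_lt_of_le (by positivity) hK
  set D : ℝ := y * w ^ 2 / L ^ A with hD
  have hD0 : 0 < D := by positivity
  have hP2 : P ^ 2 ≤ 4 * L ^ 2 := by nlinarith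
  have hJ2' : J ^ 2 ≤ 4 * (L ^ (A + 3)) ^ 2 := by nlinarith
  -- term 1
  have t1 : C * (w ^ 2 / y * S) ≤ D / 20 := by
    have h1 : w ^ 2 / y * S ≤ w ^ 2 / y * (y ^ 2 / (L / 2) ^ (A + 1)) := by
      apply mul_le_mul_of_nonneg_left _ (by positivity)
      refine hS.trans ?_
      apply div_le_div_of_nonneg_left (by positivity) (by positivity)
      exact pow_le_pow_left₀ (by positivity) hl _
    have h2 : w ^ 2 / y * (y ^ 2 / (L / 2) ^ (A + 1)) = D * (2 ^ (A + 1) / L) := by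
      rw [hD, div_pow, pow_succ L]
      field_simp
    calc C * (w ^ 2 / y * S) ≤ C * (D * (2 ^ (A + 1) / L)) := by
          rw [← h2]
          exact mul_le_mul_of_nonneg_left h1 hC0.le
      _ = D * (C * 2 ^ (A + 1) / L) := by ring
      _ ≤ D * (1 / 20) := by
          apply mul_le_mul_of_nonneg_left _ hD0.le
          rw [div_le_iff₀ hL0]
          linarith
      _ = D / 20 := by ring
  -- term 2a
  have t2 : C * (J ^ 2 * y ^ 2 * P ^ 2 * (y / K ^ 2)) ≤ D / 20 := by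
    have h1 : y / K ^ 2 ≤ y / (y / w * L ^ (3 * A + 8)) ^ 2 := by
      apply div_le_div_of_nonneg_left hy0.le (by positivity)
      exact pow_le_pow_left₀ (by positivity) hK _
    have h2 : J ^ 2 * y ^ 2 * P ^ 2 * (y / K ^ 2) ≤
        4 * (L ^ (A + 3)) ^ 2 * y ^ 2 * (4 * L ^ 2) * (y / (y / w * L ^ (3 * A + 8)) ^ 2) := by
      gcongr
    have h3 : 4 * (L ^ (A + 3)) ^ 2 * y ^ 2 * (4 * L ^ 2) * (y / (y / w * L ^ (3 * A + 8)) ^ 2) =
        D * (16 / L ^ (3 * A + 8)) := by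
      rw [hD]
      field_simp
      ring
    have h4 : 16 / L ^ (3 * A + 8) ≤ 16 / L := by
      apply div_le_div_of_nonneg_left (by norm_num) hL0
      exact le_self_pow₀ (by linarith) (by omega)
    calc C * (J ^ 2 * y ^ 2 * P ^ 2 * (y / K ^ 2)) ≤ C * (D * (16 / L ^ (3 * A + 8))) := by
          rw [← h3]
          exact mul_le_mul_of_nonneg_left h2 hC0.le
      _ ≤ C * (D * (16 / L)) := by gcongr
      _ = D * (16 * C / L) := by ring
      _ ≤ D * (1 / 20) := by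
          apply mul_le_mul_of_nonneg_left _ hD0.le
          rw [div_le_iff₀ hL0]
          linarith
      _ = D / 20 := by ring
  -- term 2b
  have t3 : C * (J ^ 2 * y ^ 2 * P ^ 2 * (1 / K)) ≤ D / 20 := by
    have h1 : 1 / K ≤ 1 / (y / w * L ^ (3 * A + 8)) :=
      div_le_div_of_nonneg_left (by norm_num) (by positivity) hK
    have h2 : J ^ 2 * y ^ 2 * P ^ 2 * (1 / K) ≤
        4 * (L ^ (A + 3)) ^ 2 * y ^ 2 * (4 * L ^ 2) * (1 / (y / w * L ^ (3 * A + 8))) := by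
      gcongr
    have h3 : 4 * (L ^ (A + 3)) ^ 2 * y ^ 2 * (4 * L ^ 2) * (1 / (y / w * L ^ (3 * A + 8))) =
        D * (16 / w) := by
      rw [hD]
      field_simp
      ring
    calc C * (J ^ 2 * y ^ 2 * P ^ 2 * (1 / K)) ≤ C * (D * (16 / w)) := by
          rw [← h3]
          exact mul_le_mul_of_nonneg_left h2 hC0.le
      _ = D * (16 * C / w) := by ring
      _ ≤ D * (1 / 20) := by
          apply mul_le_mul_of_nonneg_left _ hD0.le
          rw [div_le_iff₀ hw0]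
          linarith
      _ = D / 20 := by ring
  -- term 3a
  have t4 : C * (y * P ^ 2 * (w ^ 2 / J ^ 2)) ≤ D / 20 := by
    have h1 : w ^ 2 / J ^ 2 ≤ w ^ 2 / (L ^ (A + 3)) ^ 2 := by
      apply div_le_div_of_nonneg_left (by positivity) (by positivity)
      exact pow_le_pow_left₀ (by positivity) hJ1 _
    have h2 : y * P ^ 2 * (w ^ 2 / J ^ 2) ≤ y * (4 * L ^ 2) * (w ^ 2 / (L ^ (A + 3)) ^ 2) := by
      gcongr
    have h3 : y * (4 * L ^ 2) * (w ^ 2 / (L ^ (A + 3)) ^ 2) = D * (4 / L ^ (A + 4)) := by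
      rw [hD]
      field_simp
      ring
    have h4 : 4 / L ^ (A + 4) ≤ 4 / L := by
      apply div_le_div_of_nonneg_left (by norm_num) hL0
      exact le_self_pow₀ (by linarith) (by omega)
    calc C * (y * P ^ 2 * (w ^ 2 / J ^ 2)) ≤ C * (D * (4 / L ^ (A + 4))) := by
          rw [← h3]
          exact mul_le_mul_of_nonneg_left h2 hC0.le
      _ ≤ C * (D * (4 / L)) := by gcongr
      _ = D * (4 * C / L) := by ring
      _ ≤ D * (1 / 20) := by
          apply mul_le_mul_of_nonneg_left _ hD0.le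
          rw [div_le_iff₀ hL0]
          linarith
      _ = D / 20 := by ring
  -- term 3b
  have t5 : C * (y * P ^ 2 * 1) ≤ D / 20 := by
    rw [hD, le_div_iff₀ (by norm_num : (0:ℝ) < 20), le_div_iff₀ hLA]
    calc C * (y * P ^ 2 * 1) * 20 * L ^ A ≤ C * (y * (4 * L ^ 2) * 1) * 20 * L ^ A := by gcongr
      _ = y * (80 * C * L ^ (A + 2)) := by ring
      _ ≤ y * w ^ 2 := mul_le_mul_of_nonneg_left hw2 hy0.le
  have hfin : y * w ^ 2 / (4 * L ^ A) = D / 4 := by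
    rw [hD]
    field_simp
  rw [hfin]
  have : C * (w ^ 2 / y * S + J ^ 2 * y ^ 2 * P ^ 2 * (y / K ^ 2 + 1 / K) +
      y * P ^ 2 * (w ^ 2 / J ^ 2 + 1)) = C * (w ^ 2 / y * S) +
      C * (J ^ 2 * y ^ 2 * P ^ 2 * (y / K ^ 2)) + C * (J ^ 2 * y ^ 2 * P ^ 2 * (1 / K)) +
      C * (y * P ^ 2 * (w ^ 2 / J ^ 2)) + C * (y * P ^ 2 * 1) := by ring
  rw [this]
  linarith

theorem ev_pow (c : ℕ) (s K : ℝ) (hs : 0 < s) :
    ∀ᶠ X : ℕ in Filter.atTop, K * Real.log X ^ c ≤ (X : ℝ) ^ s := by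
  have h := isLittleO_log_rpow_rpow_atTop (c : ℝ) hs
  have h2 := h.def (show (0:ℝ) < 1 / (|K| + 1) by positivity)
  have h3 := tendsto_natCast_atTop_atTop.eventually h2
  filter_upwards [h3, Filter.eventually_ge_atTop 1] with X hX hX1
  have hXR : (1 : ℝ) ≤ X := by exact_mod_cast hX1
  have hlog : 0 ≤ Real.log X := Real.log_nonneg hXR
  rw [Real.rpow_natCast, Real.norm_eq_abs, Real.norm_eq_abs,
    abs_of_nonneg (show 0 ≤ Real.log X ^ c by positivity),
    abs_of_nonneg (show 0 ≤ (X : ℝ) ^ s by positivity)] at hX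
  calc K * Real.log X ^ c ≤ |K| * Real.log X ^ c := by
        apply mul_le_mul_of_nonneg_right (le_abs_self K) (by positivity)
    _ ≤ (|K| + 1) * Real.log X ^ c := by
        apply mul_le_mul_of_nonneg_right (by linarith) (by positivity)
    _ ≤ (|K| + 1) * (1 / (|K| + 1) * (X : ℝ) ^ s) := by
        apply mul_le_mul_of_nonneg_left hX (by positivity)
    _ = (X : ℝ) ^ s := by
        field_simp

theorem ev_log (K : ℝ) : ∀ᶠ X : ℕ in Filter.atTop, K ≤ Real.log X :=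
  (Real.tendsto_log_atTop.comp tendsto_natCast_atTop_atTop).eventually_ge_atTop K

theorem cover (g : ℕ → ℝ) (y0 J : ℕ) :
    ∑ u ∈ Finset.range (2 ^ J * y0), g u = ∑ u ∈ Finset.range y0, g u +
      ∑ j ∈ Finset.range J, ∑ u ∈ Finset.Ico (2 ^ j * y0) (2 * (2 ^ j * y0)), g u := by
  induction J with
  | zero => simp
  | succ J ih =>
    rw [Finset.sum_range_succ, ← add_assoc, ← ih]
    have e : 2 ^ (J + 1) * y0 = 2 * (2 ^ J * y0) := by ring
    rw [e]
    exact (Finset.sum_range_add_sum_Ico g (by omega)).symm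

theorem geom (y0 J : ℕ) : ∑ j ∈ Finset.range J, 2 ^ j * y0 ≤ 2 ^ J * y0 := by
  induction J with
  | zero => simp
  | succ J ih =>
    rw [Finset.sum_range_succ, pow_succ]
    linarith

theorem pdev_norm (q r n N : ℕ) (hq : 1 ≤ q) (hn : n ≤ N) :
    ‖pdev q r n‖ ≤ Real.log N + 1 := by
  unfold pdev
  refine (norm_sub_le _ _).trans (add_le_add ?_ ?_)
  · split_ifs
    · rw [Complex.norm_real, Real.norm_eq_abs,
        abs_of_nonneg ArithmeticFunction.vonMangoldt_nonneg]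
      refine ArithmeticFunction.vonMangoldt_le_log.trans ?_
      rcases Nat.eq_zero_or_pos n with h | h
      · rw [h, Nat.cast_zero, Real.log_zero]
        exact Real.log_natCast_nonneg N
      · exact Real.log_le_log (by exact_mod_cast h) (by exact_mod_cast hn)
    · rw [norm_zero]
      exact Real.log_natCast_nonneg N
  · have h1 : (1 : ℝ) ≤ (Nat.totient q : ℝ) := by exact_mod_cast Nat.totient_pos.2 hq
    rw [norm_div, norm_one, Complex.norm_natCast, div_le_one (by linarith)]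
    exact h1

theorem window_norm (q r u W N : ℕ) (hq : 1 ≤ q) (hN : u + W ≤ N) :
    ‖∑ n ∈ Ioc u (u + W), pdev q r n‖ ≤ W * (Real.log N + 1) := by
  refine (norm_sum_le _ _).trans ?_
  refine (sum_le_card_nsmul _ _ (Real.log N + 1) fun n hn => ?_).trans ?_
  · rw [mem_Ioc] at hn
    exact pdev_norm q r n N hq (hn.2.trans hN)
  · rw [Nat.card_Ioc, nsmul_eq_mul, Nat.add_sub_cancel_left]

theorem caseA (B U : ℕ) : ∃ X0 : ℕ, ∀ X : ℕ, X0 ≤ X → ∀ q r : ℕ, 1 ≤ q →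
    (q : ℝ) ≤ Real.log X ^ B → r.Coprime q → ∀ u W : ℕ, u < X → W ≤ X →
    ‖∑ n ∈ Ioc u (u + W), pdev q r n‖ ≤ 4 * X / Real.log X ^ U := by
  obtain ⟨N0, h⟩ := Pool.Agent.H373R2.T7.lam_ap B U
  refine ⟨max N0 3, fun X hX q r hq hqL hcop u W hu hW => ?_⟩
  have hX1 : N0 ≤ X := le_trans (le_max_left _ _) hX
  have hX3 : 3 ≤ X := le_trans (le_max_right _ _) hX
  have hX3R : (3 : ℝ) ≤ X := by exact_mod_cast hX3
  have hL0 : 0 < Real.log X := Real.log_pos (by linarith)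
  have hlog : Real.log X ≤ Real.log ((2 * X : ℕ) : ℝ) := by
    apply Real.log_le_log (by linarith)
    push_cast
    linarith
  have hS : ∀ y : ℕ, y ≤ 2 * X → ‖∑ n ∈ Ioc 0 y, pdev q r n‖ ≤ 2 * X / Real.log X ^ U := by
    intro y hy
    have h1 := h (2 * X) (by omega) q hq
      (hqL.trans (pow_le_pow_left₀ hL0.le hlog B)) r y hy
    rw [if_pos hcop] at h1
    have h2 : ∑ n ∈ Ioc 0 y, pdev q r n = ((∑ n ∈ (Icc 1 y).filter (fun n => n ≡ r [MOD q]),
        ArithmeticFunction.vonMangoldt n - (y : ℝ) / (Nat.totient q : ℝ) : ℝ) : ℂ) := by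
      unfold pdev
      have hI : Ioc 0 y = Icc 1 y := by
        ext n
        simp only [mem_Ioc, mem_Icc]
        omega
      rw [sum_sub_distrib, sum_const, hI, Nat.card_Icc, Nat.add_sub_cancel, sum_filter]
      push_cast
      congr 1
      · apply sum_congr rfl
        intro n _
        by_cases hn : n % q = r % q
        · rw [if_pos hn, if_pos (show n ≡ r [MOD q] from hn)]
        · rw [if_neg hn, if_neg (show ¬ n ≡ r [MOD q] from hn), Complex.ofReal_zero]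
      · rw [nsmul_eq_mul]
        ring
    rw [h2, Complex.norm_real, Real.norm_eq_abs]
    refine h1.trans ?_
    push_cast
    apply div_le_div_of_nonneg_left (by positivity) (by positivity)
    have := hlog
    push_cast at this
    exact pow_le_pow_left₀ hL0.le this U
  have h3 := sum_Ioc_consecutive (pdev q r) (Nat.zero_le u) (Nat.le_add_right u W)
  have h4 : ∑ n ∈ Ioc u (u + W), pdev q r n =
      ∑ n ∈ Ioc 0 (u + W), pdev q r n - ∑ n ∈ Ioc 0 u, pdev q r n := by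
    rw [← h3]
    ring
  rw [h4]
  refine (norm_sub_le _ _).trans ?_
  have h5 := hS (u + W) (by omega)
  have h6 := hS u (by omega)
  have h7 : 4 * (X : ℝ) / Real.log X ^ U = 2 * X / Real.log X ^ U + 2 * X / Real.log X ^ U := by
    ring
  rw [h7]
  exact add_le_add h5 h6

theorem rangeB (A B : ℕ) (C : ℝ) (hC : 1 ≤ C)
    (hwin : ∀ (Y W J K₁ : ℕ) (P : ℝ) (a : ℕ → ℂ), 1 ≤ J → 1 ≤ W → W ≤ Y → 1 ≤ K₁ → 0 ≤ P →
      (∀ n, ‖a n‖ ≤ P) →
      ∑ u ∈ Ico Y (2 * Y), ‖∑ n ∈ Ioc u (u + W), a n‖ ^ 2 ≤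
        C * ((W : ℝ) ^ 2 / Y * ∑ k ∈ FK K₁, ‖DP (Ioc Y (3 * Y)) a k‖ ^ 2 +
          (J : ℝ) ^ 2 * Y ^ 2 * P ^ 2 * ((Y : ℝ) / K₁ ^ 2 + 1 / K₁) +
            Y * P ^ 2 * ((W : ℝ) ^ 2 / J ^ 2 + 1)))
    (Y₀ : ℕ) (hfr : ∀ Y : ℕ, Y₀ ≤ Y → ∀ q r : ℕ, 1 ≤ q →
      (q : ℝ) ≤ (Real.log Y) ^ (B + 1) → r.Coprime q →
      ∀ K₁ : ℕ, (K₁ : ℝ) ≤ (Y : ℝ) ^ (1 / 2 : ℝ) →
      ∑ k ∈ FK K₁, ‖DP (Ioc Y (3 * Y)) (pdev q r) k‖ ^ 2 ≤
        (Y : ℝ) ^ 2 / (Real.log Y) ^ (A + 1))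
    (X : ℕ) (hX3 : 3 ≤ X) (hX0 : Y₀ ^ 2 ≤ X)
    (hL : 320 * C * 2 ^ (A + 1) ≤ Real.log X) (hL4 : 4 ≤ Real.log X)
    (hLB : 2 ^ (B + 1) ≤ Real.log X)
    (c2 : Real.log X ^ (A + 4) ≤ (X : ℝ) ^ (1 / 2 : ℝ))
    (c4 : 320 * C ≤ (X : ℝ) ^ (1 / 2 : ℝ))
    (c5 : 80 * C * Real.log X ^ (A + 2) ≤ (X : ℝ))
    (q r : ℕ) (hq : 1 ≤ q) (hqL : (q : ℝ) ≤ Real.log X ^ B) (hcop : r.Coprime q)
    (W : ℕ) (hW : (X : ℝ) ^ (1 / 2 : ℝ) * Real.log X ^ (3 * A + 9) ≤ W)
    (Y : ℕ) (hYX : Y < X) (hY : (X : ℝ) / Real.log X ^ (A + 4) ≤ Y) (hWY : W ≤ Y) :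
    ∑ u ∈ Ico Y (2 * Y), ‖∑ n ∈ Ioc u (u + W), pdev q r n‖ ^ 2 ≤
      Y * (W : ℝ) ^ 2 / (4 * Real.log X ^ A) := by
  set L := Real.log X with hLdef
  have hXR : (3 : ℝ) ≤ X := by exact_mod_cast hX3
  have hX0' : (0 : ℝ) < X := by linarith
  have hX1 : (1 : ℝ) ≤ X := by linarith
  have hL0 : 0 < L := by linarith
  have hL1 : 1 ≤ L := by linarith
  have hsX : (0 : ℝ) < (X : ℝ) ^ (1 / 2 : ℝ) := Real.rpow_pos_of_pos hX0' _
  have hss : (X : ℝ) ^ (1 / 2 : ℝ) * (X : ℝ) ^ (1 / 2 : ℝ) = X := by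
    rw [← Real.rpow_add hX0']
    norm_num
  have hYs : (X : ℝ) ^ (1 / 2 : ℝ) ≤ Y := by
    refine le_trans ?_ hY
    rw [le_div_iff₀ (by positivity)]
    calc (X : ℝ) ^ (1 / 2 : ℝ) * L ^ (A + 4) ≤ (X : ℝ) ^ (1 / 2 : ℝ) * (X : ℝ) ^ (1 / 2 : ℝ) :=
          mul_le_mul_of_nonneg_left c2 hsX.le
      _ = X := hss
  have hYXR : (Y : ℝ) ≤ X := by exact_mod_cast hYX.le
  have hY1 : (1 : ℝ) ≤ Y := le_trans (by
    have := Real.one_le_rpow hX1 (show (0 : ℝ) ≤ 1 / 2 by norm_num)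
    exact this) hYs
  have hY0' : (0 : ℝ) < Y := by linarith
  have hlogY : L / 2 ≤ Real.log Y := by
    have h1 := Real.log_le_log hsX hYs
    rw [Real.log_rpow hX0'] at h1
    linarith
  have hlogY0 : 0 < Real.log Y := by linarith
  have hWs : (X : ℝ) ^ (1 / 2 : ℝ) ≤ W := by
    refine le_trans ?_ hW
    exact le_mul_of_one_le_right hsX.le (one_le_pow₀ hL1)
  have hW0 : (0 : ℝ) < W := by linarith
  have hW1 : 1 ≤ W := by
    have : (0 : ℝ) < W := hW0
    exact_mod_cast this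
  have hYY0 : Y₀ ≤ Y := by
    have h1 : ((Y₀ : ℝ)) ≤ (X : ℝ) ^ (1 / 2 : ℝ) := by
      rw [← Real.sqrt_eq_rpow]
      exact Real.le_sqrt_of_sq_le (by exact_mod_cast hX0)
    exact_mod_cast h1.trans hYs
  -- the parameters
  have hJ1 : L ^ (A + 3) ≤ (⌈L ^ (A + 3)⌉₊ : ℝ) := Nat.le_ceil _
  have hJ2 : (⌈L ^ (A + 3)⌉₊ : ℝ) ≤ 2 * L ^ (A + 3) := by
    have h1 := (Nat.ceil_lt_add_one (show 0 ≤ L ^ (A + 3) by positivity)).le
    have h2 : (1 : ℝ) ≤ L ^ (A + 3) := one_le_pow₀ hL1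
    linarith
  have hJpos : 1 ≤ ⌈L ^ (A + 3)⌉₊ := Nat.ceil_pos.2 (by positivity)
  have hK1 : (Y : ℝ) / W * L ^ (3 * A + 8) ≤ (⌈(Y : ℝ) / W * L ^ (3 * A + 8)⌉₊ : ℝ) := Nat.le_ceil _
  have hKpos : 1 ≤ ⌈(Y : ℝ) / W * L ^ (3 * A + 8)⌉₊ := Nat.ceil_pos.2 (by positivity)
  have hK2 : (⌈(Y : ℝ) / W * L ^ (3 * A + 8)⌉₊ : ℝ) ≤ (Y : ℝ) ^ (1 / 2 : ℝ) := by
    have h1 := (Nat.ceil_lt_add_one (show 0 ≤ (Y : ℝ) / W * L ^ (3 * A + 8) by positivity)).le
    refine h1.trans ?_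
    have hsY : (0 : ℝ) < (Y : ℝ) ^ (1 / 2 : ℝ) := Real.rpow_pos_of_pos hY0' _
    have hYY : (Y : ℝ) ^ (1 / 2 : ℝ) * (Y : ℝ) ^ (1 / 2 : ℝ) = Y := by
      rw [← Real.rpow_add hY0']
      norm_num
    have h2 : (Y : ℝ) ^ (1 / 2 : ℝ) * L ^ (3 * A + 9) ≤ W := by
      refine le_trans ?_ hW
      exact mul_le_mul_of_nonneg_right (Real.rpow_le_rpow hY0'.le hYXR (by norm_num)) (by positivity)
    have h3 : (Y : ℝ) / W * L ^ (3 * A + 8) ≤ (Y : ℝ) ^ (1 / 2 : ℝ) / L := by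
      rw [div_mul_eq_mul_div, div_le_div_iff₀ hW0 hL0]
      calc (Y : ℝ) * L ^ (3 * A + 8) * L
          = (Y : ℝ) ^ (1 / 2 : ℝ) * ((Y : ℝ) ^ (1 / 2 : ℝ) * L ^ (3 * A + 9)) := by
            rw [← mul_assoc, hYY]
            ring
        _ ≤ (Y : ℝ) ^ (1 / 2 : ℝ) * W := mul_le_mul_of_nonneg_left h2 hsY.le
    have h4 : (Y : ℝ) ^ (1 / 2 : ℝ) / L ≤ (Y : ℝ) ^ (1 / 2 : ℝ) / 2 :=
      div_le_div_of_nonneg_left hsY.le (by norm_num) (by linarith)
    have h5 : (2 : ℝ) ≤ (Y : ℝ) ^ (1 / 2 : ℝ) := by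
      rw [← Real.sqrt_eq_rpow]
      apply Real.le_sqrt_of_sq_le
      have : (320 : ℝ) ≤ Y := by
        refine le_trans ?_ (c4.trans hYs)
        linarith
      linarith
    linarith
  -- the modulus
  have hqY : (q : ℝ) ≤ Real.log Y ^ (B + 1) := by
    calc (q : ℝ) ≤ L ^ B := hqL
      _ = 2 ^ B * (L / 2) ^ B := by rw [← mul_pow]; congr 1; ring
      _ ≤ Real.log Y * Real.log Y ^ B := by
          apply mul_le_mul _ (pow_le_pow_left₀ (by positivity) hlogY B) (by positivity) hlogY0.le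
          rw [pow_succ] at hLB
          linarith
      _ = Real.log Y ^ (B + 1) := by ring
  have hsum := hfr Y hYY0 q r hq hqY hcop _ hK2
  -- apply the window inequality
  have hP0 : 0 ≤ L + 4 := by linarith
  have hab : ∀ n, ‖(fun n => if n ≤ 3 * Y then pdev q r n else 0) n‖ ≤ L + 4 := by
    intro n
    simp only
    split_ifs with hn
    · refine (pdev_norm q r n (3 * X) hq (hn.trans (by omega))).trans ?_
      push_cast
      rw [Real.log_mul (by norm_num) (by linarith)]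
      have h3 : Real.log 3 ≤ 3 - 1 := Real.log_le_sub_one_of_pos (by norm_num)
      linarith
    · rw [norm_zero]
      exact hP0
  have hw := hwin Y W _ _ (L + 4) (fun n => if n ≤ 3 * Y then pdev q r n else 0) hJpos hW1 hWY hKpos
    hP0 hab
  have e1 : ∑ u ∈ Ico Y (2 * Y), ‖∑ n ∈ Ioc u (u + W), pdev q r n‖ ^ 2 =
      ∑ u ∈ Ico Y (2 * Y), ‖∑ n ∈ Ioc u (u + W),
        (fun n => if n ≤ 3 * Y then pdev q r n else 0) n‖ ^ 2 := by
    apply sum_congr rfl
    intro u hu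
    congr 2
    apply sum_congr rfl
    intro n hn
    rw [mem_Ico] at hu
    rw [mem_Ioc] at hn
    simp only
    rw [if_pos (by omega)]
  have e2 : ∀ k, DP (Ioc Y (3 * Y)) (fun n => if n ≤ 3 * Y then pdev q r n else 0) k =
      DP (Ioc Y (3 * Y)) (pdev q r) k := by
    intro k
    unfold DP
    apply sum_congr rfl
    intro n hn
    rw [mem_Ioc] at hn
    simp only
    rw [if_pos hn.2]
  rw [e1]
  refine hw.trans ?_
  simp only [e2]
  exact arith C L Y W _ _ _ (L + 4) (Real.log Y) A hC hL hL4 hY1 (c4.trans hWs)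
    (by
      calc 80 * C * L ^ (A + 2) ≤ X := c5
        _ = (X : ℝ) ^ (1 / 2 : ℝ) * (X : ℝ) ^ (1 / 2 : ℝ) := hss.symm
        _ ≤ W * W := mul_le_mul hWs hWs hsX.le hW0.le
        _ = (W : ℝ) ^ 2 := by ring)
    hJ1 hJ2 hK1 hP0 (by linarith) hlogY hsum

theorem main : S_WIN → S_FR2 → S_SIL2 := by
  rintro ⟨C, hC, hwin⟩ hFR A B
  obtain ⟨Y₀, hfr⟩ := hFR (A + 1) (B + 1)
  obtain ⟨XA, hA⟩ := caseA B (2 * A + 5)
  obtain ⟨X₁, hX₁⟩ := Filter.eventually_atTop.1 ((ev_log (320 * C * 2 ^ (A + 1))).and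
    ((ev_log 4).and ((ev_log (2 ^ (B + 1))).and ((ev_pow (A + 4) (1 / 2) 1 (by norm_num)).and
    ((ev_pow 0 (1 / 2) (320 * C) (by norm_num)).and
    (ev_pow (A + 2) 1 (80 * C) (by norm_num)))))))
  refine ⟨3 * A + 9, max X₁ (max XA (max (Y₀ ^ 2) 3)), fun X hX q r hq hqL hcop W hW hWX => ?_⟩
  obtain ⟨hL, hL4, hLB, c2, c4, c5⟩ := hX₁ X (le_trans (le_max_left _ _) hX)
  have hXA : XA ≤ X := le_trans (le_trans (le_max_left _ _) (le_max_right _ _)) hX
  have hX0 : Y₀ ^ 2 ≤ X :=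
    le_trans (le_trans (le_trans (le_max_left _ _) (le_max_right _ _)) (le_max_right _ _)) hX
  have hX3 : 3 ≤ X :=
    le_trans (le_trans (le_trans (le_max_right _ _) (le_max_right _ _)) (le_max_right _ _)) hX
  rw [one_mul] at c2
  rw [pow_zero, mul_one] at c4
  rw [Real.rpow_one] at c5
  set L := Real.log X with hLdef
  have hXR : (3 : ℝ) ≤ X := by exact_mod_cast hX3
  have hX0' : (0 : ℝ) < X := by linarith
  have hX1 : (1 : ℝ) ≤ X := by linarith
  have hL0 : 0 < L := by linarith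
  have hL1 : 1 ≤ L := by linarith
  have hLA : 0 < L ^ A := by positivity
  have hLA1 : 1 ≤ L ^ A := one_le_pow₀ hL1
  by_cases hcase : (X : ℝ) / L ^ (A + 4) ≤ W
  · have hterm : ∀ u ∈ range X, ‖∑ n ∈ Ioc u (u + W), pdev q r n‖ ^ 2 ≤ (W : ℝ) ^ 2 / L ^ A := by
      intro u hu
      have h1 := hA X hXA q r hq hqL hcop u W (mem_range.1 hu) hWX
      have h2 : 4 * (X : ℝ) / L ^ (2 * A + 5) ≤ W / L ^ A := by
        rw [div_le_iff₀ (by positivity)] at hcase
        rw [div_le_div_iff₀ (by positivity) hLA]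
        calc 4 * (X : ℝ) * L ^ A ≤ 4 * (W * L ^ (A + 4)) * L ^ A := by gcongr
          _ = (W * L ^ (2 * A + 4)) * 4 := by ring
          _ ≤ (W * L ^ (2 * A + 4)) * L := mul_le_mul_of_nonneg_left hL4 (by positivity)
          _ = W * L ^ (2 * A + 5) := by ring
      calc ‖∑ n ∈ Ioc u (u + W), pdev q r n‖ ^ 2 ≤ (W / L ^ A) ^ 2 :=
            pow_le_pow_left₀ (norm_nonneg _) (h1.trans h2) 2
        _ = (W : ℝ) ^ 2 / (L ^ A * L ^ A) := by rw [div_pow]; ring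
        _ ≤ (W : ℝ) ^ 2 / L ^ A := by
            apply div_le_div_of_nonneg_left (by positivity) hLA
            nlinarith
    refine (sum_le_card_nsmul _ _ _ hterm).trans ?_
    rw [card_range, nsmul_eq_mul]
    exact le_of_eq (by ring)
  · rw [not_le] at hcase
    have hD0 : 0 < L ^ (A + 4) := by positivity
    have hXD : (1 : ℝ) ≤ (X : ℝ) / L ^ (A + 4) := by
      rw [one_le_div hD0]
      refine c2.trans ?_
      calc (X : ℝ) ^ (1 / 2 : ℝ) ≤ (X : ℝ) ^ (1 : ℝ) :=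
            Real.rpow_le_rpow_of_exponent_le hX1 (by norm_num)
        _ = X := Real.rpow_one _
    set y0 := ⌈(X : ℝ) / L ^ (A + 4)⌉₊ with hy0
    have hy1 : (X : ℝ) / L ^ (A + 4) ≤ y0 := Nat.le_ceil _
    have hy2 : (y0 : ℝ) ≤ 2 * ((X : ℝ) / L ^ (A + 4)) := by
      have h1 := (Nat.ceil_lt_add_one (show 0 ≤ (X : ℝ) / L ^ (A + 4) by positivity)).le
      linarith
    have hy3 : y0 ≤ X := by
      rw [hy0, Nat.ceil_le]
      exact div_le_self hX0'.le (one_le_pow₀ hL1)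
    have hypos : 1 ≤ y0 := Nat.ceil_pos.2 (by positivity)
    have hWy0 : W ≤ y0 := by
      have : (W : ℝ) ≤ y0 := hcase.le.trans hy1
      exact_mod_cast this
    have hex : ∃ J : ℕ, X ≤ 2 ^ J * y0 := by
      refine ⟨X, ?_⟩
      have h1 : X < 2 ^ X := Nat.lt_two_pow_self
      nlinarith
    set J := Nat.find hex with hJdef
    have hJ : X ≤ 2 ^ J * y0 := Nat.find_spec hex
    have hJm : ∀ j < J, 2 ^ j * y0 < X := fun j hj => not_le.1 (Nat.find_min hex hj)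
    have hsumY : ∑ j ∈ range J, ((2 ^ j * y0 : ℕ) : ℝ) ≤ 2 * X := by
      rcases Nat.eq_zero_or_pos J with h | h
      · rw [h]
        simp
      · obtain ⟨J', hJ'⟩ : ∃ J', J = J' + 1 := ⟨J - 1, by omega⟩
        have h1 := geom y0 J
        have h2 := hJm J' (by omega)
        have h3 : 2 ^ J * y0 = 2 * (2 ^ J' * y0) := by rw [hJ']; ring
        have h4 : ∑ j ∈ range J, 2 ^ j * y0 ≤ 2 * X := by omega
        exact_mod_cast h4
    have hfirst : ∑ u ∈ range y0, ‖∑ n ∈ Ioc u (u + W), pdev q r n‖ ^ 2 ≤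
        X * (W : ℝ) ^ 2 / (2 * L ^ A) := by
      have hterm : ∀ u ∈ range y0, ‖∑ n ∈ Ioc u (u + W), pdev q r n‖ ^ 2 ≤
          4 * (W : ℝ) ^ 2 * L ^ 2 := by
        intro u hu
        rw [mem_range] at hu
        have h1 := window_norm q r u W (2 * X) hq (by omega)
        have h2 : Real.log ((2 * X : ℕ) : ℝ) + 1 ≤ 2 * L := by
          push_cast
          rw [Real.log_mul (by norm_num) (by linarith)]
          have h3 : Real.log 2 ≤ 2 - 1 := Real.log_le_sub_one_of_pos (by norm_num)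
          linarith
        have h4 : ‖∑ n ∈ Ioc u (u + W), pdev q r n‖ ≤ W * (2 * L) :=
          h1.trans (mul_le_mul_of_nonneg_left h2 (Nat.cast_nonneg _))
        calc ‖∑ n ∈ Ioc u (u + W), pdev q r n‖ ^ 2 ≤ (W * (2 * L)) ^ 2 :=
              pow_le_pow_left₀ (norm_nonneg _) h4 2
          _ = 4 * (W : ℝ) ^ 2 * L ^ 2 := by ring
      refine (sum_le_card_nsmul _ _ _ hterm).trans ?_
      rw [card_range, nsmul_eq_mul]
      calc (y0 : ℝ) * (4 * (W : ℝ) ^ 2 * L ^ 2)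
          ≤ 2 * ((X : ℝ) / L ^ (A + 4)) * (4 * (W : ℝ) ^ 2 * L ^ 2) := by gcongr
        _ = X * (W : ℝ) ^ 2 / (2 * L ^ A) * (16 / L ^ 2) := by
            field_simp
            ring
        _ ≤ X * (W : ℝ) ^ 2 / (2 * L ^ A) * 1 := by
            apply mul_le_mul_of_nonneg_left _ (by positivity)
            rw [div_le_one (by positivity)]
            nlinarith
        _ = X * (W : ℝ) ^ 2 / (2 * L ^ A) := mul_one _
    have hrest : ∑ j ∈ range J, ∑ u ∈ Ico (2 ^ j * y0) (2 * (2 ^ j * y0)),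
        ‖∑ n ∈ Ioc u (u + W), pdev q r n‖ ^ 2 ≤ X * (W : ℝ) ^ 2 / (2 * L ^ A) := by
      have hterm : ∀ j ∈ range J, ∑ u ∈ Ico (2 ^ j * y0) (2 * (2 ^ j * y0)),
          ‖∑ n ∈ Ioc u (u + W), pdev q r n‖ ^ 2 ≤
          ((2 ^ j * y0 : ℕ) : ℝ) * ((W : ℝ) ^ 2 / (4 * L ^ A)) := by
        intro j hj
        rw [mem_range] at hj
        have hge : y0 ≤ 2 ^ j * y0 := Nat.le_mul_of_pos_left _ (by positivity)
        have h1 := rangeB A B C hC hwin Y₀ hfr X hX3 hX0 hL hL4 hLB c2 c4 c5 q r hq hqL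
          hcop W hW (2 ^ j * y0) (hJm j hj) (hy1.trans (by exact_mod_cast hge)) (hWy0.trans hge)
        refine h1.trans (le_of_eq ?_)
        ring
      refine (sum_le_sum hterm).trans ?_
      rw [← sum_mul]
      calc (∑ j ∈ range J, ((2 ^ j * y0 : ℕ) : ℝ)) * ((W : ℝ) ^ 2 / (4 * L ^ A))
          ≤ 2 * X * ((W : ℝ) ^ 2 / (4 * L ^ A)) :=
            mul_le_mul_of_nonneg_right hsumY (by positivity)
        _ = X * (W : ℝ) ^ 2 / (2 * L ^ A) := by
            field_simp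
            ring
    calc ∑ u ∈ range X, ‖∑ n ∈ Ioc u (u + W), pdev q r n‖ ^ 2
        ≤ ∑ u ∈ range (2 ^ J * y0), ‖∑ n ∈ Ioc u (u + W), pdev q r n‖ ^ 2 := by
          apply sum_le_sum_of_subset_of_nonneg
          · exact range_mono hJ
          · intro _ _ _
            positivity
      _ = _ := cover _ y0 J
      _ ≤ X * (W : ℝ) ^ 2 / (2 * L ^ A) + X * (W : ℝ) ^ 2 / (2 * L ^ A) :=
          add_le_add hfirst hrest
      _ = X * (W : ℝ) ^ 2 / L ^ A := by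
          field_simp
          norm_num

end Pool.Agent.helper24_UT.Sil2
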