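import Pool.Agent.H43.G.R_pool_sql_team_seeded_620a6dc7.helper24_UT_.Stm7

set_option autoImplicit false

namespace Pool.Agent.helper24_UT.Ut3

open Finset
open Pool.Agent.helper24_UT
open Pool.Agent.H376R2.MR (ch er DP FK)
open Pool.Agent.H373R2.T7 (lamI lamzI lamz Vz pz)

lemma NN_nonneg (a : ℤ → ℝ) (u : ℤ) (W q : ℕ) : 0 ≤ NN a u W q :=
  sum_nonneg (fun _ _ => sq_nonneg _)

lemma NN_le (a : ℤ → ℝ) (P : ℝ) (ha : ∀ m, |a m| ≤ P) (u : ℤ) (W q : ℕ) :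
    NN a u W q ≤ q * (P * W) ^ 2 := by
  have hP : 0 ≤ P := (abs_nonneg _).trans (ha 0)
  unfold NN
  refine (sum_le_card_nsmul (range q) _ ((P * W) ^ 2) ?_).trans (by simp)
  intro r _
  rw [← sq_abs]
  apply pow_le_pow_left₀ (abs_nonneg _)
  refine (abs_sum_le_sum_abs _ _).trans ?_
  refine (sum_le_card_nsmul _ _ P (fun m _ => ha m)).trans ?_
  rw [nsmul_eq_mul, mul_comm]
  apply mul_le_mul_of_nonneg_left _ hP
  have h1 : ((Ioc u (u + W)).filter (fun m => m % (q : ℤ) = (r : ℤ))).card ≤ W := by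
    refine (card_filter_le _ _).trans ?_
    rw [Int.card_Ioc]
    omega
  exact_mod_cast h1

lemma NN_congr {a a' : ℤ → ℝ} {u : ℤ} {W : ℕ} (h : ∀ m, u < m → m ≤ u + W → a m = a' m) (q : ℕ) :
    NN a u W q = NN a' u W q := by
  unfold NN
  apply sum_congr rfl
  intro r _
  congr 1
  apply sum_congr rfl
  intro m hm
  rw [mem_filter, mem_Ioc] at hm
  exact h m hm.1.1 hm.1.2

lemma NN_zero {a : ℤ → ℝ} {u : ℤ} {W : ℕ} (h : ∀ m, u < m → m ≤ u + W → a m = 0) (q : ℕ) :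
    NN a u W q = 0 := by
  unfold NN
  apply sum_eq_zero
  intro r _
  rw [sum_eq_zero]
  · norm_num
  · intro m hm
    rw [mem_filter, mem_Ioc] at hm
    exact h m hm.1.1 hm.1.2

lemma sum_Ico_cast (X : ℕ) (h : ℤ → ℝ) : ∑ u ∈ Ico (0 : ℤ) X, h u = ∑ u ∈ range X, h (u : ℤ) := by
  symm
  apply sum_bij (fun (u : ℕ) _ => (u : ℤ))
  · intro u hu
    rw [mem_range] at hu
    rw [mem_Ico]
    omega
  · intro a _ b _ hab
    exact_mod_cast hab
  · intro u hu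
    rw [mem_Ico] at hu
    refine ⟨u.toNat, ?_, ?_⟩
    · rw [mem_range]; omega
    · exact Int.toNat_of_nonneg hu.1
  · intro u _
    rfl

/-- the sum over the windows -/
lemma M_bound (X W d : ℕ) (P Q : ℝ) (a E : ℤ → ℝ) (hP : ∀ m, |a m| ≤ P)
    (ha : ∀ m : ℤ, 0 < m → m ≤ 2 * X → a m = E m) (ha0 : ∀ m : ℤ, m ≤ 0 → a m = 0) (hW : W ≤ X)
    (hQ : ∑ u ∈ range X, NN E (u : ℤ) W d ≤ Q) :
    ∑ u ∈ Icc (-(X : ℤ)) X, NN a u W d ≤ Q + (W + 1) * (d * (P * W) ^ 2) := by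
  have key : ∀ u ∈ Icc (-(X : ℤ)) X, NN a u W d ≤
      (if u ∈ Ico (0 : ℤ) X then NN E u W d else 0) +
      (if u ∈ insert (X : ℤ) (Ioo (-(W : ℤ)) 0) then (d : ℝ) * (P * W) ^ 2 else 0) := by
    intro u hu
    rw [mem_Icc] at hu
    have hd0 : (0 : ℝ) ≤ (d : ℝ) * (P * W) ^ 2 := by positivity
    by_cases h1 : u ∈ Ico (0 : ℤ) X
    · rw [if_pos h1]
      rw [mem_Ico] at h1
      have e1 : NN a u W d = NN E u W d := by
        apply NN_congr
        intro m hm1 hm2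
        apply ha m (by omega) (by omega)
      rw [e1]
      have : (0 : ℝ) ≤ (if u ∈ insert (X : ℤ) (Ioo (-(W : ℤ)) 0) then (d : ℝ) * (P * W) ^ 2 else 0) := by
        split_ifs <;> positivity
      linarith
    · rw [if_neg h1, zero_add]
      by_cases h2 : u ∈ insert (X : ℤ) (Ioo (-(W : ℤ)) 0)
      · rw [if_pos h2]
        exact NN_le a P hP u W d
      · rw [if_neg h2]
        rw [mem_insert, mem_Ioo] at h2
        rw [mem_Ico] at h1
        rw [NN_zero]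
        intro m hm1 hm2
        apply ha0
        by_contra hm
        push Not at h1 h2 hm
        by_cases hu0 : 0 ≤ u
        · have := h1 hu0
          exact h2.1 (by omega)
        · have := h2.2 (by omega)
          omega
  refine (sum_le_sum key).trans ?_
  rw [sum_add_distrib]
  apply add_le_add
  · rw [sum_ite_mem]
    refine le_trans ?_ hQ
    rw [← sum_Ico_cast X (fun u => NN E u W d)]
    apply sum_le_sum_of_subset_of_nonneg inter_subset_right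
    intro u _ _
    exact NN_nonneg _ _ _ _
  · rw [sum_ite_mem, sum_const, nsmul_eq_mul]
    apply mul_le_mul_of_nonneg_right _ (by positivity)
    have h3 : (Icc (-(X : ℤ)) X ∩ insert (X : ℤ) (Ioo (-(W : ℤ)) 0)).card ≤ W + 1 := by
      refine (card_le_card inter_subset_right).trans ?_
      refine (card_insert_le _ _).trans ?_
      rw [Int.card_Ioo]
      omega
    exact_mod_cast h3

/-- the pairs -/
lemma pairs (T : ℕ) (V : ℕ → ℕ → ℝ) (K Z S : ℝ) (R : ℕ → ℝ) (hK : 0 ≤ K) (hS : 0 ≤ S) (hZ : 0 ≤ Z)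
    (hR : ∀ q, 0 ≤ R q) (hV : ∀ n n', n ∈ Icc 1 T → n' ∈ Icc 1 T → |V n n'| ≤ K)
    (hsym : ∀ n n', V n n' = V n' n)
    (h : ∀ n n' : ℕ, 1 ≤ n' → n' < n → n ≤ T → Z < n' → Z < (n : ℝ) - n' → |V n n'| ≤ R (n - n') + S) :
    ∑ n ∈ Icc 1 T, ∑ n' ∈ Icc 1 T, |V n n'| ≤
      T * K + 2 * (2 * K * T * Z + T * ∑ q ∈ Icc 1 T, R q + T ^ 2 * S) := by
  set U : ℕ → ℕ → ℝ := fun m q => (if (m : ℝ) ≤ Z then K else 0) + (if (q : ℝ) ≤ Z then K else 0) + R q + S with hU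
  have hU0 : ∀ m q, 0 ≤ U m q := by
    intro m q
    have h1 := hR q
    rw [hU]
    dsimp only
    split_ifs <;> linarith
  have hpair : ∀ n n' : ℕ, 1 ≤ n' → n' < n → n ≤ T → |V n n'| ≤ U n' (n - n') := by
    intro n n' h1 h2 h3
    have h0 := hV n n' (by rw [mem_Icc]; omega) (by rw [mem_Icc]; omega)
    have hr := hR (n - n')
    have hc : ((n - n' : ℕ) : ℝ) = (n : ℝ) - n' := by
      rw [Nat.cast_sub h2.le]
    rw [hU]
    dsimp only
    rw [hc]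
    by_cases c1 : (n' : ℝ) ≤ Z
    · rw [if_pos c1]
      split_ifs <;> linarith
    · by_cases c2 : (n : ℝ) - n' ≤ Z
      · rw [if_pos c2]
        split_ifs
        linarith
      · rw [if_neg c1, if_neg c2]
        push Not at c1 c2
        have := h n n' h1 h2 h3 c1 c2
        linarith
  have hpt : ∀ n ∈ Icc 1 T, ∀ n' ∈ Icc 1 T, |V n n'| ≤ (if n = n' then K else 0) +
      (if n' < n then U n' (n - n') else 0) + (if n < n' then U n (n' - n) else 0) := by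
    intro n hn n' hn'
    have h0 := hV n n' hn hn'
    rw [mem_Icc] at hn hn'
    rcases lt_trichotomy n n' with h1 | h1 | h1
    · rw [if_neg (by omega), if_neg (by omega), if_pos h1, hsym n n']
      have := hpair n' n hn.1 h1 hn'.2
      linarith
    · rw [if_pos h1, if_neg (by omega), if_neg (by omega)]
      linarith
    · rw [if_neg (by omega), if_pos h1, if_neg (by omega)]
      have := hpair n n' hn'.1 h1 hn.2
      linarith
  have hhalf : ∑ n ∈ Icc 1 T, ∑ n' ∈ Icc 1 T, (if n < n' then U n (n' - n) else 0) ≤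
      2 * K * T * Z + T * ∑ q ∈ Icc 1 T, R q + T ^ 2 * S := by
    have e1 : ∀ n ∈ Icc 1 T, ∑ n' ∈ Icc 1 T, (if n < n' then U n (n' - n) else 0) ≤
        ∑ q ∈ Icc 1 T, U n q := by
      intro n hn
      rw [mem_Icc] at hn
      rw [← sum_filter]
      have e2 : ∑ n' ∈ (Icc 1 T).filter (fun n' => n < n'), U n (n' - n) =
          ∑ q ∈ ((Icc 1 T).filter (fun n' => n < n')).image (fun n' => n' - n), U n q := by
        rw [sum_image]
        intro x hx y hy hxy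
        simp only [coe_filter, mem_Icc, Set.mem_ofPred_eq] at hx hy
        dsimp only at hxy
        omega
      rw [e2]
      apply sum_le_sum_of_subset_of_nonneg
      · intro q hq
        rw [mem_image] at hq
        obtain ⟨n', hn', rfl⟩ := hq
        rw [mem_filter, mem_Icc] at hn'
        rw [mem_Icc]
        omega
      · intro q _ _
        exact hU0 _ _
    refine (sum_le_sum e1).trans ?_
    have hcnt : ∑ q ∈ Icc 1 T, (if (q : ℝ) ≤ Z then K else 0) ≤ K * Z := by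
      rw [← sum_filter, sum_const, nsmul_eq_mul, mul_comm]
      apply mul_le_mul_of_nonneg_left _ hK
      have h1 : (Icc 1 T).filter (fun q : ℕ => (q : ℝ) ≤ Z) ⊆ Icc 1 ⌊Z⌋₊ := by
        intro q hq
        rw [mem_filter, mem_Icc] at hq
        rw [mem_Icc]
        exact ⟨hq.1.1, Nat.le_floor hq.2⟩
      have h2 := card_le_card h1
      rw [Nat.card_Icc] at h2
      have h3 : (((Icc 1 T).filter (fun q : ℕ => (q : ℝ) ≤ Z)).card : ℝ) ≤ (⌊Z⌋₊ : ℝ) := by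
        exact_mod_cast (by omega : ((Icc 1 T).filter (fun q : ℕ => (q : ℝ) ≤ Z)).card ≤ ⌊Z⌋₊)
      exact h3.trans (Nat.floor_le hZ)
    have e3 : ∑ n ∈ Icc 1 T, ∑ q ∈ Icc 1 T, U n q = T * ∑ q ∈ Icc 1 T, (if (q : ℝ) ≤ Z then K else 0) +
        T * ∑ q ∈ Icc 1 T, (if (q : ℝ) ≤ Z then K else 0) + T * ∑ q ∈ Icc 1 T, R q + T ^ 2 * S := by
      rw [hU]
      simp only [sum_add_distrib, sum_const, Nat.card_Icc, Nat.add_sub_cancel, nsmul_eq_mul]
      rw [← mul_sum]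
      ring
    rw [e3]
    have hT0 : (0 : ℝ) ≤ T := Nat.cast_nonneg T
    have := mul_le_mul_of_nonneg_left hcnt hT0
    nlinarith
  have hhalf' : ∑ n ∈ Icc 1 T, ∑ n' ∈ Icc 1 T, (if n' < n then U n' (n - n') else 0) ≤
      2 * K * T * Z + T * ∑ q ∈ Icc 1 T, R q + T ^ 2 * S := by
    rw [sum_comm]
    exact hhalf
  have hdiag : ∑ n ∈ Icc 1 T, ∑ n' ∈ Icc 1 T, (if n = n' then K else 0) ≤ T * K := by
    have : ∀ n ∈ Icc 1 T, ∑ n' ∈ Icc 1 T, (if n = n' then K else 0) = K := by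
      intro n hn
      rw [sum_ite_eq, if_pos hn]
    rw [sum_congr rfl this, sum_const, Nat.card_Icc, Nat.add_sub_cancel, nsmul_eq_mul]
  have hall := sum_le_sum (fun n hn => sum_le_sum (fun n' hn' => hpt n hn n' hn'))
  simp only [sum_add_distrib] at hall
  linarith

/-- expanding the square -/
lemma expand (Q R T : ℕ) (a : ℤ → ℝ) (g : ℕ → ℤ) (w : ℕ → ℝ) (hw : ∀ n, |w n| ≤ 1) :
    ∑ b ∈ Icc 1 Q, ∑ c ∈ Icc 1 R, (∑ n ∈ Icc 1 T, w n * a ((b : ℤ) * n + c + g n)) ^ 2 ≤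
    ∑ n ∈ Icc 1 T, ∑ n' ∈ Icc 1 T, |∑ b ∈ Icc 1 Q, ∑ c ∈ Icc 1 R,
      a ((b : ℤ) * n + c + g n) * a ((b : ℤ) * n' + c + g n')| := by
  have e1 : ∑ b ∈ Icc 1 Q, ∑ c ∈ Icc 1 R, (∑ n ∈ Icc 1 T, w n * a ((b : ℤ) * n + c + g n)) ^ 2 =
      ∑ n ∈ Icc 1 T, ∑ n' ∈ Icc 1 T, (w n * w n') * ∑ b ∈ Icc 1 Q, ∑ c ∈ Icc 1 R,
      a ((b : ℤ) * n + c + g n) * a ((b : ℤ) * n' + c + g n') := by
    simp_rw [sq, sum_mul_sum, mul_sum]
    rw [← sum_product' (Icc 1 Q) (Icc 1 R)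
      (f := fun b c => ∑ n ∈ Icc 1 T, ∑ n' ∈ Icc 1 T,
        w n * a ((b : ℤ) * n + c + g n) * (w n' * a ((b : ℤ) * n' + c + g n')))]
    rw [sum_comm]
    apply sum_congr rfl
    intro n _
    rw [sum_comm]
    apply sum_congr rfl
    intro n' _
    rw [sum_product]
    apply sum_congr rfl
    intro b _
    apply sum_congr rfl
    intro c _
    ring
  rw [e1]
  apply sum_le_sum
  intro n _
  apply sum_le_sum
  intro n' _
  refine (le_abs_self _).trans ?_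
  rw [abs_mul, abs_mul]
  have h1 : |w n| * |w n'| ≤ 1 := mul_le_one₀ (hw n) (abs_nonneg _) (hw n')
  calc |w n| * |w n'| * _ ≤ 1 * _ := mul_le_mul_of_nonneg_right h1 (abs_nonneg _)
    _ = _ := one_mul _

/-- powers of the logarithm -/
lemma logpow (c δ : ℝ) (hδ : 0 < δ) (k : ℕ) : ∃ N0 : ℕ, ∀ N : ℕ, N0 ≤ N → c * Real.log N ^ k ≤ (N : ℝ) ^ δ := by
  have h1 := (isLittleO_log_rpow_rpow_atTop (s := δ) (k : ℝ) hδ).bound
    (show (0 : ℝ) < 1 / (|c| + 1) by positivity)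
  have h2 := (tendsto_natCast_atTop_atTop (R := ℝ)).eventually h1
  have h3 := (tendsto_natCast_atTop_atTop (R := ℝ)).eventually_ge_atTop 1
  obtain ⟨N0, h0⟩ := Filter.eventually_atTop.1 (h2.and h3)
  refine ⟨N0, fun N hN => ?_⟩
  obtain ⟨h4, h5⟩ := h0 N hN
  have h6 : 0 ≤ Real.log N := Real.log_nonneg h5
  rw [Real.rpow_natCast, Real.norm_of_nonneg (by positivity), Real.norm_of_nonneg (by positivity),
    one_div, inv_mul_eq_div, le_div_iff₀ (by positivity)] at h4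
  have h7 : c ≤ |c| := le_abs_self c
  have h8 : 0 ≤ Real.log N ^ k := by positivity
  nlinarith

lemma loglarge (c : ℝ) : ∃ N0 : ℕ, ∀ N : ℕ, N0 ≤ N → c ≤ Real.log N := by
  have h := (Real.tendsto_log_atTop.comp (tendsto_natCast_atTop_atTop (R := ℝ))).eventually_ge_atTop c
  obtain ⟨N0, h0⟩ := Filter.eventually_atTop.1 h
  exact ⟨N0, h0⟩


set_option maxHeartbeats 4000000 in
/-- the numbers -/
lemma numeric (CL CP Q R T W D X L P Y : ℝ) (A C1 kD : ℕ) (hCL : 1 ≤ CL) (hCP : 1 ≤ CP)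
    (hC1 : C1 = A + 4) (hkD : kD = C1 + A + 4) (hL : 115 * CP * CL ≤ L) (hP : P = 3 * L)
    (hT : L ^ (C1 + 2 * kD + A + 4) ≤ T) (hW1 : W * L ^ kD ≤ R) (hW2 : T * L ^ kD ≤ W) (hW3 : 1 ≤ W)
    (hD1 : D ≤ L ^ kD) (hD2 : L ^ kD ≤ 2 * D) (hX : X = 5 * Q * T) (hH : L ^ (A + 4) ≤ R) (hRQ : R ≤ Q)
    (hY : Y = X * W ^ 2 / L ^ (C1 + kD + A + 1) + (W + 1) * (D * (P * W) ^ 2)) :
    T * (P ^ 2 * (Q * R)) + 2 * (2 * (P ^ 2 * (Q * R)) * T * (T / L ^ C1) +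
      T * (CP * (R * L ^ C1 / (W ^ 2 * T)) * (T * (D * Y) + (2 * X + 1) * (CL * (T * W * P ^ 2 * (W / D + T))))) +
      T ^ 2 * (CP * (P ^ 2 * Q * (W * (L ^ C1 + 1) + 1)))) ≤ Q * R * T ^ 2 / L ^ A := by
  have hCC : 1 ≤ CP * CL := by nlinarith
  have hL9 : 9 ≤ L := by nlinarith
  have hL0 : 0 < L := by linarith
  have hL1 : 1 ≤ L := by linarith
  have hP3 : P ^ 2 ≤ L ^ 3 := by rw [hP]; nlinarith [sq_nonneg L]
  have hP0 : 0 < P := by rw [hP]; linarith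
  have hT1 : 1 ≤ T := (one_le_pow₀ hL1).trans hT
  have hR1 : 1 ≤ R := (one_le_pow₀ hL1).trans hH
  have hQ1 : 1 ≤ Q := hR1.trans hRQ
  have hT0 : 0 < T := by linarith
  have hR0 : 0 < R := by linarith
  have hQ0 : 0 < Q := by linarith
  have hW0 : 0 < W := by linarith
  have hLk1 : 1 ≤ L ^ kD := one_le_pow₀ hL1
  have hD0 : 0 < D := by linarith
  have hWR : W ≤ R := by nlinarith
  have hWQ : W ≤ Q := hWR.trans hRQ
  set Ω : ℝ := Q * R * T ^ 2 / L ^ (A + 1) with hΩ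
  have hΩ0 : 0 < Ω := by positivity
  have hk1 : P ^ 2 * L ^ (A + 1) ≤ L ^ (A + 4) := by
    calc P ^ 2 * L ^ (A + 1) ≤ L ^ 3 * L ^ (A + 1) := by gcongr
      _ = L ^ (A + 4) := by ring
  have hk2 : L ^ (A + 4) ≤ T := (pow_le_pow_right₀ hL1 (by omega)).trans hT
  have s1 : T * (P ^ 2 * (Q * R)) ≤ Ω := by
    rw [hΩ, le_div_iff₀ (by positivity)]
    calc T * (P ^ 2 * (Q * R)) * L ^ (A + 1) = (P ^ 2 * L ^ (A + 1)) * (T * (Q * R)) := by ring
      _ ≤ T * (T * (Q * R)) := by gcongr; linarith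
      _ = Q * R * T ^ 2 := by ring
  have s2 : (P ^ 2 * (Q * R)) * T * (T / L ^ C1) ≤ Ω := by
    have e1 : (P ^ 2 * (Q * R)) * T * (T / L ^ C1) = (P ^ 2 * (Q * R) * T ^ 2) / L ^ C1 := by
      field_simp
    rw [e1, hΩ, div_le_div_iff₀ (by positivity) (by positivity)]
    calc P ^ 2 * (Q * R) * T ^ 2 * L ^ (A + 1) = (P ^ 2 * L ^ (A + 1)) * (Q * R * T ^ 2) := by ring
      _ ≤ L ^ (A + 4) * (Q * R * T ^ 2) := by gcongr
      _ = Q * R * T ^ 2 * L ^ C1 := by rw [hC1]; ring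
  have s3 : T ^ 2 * (P ^ 2 * Q * (W * (L ^ C1 + 1) + 1)) ≤ 3 * Ω := by
    have e0 : (1 : ℝ) ≤ L ^ C1 := one_le_pow₀ hL1
    have e1 : W * (L ^ C1 + 1) * L ^ (A + 4) ≤ 2 * R := by
      calc W * (L ^ C1 + 1) * L ^ (A + 4) ≤ W * (L ^ C1 + L ^ C1) * L ^ (A + 4) := by gcongr
        _ = 2 * (W * L ^ kD) := by rw [hkD]; ring
        _ ≤ 2 * R := by linarith
    rw [hΩ, ← mul_div_assoc, le_div_iff₀ (by positivity)]
    calc T ^ 2 * (P ^ 2 * Q * (W * (L ^ C1 + 1) + 1)) * L ^ (A + 1)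
        = (P ^ 2 * L ^ (A + 1)) * (T ^ 2 * Q * (W * (L ^ C1 + 1) + 1)) := by ring
      _ ≤ L ^ (A + 4) * (T ^ 2 * Q * (W * (L ^ C1 + 1) + 1)) := by gcongr
      _ = T ^ 2 * Q * (W * (L ^ C1 + 1) * L ^ (A + 4) + L ^ (A + 4)) := by ring
      _ ≤ T ^ 2 * Q * (2 * R + R) := by gcongr
      _ = 3 * (Q * R * T ^ 2) := by ring
  have s4a : T * ((R * L ^ C1 / (W ^ 2 * T)) * (T * (D * Y))) ≤ 7 * Ω := by
    have e1 : T * ((R * L ^ C1 / (W ^ 2 * T)) * (T * (D * Y))) =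
        5 * (Q * R * T ^ 2) * (L ^ C1 * D) / L ^ (C1 + kD + A + 1) +
          R * T * (L ^ C1 * D ^ 2 * P ^ 2) * (W + 1) := by
      rw [hY, hX]
      field_simp
    have e2 : 5 * (Q * R * T ^ 2) * (L ^ C1 * D) / L ^ (C1 + kD + A + 1) ≤ 5 * Ω := by
      rw [hΩ, ← mul_div_assoc, div_le_div_iff₀ (by positivity) (by positivity)]
      calc 5 * (Q * R * T ^ 2) * (L ^ C1 * D) * L ^ (A + 1)
          ≤ 5 * (Q * R * T ^ 2) * (L ^ C1 * L ^ kD) * L ^ (A + 1) := by gcongr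
        _ = 5 * (Q * R * T ^ 2) * L ^ (C1 + kD + A + 1) := by ring
    have e3 : R * T * (L ^ C1 * D ^ 2 * P ^ 2) * (W + 1) ≤ 2 * Ω := by
      rw [hΩ, ← mul_div_assoc, le_div_iff₀ (by positivity)]
      have e4 : L ^ C1 * D ^ 2 * P ^ 2 * L ^ (A + 1) ≤ T := by
        calc L ^ C1 * D ^ 2 * P ^ 2 * L ^ (A + 1) = L ^ C1 * D ^ 2 * (P ^ 2 * L ^ (A + 1)) := by ring
          _ ≤ L ^ C1 * (L ^ kD) ^ 2 * L ^ (A + 4) := by gcongr
          _ = L ^ (C1 + 2 * kD + A + 4) := by ring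
          _ ≤ T := hT
      calc R * T * (L ^ C1 * D ^ 2 * P ^ 2) * (W + 1) * L ^ (A + 1)
          = R * T * (L ^ C1 * D ^ 2 * P ^ 2 * L ^ (A + 1)) * (W + 1) := by ring
        _ ≤ R * T * T * (Q + Q) := by gcongr
        _ = 2 * (Q * R * T ^ 2) := by ring
    rw [e1]
    linarith
  have s4b : T * ((R * L ^ C1 / (W ^ 2 * T)) * ((2 * X + 1) * (T * W * P ^ 2 * (W / D + T)))) ≤ 45 * Ω := by
    have e1 : T * ((R * L ^ C1 / (W ^ 2 * T)) * ((2 * X + 1) * (T * W * P ^ 2 * (W / D + T)))) =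
        R * T * L ^ C1 * P ^ 2 * (2 * X + 1) * (1 / D + T / W) := by
      field_simp
    have e2 : 1 / D ≤ 2 / L ^ kD := by
      rw [div_le_div_iff₀ hD0 (by positivity)]
      linarith
    have e3 : T / W ≤ 1 / L ^ kD := by
      rw [div_le_div_iff₀ hW0 (by positivity)]
      linarith
    have e4 : 2 * X + 1 ≤ 15 * Q * T := by
      rw [hX]; nlinarith
    have e5 : 0 ≤ 1 / D + T / W := by positivity
    rw [e1, hΩ]
    calc R * T * L ^ C1 * P ^ 2 * (2 * X + 1) * (1 / D + T / W)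
        ≤ R * T * L ^ C1 * P ^ 2 * (15 * Q * T) * (2 / L ^ kD + 1 / L ^ kD) := by gcongr
      _ = 45 * (Q * R * T ^ 2) * (L ^ C1 * P ^ 2) / L ^ kD := by field_simp; ring
      _ ≤ 45 * (Q * R * T ^ 2 / L ^ (A + 1)) := by
          rw [← mul_div_assoc, div_le_div_iff₀ (by positivity) (by positivity)]
          calc 45 * (Q * R * T ^ 2) * (L ^ C1 * P ^ 2) * L ^ (A + 1)
              = 45 * (Q * R * T ^ 2) * (L ^ C1 * (P ^ 2 * L ^ (A + 1))) := by ring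
            _ ≤ 45 * (Q * R * T ^ 2) * (L ^ C1 * L ^ (A + 4)) := by gcongr
            _ = 45 * (Q * R * T ^ 2) * L ^ kD := by rw [hkD]; ring
  have hfin : Q * R * T ^ 2 / L ^ A = L * Ω := by
    rw [hΩ, pow_succ L A, mul_div_assoc', mul_comm L (Q * R * T ^ 2), mul_div_mul_right _ _ hL0.ne']
  rw [hfin]
  have e6 : T * (P ^ 2 * (Q * R)) + 2 * (2 * (P ^ 2 * (Q * R)) * T * (T / L ^ C1) +
      T * (CP * (R * L ^ C1 / (W ^ 2 * T)) * (T * (D * Y) + (2 * X + 1) * (CL * (T * W * P ^ 2 * (W / D + T))))) +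
      T ^ 2 * (CP * (P ^ 2 * Q * (W * (L ^ C1 + 1) + 1)))) =
      T * (P ^ 2 * (Q * R)) + 4 * ((P ^ 2 * (Q * R)) * T * (T / L ^ C1)) +
      2 * CP * (T * ((R * L ^ C1 / (W ^ 2 * T)) * (T * (D * Y)))) +
      2 * (CP * CL) * (T * ((R * L ^ C1 / (W ^ 2 * T)) * ((2 * X + 1) * (T * W * P ^ 2 * (W / D + T))))) +
      2 * CP * (T ^ 2 * (P ^ 2 * Q * (W * (L ^ C1 + 1) + 1))) := by ring
  rw [e6]
  have e7 : 2 * CP * (T * ((R * L ^ C1 / (W ^ 2 * T)) * (T * (D * Y)))) ≤ 2 * CP * (7 * Ω) := by gcongr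
  have e8 : 2 * (CP * CL) * (T * ((R * L ^ C1 / (W ^ 2 * T)) * ((2 * X + 1) * (T * W * P ^ 2 * (W / D + T))))) ≤
      2 * (CP * CL) * (45 * Ω) := by gcongr
  have e9 : 2 * CP * (T ^ 2 * (P ^ 2 * Q * (W * (L ^ C1 + 1) + 1))) ≤ 2 * CP * (3 * Ω) := by gcongr
  have e10 : Ω + 4 * Ω + 2 * CP * (7 * Ω) + 2 * (CP * CL) * (45 * Ω) + 2 * CP * (3 * Ω) ≤ L * Ω := by
    have f1 : CP ≤ CP * CL := le_mul_of_one_le_right (by linarith) hCL
    have f2 : 115 * (CP * CL) ≤ L := by rw [← mul_assoc]; exact hL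
    have f3 : 5 + 20 * CP + 90 * (CP * CL) ≤ L := by linarith
    have f4 := mul_le_mul_of_nonneg_right f3 hΩ0.le
    refine le_trans (le_of_eq ?_) f4
    ring
  linarith

/-- the size of the windows -/
lemma windows (kD c Bx Q R T : ℕ) (L : ℝ) (hL9 : 9 ≤ L) (hLc : (3 : ℝ) ^ c ≤ L)
    (hQ : 1 ≤ Q) (hRQ : R ≤ Q) (hT0 : 1 ≤ T) (hT : (Q : ℝ) * T * L ^ Bx ≤ (R : ℝ) ^ 2)
    (hB : 2 * (kD + c + 2) ≤ Bx) :
    T * L ^ kD ≤ ⌊(R : ℝ) / L ^ kD⌋₊ ∧
    ((5 * Q * T : ℕ) : ℝ) ^ (1 / 2 : ℝ) * (3 * L) ^ c ≤ ⌊(R : ℝ) / L ^ kD⌋₊ ∧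
    L ^ Bx ≤ R ∧ T ≤ R := by
  have hL1 : 1 ≤ L := by linarith
  have hL0 : 0 < L := by linarith
  have hQ1 : (1 : ℝ) ≤ Q := by exact_mod_cast hQ
  have hQ0 : (0 : ℝ) < Q := by linarith
  have hRQr : (R : ℝ) ≤ Q := by exact_mod_cast hRQ
  have hT1 : (1 : ℝ) ≤ T := by exact_mod_cast hT0
  have hLB : (1 : ℝ) ≤ L ^ Bx := one_le_pow₀ hL1
  have hLk : (1 : ℝ) ≤ L ^ kD := one_le_pow₀ hL1
  have hLk0 : (0 : ℝ) < L ^ kD := by linarith
  have hR00 : (0 : ℝ) ≤ R := Nat.cast_nonneg R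
  have hTB : (T : ℝ) * L ^ Bx ≤ R := by
    have h1 : (Q : ℝ) * (T * L ^ Bx) ≤ Q * R := by
      calc (Q : ℝ) * (T * L ^ Bx) = Q * T * L ^ Bx := by ring
        _ ≤ (R : ℝ) ^ 2 := hT
        _ = R * R := by ring
        _ ≤ Q * R := by gcongr
    exact le_of_mul_le_mul_left h1 hQ0
  have hBR : L ^ Bx ≤ R := by
    refine le_trans ?_ hTB
    exact le_mul_of_one_le_left (by positivity) hT1
  have hTR : (T : ℝ) ≤ R := by
    refine le_trans ?_ hTB
    exact le_mul_of_one_le_right (by positivity) hLB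
  have hR1 : (1 : ℝ) ≤ R := hLB.trans hBR
  have hR0 : (0 : ℝ) < R := by linarith
  have hpw : ∀ k : ℕ, k + 1 ≤ Bx → L * L ^ k ≤ L ^ Bx := by
    intro k hk
    calc L * L ^ k = L ^ (k + 1) := by ring
      _ ≤ L ^ Bx := pow_le_pow_right₀ hL1 hk
  have hfl : (R : ℝ) / (2 * L ^ kD) ≤ ⌊(R : ℝ) / L ^ kD⌋₊ := by
    have h1 : (R : ℝ) / L ^ kD < ⌊(R : ℝ) / L ^ kD⌋₊ + 1 := Nat.lt_floor_add_one _
    have h2 : 2 ≤ (R : ℝ) / L ^ kD := by
      rw [le_div_iff₀ hLk0]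
      have := hpw kD (by omega)
      nlinarith
    have h3 : (R : ℝ) / (2 * L ^ kD) = (R : ℝ) / L ^ kD / 2 := by
      field_simp
    rw [h3]
    linarith
  refine ⟨?_, ?_, hBR, by exact_mod_cast hTR⟩
  · refine le_trans ?_ hfl
    rw [le_div_iff₀ (by positivity)]
    have h1 := hpw (kD + kD) (by omega)
    have h2 : (0 : ℝ) ≤ L ^ (kD + kD) := by positivity
    calc (T : ℝ) * L ^ kD * (2 * L ^ kD) = T * (2 * L ^ (kD + kD)) := by ring
      _ ≤ T * (L * L ^ (kD + kD)) := by gcongr; linarith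
      _ ≤ T * L ^ Bx := by gcongr
      _ ≤ R := hTB
  · refine le_trans ?_ hfl
    have hX : ((5 * Q * T : ℕ) : ℝ) * (L ^ (kD + c + 2)) ^ 2 ≤ 5 * (R : ℝ) ^ 2 := by
      push_cast
      have h1 : (L ^ (kD + c + 2)) ^ 2 ≤ L ^ Bx := by
        rw [← pow_mul]
        exact pow_le_pow_right₀ hL1 (by omega)
      calc (5 * Q * T : ℝ) * (L ^ (kD + c + 2)) ^ 2 ≤ (5 * Q * T : ℝ) * L ^ Bx := by gcongr
        _ = 5 * (Q * T * L ^ Bx) := by ring
        _ ≤ 5 * (R : ℝ) ^ 2 := by gcongr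
    rw [← Real.sqrt_eq_rpow]
    have hs0 : 0 ≤ Real.sqrt ((5 * Q * T : ℕ) : ℝ) := Real.sqrt_nonneg _
    have hs1 : Real.sqrt ((5 * Q * T : ℕ) : ℝ) * L ^ (kD + c + 2) ≤ 3 * R := by
      apply le_of_sq_le_sq _ (by positivity)
      rw [mul_pow, Real.sq_sqrt (by positivity)]
      refine hX.trans ?_
      nlinarith [sq_nonneg (R : ℝ)]
    rw [le_div_iff₀ (by positivity)]
    have h5 : (3 * L) ^ c * (2 * L ^ kD) * 3 ≤ L ^ (kD + c + 2) := by
      calc (3 * L) ^ c * (2 * L ^ kD) * 3 = 6 * (3 ^ c * L ^ (kD + c)) := by ring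
        _ ≤ L * (L * L ^ (kD + c)) := by
            gcongr
            linarith
        _ = L ^ (kD + c + 2) := by ring
    have h6 : Real.sqrt ((5 * Q * T : ℕ) : ℝ) * ((3 * L) ^ c * (2 * L ^ kD) * 3) ≤ 3 * R := by
      refine le_trans ?_ hs1
      gcongr
    nlinarith

/-- comparison of the powers of two logarithms -/
lemma cmp (e n : ℕ) (l L : ℝ) (hl : L ≤ e * l) (hL : 0 ≤ L) (he : (e : ℝ) ^ n ≤ l) (hl1 : 0 ≤ l) : L ^ n ≤ l ^ (n + 1) := by
  calc L ^ n ≤ (e * l) ^ n := by gcongr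
    _ = (e : ℝ) ^ n * l ^ n := mul_pow _ _ _
    _ ≤ l * l ^ n := by gcongr
    _ = l ^ (n + 1) := by ring

lemma Ed_zero (z : ℕ) (m : ℤ) (hm : m ≤ 0) : Ed z m = 0 := by
  unfold Ed lamI lamzI
  rw [if_neg (by omega), if_neg (by omega)]
  norm_num

lemma Ed_bound (z : ℕ) (m : ℤ) (L Y : ℝ) (hL : 0 ≤ L) (hm : (m : ℝ) ≤ Y) (hY : Real.log Y ≤ 3 * L)
    (hV : (Vz z)⁻¹ ≤ L) : |Ed z m| ≤ 3 * L := by
  unfold Ed
  have h1 : 0 ≤ lamI m := Pool.Agent.H373R2.T7.lamI_nonneg m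
  have h2 : 0 ≤ lamzI z m := Pool.Agent.H373R2.T7.lamzI_nonneg z m
  have h3 : lamI m ≤ 3 * L := by
    unfold lamI
    split_ifs with hc
    · refine ArithmeticFunction.vonMangoldt_le_log.trans (le_trans ?_ hY)
      apply Real.log_le_log
      · exact_mod_cast (by omega : 0 < m.toNat)
      · have e1 : ((m.toNat : ℤ) : ℝ) = (m : ℝ) := by
          rw [Int.toNat_of_nonneg (by omega)]
        have e2 : ((m.toNat : ℕ) : ℝ) = (m : ℝ) := by
          rw [← e1]; norm_cast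
        rw [e2]; exact hm
    · linarith
  have h4 : lamzI z m ≤ 3 * L := by
    unfold lamzI
    split_ifs with hc
    · unfold Pool.Agent.H373R2.T7.lamz
      split_ifs
      · linarith
      · linarith
    · linarith
  rw [abs_le]
  constructor <;> linarith

set_option maxHeartbeats 4000000 in
theorem main : S_LSQ → S_PAIR3 → S_SI2 → S_UT3 := by
  intro hLSQ hPAIR hSI e A he
  obtain ⟨CL, hCL, hLS⟩ := hLSQ
  obtain ⟨CP, hCP, hPR⟩ := hPAIR
  obtain ⟨C1, hC1⟩ : ∃ C1 : ℕ, C1 = A + 4 := ⟨_, rfl⟩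
  obtain ⟨kD, hkD⟩ : ∃ kD : ℕ, kD = C1 + A + 4 := ⟨_, rfl⟩
  obtain ⟨CC, E0', hSI'⟩ := hSI (C1 + kD + A + 2) (kD + 1)
  refine ⟨E0' + 1, C1 + 2 * kD + A + 4 + 2 * (kD + CC + 2), fun E1 => ?_⟩
  obtain ⟨Bx, hBx⟩ : ∃ Bx : ℕ, Bx = C1 + 2 * kD + A + 4 + 2 * (kD + CC + 2) := ⟨_, rfl⟩
  rw [← hBx]
  obtain ⟨X0, hX0⟩ := hSI' (E1 + 1)
  obtain ⟨N1, hN1⟩ := Pool.Agent.H373R2.T7.Vz_inv_small E1
  have her : (1 : ℝ) ≤ e := by exact_mod_cast he
  have her0 : (0 : ℝ) < e := by linarith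
  obtain ⟨N3, hN3⟩ := loglarge (max (115 * CP * CL) (max (3 ^ E0') (max 9 (max (3 ^ CC)
    (max ((e : ℝ) ^ (E1 + 1)) (max ((e : ℝ) ^ (kD + 1)) (max ((e : ℝ) ^ (C1 + kD + A + 2)) ((e : ℝ) * Real.log X0))))))))
  refine ⟨max (max N1 N3) 3, ?_⟩
  intro H hH Q R hRg T hT1 hT2 z hz1 hz2 g hg w hw
  obtain ⟨hR1, hRQ, hQH⟩ := hRg
  have hHN1 : N1 ≤ H := (le_trans (le_max_left _ _) (le_max_left _ _)).trans hH
  have hHN3 : N3 ≤ H := (le_trans (le_max_right _ _) (le_max_left _ _)).trans hH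
  have hH3 : 3 ≤ H := (le_max_right _ _).trans hH
  have hLbig := hN3 H hHN3
  set L := Real.log H with hLdef
  simp only [max_le_iff] at hLbig
  obtain ⟨hLa, hLb, hLc, hLd, hLe1, hLe2, hLe3, hLe4⟩ := hLbig
  have hL1 : 1 ≤ L := by linarith
  have hL0 : 0 < L := by linarith
  have hHr : (3 : ℝ) ≤ H := by exact_mod_cast hH3
  have hHr0 : (0 : ℝ) < H := by linarith
  have hQr : (R : ℝ) ≤ Q := by exact_mod_cast hRQ
  have hQHr : (Q : ℝ) ≤ H := by exact_mod_cast hQH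
  have hH1e : (1 : ℝ) ≤ (H : ℝ) ^ (1 / e : ℝ) := Real.one_le_rpow (by linarith) (by positivity)
  have hRr1 : (1 : ℝ) ≤ R := hH1e.trans hR1
  have hQr1 : (1 : ℝ) ≤ Q := hRr1.trans hQr
  have hQn1 : 1 ≤ Q := by exact_mod_cast hQr1
  have hRn1 : 1 ≤ R := by exact_mod_cast hRr1
  have hLB : L ^ (C1 + 2 * kD + A + 4) ≤ L ^ Bx := pow_le_pow_right₀ hL1 (by omega)
  have hT1b : L ^ (C1 + 2 * kD + A + 4) ≤ T := hLB.trans hT1
  have hT1' : (1 : ℝ) ≤ T := (one_le_pow₀ hL1).trans hT1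
  have hT1n : 1 ≤ T := by exact_mod_cast hT1'
  have hz1' : (1 : ℝ) ≤ z := (one_le_pow₀ hL1).trans hz1
  have hz1n : 1 ≤ z := by exact_mod_cast hz1'
  have hVz := hN1 H hHN1 z hz1n hz2
  obtain ⟨hw1, hw2, hw3, hTR⟩ := windows kD CC Bx Q R T L hLc hLd hQn1 hRQ hT1n hT2 (by omega)
  set W : ℕ := ⌊(R : ℝ) / L ^ kD⌋₊ with hWdef
  set D : ℕ := ⌊L ^ kD⌋₊ with hDdef
  have hLk1 : (1 : ℝ) ≤ L ^ kD := one_le_pow₀ hL1
  have hLk0 : (0 : ℝ) < L ^ kD := by linarith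
  have hWr1 : (1 : ℝ) ≤ W := by
    refine le_trans ?_ hw1
    nlinarith
  have hW1n : 1 ≤ W := by exact_mod_cast hWr1
  have hWL : (W : ℝ) * L ^ kD ≤ R := by
    rw [← le_div_iff₀ hLk0]
    exact Nat.floor_le (by positivity)
  have hWRr : (W : ℝ) ≤ R := by nlinarith
  have hWR : W ≤ R := by exact_mod_cast hWRr
  have hWQ : W ≤ Q := hWR.trans hRQ
  have hTQ : T ≤ Q := hTR.trans hRQ
  have hD1 : (D : ℝ) ≤ L ^ kD := Nat.floor_le hLk0.le
  have hD1n : 1 ≤ D := Nat.le_floor (by exact_mod_cast hLk1)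
  have hD2 : L ^ kD ≤ 2 * (D : ℝ) := by
    have h1 : L ^ kD < (D : ℝ) + 1 := Nat.lt_floor_add_one _
    have h2 : (1 : ℝ) ≤ D := by exact_mod_cast hD1n
    linarith
  obtain ⟨X, hXdef⟩ : ∃ X : ℕ, X = 5 * Q * T := ⟨_, rfl⟩
  have hXr : (X : ℝ) = 5 * Q * T := by rw [hXdef]; push_cast; ring
  have hQX : Q ≤ X := by rw [hXdef]; nlinarith
  have hQXr : (Q : ℝ) ≤ X := by exact_mod_cast hQX
  have hXr1 : (1 : ℝ) ≤ X := hQr1.trans hQXr
  have hlogX1 : L ≤ e * Real.log X := by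
    have h1 : Real.log ((H : ℝ) ^ (1 / e : ℝ)) ≤ Real.log X :=
      Real.log_le_log (by positivity) ((hR1.trans hQr).trans hQXr)
    rw [Real.log_rpow hHr0, ← hLdef] at h1
    calc L = e * (1 / e * L) := by field_simp
      _ ≤ e * Real.log X := by gcongr
  have hlog2X : Real.log (2 * X) ≤ 3 * L := by
    have h1 : (2 * X : ℝ) ≤ (H : ℝ) ^ 3 := by
      rw [hXr]
      have h2 : (T : ℝ) ≤ H := by exact_mod_cast hTQ.trans hQH
      have h3 : (10 : ℝ) ≤ H := by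
        have h4 := Real.add_one_le_exp L
        rw [hLdef, Real.exp_log hHr0] at h4
        rw [← hLdef] at h4
        linarith
      calc (2 * (5 * Q * T) : ℝ) = 10 * (Q * T) := by ring
        _ ≤ H * (H * H) := by gcongr
        _ = (H : ℝ) ^ 3 := by ring
    calc Real.log (2 * X) ≤ Real.log ((H : ℝ) ^ 3) := Real.log_le_log (by linarith) h1
      _ = 3 * L := by rw [Real.log_pow]; push_cast; ring
  have hlogX2 : Real.log X ≤ 3 * L := by
    refine le_trans (Real.log_le_log (by linarith) ?_) hlog2X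
    linarith
  have hlogX0 : 0 ≤ Real.log X := Real.log_nonneg hXr1
  have hXe : ∀ n : ℕ, (e : ℝ) ^ (n + 1) ≤ L → (e : ℝ) ^ n ≤ Real.log X := by
    intro n hn
    have h1 : (e : ℝ) * (e : ℝ) ^ n ≤ e * Real.log X := by
      calc (e : ℝ) * (e : ℝ) ^ n = (e : ℝ) ^ (n + 1) := by ring
        _ ≤ L := hn
        _ ≤ _ := hlogX1
    exact le_of_mul_le_mul_left h1 her0
  have hXX0 : X0 ≤ X := by
    have h1 : Real.log X0 ≤ Real.log X := le_of_mul_le_mul_left (hLe4.trans hlogX1) her0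
    rcases Nat.eq_zero_or_pos X0 with h0 | h0
    · rw [h0]; exact Nat.zero_le _
    · have h2 : (0 : ℝ) < X0 := by exact_mod_cast h0
      have h3 := (Real.log_le_log_iff h2 (by linarith)).1 h1
      exact_mod_cast h3
  -- the truncated function
  set a : ℤ → ℝ := fun m => if m ≤ 2 * X then Ed z m else 0 with hadef
  have haP : ∀ m, |a m| ≤ 3 * L := by
    intro m
    rw [hadef]
    dsimp only
    split_ifs with hc
    · apply Ed_bound z m L (2 * X) hL0.le (by exact_mod_cast hc) hlog2X hVz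
    · rw [abs_zero]; linarith
  have haE : ∀ m : ℤ, 0 < m → m ≤ 2 * X → a m = Ed z m := by
    intro m _ hm
    rw [hadef]
    dsimp only
    rw [if_pos hm]
  have ha0 : ∀ m : ℤ, m ≤ 0 → a m = 0 := by
    intro m hm
    rw [hadef]
    dsimp only
    rw [if_pos (by omega)]
    exact Ed_zero z m hm
  -- replace `Ed` by `a`
  have hrepl : ∑ b ∈ Icc 1 Q, ∑ c ∈ Icc 1 R, (∑ n ∈ Icc 1 T, w n * Ed z ((b : ℤ) * n + c + g n)) ^ 2 =
      ∑ b ∈ Icc 1 Q, ∑ c ∈ Icc 1 R, (∑ n ∈ Icc 1 T, w n * a ((b : ℤ) * n + c + g n)) ^ 2 := by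
    apply sum_congr rfl
    intro b hb
    apply sum_congr rfl
    intro c hc
    congr 1
    apply sum_congr rfl
    intro n hn
    have hgn := hg n hn
    rw [mem_Icc] at hb hc hn
    congr 1
    rw [hadef]
    dsimp only
    rw [if_pos]
    have h1 := (abs_le.1 hgn).2
    have h2 : (b : ℤ) * n ≤ Q * T := by
      exact_mod_cast Nat.mul_le_mul hb.2 hn.2
    have h3 : (Q : ℤ) * n ≤ Q * T := by
      exact_mod_cast Nat.mul_le_mul le_rfl hn.2
    have h4 : (c : ℤ) ≤ Q * T := by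
      have : c ≤ Q * T := by nlinarith [hc.2]
      exact_mod_cast this
    have h5 : (X : ℤ) = 5 * (Q * T) := by rw [hXdef]; push_cast; ring
    rw [h5]
    have h6 : (0 : ℤ) ≤ Q * T := by positivity
    linarith
  rw [hrepl]
  refine (expand Q R T a g w hw).trans ?_
  -- the sums over the windows
  set M : ℕ → ℝ := fun q => ∑ u ∈ Icc (-(X : ℤ)) X, NN a u W q with hM
  have hM0 : ∀ q, 0 ≤ M q := fun q => sum_nonneg (fun u _ => NN_nonneg _ _ _ _)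
  have hWX : W ≤ X := hWQ.trans hQX
  have hMd : ∀ d ∈ Icc 1 D, M d ≤ X * (W : ℝ) ^ 2 / L ^ (C1 + kD + A + 1) +
      (W + 1) * (D * (3 * L * W) ^ 2) := by
    intro d hd
    rw [mem_Icc] at hd
    have hdD : (d : ℝ) ≤ D := by exact_mod_cast hd.2
    have h1 := hX0 X hXX0 z (by
      calc Real.log X ^ E0' ≤ (3 * L) ^ E0' := by gcongr
        _ = 3 ^ E0' * L ^ E0' := mul_pow _ _ _
        _ ≤ L * L ^ E0' := by gcongr
        _ = L ^ (E0' + 1) := by ring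
        _ ≤ z := hz1) (by
      refine hz2.trans ?_
      exact cmp e E1 (Real.log X) L hlogX1 hL0.le (hXe E1 hLe1) hlogX0) d hd.1 (by
      refine (hdD.trans hD1).trans ?_
      exact cmp e kD (Real.log X) L hlogX1 hL0.le (hXe kD hLe2) hlogX0) W (by
      refine le_trans ?_ hw2
      rw [hXdef] at hlogX2 hlogX0 ⊢
      gcongr) hWX
    have h2 := M_bound X W d (3 * L) _ a (Ed z) haP haE ha0 hWX h1
    refine h2.trans ?_
    apply add_le_add
    · have h3 : L ^ (C1 + kD + A + 1) ≤ Real.log X ^ (C1 + kD + A + 2) :=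
        cmp e (C1 + kD + A + 1) (Real.log X) L hlogX1 hL0.le (hXe _ hLe3) hlogX0
      gcongr
    · gcongr
  have hqM : ∑ q ∈ Icc 1 T, (q : ℝ) * M q ≤ T * (D * (X * (W : ℝ) ^ 2 / L ^ (C1 + kD + A + 1) +
      (W + 1) * (D * (3 * L * W) ^ 2))) + (2 * X + 1) * (CL * (T * W * (3 * L) ^ 2 * (W / D + T))) := by
    have h1 : ∑ q ∈ Icc 1 T, (q : ℝ) * M q =
        ∑ u ∈ Icc (-(X : ℤ)) X, ∑ q ∈ Icc 1 T, (q : ℝ) * NN a u W q := by
      rw [sum_comm]
      apply sum_congr rfl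
      intro q _
      rw [hM, mul_sum]
    have h2 : ∑ u ∈ Icc (-(X : ℤ)) X, ∑ q ∈ Icc 1 T, (q : ℝ) * NN a u W q ≤
        ∑ u ∈ Icc (-(X : ℤ)) X, (T * ∑ d ∈ Icc 1 D, NN a u W d +
          CL * (T * W * (3 * L) ^ 2 * ((W : ℝ) / D + T))) :=
      sum_le_sum (fun u _ => hLS a u T W D (3 * L) hD1n (by linarith) haP)
    rw [h1]
    refine h2.trans ?_
    rw [sum_add_distrib, ← mul_sum, sum_comm, sum_const, nsmul_eq_mul]
    apply add_le_add
    · apply mul_le_mul_of_nonneg_left _ (by linarith)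
      refine (sum_le_card_nsmul (Icc 1 D) _ _ hMd).trans ?_
      rw [Nat.card_Icc, Nat.add_sub_cancel, nsmul_eq_mul]
    · apply mul_le_mul_of_nonneg_right _ (by positivity)
      rw [Int.card_Icc]
      have : ((X : ℤ) + 1 - -(X : ℤ)).toNat = 2 * X + 1 := by omega
      rw [this]
      push_cast
      linarith
  -- the pairs
  have hLC1 : (1 : ℝ) ≤ L ^ C1 := one_le_pow₀ hL1
  have hp := pairs T (fun n n' => ∑ b ∈ Icc 1 Q, ∑ c ∈ Icc 1 R,
      a ((b : ℤ) * n + c + g n) * a ((b : ℤ) * n' + c + g n'))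
    ((3 * L) ^ 2 * (Q * R)) (T / L ^ C1) (CP * ((3 * L) ^ 2 * Q * (W * (L ^ C1 + 1) + 1)))
    (fun q => CP * ((q : ℝ) * R * L ^ C1 / (W ^ 2 * T) * M q)) (by positivity) (by positivity)
    (by positivity) (fun q => by have := hM0 q; positivity)
    (by
      intro n n' _ _
      refine (abs_sum_le_sum_abs _ _).trans ?_
      have h1 : ∀ b ∈ Icc 1 Q, |∑ c ∈ Icc 1 R, a ((b : ℤ) * n + c + g n) * a ((b : ℤ) * n' + c + g n')| ≤
          R * (3 * L) ^ 2 := by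
        intro b _
        refine (abs_sum_le_sum_abs _ _).trans ?_
        refine (sum_le_card_nsmul (Icc 1 R) _ ((3 * L) ^ 2) ?_).trans ?_
        · intro c _
          rw [abs_mul, sq]
          exact mul_le_mul (haP _) (haP _) (abs_nonneg _) (by linarith)
        · rw [Nat.card_Icc, Nat.add_sub_cancel, nsmul_eq_mul]
      refine (sum_le_card_nsmul (Icc 1 Q) _ _ h1).trans ?_
      rw [Nat.card_Icc, Nat.add_sub_cancel, nsmul_eq_mul]
      apply le_of_eq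
      ring)
    (by
      intro n n'
      apply sum_congr rfl
      intro b _
      apply sum_congr rfl
      intro c _
      ring)
    (by
      intro n n' h1 h2 h3 h4 h5
      have hn'0 : (0 : ℝ) < n' := by exact_mod_cast h1
      have hnT : (n : ℝ) ≤ T := by exact_mod_cast h3
      have hsub : ((n - n' : ℕ) : ℝ) = (n : ℝ) - n' := Nat.cast_sub h2.le
      have hq0 : (0 : ℝ) < (n : ℝ) - n' := by
        rw [sub_pos]; exact_mod_cast h2
      have hTL : 0 < (T : ℝ) / L ^ C1 := by positivity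
      have hgn := hg n (by rw [mem_Icc]; omega)
      have hgn' := hg n' (by rw [mem_Icc]; omega)
      have hX5 : (X : ℤ) = 5 * (Q * T) := by rw [hXdef]; push_cast; ring
      have g1 : (Q : ℤ) * n ≤ Q * T := by exact_mod_cast Nat.mul_le_mul le_rfl h3
      have g2 : (Q : ℤ) * n' ≤ Q * T := by exact_mod_cast Nat.mul_le_mul le_rfl (by omega : n' ≤ T)
      have g3 : (n : ℤ) * Q ≤ Q * T := by rw [mul_comm]; exact g1
      have g4 : (Q : ℤ) ≤ Q * T := by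
        have : Q ≤ Q * T := Nat.le_mul_of_pos_right _ (by omega)
        exact_mod_cast this
      have g5 : (W : ℤ) ≤ Q := by exact_mod_cast hWQ
      have hpr := hPR a (3 * L) (by linarith) haP n n' Q R W X (g n) (g n') h1 h2
        (h3.trans hTR) hRQ hW1n (by rw [hX5]; linarith) (by rw [hX5]; linarith)
      refine hpr.trans ?_
      rw [hsub, ← mul_add]
      apply mul_le_mul_of_nonneg_left _ (by linarith)
      apply add_le_add
      · apply mul_le_mul_of_nonneg_right _ (hM0 _)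
        rw [div_le_div_iff₀ (by positivity) (by positivity)]
        have h6 : (T : ℝ) ≤ n' * L ^ C1 := by
          rw [div_lt_iff₀ (by positivity)] at h4
          exact h4.le
        have h7 : 0 ≤ ((n : ℝ) - n') * R * W ^ 2 := by positivity
        calc ((n : ℝ) - n') * R * (W ^ 2 * T) = ((n : ℝ) - n') * R * W ^ 2 * T := by ring
          _ ≤ ((n : ℝ) - n') * R * W ^ 2 * (n' * L ^ C1) := by gcongr
          _ = ((n : ℝ) - n') * R * L ^ C1 * (W ^ 2 * n') := by ring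
      · have h8 : (n : ℝ) / ((n : ℝ) - n') ≤ L ^ C1 := by
          rw [div_le_iff₀ hq0]
          rw [div_lt_iff₀ (by positivity)] at h5
          linarith
        gcongr)
  refine hp.trans ?_
  have hnum := numeric CL CP Q R T W D X L (3 * L) _ A C1 kD hCL hCP hC1 hkD hLa rfl hT1b hWL hw1 hWr1
    hD1 hD2 hXr (by
      refine le_trans ?_ hw3
      apply pow_le_pow_right₀ hL1
      omega) hQr rfl
  refine le_trans ?_ hnum
  have hsumR : ∑ q ∈ Icc 1 T, CP * ((q : ℝ) * R * L ^ C1 / (W ^ 2 * T) * M q) =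
      CP * (R * L ^ C1 / (W ^ 2 * T)) * ∑ q ∈ Icc 1 T, (q : ℝ) * M q := by
    rw [mul_sum]
    apply sum_congr rfl
    intro q _
    ring
  rw [hsumR]
  gcongr

end Pool.Agent.helper24_UT.Ut3
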