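import Pool.Agent.H43.G.R_pool_sql_team_seeded_620a6dc7.helper24_UT_.Stm
import Pool.Agent.H43.G.R_seed8.H376R2.MR.Mv

/-!
Windows and frequencies: Parseval's identity on the circle.
-/

set_option autoImplicit false

namespace Pool.Agent.helper24_UT.Win

open Finset MeasureTheory
open Pool.Agent.helper24_UT
open Pool.Agent.H376R2.MR (ch er DP FK)

/-- indicator of `[t - h, t)` -/
noncomputable def ci (h t x : ℝ) : ℂ := Set.indicator (Set.Ico (t - h) t) (fun _ => (1 : ℂ)) x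

/-- short sums in logarithmic scale -/
noncomputable def AA (s : Finset ℕ) (a : ℕ → ℂ) (h x : ℝ) : ℂ :=
  ∑ n ∈ s, a n * ci h (Real.log n) x

/-- the Fourier transform of the window -/
noncomputable def kap (h : ℝ) (k : ℤ) : ℂ := ∫ y in (-h)..0, ch k y

theorem ch_norm (k : ℤ) (s : ℝ) : ‖ch k s‖ = 1 := by
  unfold ch
  have h : (-((k * s : ℝ) : ℂ)) = ((-(k * s) : ℝ) : ℂ) := by
    push_cast
    ring
  rw [h]
  exact Complex.norm_exp_ofReal_mul_I _

theorem ch_cont (k : ℤ) : Continuous (ch k) := by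
  unfold ch
  fun_prop

theorem ch_add (k : ℤ) (s t : ℝ) : ch k (s + t) = ch k s * ch k t := by
  unfold ch
  rw [← Complex.exp_add]
  congr 1
  push_cast
  ring

theorem ci_meas (h t : ℝ) : Measurable (ci h t) :=
  measurable_const.indicator measurableSet_Ico

theorem ci_norm (h t x : ℝ) : ‖ci h t x‖ ≤ 1 := by
  unfold ci
  refine (norm_indicator_le_norm_self _ _).trans ?_
  simp

theorem AA_meas (s : Finset ℕ) (a : ℕ → ℂ) (h : ℝ) : Measurable (AA s a h) := by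
  unfold AA
  refine Finset.measurable_fun_sum _ fun n _ => ?_
  exact measurable_const.mul (ci_meas _ _)

theorem AA_norm (s : Finset ℕ) (a : ℕ → ℂ) (h x : ℝ) : ‖AA s a h x‖ ≤ ∑ n ∈ s, ‖a n‖ := by
  unfold AA
  refine (norm_sum_le _ _).trans (Finset.sum_le_sum fun n _ => ?_)
  rw [norm_mul]
  exact mul_le_of_le_one_right (norm_nonneg _) (ci_norm _ _ _)

theorem four_ci (k : ℤ) {h t lo hi : ℝ} (hh : 0 < h) (h1 : lo < t - h) (h2 : t ≤ hi) :
    ∫ x in lo..hi, ch k x * ci h t x = ch k t * kap h k := by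
  have hlohi : lo ≤ hi := by linarith
  have e1 : ∀ x, ch k x * ci h t x = Set.indicator (Set.Ico (t - h) t) (ch k) x := by
    intro x
    unfold ci
    by_cases hx : x ∈ Set.Ico (t - h) t
    · rw [Set.indicator_of_mem hx, Set.indicator_of_mem hx, mul_one]
    · rw [Set.indicator_of_notMem hx, Set.indicator_of_notMem hx, mul_zero]
  simp only [e1]
  rw [intervalIntegral.integral_of_le hlohi, setIntegral_indicator measurableSet_Ico]
  have e2 : Set.Ioc lo hi ∩ Set.Ico (t - h) t = Set.Ico (t - h) t := by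
    apply Set.inter_eq_right.2
    intro x hx
    exact ⟨lt_of_lt_of_le h1 hx.1, hx.2.le.trans h2⟩
  rw [e2, integral_Ico_eq_integral_Ioc, ← intervalIntegral.integral_of_le (by linarith)]
  have e3 := intervalIntegral.integral_comp_add_right (a := -h) (b := 0) (ch k) t
  rw [show -h + t = t - h by ring, zero_add] at e3
  rw [← e3]
  simp only [ch_add]
  rw [intervalIntegral.integral_mul_const, mul_comm]
  rfl

theorem ci_ii (h t lo hi : ℝ) (k : ℤ) : IntervalIntegrable (fun x => ch k x * ci h t x) volume lo hi := by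
  rw [intervalIntegrable_iff]
  refine Measure.integrableOn_of_bounded (M := 1) ?_ ?_ ?_
  · rw [Set.uIoc]
    exact measure_Ioc_lt_top.ne
  · exact ((ch_cont k).measurable.mul (ci_meas h t)).aestronglyMeasurable
  · refine Filter.Eventually.of_forall fun x => ?_
    rw [norm_mul, ch_norm, one_mul]
    exact ci_norm _ _ _

theorem pars (s : Finset ℕ) (a : ℕ → ℂ) {h lo : ℝ} (hh : 0 < h)
    (h1 : ∀ n ∈ s, lo < Real.log n - h) (h2 : ∀ n ∈ s, Real.log n ≤ lo + 2 * Real.pi) :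
    HasSum (fun k : ℤ => ‖kap h k‖ ^ 2 * ‖DP s a k‖ ^ 2)
      (2 * Real.pi * ∫ x in lo..(lo + 2 * Real.pi), ‖AA s a h x‖ ^ 2) := by
  have hpi := Real.pi_pos
  have hab : lo < lo + 2 * Real.pi := by linarith
  have hmem : MemLp (AA s a h) 2 (volume.restrict (Set.Ioc lo (lo + 2 * Real.pi))) := by
    refine MemLp.of_bound (C := ∑ n ∈ s, ‖a n‖) ?_ ?_
    · exact (AA_meas s a h).aestronglyMeasurable
    · exact Filter.Eventually.of_forall fun x => AA_norm _ _ _ _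
  have p1 := hasSum_sq_fourierCoeffOn hab hmem
  have p2 : ∀ k : ℤ, ‖fourierCoeffOn hab (AA s a h) k‖ ^ 2 =
      (1 / (4 * Real.pi ^ 2)) * (‖kap h k‖ ^ 2 * ‖DP s a k‖ ^ 2) := by
    intro k
    rw [fourierCoeffOn_eq_integral]
    have p3 : ∫ x in lo..(lo + 2 * Real.pi),
        fourier (-k) (x : AddCircle (lo + 2 * Real.pi - lo)) • AA s a h x = DP s a k * kap h k := by
      have p4 : ∀ x : ℝ, fourier (-k) (x : AddCircle (lo + 2 * Real.pi - lo)) • AA s a h x =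
          ∑ n ∈ s, a n * (ch k x * ci h (Real.log n) x) := by
        intro x
        rw [fourier_coe_apply, smul_eq_mul]
        have p5 : Complex.exp (2 * Real.pi * Complex.I * ((-k : ℤ) : ℂ) * (x : ℂ) /
            ((lo + 2 * Real.pi - lo : ℝ) : ℂ)) = ch k x := by
          unfold ch
          congr 1
          push_cast
          have : (Real.pi : ℂ) ≠ 0 := by exact_mod_cast hpi.ne'
          rw [show (lo : ℂ) + 2 * Real.pi - lo = 2 * Real.pi by ring]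
          field_simp
        rw [p5]
        unfold AA
        rw [Finset.mul_sum]
        refine Finset.sum_congr rfl fun n _ => ?_
        ring
      simp only [p4]
      rw [intervalIntegral.integral_finsetSum (fun n _ => (ci_ii _ _ _ _ _).const_mul _)]
      unfold DP
      rw [Finset.sum_mul]
      refine Finset.sum_congr rfl fun n hn => ?_
      rw [intervalIntegral.integral_const_mul, four_ci k hh (h1 n hn) (h2 n hn)]
      ring
    rw [p3, norm_smul, mul_pow, Real.norm_eq_abs, sq_abs, norm_mul, mul_pow]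
    have : lo + 2 * Real.pi - lo = 2 * Real.pi := by ring
    rw [this]
    field_simp
    ring
  simp_rw [p2] at p1
  have p4 := p1.mul_left (4 * Real.pi ^ 2)
  have p5 : (fun k : ℤ => 4 * Real.pi ^ 2 * (1 / (4 * Real.pi ^ 2) * (‖kap h k‖ ^ 2 * ‖DP s a k‖ ^ 2))) =
      fun k : ℤ => ‖kap h k‖ ^ 2 * ‖DP s a k‖ ^ 2 := by
    funext k
    field_simp
  rw [p5] at p4
  have p6 : 4 * Real.pi ^ 2 * ((lo + 2 * Real.pi - lo)⁻¹ •
      ∫ x in lo..(lo + 2 * Real.pi), ‖AA s a h x‖ ^ 2) =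
      2 * Real.pi * ∫ x in lo..(lo + 2 * Real.pi), ‖AA s a h x‖ ^ 2 := by
    have : lo + 2 * Real.pi - lo = 2 * Real.pi := by ring
    rw [this, smul_eq_mul]
    field_simp
    norm_num
  rw [p6] at p4
  exact p4

theorem kap_le {h : ℝ} (hh : 0 < h) (k : ℤ) : ‖kap h k‖ ≤ h := by
  unfold kap
  have := intervalIntegral.norm_integral_le_of_norm_le_const (a := -h) (b := 0) (C := 1)
    (f := ch k) (fun x _ => (ch_norm k x).le)
  refine this.trans ?_
  rw [one_mul, abs_of_nonneg (by linarith)]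
  linarith

theorem kap_le' {h : ℝ} (k : ℤ) (hk : k ≠ 0) : ‖kap h k‖ ≤ 2 / |(k : ℝ)| := by
  unfold kap
  have hk' : (k : ℝ) ≠ 0 := by exact_mod_cast hk
  have hc : (-(k : ℂ) * Complex.I) ≠ 0 := by
    refine mul_ne_zero (neg_ne_zero.2 (by exact_mod_cast hk)) Complex.I_ne_zero
  have e1 : ∀ y : ℝ, ch k y = Complex.exp ((-(k : ℂ) * Complex.I) * y) := by
    intro y
    unfold ch
    congr 1
    push_cast
    ring
  simp only [e1]
  rw [integral_exp_mul_complex hc, norm_div]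
  have e2 : ‖(-(k : ℂ) * Complex.I)‖ = |(k : ℝ)| := by
    rw [norm_mul, Complex.norm_I, mul_one, norm_neg, Complex.norm_intCast]
  rw [e2]
  apply div_le_div_of_nonneg_right _ (abs_nonneg _)
  refine (norm_sub_le _ _).trans ?_
  rw [← e1, ← e1, ch_norm, ch_norm]
  norm_num

/-- mean values in the form needed here -/
theorem mv' : ∃ C : ℝ, 0 < C ∧ ∀ (Y K : ℕ) (P : ℝ) (a : ℕ → ℂ), 1 ≤ Y → 1 ≤ K → 0 ≤ P →
    (∀ n, ‖a n‖ ≤ P) →
    ∑ k ∈ FK K, ‖DP (Ioc Y (3 * Y)) a k‖ ^ 2 ≤ C * (Y * P ^ 2) * (Y + K) := by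
  obtain ⟨C, hC, h⟩ := Pool.Agent.H376R2.MR.mv
  have hl : 0 ≤ Real.log 3 := Real.log_nonneg (by norm_num)
  refine ⟨C * (1 + Real.log 3) * 6, by positivity, ?_⟩
  intro Y K P a hY hK hP ha
  have hYR : (1 : ℝ) ≤ Y := by exact_mod_cast hY
  have h1 := h (Ioc Y (3 * Y)) a Y (3 * Y) K hYR (by linarith) (by
    intro n hn
    rw [Finset.mem_Ioc] at hn
    exact ⟨by exact_mod_cast hn.1.le, by exact_mod_cast hn.2⟩) hK
  have h2 : (3 * (Y : ℝ)) / Y = 3 := by
    field_simp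
  rw [h2] at h1
  refine h1.trans ?_
  have h3 : ∑ n ∈ Ioc Y (3 * Y), ‖a n‖ ^ 2 * ((n : ℝ) + K) ≤
      ∑ n ∈ Ioc Y (3 * Y), P ^ 2 * (3 * Y + K) := by
    refine Finset.sum_le_sum fun n hn => ?_
    rw [Finset.mem_Ioc] at hn
    have h4 : (n : ℝ) ≤ 3 * Y := by exact_mod_cast hn.2
    have h5 : ‖a n‖ ^ 2 ≤ P ^ 2 := pow_le_pow_left₀ (norm_nonneg _) (ha n) 2
    apply mul_le_mul h5 (by linarith) (by positivity) (by positivity)
  rw [Finset.sum_const, Nat.card_Ioc, nsmul_eq_mul] at h3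
  have h6 : ((3 * Y - Y : ℕ) : ℝ) = 2 * Y := by
    rw [show 3 * Y - Y = 2 * Y by omega]
    push_cast
    ring
  rw [h6] at h3
  have h7 : 2 * (Y : ℝ) * (P ^ 2 * (3 * Y + K)) ≤ 6 * ((Y * P ^ 2) * (Y + K)) := by
    have h8 : (0 : ℝ) ≤ Y * P ^ 2 * K := by positivity
    nlinarith
  calc C * (1 + Real.log 3) * ∑ n ∈ Ioc Y (3 * Y), ‖a n‖ ^ 2 * ((n : ℝ) + K)
      ≤ C * (1 + Real.log 3) * (6 * ((Y * P ^ 2) * (Y + K))) :=
        mul_le_mul_of_nonneg_left (h3.trans h7) (by positivity)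
    _ = _ := by ring

theorem FK_mem {K : ℕ} {k : ℤ} : k ∈ FK K ↔ |k| < K := by
  unfold FK
  rw [Finset.mem_Ioo, abs_lt]

theorem FK_mono {K L : ℕ} (h : K ≤ L) : FK K ⊆ FK L := by
  intro k hk
  rw [FK_mem] at hk ⊢
  have : (K : ℤ) ≤ L := by exact_mod_cast h
  linarith

/-- the tail -/
theorem tail : ∃ C : ℝ, 0 < C ∧ ∀ (Y K : ℕ) (P : ℝ) (a : ℕ → ℂ), 1 ≤ Y → 1 ≤ K → 0 ≤ P →
    (∀ n, ‖a n‖ ≤ P) → ∀ N : ℕ,
    ∑ k ∈ FK (2 ^ N * K) \ FK K, ‖DP (Ioc Y (3 * Y)) a k‖ ^ 2 / (k : ℝ) ^ 2 ≤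
      C * (Y * P ^ 2) * ((Y : ℝ) / K ^ 2 * (2 - 2 / 4 ^ N) + 1 / K * (4 - 4 / 2 ^ N)) := by
  obtain ⟨C, hC, h⟩ := mv'
  refine ⟨C, hC, ?_⟩
  intro Y K P a hY hK hP ha N
  have hYR : (1 : ℝ) ≤ Y := by exact_mod_cast hY
  have hKR : (1 : ℝ) ≤ K := by exact_mod_cast hK
  induction N with
  | zero => simp
  | succ N ih =>
    have h1 : FK (2 ^ (N + 1) * K) \ FK K ⊆
        (FK (2 ^ N * K) \ FK K) ∪ (FK (2 ^ (N + 1) * K) \ FK (2 ^ N * K)) := by
      intro k hk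
      rw [Finset.mem_sdiff] at hk
      rw [Finset.mem_union, Finset.mem_sdiff, Finset.mem_sdiff]
      tauto
    have h2 : ∑ k ∈ FK (2 ^ (N + 1) * K) \ FK (2 ^ N * K),
        ‖DP (Ioc Y (3 * Y)) a k‖ ^ 2 / (k : ℝ) ^ 2 ≤
        1 / ((2 : ℝ) ^ N * K) ^ 2 * (C * (Y * P ^ 2) * (Y + 2 ^ (N + 1) * K)) := by
      have h3 := h Y (2 ^ (N + 1) * K) P a hY (Nat.one_le_iff_ne_zero.2 (by positivity)) hP ha
      push_cast at h3
      refine le_trans ?_ (mul_le_mul_of_nonneg_left h3 (by positivity))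
      rw [Finset.mul_sum]
      calc ∑ k ∈ FK (2 ^ (N + 1) * K) \ FK (2 ^ N * K),
            ‖DP (Ioc Y (3 * Y)) a k‖ ^ 2 / (k : ℝ) ^ 2
          ≤ ∑ k ∈ FK (2 ^ (N + 1) * K) \ FK (2 ^ N * K),
            1 / ((2 : ℝ) ^ N * K) ^ 2 * ‖DP (Ioc Y (3 * Y)) a k‖ ^ 2 := by
            refine Finset.sum_le_sum fun k hk => ?_
            rw [Finset.mem_sdiff, FK_mem, FK_mem, not_lt] at hk
            have h4 : ((2 : ℝ) ^ N * K) ≤ |(k : ℝ)| := by
              have := hk.2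
              have h5 : (((2 ^ N * K : ℕ) : ℤ) : ℝ) ≤ ((|k| : ℤ) : ℝ) := by exact_mod_cast this
              push_cast at h5
              exact h5
            have h5 : ((2 : ℝ) ^ N * K) ^ 2 ≤ (k : ℝ) ^ 2 := by
              rw [← sq_abs (k : ℝ)]
              exact pow_le_pow_left₀ (by positivity) h4 2
            have h6 : 1 / (k : ℝ) ^ 2 ≤ 1 / ((2 : ℝ) ^ N * K) ^ 2 :=
              one_div_le_one_div_of_le (by positivity) h5
            calc ‖DP (Ioc Y (3 * Y)) a k‖ ^ 2 / (k : ℝ) ^ 2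
                = 1 / (k : ℝ) ^ 2 * ‖DP (Ioc Y (3 * Y)) a k‖ ^ 2 := by ring
              _ ≤ _ := mul_le_mul_of_nonneg_right h6 (by positivity)
        _ ≤ ∑ k ∈ FK (2 ^ (N + 1) * K), 1 / ((2 : ℝ) ^ N * K) ^ 2 * ‖DP (Ioc Y (3 * Y)) a k‖ ^ 2 :=
            Finset.sum_le_sum_of_subset_of_nonneg Finset.sdiff_subset
              fun _ _ _ => by positivity
    have h7 : ∑ k ∈ FK (2 ^ (N + 1) * K) \ FK K, ‖DP (Ioc Y (3 * Y)) a k‖ ^ 2 / (k : ℝ) ^ 2 ≤
        ∑ k ∈ (FK (2 ^ N * K) \ FK K) ∪ (FK (2 ^ (N + 1) * K) \ FK (2 ^ N * K)),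
          ‖DP (Ioc Y (3 * Y)) a k‖ ^ 2 / (k : ℝ) ^ 2 :=
      Finset.sum_le_sum_of_subset_of_nonneg h1 fun _ _ _ => by positivity
    have h8 : ∑ k ∈ (FK (2 ^ N * K) \ FK K) ∪ (FK (2 ^ (N + 1) * K) \ FK (2 ^ N * K)),
          ‖DP (Ioc Y (3 * Y)) a k‖ ^ 2 / (k : ℝ) ^ 2 ≤
        ∑ k ∈ FK (2 ^ N * K) \ FK K, ‖DP (Ioc Y (3 * Y)) a k‖ ^ 2 / (k : ℝ) ^ 2 +
        ∑ k ∈ FK (2 ^ (N + 1) * K) \ FK (2 ^ N * K),
          ‖DP (Ioc Y (3 * Y)) a k‖ ^ 2 / (k : ℝ) ^ 2 := by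
      rw [← Finset.sum_union_inter]
      have : 0 ≤ ∑ k ∈ (FK (2 ^ N * K) \ FK K) ∩ (FK (2 ^ (N + 1) * K) \ FK (2 ^ N * K)),
          ‖DP (Ioc Y (3 * Y)) a k‖ ^ 2 / (k : ℝ) ^ 2 := Finset.sum_nonneg fun _ _ => by positivity
      linarith
    refine (h7.trans h8).trans ((add_le_add ih h2).trans ?_)
    have h4N : ((4 : ℝ) ^ N) = (2 ^ N) ^ 2 := by
      rw [← pow_mul, mul_comm, pow_mul]
      norm_num
    have h9 : 1 / ((2 : ℝ) ^ N * K) ^ 2 * (C * (Y * P ^ 2) * (Y + 2 ^ (N + 1) * K)) =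
        C * (Y * P ^ 2) * ((Y : ℝ) / K ^ 2 * (1 / 4 ^ N) + 1 / K * (2 / 2 ^ N)) := by
      rw [h4N, pow_succ]
      field_simp
      ring
    rw [h9, ← mul_add]
    apply mul_le_mul_of_nonneg_left _ (by positivity)
    have h10 : (0 : ℝ) < 1 / 4 ^ N := by positivity
    have h11 : (2 : ℝ) / 4 ^ (N + 1) = 1 / 2 * (1 / 4 ^ N) := by
      rw [pow_succ]
      field_simp
      norm_num
    have h12 : (4 : ℝ) / 2 ^ (N + 1) = 2 / 2 ^ N := by
      rw [pow_succ]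
      field_simp
      norm_num
    have h13 : (2 : ℝ) / 4 ^ N = 2 * (1 / 4 ^ N) := by ring
    have h14 : (4 : ℝ) / 2 ^ N = 2 * (2 / 2 ^ N) := by ring
    rw [h11, h12, h13, h14]
    have h15 : (0 : ℝ) ≤ (Y : ℝ) / K ^ 2 := by positivity
    nlinarith [mul_nonneg h15 h10.le]

/-- the mean square of the short sums -/
theorem energy : ∃ C : ℝ, 0 < C ∧ ∀ (Y K : ℕ) (P h lo : ℝ) (a : ℕ → ℂ), 1 ≤ Y → 1 ≤ K → 0 ≤ P →
    (∀ n, ‖a n‖ ≤ P) → 0 < h → h ≤ 1 → lo = Real.log Y - h →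
    ∫ x in lo..(lo + 2 * Real.pi), ‖AA (Ioc Y (3 * Y)) a h x‖ ^ 2 ≤
      h ^ 2 * ∑ k ∈ FK K, ‖DP (Ioc Y (3 * Y)) a k‖ ^ 2 +
        C * (Y * P ^ 2) * ((Y : ℝ) / K ^ 2 + 1 / K) := by
  obtain ⟨C, hC, htail⟩ := tail
  refine ⟨16 * C, by positivity, ?_⟩
  intro Y K P h lo a hY hK hP ha hh hh1 hlo
  have hYR : (1 : ℝ) ≤ Y := by exact_mod_cast hY
  have hKR : (1 : ℝ) ≤ K := by exact_mod_cast hK
  have hpi := Real.pi_gt_three
  have hlog3 : Real.log 3 ≤ 2 := by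
    have := Real.log_le_sub_one_of_pos (show (0 : ℝ) < 3 by norm_num)
    linarith
  have h1 : ∀ n ∈ Ioc Y (3 * Y), lo < Real.log n - h := by
    intro n hn
    rw [Finset.mem_Ioc] at hn
    have : Real.log Y < Real.log n :=
      Real.log_lt_log (by linarith) (by exact_mod_cast hn.1)
    rw [hlo]
    linarith
  have h2 : ∀ n ∈ Ioc Y (3 * Y), Real.log n ≤ lo + 2 * Real.pi := by
    intro n hn
    rw [Finset.mem_Ioc] at hn
    have h3 : Real.log n ≤ Real.log (3 * Y) := by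
      apply Real.log_le_log
      · have : (Y : ℝ) < n := by exact_mod_cast hn.1
        linarith
      · exact_mod_cast hn.2
    rw [Real.log_mul (by norm_num) (by linarith)] at h3
    rw [hlo]
    linarith
  have hs := pars (Ioc Y (3 * Y)) a hh h1 h2
  set E := ∫ x in lo..(lo + 2 * Real.pi), ‖AA (Ioc Y (3 * Y)) a h x‖ ^ 2 with hE
  set B := h ^ 2 * ∑ k ∈ FK K, ‖DP (Ioc Y (3 * Y)) a k‖ ^ 2 +
        16 * C * (Y * P ^ 2) * ((Y : ℝ) / K ^ 2 + 1 / K) with hB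
  have hE0 : 0 ≤ E := by
    apply intervalIntegral.integral_nonneg (by linarith)
    intro x _
    positivity
  have key : 2 * Real.pi * E ≤ B := by
    refine hasSum_le_of_sum_le hs fun F => ?_
    -- a large cube
    obtain ⟨N, hN⟩ : ∃ N : ℕ, F ⊆ FK (2 ^ N * K) := by
      refine ⟨∑ k ∈ F, k.natAbs + 1, fun k hk => ?_⟩
      rw [FK_mem]
      have h3 : k.natAbs ≤ ∑ k ∈ F, k.natAbs :=
        Finset.single_le_sum (f := fun k : ℤ => k.natAbs) (fun _ _ => Nat.zero_le _) hk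
      have h4 : ∑ k ∈ F, k.natAbs + 1 < 2 ^ (∑ k ∈ F, k.natAbs + 1) := Nat.lt_two_pow_self
      have h5 : 2 ^ (∑ k ∈ F, k.natAbs + 1) ≤ 2 ^ (∑ k ∈ F, k.natAbs + 1) * K :=
        Nat.le_mul_of_pos_right _ hK
      have h6 : k.natAbs < 2 ^ (∑ k ∈ F, k.natAbs + 1) * K := by omega
      rw [Int.abs_eq_natAbs]
      exact_mod_cast h6
    calc ∑ k ∈ F, ‖kap h k‖ ^ 2 * ‖DP (Ioc Y (3 * Y)) a k‖ ^ 2
        ≤ ∑ k ∈ FK (2 ^ N * K), ‖kap h k‖ ^ 2 * ‖DP (Ioc Y (3 * Y)) a k‖ ^ 2 :=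
          Finset.sum_le_sum_of_subset_of_nonneg hN fun _ _ _ => by positivity
      _ = ∑ k ∈ FK (2 ^ N * K) \ FK K, ‖kap h k‖ ^ 2 * ‖DP (Ioc Y (3 * Y)) a k‖ ^ 2 +
          ∑ k ∈ FK K, ‖kap h k‖ ^ 2 * ‖DP (Ioc Y (3 * Y)) a k‖ ^ 2 :=
          (Finset.sum_sdiff (FK_mono (Nat.le_mul_of_pos_left _ (by positivity)))).symm
      _ ≤ ∑ k ∈ FK (2 ^ N * K) \ FK K, 4 * (‖DP (Ioc Y (3 * Y)) a k‖ ^ 2 / (k : ℝ) ^ 2) +
          ∑ k ∈ FK K, h ^ 2 * ‖DP (Ioc Y (3 * Y)) a k‖ ^ 2 := by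
          apply add_le_add
          · refine Finset.sum_le_sum fun k hk => ?_
            rw [Finset.mem_sdiff, FK_mem, FK_mem, not_lt] at hk
            have hk0 : k ≠ 0 := by
              rintro rfl
              have : (K : ℤ) ≤ 0 := by simpa using hk.2
              omega
            have h3 := pow_le_pow_left₀ (norm_nonneg _) (kap_le' (h := h) k hk0) 2
            rw [div_pow, sq_abs] at h3
            calc ‖kap h k‖ ^ 2 * ‖DP (Ioc Y (3 * Y)) a k‖ ^ 2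
                ≤ 2 ^ 2 / (k : ℝ) ^ 2 * ‖DP (Ioc Y (3 * Y)) a k‖ ^ 2 :=
                  mul_le_mul_of_nonneg_right h3 (by positivity)
              _ = _ := by ring
          · refine Finset.sum_le_sum fun k _ => ?_
            exact mul_le_mul_of_nonneg_right
              (pow_le_pow_left₀ (norm_nonneg _) (kap_le hh k) 2) (by positivity)
      _ ≤ B := by
          rw [← Finset.mul_sum, ← Finset.mul_sum, hB, add_comm]
          have h3 := htail Y K P a hY hK hP ha N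
          have h4 : C * (Y * P ^ 2) * ((Y : ℝ) / K ^ 2 * (2 - 2 / 4 ^ N) + 1 / K * (4 - 4 / 2 ^ N)) ≤
              4 * (C * (Y * P ^ 2) * ((Y : ℝ) / K ^ 2 + 1 / K)) := by
            have h5 : (0 : ℝ) ≤ 2 / 4 ^ N := by positivity
            have h6 : (0 : ℝ) ≤ 4 / 2 ^ N := by positivity
            have h7 : (Y : ℝ) / K ^ 2 * (2 - 2 / 4 ^ N) + 1 / K * (4 - 4 / 2 ^ N) ≤
                4 * ((Y : ℝ) / K ^ 2 + 1 / K) := by
              have h8 : (Y : ℝ) / K ^ 2 * (2 - 2 / 4 ^ N) ≤ (Y : ℝ) / K ^ 2 * 4 :=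
                mul_le_mul_of_nonneg_left (by linarith) (by positivity)
              have h9 : 1 / (K : ℝ) * (4 - 4 / 2 ^ N) ≤ 1 / (K : ℝ) * 4 :=
                mul_le_mul_of_nonneg_left (by linarith) (by positivity)
              linarith
            calc _ ≤ C * (Y * P ^ 2) * (4 * ((Y : ℝ) / K ^ 2 + 1 / K)) :=
                  mul_le_mul_of_nonneg_left h7 (by positivity)
              _ = _ := by ring
          linarith
  nlinarith

/-- Cauchy-Schwarz -/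
theorem cs {f : ℝ → ℂ} {M L : ℝ} {I : Set ℝ} (hf : Measurable f) (hM : ∀ x, ‖f x‖ ≤ M)
    (hI : volume I ≠ ⊤) (hL : 0 < L) (hIL : volume.real I ≤ L) :
    ‖∫ x in I, f x‖ ^ 2 ≤ L * ∫ x in I, ‖f x‖ ^ 2 := by
  set m := ∫ x in I, ‖f x‖ with hm
  have hm0 : 0 ≤ m := integral_nonneg fun _ => norm_nonneg _
  have h1 : ‖∫ x in I, f x‖ ≤ m := norm_integral_le_integral_norm _
  have i1 : IntegrableOn (fun x => ‖f x‖) I := by
    refine Measure.integrableOn_of_bounded (M := M) hI hf.norm.aestronglyMeasurable ?_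
    exact Filter.Eventually.of_forall fun x => by rw [norm_norm]; exact hM x
  have i2 : IntegrableOn (fun x => ‖f x‖ ^ 2) I := by
    refine Measure.integrableOn_of_bounded (M := M ^ 2) hI (hf.norm.pow_const 2).aestronglyMeasurable ?_
    exact Filter.Eventually.of_forall fun x => by
      rw [norm_pow, norm_norm]
      exact pow_le_pow_left₀ (norm_nonneg _) (hM x) 2
  have i3 : IntegrableOn (fun _ : ℝ => (m / L) ^ 2) I := integrableOn_const hI
  have h2 : 0 ≤ ∫ x in I, (‖f x‖ - m / L) ^ 2 := integral_nonneg fun _ => sq_nonneg _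
  have h3 : ∫ x in I, (‖f x‖ - m / L) ^ 2 =
      (∫ x in I, ‖f x‖ ^ 2) - 2 * (m / L) * m + volume.real I * (m / L) ^ 2 := by
    have e : ∀ x, (‖f x‖ - m / L) ^ 2 = ‖f x‖ ^ 2 - 2 * (m / L) * ‖f x‖ + (m / L) ^ 2 := by
      intro x
      ring
    simp only [e]
    have i4 : IntegrableOn (fun x => 2 * (m / L) * ‖f x‖) I := i1.const_mul _
    have i5 : IntegrableOn (fun x => ‖f x‖ ^ 2 - 2 * (m / L) * ‖f x‖) I := i2.sub i4
    have q1 : ∫ x in I, (‖f x‖ ^ 2 - 2 * (m / L) * ‖f x‖ + (m / L) ^ 2) =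
        (∫ x in I, (‖f x‖ ^ 2 - 2 * (m / L) * ‖f x‖)) + ∫ x in I, (m / L) ^ 2 :=
      integral_add i5 i3
    have q2 : ∫ x in I, (‖f x‖ ^ 2 - 2 * (m / L) * ‖f x‖) =
        (∫ x in I, ‖f x‖ ^ 2) - ∫ x in I, 2 * (m / L) * ‖f x‖ := integral_sub i2 i4
    rw [q1, q2, integral_const_mul, setIntegral_const, smul_eq_mul]
  rw [h3] at h2
  have h4 : volume.real I * (m / L) ^ 2 ≤ L * (m / L) ^ 2 :=
    mul_le_mul_of_nonneg_right hIL (by positivity)
  have h5 : L * (m / L) ^ 2 = m ^ 2 / L := by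
    field_simp
  have h6 : 2 * (m / L) * m = 2 * (m ^ 2 / L) := by ring
  have h7 : m ^ 2 / L ≤ ∫ x in I, ‖f x‖ ^ 2 := by linarith
  have h8 : m ^ 2 ≤ L * ∫ x in I, ‖f x‖ ^ 2 := by
    rw [div_le_iff₀ hL] at h7
    linarith
  exact (pow_le_pow_left₀ (norm_nonneg _) h1 2).trans h8

theorem window {Y W u : ℕ} {h P : ℝ} {a : ℕ → ℂ} (hY : 1 ≤ Y) (hW : 1 ≤ W) (hWY : W ≤ Y)
    (hu : Y ≤ u) (hu2 : u < 2 * Y) (hP : 0 ≤ P) (ha : ∀ n, ‖a n‖ ≤ P) (hh : 0 < h)
    (hh1 : h ≤ 1) :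
    ‖∑ n ∈ Ioc u (u + W), a n - ((1 / h : ℝ) : ℂ) *
      ∫ x in Set.Icc (Real.log u) (Real.log (u + W : ℕ) - h), AA (Ioc Y (3 * Y)) a h x‖ ≤
      P * (7 * Y * h + 1) := by
  set I := Set.Icc (Real.log u) (Real.log (u + W : ℕ) - h) with hI
  have hIfin : volume I ≠ ⊤ := measure_Icc_lt_top.ne
  have hu0 : (0 : ℝ) < u := by exact_mod_cast (by omega : 0 < u)
  have huW0 : (0 : ℝ) < (u + W : ℕ) := by exact_mod_cast (by omega : 0 < u + W)
  have huR : (u : ℝ) ≤ 2 * Y := by exact_mod_cast hu2.le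
  have huWR : ((u + W : ℕ) : ℝ) ≤ 3 * Y := by exact_mod_cast (by omega : u + W ≤ 3 * Y)
  have hYR : (1 : ℝ) ≤ Y := by exact_mod_cast hY
  let w : ℕ → ℝ := fun n => volume.real (I ∩ Set.Ico (Real.log n - h) (Real.log n))
  have hint : ∫ x in I, AA (Ioc Y (3 * Y)) a h x = ∑ n ∈ Ioc Y (3 * Y), a n * (w n : ℂ) := by
    unfold AA
    rw [integral_finsetSum]
    · refine Finset.sum_congr rfl fun n _ => ?_
      rw [integral_const_mul]
      congr 1
      unfold ci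
      rw [setIntegral_indicator measurableSet_Ico, setIntegral_const]
      simp only [w]
      rw [Complex.real_smul, mul_one]
    · intro n _
      refine Measure.integrableOn_of_bounded (M := ‖a n‖) hIfin
        ((ci_meas _ _).const_mul _).aestronglyMeasurable ?_
      exact Filter.Eventually.of_forall fun x => by
        rw [norm_mul]
        exact mul_le_of_le_one_right (norm_nonneg _) (ci_norm _ _ _)
  have hsum : ∑ n ∈ Ioc u (u + W), a n =
      ∑ n ∈ Ioc Y (3 * Y), a n * (((if n ∈ Ioc u (u + W) then 1 else 0 : ℝ)) : ℂ) := by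
    have h1 : Ioc u (u + W) ⊆ Ioc Y (3 * Y) := by
      intro n hn
      rw [Finset.mem_Ioc] at hn ⊢
      omega
    have h2 : ∀ n ∈ Ioc Y (3 * Y), a n * (((if n ∈ Ioc u (u + W) then 1 else 0 : ℝ)) : ℂ) =
        if n ∈ Ioc u (u + W) then a n else 0 := by
      intro n _
      split_ifs <;> simp
    rw [Finset.sum_congr rfl h2, Finset.sum_ite_mem, Finset.inter_eq_right.2 h1]
  rw [hint, hsum, Finset.mul_sum, ← Finset.sum_sub_distrib]
  set Bd : Finset ℕ := Ioc u (u + ⌊4 * Y * h⌋₊) ∪ Icc (u + W - ⌊3 * Y * h⌋₊) (u + W) with hBd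
  have key : ∀ n ∈ Ioc Y (3 * Y), ‖a n * (((if n ∈ Ioc u (u + W) then 1 else 0 : ℝ)) : ℂ) -
      ((1 / h : ℝ) : ℂ) * (a n * (w n : ℂ))‖ ≤ P * (if n ∈ Bd then 1 else 0 : ℝ) := by
    intro n hn
    rw [Finset.mem_Ioc] at hn
    have hn0 : (0 : ℝ) < n := by exact_mod_cast (by omega : 0 < n)
    have e1 : a n * (((if n ∈ Ioc u (u + W) then 1 else 0 : ℝ)) : ℂ) -
        ((1 / h : ℝ) : ℂ) * (a n * (w n : ℂ)) =
        a n * (((if n ∈ Ioc u (u + W) then 1 else 0 : ℝ) - w n / h : ℝ) : ℂ) := by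
      push_cast
      ring
    rw [e1, norm_mul, Complex.norm_real, Real.norm_eq_abs]
    apply mul_le_mul (ha n) _ (abs_nonneg _) hP
    have w0 : 0 ≤ w n := measureReal_nonneg
    have wJ : volume.real (Set.Ico (Real.log n - h) (Real.log n)) = h := by
      rw [Real.volume_real_Ico, max_eq_left (by linarith)]
      ring
    have w1 : w n ≤ h := by
      rw [← wJ]
      exact measureReal_mono Set.inter_subset_right measure_Ico_lt_top.ne
    by_cases hc : n ∈ Ioc u (u + W)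
    · rw [if_pos hc]
      rw [Finset.mem_Ioc] at hc
      by_cases hb : n ∈ Bd
      · rw [if_pos hb]
        have h1 : 0 ≤ w n / h := by positivity
        have h2 : w n / h ≤ 1 := (div_le_one hh).2 w1
        rw [abs_le]
        constructor <;> linarith
      · rw [if_neg hb]
        rw [hBd, Finset.mem_union, not_or, Finset.mem_Ioc, Finset.mem_Icc] at hb
        have h1 : ⌊4 * Y * h⌋₊ < n - u := by omega
        have h2 : ⌊3 * Y * h⌋₊ < u + W - n := by omega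
        have h3 := Nat.lt_of_floor_lt h1
        have h4 := Nat.lt_of_floor_lt h2
        rw [Nat.cast_sub hc.1.le] at h3
        rw [Nat.cast_sub hc.2] at h4
        have h5 : Real.exp h ≤ 1 + 2 * h := by
          have := Real.abs_exp_sub_one_le (x := h) (by rw [abs_of_pos hh]; exact hh1)
          rw [abs_of_pos hh] at this
          have := (abs_le.1 this).2
          linarith
        have h6 : Real.log u + h ≤ Real.log n := by
          have h7 : (u : ℝ) * Real.exp h ≤ n := by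
            have h8 : (u : ℝ) * Real.exp h ≤ u * (1 + 2 * h) :=
              mul_le_mul_of_nonneg_left h5 hu0.le
            nlinarith
          have h8 := Real.log_le_log (by positivity) h7
          rwa [Real.log_mul hu0.ne' (Real.exp_pos h).ne', Real.log_exp] at h8
        have h9 : Real.log n ≤ Real.log (u + W : ℕ) - h := by
          have h10 : (n : ℝ) ≤ (u + W : ℕ) * Real.exp (-h) := by
            have h11 := Real.add_one_le_exp (-h)
            have h12 : ((u + W : ℕ) : ℝ) * (-h + 1) ≤ (u + W : ℕ) * Real.exp (-h) :=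
              mul_le_mul_of_nonneg_left h11 huW0.le
            nlinarith
          have h11 := Real.log_le_log hn0 h10
          rwa [Real.log_mul huW0.ne' (Real.exp_pos _).ne', Real.log_exp] at h11
        have h10 : I ∩ Set.Ico (Real.log n - h) (Real.log n) =
            Set.Ico (Real.log n - h) (Real.log n) := by
          apply Set.inter_eq_right.2
          intro x hx
          exact ⟨by linarith [hx.1], by linarith [hx.2]⟩
        have h11 : w n = h := by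
          simp only [w]
          rw [h10, wJ]
        rw [h11, div_self hh.ne']
        simp
    · rw [if_neg hc]
      rw [Finset.mem_Ioc, not_and_or, not_lt, not_le] at hc
      have h10 : I ∩ Set.Ico (Real.log n - h) (Real.log n) = ∅ := by
        apply Set.eq_empty_of_forall_notMem
        rintro x ⟨hx1, hx2⟩
        rcases hc with hc | hc
        · have h1 : Real.log n ≤ Real.log u := Real.log_le_log hn0 (by exact_mod_cast hc)
          linarith [hx1.1, hx2.2]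
        · have h1 : Real.log (u + W : ℕ) < Real.log n :=
            Real.log_lt_log huW0 (by exact_mod_cast hc)
          linarith [hx1.2, hx2.1]
      have h11 : w n = 0 := by
        simp only [w]
        rw [h10]
        simp
      rw [h11]
      simp only [zero_div, sub_zero, abs_zero]
      split_ifs <;> norm_num
  refine (norm_sum_le _ _).trans ((Finset.sum_le_sum key).trans ?_)
  rw [← Finset.mul_sum]
  apply mul_le_mul_of_nonneg_left _ hP
  rw [Finset.sum_ite_mem, Finset.sum_const, nsmul_eq_mul, mul_one]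
  have c1 : (Ioc Y (3 * Y) ∩ Bd).card ≤ ⌊4 * Y * h⌋₊ + (⌊3 * Y * h⌋₊ + 1) := by
    refine (Finset.card_le_card Finset.inter_subset_right).trans ?_
    rw [hBd]
    refine (Finset.card_union_le _ _).trans ?_
    rw [Nat.card_Ioc, Nat.card_Icc]
    omega
  have c2 : ((Ioc Y (3 * Y) ∩ Bd).card : ℝ) ≤ ((⌊4 * Y * h⌋₊ + (⌊3 * Y * h⌋₊ + 1) : ℕ) : ℝ) := by
    exact_mod_cast c1
  push_cast at c2
  have c3 := Nat.floor_le (show (0 : ℝ) ≤ 4 * Y * h by positivity)
  have c4 := Nat.floor_le (show (0 : ℝ) ≤ 3 * Y * h by positivity)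
  linarith

theorem overlap {Y W : ℕ} {h lo M : ℝ} {g : ℝ → ℝ} (hY : 1 ≤ Y) (hW : 1 ≤ W) (hWY : W ≤ Y)
    (hh : 0 < h) (hlo : lo = Real.log Y - h) (hg : Measurable g)
    (hg0 : ∀ x, 0 ≤ g x) (hgM : ∀ x, g x ≤ M) :
    ∑ u ∈ Ico Y (2 * Y), ∫ x in Set.Icc (Real.log u) (Real.log (u + W : ℕ) - h), g x ≤
      W * ∫ x in lo..(lo + 2 * Real.pi), g x := by
  have hpi := Real.pi_gt_three
  have hlog3 : Real.log 3 ≤ 2 := by
    have := Real.log_le_sub_one_of_pos (show (0 : ℝ) < 3 by norm_num)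
    linarith
  have hYR : (1 : ℝ) ≤ Y := by exact_mod_cast hY
  have hbd : ∀ x, ‖g x‖ ≤ M := fun x => by
    rw [Real.norm_eq_abs, abs_of_nonneg (hg0 x)]
    exact hgM x
  rw [intervalIntegral.integral_of_le (by linarith)]
  set D := Set.Ioc lo (lo + 2 * Real.pi) with hD
  have hDfin : volume D ≠ ⊤ := measure_Ioc_lt_top.ne
  let I : ℕ → Set ℝ := fun u => Set.Icc (Real.log u) (Real.log (u + W : ℕ) - h)
  have hID : ∀ u ∈ Ico Y (2 * Y), I u ⊆ D := by
    intro u hu x hx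
    rw [Finset.mem_Ico] at hu
    have hu0 : (1 : ℝ) ≤ u := by exact_mod_cast (by omega : 1 ≤ u)
    have h1 : Real.log Y ≤ Real.log u := Real.log_le_log (by linarith) (by exact_mod_cast hu.1)
    have h2 : Real.log (u + W : ℕ) ≤ Real.log (3 * Y) := by
      apply Real.log_le_log
      · exact_mod_cast (by omega : 0 < u + W)
      · exact_mod_cast (by omega : u + W ≤ 3 * Y)
    rw [Real.log_mul (by norm_num) (by linarith)] at h2
    exact ⟨by linarith [hx.1], by linarith [hx.2]⟩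
  have e1 : ∀ u ∈ Ico Y (2 * Y), ∫ x in I u, g x = ∫ x in D, (I u).indicator g x := by
    intro u hu
    rw [setIntegral_indicator measurableSet_Icc, Set.inter_eq_right.2 (hID u hu)]
  have hint : ∀ u : ℕ, IntegrableOn ((I u).indicator g) D := by
    intro u
    refine Measure.integrableOn_of_bounded (M := M) hDfin
      (hg.indicator measurableSet_Icc).aestronglyMeasurable ?_
    exact Filter.Eventually.of_forall fun x => (norm_indicator_le_norm_self _ _).trans (hbd x)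
  have hintg : IntegrableOn g D := by
    refine Measure.integrableOn_of_bounded (M := M) hDfin hg.aestronglyMeasurable ?_
    exact Filter.Eventually.of_forall fun x => hbd x
  rw [Finset.sum_congr rfl e1, ← integral_finsetSum _ (fun u _ => hint u), ← integral_const_mul]
  apply integral_mono (integrable_finsetSum _ fun u _ => hint u) (hintg.const_mul _)
  intro x
  simp only
  have e2 : ∀ u ∈ Ico Y (2 * Y), (I u).indicator g x =
      if u ∈ Icc (⌊Real.exp x⌋₊ + 1 - W) ⌊Real.exp x⌋₊ then (I u).indicator g x else 0 := by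
    intro u hu
    rw [Finset.mem_Ico] at hu
    split_ifs with hc
    · rfl
    · apply Set.indicator_of_notMem
      intro hx
      apply hc
      have hu0 : (0 : ℝ) < u := by exact_mod_cast (by omega : 0 < u)
      have huW0 : (0 : ℝ) < (u + W : ℕ) := by exact_mod_cast (by omega : 0 < u + W)
      have h1 : (u : ℝ) ≤ Real.exp x := by
        rw [← Real.log_le_iff_le_exp hu0]
        exact hx.1
      have h2 : Real.exp x < (u + W : ℕ) := by
        rw [← Real.lt_log_iff_exp_lt huW0]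
        linarith [hx.2]
      have h3 : u ≤ ⌊Real.exp x⌋₊ := Nat.le_floor h1
      have h4 : ⌊Real.exp x⌋₊ < u + W := (Nat.floor_lt (Real.exp_pos x).le).2 h2
      rw [Finset.mem_Icc]
      omega
  rw [Finset.sum_congr rfl e2, Finset.sum_ite_mem]
  calc ∑ u ∈ Ico Y (2 * Y) ∩ Icc (⌊Real.exp x⌋₊ + 1 - W) ⌊Real.exp x⌋₊, (I u).indicator g x
      ≤ ∑ u ∈ Ico Y (2 * Y) ∩ Icc (⌊Real.exp x⌋₊ + 1 - W) ⌊Real.exp x⌋₊, g x := by
        refine Finset.sum_le_sum fun u _ => ?_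
        exact Set.indicator_le_self' (fun _ _ => hg0 x) x
    _ = ((Ico Y (2 * Y) ∩ Icc (⌊Real.exp x⌋₊ + 1 - W) ⌊Real.exp x⌋₊).card : ℝ) * g x := by
        rw [Finset.sum_const, nsmul_eq_mul]
    _ ≤ W * g x := by
        apply mul_le_mul_of_nonneg_right _ (hg0 x)
        have h1 := Finset.card_le_card (Finset.inter_subset_right
          (s₁ := Ico Y (2 * Y)) (s₂ := Icc (⌊Real.exp x⌋₊ + 1 - W) ⌊Real.exp x⌋₊))
        rw [Nat.card_Icc] at h1
        have h2 : (Ico Y (2 * Y) ∩ Icc (⌊Real.exp x⌋₊ + 1 - W) ⌊Real.exp x⌋₊).card ≤ W := by omega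
        exact_mod_cast h2

set_option maxHeartbeats 1000000 in
theorem main : S_WIN := by
  obtain ⟨C, hC, hen⟩ := energy
  refine ⟨2 + 2 * C + 196, by linarith, ?_⟩
  intro Y W J K P a hJ hW hWY hK hP ha
  have hY : 1 ≤ Y := hW.trans hWY
  have hYR : (1 : ℝ) ≤ Y := by exact_mod_cast hY
  have hJR : (1 : ℝ) ≤ J := by exact_mod_cast hJ
  have hWR : (1 : ℝ) ≤ W := by exact_mod_cast hW
  have hKR : (1 : ℝ) ≤ K := by exact_mod_cast hK
  have hWYR : (W : ℝ) ≤ Y := by exact_mod_cast hWY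
  set h : ℝ := W / (J * Y) with hhdef
  have hh : 0 < h := by positivity
  have hh1 : h ≤ 1 := by
    rw [hhdef, div_le_one (by positivity)]
    nlinarith
  set lo := Real.log Y - h with hlo
  have hE := hen Y K P h lo a hY hK hP ha hh hh1 hlo
  set E := ∫ x in lo..(lo + 2 * Real.pi), ‖AA (Ioc Y (3 * Y)) a h x‖ ^ 2 with hEdef
  set SS := ∑ k ∈ FK K, ‖DP (Ioc Y (3 * Y)) a k‖ ^ 2 with hSS
  have hov := overlap (g := fun x => ‖AA (Ioc Y (3 * Y)) a h x‖ ^ 2)
    (M := (∑ n ∈ Ioc Y (3 * Y), ‖a n‖) ^ 2) hY hW hWY hh hlo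
    ((AA_meas _ _ _).norm.pow_const 2) (fun x => by positivity)
    (fun x => pow_le_pow_left₀ (norm_nonneg _) (AA_norm _ _ _ _) 2)
  have step : ∀ u ∈ Ico Y (2 * Y), ‖∑ n ∈ Ioc u (u + W), a n‖ ^ 2 ≤
      2 * (1 / h ^ 2 * (J * h)) *
        (∫ x in Set.Icc (Real.log u) (Real.log (u + W : ℕ) - h), ‖AA (Ioc Y (3 * Y)) a h x‖ ^ 2) +
      2 * (P * (7 * Y * h + 1)) ^ 2 := by
    intro u hu
    rw [Finset.mem_Ico] at hu
    have h1 := window hY hW hWY hu.1 hu.2 hP ha hh hh1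
    set I := Set.Icc (Real.log u) (Real.log (u + W : ℕ) - h) with hI
    set F := ∫ x in I, AA (Ioc Y (3 * Y)) a h x with hF
    set S := ∑ n ∈ Ioc u (u + W), a n with hS
    have h2 : ‖F‖ ^ 2 ≤ (J * h) * ∫ x in I, ‖AA (Ioc Y (3 * Y)) a h x‖ ^ 2 := by
      refine cs (AA_meas _ _ _) (AA_norm _ _ _) measure_Icc_lt_top.ne (by positivity) ?_
      rw [hI, Real.volume_real_Icc]
      apply max_le _ (by positivity)
      have hu0 : (0 : ℝ) < u := by exact_mod_cast (by omega : 0 < u)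
      have huW0 : (0 : ℝ) < (u + W : ℕ) := by exact_mod_cast (by omega : 0 < u + W)
      have h3 : Real.log (u + W : ℕ) - Real.log u ≤ W / u := by
        rw [← Real.log_div huW0.ne' hu0.ne']
        have h4 := Real.log_le_sub_one_of_pos (show (0 : ℝ) < (u + W : ℕ) / u by positivity)
        have h5 : (((u + W : ℕ) : ℝ)) / u - 1 = W / u := by
          push_cast
          field_simp
          ring
        linarith
      have h4 : (W : ℝ) / u ≤ W / Y :=
        div_le_div_of_nonneg_left (by linarith) (by linarith) (by exact_mod_cast hu.1)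
      have h5 : (J : ℝ) * h = W / Y := by
        rw [hhdef]
        field_simp
      linarith
    have h3 : ‖S‖ ≤ ‖((1 / h : ℝ) : ℂ) * F‖ + P * (7 * Y * h + 1) := by
      have h4 : S = ((1 / h : ℝ) : ℂ) * F + (S - ((1 / h : ℝ) : ℂ) * F) := by ring
      calc ‖S‖ = ‖((1 / h : ℝ) : ℂ) * F + (S - ((1 / h : ℝ) : ℂ) * F)‖ := by rw [← h4]
        _ ≤ _ := (norm_add_le _ _).trans (by linarith)
    have h4 : ‖((1 / h : ℝ) : ℂ) * F‖ ^ 2 = 1 / h ^ 2 * ‖F‖ ^ 2 := by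
      rw [norm_mul, Complex.norm_real, Real.norm_eq_abs, mul_pow, sq_abs, div_pow, one_pow]
    have h5 : ‖S‖ ^ 2 ≤ 2 * ‖((1 / h : ℝ) : ℂ) * F‖ ^ 2 + 2 * (P * (7 * Y * h + 1)) ^ 2 := by
      have h6 := pow_le_pow_left₀ (norm_nonneg _) h3 2
      nlinarith [sq_nonneg (‖((1 / h : ℝ) : ℂ) * F‖ - P * (7 * Y * h + 1))]
    rw [h4] at h5
    have h6 : 1 / h ^ 2 * ‖F‖ ^ 2 ≤ 1 / h ^ 2 * ((J * h) * ∫ x in I, ‖AA (Ioc Y (3 * Y)) a h x‖ ^ 2) :=
      mul_le_mul_of_nonneg_left h2 (by positivity)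
    calc ‖S‖ ^ 2 ≤ 2 * (1 / h ^ 2 * ‖F‖ ^ 2) + 2 * (P * (7 * Y * h + 1)) ^ 2 := h5
      _ ≤ 2 * (1 / h ^ 2 * ((J * h) * ∫ x in I, ‖AA (Ioc Y (3 * Y)) a h x‖ ^ 2)) +
          2 * (P * (7 * Y * h + 1)) ^ 2 := by linarith
      _ = _ := by ring
  refine (Finset.sum_le_sum step).trans ?_
  rw [Finset.sum_add_distrib, ← Finset.mul_sum, Finset.sum_const, Nat.card_Ico, nsmul_eq_mul]
  have c1 : ((2 * Y - Y : ℕ) : ℝ) = Y := by
    rw [show 2 * Y - Y = Y by omega]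
  rw [c1]
  have c2 : 2 * (1 / h ^ 2 * (J * h)) *
      ∑ u ∈ Ico Y (2 * Y), ∫ x in Set.Icc (Real.log u) (Real.log (u + W : ℕ) - h),
        ‖AA (Ioc Y (3 * Y)) a h x‖ ^ 2 ≤ 2 * (1 / h ^ 2 * (J * h)) * (W * E) :=
    mul_le_mul_of_nonneg_left hov (by positivity)
  have c3 : 2 * (1 / h ^ 2 * (J * h)) * (W * E) = 2 * (J ^ 2 * Y) * E := by
    rw [hhdef]
    field_simp
  have c4 : 2 * ((J : ℝ) ^ 2 * Y) * E ≤ 2 * (J ^ 2 * Y) *
      (h ^ 2 * SS + C * (Y * P ^ 2) * ((Y : ℝ) / K ^ 2 + 1 / K)) :=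
    mul_le_mul_of_nonneg_left hE (by positivity)
  have c5 : 2 * ((J : ℝ) ^ 2 * Y) * (h ^ 2 * SS + C * (Y * P ^ 2) * ((Y : ℝ) / K ^ 2 + 1 / K)) =
      2 * ((W : ℝ) ^ 2 / Y * SS) + 2 * C * ((J : ℝ) ^ 2 * Y ^ 2 * P ^ 2 * ((Y : ℝ) / K ^ 2 + 1 / K)) := by
    have : (J : ℝ) ^ 2 * Y * h ^ 2 = (W : ℝ) ^ 2 / Y := by
      rw [hhdef]
      field_simp
    calc _ = 2 * ((J : ℝ) ^ 2 * Y * h ^ 2 * SS) +
          2 * C * ((J : ℝ) ^ 2 * Y ^ 2 * P ^ 2 * ((Y : ℝ) / K ^ 2 + 1 / K)) := by ring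
      _ = _ := by rw [this]
  have c6 : (Y : ℝ) * (2 * (P * (7 * Y * h + 1)) ^ 2) ≤ 196 * (Y * P ^ 2 * ((W : ℝ) ^ 2 / J ^ 2 + 1)) := by
    have h1 : (Y : ℝ) * h = W / J := by
      rw [hhdef]
      field_simp
    have h2 : (7 * Y * h + 1) ^ 2 ≤ 98 * ((W : ℝ) ^ 2 / J ^ 2 + 1) := by
      rw [show 7 * (Y : ℝ) * h = 7 * (W / J) by rw [mul_assoc, h1], ← div_pow]
      nlinarith [sq_nonneg (7 * ((W : ℝ) / J) - 1)]
    calc (Y : ℝ) * (2 * (P * (7 * Y * h + 1)) ^ 2) = 2 * (Y * P ^ 2) * (7 * Y * h + 1) ^ 2 := by ring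
      _ ≤ 2 * (Y * P ^ 2) * (98 * ((W : ℝ) ^ 2 / J ^ 2 + 1)) :=
        mul_le_mul_of_nonneg_left h2 (by positivity)
      _ = _ := by ring
  have n1 : 0 ≤ (W : ℝ) ^ 2 / Y * SS :=
    mul_nonneg (by positivity) (Finset.sum_nonneg fun _ _ => by positivity)
  have n2 : 0 ≤ (J : ℝ) ^ 2 * Y ^ 2 * P ^ 2 * ((Y : ℝ) / K ^ 2 + 1 / K) := by positivity
  have n3 : 0 ≤ (Y : ℝ) * P ^ 2 * ((W : ℝ) ^ 2 / J ^ 2 + 1) := by positivity
  have n4 := mul_nonneg hC.le n1
  have n5 := mul_nonneg hC.le n3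
  have n6 := mul_nonneg hC.le n2
  calc _ ≤ 2 * ((W : ℝ) ^ 2 / Y * SS) +
        2 * C * ((J : ℝ) ^ 2 * Y ^ 2 * P ^ 2 * ((Y : ℝ) / K ^ 2 + 1 / K)) +
        196 * (Y * P ^ 2 * ((W : ℝ) ^ 2 / J ^ 2 + 1)) := by linarith
    _ ≤ _ := by nlinarith

end Pool.Agent.helper24_UT.Win
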