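import Pool.Agent.H43.G.R_pool_sql_team_seeded_620a6dc7.helper24_UT_.Stm

/-!
# Project UT (helper24): primes at almost all systems of polynomials

Part 2a: the large sieve and the pair correlation over `b, c` (no primes). Definitions and statements.
-/

set_option autoImplicit false

namespace Pool.Agent.helper24_UT

open Finset

/-- the sum over the residue classes of the squares of the sums over the class in the window `(u, u + W]` -/
noncomputable def NN (a : ℤ → ℝ) (u : ℤ) (W q : ℕ) : ℝ :=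
  ∑ r ∈ range q, (∑ m ∈ (Ioc u (u + W)).filter (fun m => m % (q : ℤ) = (r : ℤ)), a m) ^ 2

/-- (23) the large sieve inequality for the moduli `q ≤ T` -/
def S_LSQ : Prop := ∃ C : ℝ, 1 ≤ C ∧ ∀ (a : ℤ → ℝ) (u : ℤ) (T W D₀ : ℕ) (P : ℝ), 1 ≤ D₀ → 0 ≤ P → (∀ m, |a m| ≤ P) →
  ∑ q ∈ Icc 1 T, (q : ℝ) * NN a u W q ≤
    T * ∑ d ∈ Icc 1 D₀, NN a u W d + C * (T * W * P ^ 2 * ((W : ℝ) / D₀ + T))

/-- (24) the correlation of `a (b n + c + s)` and `a (b n' + c + s')` over all `b, c ≤ H` -/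
def S_PAIR : Prop := ∃ C : ℝ, 1 ≤ C ∧ ∀ (a : ℤ → ℝ) (P : ℝ), 0 ≤ P → (∀ m, |a m| ≤ P) → ∀ (n n' H W X : ℕ) (s s' : ℤ),
  1 ≤ n' → n' < n → n ≤ H → 1 ≤ W → |s| + n * H + H + W ≤ X → |s'| + n * H + H + W ≤ X →
  |∑ b ∈ Icc 1 H, ∑ c ∈ Icc 1 H, a ((b : ℤ) * n + c + s) * a ((b : ℤ) * n' + c + s')| ≤
    C * (((n : ℝ) - n') * H / ((W : ℝ) ^ 2 * n') * ∑ u ∈ Icc (-(X : ℤ)) X, NN a u W (n - n') +
      P ^ 2 * H * (W * (n / ((n : ℝ) - n') + 1) + 1))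

end Pool.Agent.helper24_UT
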