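import Pool.Agent.H43.G.R_pool_sql_team_seeded_620a6dc7.helper24_UT_.Stm2

/-!
# Project UT (helper24): primes at almost all systems of polynomials

Part 3: systems. Statements.
-/

set_option autoImplicit false

namespace Pool.Agent.helper24_UT

open Finset
open Pool.Agent.H373R2.T7 (lamI lamzI lamz Vz pz)

/-- all the choices of `k` pairs `(b, c)`, `1 ≤ b, c ≤ H` -/
def Bx (k H : ℕ) : Finset (Fin k → ℕ × ℕ) := Fintype.piFinset fun _ => Icc 1 H ×ˢ Icc 1 H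

/-- the value of the function number `i` at `n` -/
def vl {k : ℕ} (g : Fin k → ℕ → ℤ) (v : Fin k → ℕ × ℕ) (i : Fin k) (n : ℕ) : ℤ :=
  ((v i).1 : ℤ) * n + (v i).2 + g i n

/-- (26) mean square over all choices, one length -/
def S_SYS : Prop := ∀ k e A : ℕ, 1 ≤ e → ∃ E₀ B : ℕ, ∀ E₁ : ℕ, ∃ H₀ : ℕ, ∀ H : ℕ, H₀ ≤ H → ∀ T : ℕ,
  (Real.log H) ^ B ≤ T → (T : ℝ) ≤ (H : ℝ) ^ (1 - 1 / e : ℝ) → ∀ z : ℕ, (Real.log H) ^ E₀ ≤ z →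
  (z : ℝ) ≤ (Real.log H) ^ E₁ → ∀ g : Fin k → ℕ → ℤ, (∀ i, ∀ n ∈ Icc 1 T, |g i n| ≤ H * n) →
  ∀ w : ℕ → ℝ, (∀ n, |w n| ≤ 1) →
  ∑ v ∈ Bx k H, (∑ n ∈ Icc 1 T, w n * (∏ i, lamI (vl g v i n) - ∏ i, lamzI z (vl g v i n))) ^ 2 ≤
    ((H : ℝ) ^ 2) ^ k * (T : ℝ) ^ 2 / (Real.log H) ^ A

/-- (27) almost all choices, all lengths -/
def S_ALL : Prop := ∀ k e A : ℕ, 1 ≤ e → ∃ E₀ B : ℕ, ∀ E₁ : ℕ, ∃ H₀ : ℕ, ∀ H : ℕ, H₀ ≤ H → ∀ T : ℕ,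
  (T : ℝ) ≤ (H : ℝ) ^ (1 - 1 / e : ℝ) → ∀ z : ℕ, (Real.log H) ^ E₀ ≤ z →
  (z : ℝ) ≤ (Real.log H) ^ E₁ → ∀ g : Fin k → ℕ → ℤ, (∀ i, ∀ n ∈ Icc 1 T, |g i n| ≤ H * n) →
  ∀ w : ℕ → ℝ, (∀ n, |w n| ≤ 1) → ∃ Bad : Finset (Fin k → ℕ × ℕ), Bad ⊆ Bx k H ∧
    (Bad.card : ℝ) ≤ ((H : ℝ) ^ 2) ^ k / (Real.log H) ^ A ∧
    ∀ v ∈ Bx k H, v ∉ Bad → ∀ y : ℕ, (Real.log H) ^ B ≤ y → y ≤ T →
      |∑ n ∈ Icc 1 y, w n * (∏ i, lamI (vl g v i n) - ∏ i, lamzI z (vl g v i n))| ≤ y / (Real.log H) ^ A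

end Pool.Agent.helper24_UT
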