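import Pool.Agent.H43.G.R_pool_sql_team_seeded_620a6dc7.helper24_UT_.Stm3
import Pool.Agent.H43.G.R_seed8.H373R2.T7.SysCount
import Pool.Agent.H43.G.R_seed8.H373R2.T7.Tuple2

/-!
# Project UT (helper24): primes at almost all systems of polynomials

Part 5: the main terms. Definitions and statements of the steps.
-/

set_option autoImplicit false

namespace Pool.Agent.helper24_UT

open Finset Polynomial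
open Pool.Agent.H373R2.T7 (lamI lamzI lamz Vz pz lamP)

/-- the sieve model on all integers -/
noncomputable def lz (z : ℕ) (m : ℤ) : ℝ := open Classical in if ∀ p ∈ pz z, ¬ (p : ℤ) ∣ m then (Vz z)⁻¹ else 0

/-- the number of the zeros modulo `p` of the product of the polynomials -/
noncomputable def om {k : ℕ} (F : Fin k → ℤ[X]) (p : ℕ) : ℕ :=
  open Classical in ((range p).filter (fun t : ℕ => ∃ i, (p : ℤ) ∣ (F i).eval (t : ℤ))).card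

/-- the Euler product over the primes `p ≤ z` -/
noncomputable def sg {k : ℕ} (z : ℕ) (F : Fin k → ℤ[X]) : ℝ :=
  ∏ p ∈ pz z, (1 - (om F p : ℝ) / p) / (1 - 1 / (p : ℝ)) ^ k

/-- the polynomials `G i + b i X + c i` -/
noncomputable def pl {k : ℕ} (G : Fin k → ℤ[X]) (v : Fin k → ℕ × ℕ) (i : Fin k) : ℤ[X] :=
  G i + C ((v i).1 : ℤ) * X + C ((v i).2 : ℤ)

/-- the product of the values of the model at `n` -/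
noncomputable def XX {k : ℕ} (z : ℕ) (G : Fin k → ℤ[X]) (v : Fin k → ℕ × ℕ) (n : ℕ) : ℝ :=
  ∏ i, lz z ((pl G v i).eval (n : ℤ))

/-- (30) long sums of the model: sieve -/
def S_MTL : Prop := ∀ k r E A : ℕ, ∃ H₀ : ℕ, ∀ H : ℕ, H₀ ≤ H → ∀ z : ℕ, 1 ≤ z → (z : ℝ) ≤ (Real.log H) ^ E →
  ∀ F : Fin k → ℤ[X], (∀ i, (F i).natDegree ≤ r) → ∀ y : ℕ, Real.exp (Real.sqrt (Real.log H)) ≤ y →
  |∑ n ∈ Icc 1 y, ∏ i, lz z ((F i).eval (n : ℤ)) - y * sg z F| ≤ y / (Real.log H) ^ A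

/-- the number of the excluded pairs of classes -/
noncomputable def nu2 (Q : ℕ → ℕ → ℕ → Prop) (p : ℕ) : ℕ :=
  open Classical in ((range p ×ˢ range p).filter (fun x : ℕ × ℕ => Q p x.1 x.2)).card

/-- (31) the sieve in two variables -/
def S_C2 : Prop := ∀ c E U : ℕ, ∃ H₀ : ℕ, ∀ H : ℕ, H₀ ≤ H → ∀ z : ℕ, 1 ≤ z → (z : ℝ) ≤ (Real.log H) ^ E →
  ∀ Q : ℕ → ℕ → ℕ → Prop, (∀ p b b', Q p b b' ↔ Q p (b % p) (b' % p)) → (∀ p, p.Prime → nu2 Q p ≤ c * p) →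
  |((open Classical in ((Icc 1 H ×ˢ Icc 1 H).filter (fun x : ℕ × ℕ => ∀ p ∈ pz z, ¬ Q p x.1 x.2)).card : ℕ) : ℝ) -
    (H : ℝ) ^ 2 * ∏ p ∈ pz z, (1 - (nu2 Q p : ℝ) / (p : ℝ) ^ 2)| ≤ (H : ℝ) ^ 2 / (Real.log H) ^ U

/-- `∏_{p ≤ z, p ∣ h} (1 - 1 / p)⁻¹` -/
noncomputable def kap (z h : ℕ) : ℝ := ∏ p ∈ (pz z).filter (fun p => p ∣ h), (1 - 1 / (p : ℝ))⁻¹

/-- (32) two-point correlations of the model over all `b, c ≤ H` -/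
def S_PT : Prop := ∀ E U : ℕ, ∃ H₀ : ℕ, ∀ H : ℕ, H₀ ≤ H → ∀ z : ℕ, 1 ≤ z → (z : ℝ) ≤ (Real.log H) ^ E →
  ∀ n n' : ℕ, n' < n → ∀ s s' : ℤ, ((n : ℤ) - n') ∣ s - s' →
  |∑ x ∈ Icc 1 H ×ˢ Icc 1 H, lz z ((x.1 : ℤ) * n + x.2 + s) * lz z ((x.1 : ℤ) * n' + x.2 + s') -
    (H : ℝ) ^ 2 * kap z (n - n')| ≤ (H : ℝ) ^ 2 / (Real.log H) ^ U

/-- the difference of two normalised indicator functions -/
noncomputable def ww (y Y n : ℕ) : ℝ := (if n ≤ y then 1 / (y : ℝ) else 0) - 1 / (Y : ℝ)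

/-- (33) the off-diagonal terms -/
def S_KAP : Prop := ∀ k z y Y : ℕ, 1 ≤ z → 1 ≤ y → y ≤ Y →
  |∑ n ∈ Icc 1 Y, ∑ n' ∈ (Icc 1 Y).filter (fun n' => n' ≠ n), ww y Y n * ww y Y n' *
    kap z (((n : ℤ) - n').natAbs) ^ k| ≤ 20 * ((Vz z)⁻¹) ^ k / y

/-- (34) the second moment of the difference of a short and a long average of the model -/
def S_MT2 : Prop := ∀ k E U : ℕ, ∃ H₀ : ℕ, ∀ H : ℕ, H₀ ≤ H → ∀ z : ℕ, 1 ≤ z → (z : ℝ) ≤ (Real.log H) ^ E →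
  ∀ y Y : ℕ, 1 ≤ y → y ≤ Y → ∀ G : Fin k → ℤ[X],
  ∑ v ∈ Bx k H, ((∑ n ∈ Icc 1 y, XX z G v n) / y - (∑ n ∈ Icc 1 Y, XX z G v n) / Y) ^ 2 ≤
    ((H : ℝ) ^ 2) ^ k * ((Real.log H) ^ (2 * k + 1) / y + 1 / (Real.log H) ^ U)

/-- (35) the sums of the model for almost all choices and all lengths -/
def S_MT : Prop := ∀ k r A : ℕ, ∃ B : ℕ, ∀ E : ℕ, ∃ H₀ : ℕ, ∀ H : ℕ, H₀ ≤ H → ∀ z : ℕ, 1 ≤ z →
  (z : ℝ) ≤ (Real.log H) ^ E → ∀ G : Fin k → ℤ[X], (∀ i, (G i).natDegree ≤ r) →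
  ∃ Bad : Finset (Fin k → ℕ × ℕ), Bad ⊆ Bx k H ∧ (Bad.card : ℝ) ≤ ((H : ℝ) ^ 2) ^ k / (Real.log H) ^ A ∧
    ∀ v ∈ Bx k H, v ∉ Bad → ∀ y : ℕ, (Real.log H) ^ B ≤ y →
      |∑ n ∈ Icc 1 y, XX z G v n - y * sg z (pl G v)| ≤ y / (Real.log H) ^ A

open Classical in
/-- (36) proper prime powers are rare among the values -/
def S_PP : Prop := ∀ k A : ℕ, ∃ H₀ : ℕ, ∀ H : ℕ, H₀ ≤ H → ∀ T : ℕ, T ≤ H →
  ∀ g : Fin k → ℕ → ℤ, (∀ i, ∀ n ∈ Icc 1 T, |g i n| ≤ H * n) →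
  ∃ Bad : Finset (Fin k → ℕ × ℕ), Bad ⊆ Bx k H ∧ (Bad.card : ℝ) ≤ ((H : ℝ) ^ 2) ^ k / (Real.log H) ^ A ∧
    ∀ v ∈ Bx k H, v ∉ Bad → ∀ y : ℕ, 1 ≤ y → y ≤ T →
      (((Icc 1 y).filter (fun n => ∃ i, lamI (vl g v i n) ≠ lamP (vl g v i n))).card : ℝ) ≤ y / (Real.log H) ^ A

/-- (37) combination: almost all choices, all lengths, primes weighted by logarithms -/
def S_PSI : Prop := ∀ k r A : ℕ, ∃ E₀ B : ℕ, ∀ E : ℕ, E₀ ≤ E → ∃ H₀ : ℕ, ∀ H : ℕ, H₀ ≤ H → ∀ T : ℕ,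
  (T : ℝ) * (Real.log H) ^ B ≤ H → ∀ G : Fin k → ℤ[X], (∀ i, (G i).natDegree ≤ r) →
  (∀ i, ∀ n ∈ Icc 1 T, |(((G i).eval (n : ℤ) : ℤ) : ℝ)| * (Real.log H) ^ B ≤ H * n) →
  ∃ Bad : Finset (Fin k → ℕ × ℕ), Bad ⊆ Bx k H ∧ (Bad.card : ℝ) ≤ ((H : ℝ) ^ 2) ^ k / (Real.log H) ^ A ∧
    ∀ v ∈ Bx k H, v ∉ Bad → (∀ i, (H : ℝ) / (Real.log H) ^ (A + 1) ≤ (v i).1) ∧
      ∀ y : ℕ, (Real.log H) ^ B ≤ y → y ≤ T →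
      |∑ n ∈ Icc 1 y, ∏ i, lamP ((pl G v i).eval (n : ℤ)) - y * sg ⌊(Real.log H) ^ E⌋₊ (pl G v)| ≤
        y / (Real.log H) ^ A

/-- (38) the Euler product is not too small if there is no fixed prime divisor -/
def S_LOW : Prop := ∀ k r E : ℕ, ∃ H₀ : ℕ, ∀ H : ℕ, H₀ ≤ H → ∀ z : ℕ, (z : ℝ) ≤ (Real.log H) ^ E →
  ∀ F : Fin k → ℤ[X], (∀ i, (F i).natDegree ≤ r) →
  (∀ p : ℕ, p.Prime → ∃ n : ℤ, ∀ i, ¬ (p : ℤ) ∣ (F i).eval n) → 1 / Real.log H ≤ sg z F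

open Classical in
/-- (39) from the sums weighted by logarithms to the number of the primes (a deterministic statement) -/
def S_IN : Prop := ∀ k A : ℕ, ∃ A' : ℕ, ∀ B₀ : ℕ, ∃ B H₀ : ℕ, B₀ ≤ B ∧ ∀ H : ℕ, H₀ ≤ H → ∀ y : ℕ,
  (Real.log H) ^ B ≤ y → y ≤ H → ∀ (b c : Fin k → ℕ) (F : Fin k → ℕ → ℤ) (S : ℝ),
  (∀ i, b i ≤ H ∧ 1 ≤ c i ∧ c i ≤ H) → ∀ A₂ : ℕ, A₂ ≤ A' + 1 → (∀ i, (H : ℝ) / (Real.log H) ^ A₂ ≤ b i) →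
  (∀ i, ∀ n ∈ Icc 1 y, |((F i n - (b i * n + c i : ℤ) : ℤ) : ℝ)| * (Real.log H) ^ B ≤ H * n) →
  0 ≤ S → S ≤ (Real.log H) ^ (k + 1) →
  (∀ t : ℕ, (Real.log H) ^ B₀ ≤ t → t ≤ y → |∑ n ∈ Icc 1 t, ∏ i, lamP (F i n) - t * S| ≤ t / (Real.log H) ^ A') →
  (∀ i, ∀ n ∈ Icc 1 y, 3 ≤ F i n) ∧
  |(((Icc 1 y).filter (fun n => ∀ i, (F i n).natAbs.Prime)).card : ℝ) -
    S * ∑ n ∈ Icc 1 y, ∏ i, 1 / Real.log ((F i n : ℤ) : ℝ)| ≤ y / (Real.log H) ^ A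

end Pool.Agent.helper24_UT
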