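import Pool.Agent.H43.G.R_pool_sql_team_seeded_620a6dc7.helper24_UT_.Stm4
import Pool.Agent.H43.G.R_pool_sql_team_seeded_620a6dc7.helper24_UT_.Stm5

/-!
# Project UT (helper24): primes at almost all systems of polynomials

Part 7: general boxes `b_i ≤ Q_i`, `c_i ≤ R_i`. Statements: the same as in parts 2a, 4, 5 with the box `[1, Q] × [1, R]` in place of `[1, H]²`.
-/

set_option autoImplicit false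

namespace Pool.Agent.helper24_UT

open Finset Polynomial
open Pool.Agent.H373R2.T7 (lamI lamzI lamz Vz pz lamP)

/-- all the choices of `k` pairs `(b_i, c_i)`, `1 ≤ b_i ≤ Q_i`, `1 ≤ c_i ≤ R_i` -/
def Bq {k : ℕ} (Q R : Fin k → ℕ) : Finset (Fin k → ℕ × ℕ) := Fintype.piFinset fun i => Icc 1 (Q i) ×ˢ Icc 1 (R i)

/-- the size of the box -/
noncomputable def vq {k : ℕ} (Q R : Fin k → ℕ) : ℝ := ∏ i, ((Q i : ℝ) * R i)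

/-- the sides of the box are comparable with `H` on the logarithmic scale -/
def Rg (e H Q R : ℕ) : Prop := (H : ℝ) ^ (1 / e : ℝ) ≤ R ∧ R ≤ Q ∧ Q ≤ H

/-- (24'') the correlation of `a (b n + c + s)` and `a (b n' + c + s')` over all `b ≤ Q`, `c ≤ R` -/
def S_PAIR3 : Prop := ∃ C : ℝ, 1 ≤ C ∧ ∀ (a : ℤ → ℝ) (P : ℝ), 0 ≤ P → (∀ m, |a m| ≤ P) → ∀ (n n' Q R W X : ℕ) (s s' : ℤ),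
  1 ≤ n' → n' < n → n ≤ R → R ≤ Q → 1 ≤ W → |s| + n * Q + Q + W ≤ X → |s'| + n * Q + Q + W ≤ X →
  |∑ b ∈ Icc 1 Q, ∑ c ∈ Icc 1 R, a ((b : ℤ) * n + c + s) * a ((b : ℤ) * n' + c + s')| ≤
    C * (((n : ℝ) - n') * R / ((W : ℝ) ^ 2 * n') * ∑ u ∈ Icc (-(X : ℤ)) X, NN a u W (n - n') +
      P ^ 2 * Q * (W * (n / ((n : ℝ) - n') + 1) + 1))

/-- (25'') no correlation of the primes minus their model along `b n + c + g n` with any bounded weights -/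
def S_UT3 : Prop := ∀ e A : ℕ, 1 ≤ e → ∃ E₀ B : ℕ, ∀ E₁ : ℕ, ∃ H₀ : ℕ, ∀ H : ℕ, H₀ ≤ H → ∀ Q R : ℕ, Rg e H Q R → ∀ T : ℕ,
  (Real.log H) ^ B ≤ T → (Q : ℝ) * T * (Real.log H) ^ B ≤ (R : ℝ) ^ 2 → ∀ z : ℕ, (Real.log H) ^ E₀ ≤ z →
  (z : ℝ) ≤ (Real.log H) ^ E₁ → ∀ g : ℕ → ℤ, (∀ n ∈ Icc 1 T, |g n| ≤ Q * n) → ∀ w : ℕ → ℝ, (∀ n, |w n| ≤ 1) →
  ∑ b ∈ Icc 1 Q, ∑ c ∈ Icc 1 R, (∑ n ∈ Icc 1 T, w n * Ed z ((b : ℤ) * n + c + g n)) ^ 2 ≤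
    (Q : ℝ) * R * (T : ℝ) ^ 2 / (Real.log H) ^ A

/-- (26'') mean square over all choices, one length -/
def S_SYS3 : Prop := ∀ k e A : ℕ, 1 ≤ e → ∃ E₀ B : ℕ, ∀ E₁ : ℕ, ∃ H₀ : ℕ, ∀ H : ℕ, H₀ ≤ H → ∀ T : ℕ,
  (Real.log H) ^ B ≤ T → ∀ Q R : Fin k → ℕ, (∀ i, Rg e H (Q i) (R i) ∧ (Q i : ℝ) * T * (Real.log H) ^ B ≤ (R i : ℝ) ^ 2) →
  ∀ z : ℕ, (Real.log H) ^ E₀ ≤ z → (z : ℝ) ≤ (Real.log H) ^ E₁ →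
  ∀ g : Fin k → ℕ → ℤ, (∀ i, ∀ n ∈ Icc 1 T, |g i n| ≤ Q i * n) → ∀ w : ℕ → ℝ, (∀ n, |w n| ≤ 1) →
  ∑ v ∈ Bq Q R, (∑ n ∈ Icc 1 T, w n * (∏ i, lamI (vl g v i n) - ∏ i, lamzI z (vl g v i n))) ^ 2 ≤
    vq Q R * (T : ℝ) ^ 2 / (Real.log H) ^ A

/-- (27'') almost all choices, all lengths -/
def S_ALL3 : Prop := ∀ k e A : ℕ, 1 ≤ e → ∃ E₀ B : ℕ, ∀ E₁ : ℕ, ∃ H₀ : ℕ, ∀ H : ℕ, H₀ ≤ H → ∀ T : ℕ,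
  ∀ Q R : Fin k → ℕ, (∀ i, Rg e H (Q i) (R i) ∧ (Q i : ℝ) * T * (Real.log H) ^ B ≤ (R i : ℝ) ^ 2) →
  ∀ z : ℕ, (Real.log H) ^ E₀ ≤ z → (z : ℝ) ≤ (Real.log H) ^ E₁ →
  ∀ g : Fin k → ℕ → ℤ, (∀ i, ∀ n ∈ Icc 1 T, |g i n| ≤ Q i * n) →
  ∀ w : ℕ → ℝ, (∀ n, |w n| ≤ 1) → ∃ Bad : Finset (Fin k → ℕ × ℕ), Bad ⊆ Bq Q R ∧
    (Bad.card : ℝ) ≤ vq Q R / (Real.log H) ^ A ∧
    ∀ v ∈ Bq Q R, v ∉ Bad → ∀ y : ℕ, (Real.log H) ^ B ≤ y → y ≤ T →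
      |∑ n ∈ Icc 1 y, w n * (∏ i, lamI (vl g v i n) - ∏ i, lamzI z (vl g v i n))| ≤ y / (Real.log H) ^ A

/-- (31'') the sieve in two variables -/
def S_C23 : Prop := ∀ c e E U : ℕ, 1 ≤ e → ∃ H₀ : ℕ, ∀ H : ℕ, H₀ ≤ H → ∀ Q R : ℕ, Rg e H Q R → ∀ z : ℕ, 1 ≤ z →
  (z : ℝ) ≤ (Real.log H) ^ E →
  ∀ P : ℕ → ℕ → ℕ → Prop, (∀ p b b', P p b b' ↔ P p (b % p) (b' % p)) → (∀ p, p.Prime → nu2 P p ≤ c * p) →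
  |((open Classical in ((Icc 1 Q ×ˢ Icc 1 R).filter (fun x : ℕ × ℕ => ∀ p ∈ pz z, ¬ P p x.1 x.2)).card : ℕ) : ℝ) -
    (Q : ℝ) * R * ∏ p ∈ pz z, (1 - (nu2 P p : ℝ) / (p : ℝ) ^ 2)| ≤ (Q : ℝ) * R / (Real.log H) ^ U

/-- (32'') two-point correlations of the model over the box -/
def S_PT3 : Prop := ∀ e E U : ℕ, 1 ≤ e → ∃ H₀ : ℕ, ∀ H : ℕ, H₀ ≤ H → ∀ Q R : ℕ, Rg e H Q R → ∀ z : ℕ, 1 ≤ z →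
  (z : ℝ) ≤ (Real.log H) ^ E → ∀ n n' : ℕ, n' < n → ∀ s s' : ℤ, ((n : ℤ) - n') ∣ s - s' →
  |∑ x ∈ Icc 1 Q ×ˢ Icc 1 R, lz z ((x.1 : ℤ) * n + x.2 + s) * lz z ((x.1 : ℤ) * n' + x.2 + s') -
    (Q : ℝ) * R * kap z (n - n')| ≤ (Q : ℝ) * R / (Real.log H) ^ U

/-- (34'') the second moment of the difference of a short and a long average of the model -/
def S_MT23 : Prop := ∀ k e E U : ℕ, 1 ≤ e → ∃ H₀ : ℕ, ∀ H : ℕ, H₀ ≤ H → ∀ Q R : Fin k → ℕ, (∀ i, Rg e H (Q i) (R i)) →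
  ∀ z : ℕ, 1 ≤ z → (z : ℝ) ≤ (Real.log H) ^ E →
  ∀ y Y : ℕ, 1 ≤ y → y ≤ Y → ∀ G : Fin k → ℤ[X],
  ∑ v ∈ Bq Q R, ((∑ n ∈ Icc 1 y, XX z G v n) / y - (∑ n ∈ Icc 1 Y, XX z G v n) / Y) ^ 2 ≤
    vq Q R * ((Real.log H) ^ (2 * k + 1) / y + 1 / (Real.log H) ^ U)

/-- (35'') the sums of the model for almost all choices and all lengths -/
def S_MT3 : Prop := ∀ k r e A : ℕ, 1 ≤ e → ∃ B : ℕ, ∀ E : ℕ, ∃ H₀ : ℕ, ∀ H : ℕ, H₀ ≤ H →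
  ∀ Q R : Fin k → ℕ, (∀ i, Rg e H (Q i) (R i)) → ∀ z : ℕ, 1 ≤ z →
  (z : ℝ) ≤ (Real.log H) ^ E → ∀ G : Fin k → ℤ[X], (∀ i, (G i).natDegree ≤ r) →
  ∃ Bad : Finset (Fin k → ℕ × ℕ), Bad ⊆ Bq Q R ∧ (Bad.card : ℝ) ≤ vq Q R / (Real.log H) ^ A ∧
    ∀ v ∈ Bq Q R, v ∉ Bad → ∀ y : ℕ, (Real.log H) ^ B ≤ y →
      |∑ n ∈ Icc 1 y, XX z G v n - y * sg z (pl G v)| ≤ y / (Real.log H) ^ A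

open Classical in
/-- (36'') proper prime powers are rare among the values -/
def S_PP3 : Prop := ∀ k e A : ℕ, 1 ≤ e → ∃ H₀ : ℕ, ∀ H : ℕ, H₀ ≤ H → ∀ Q R : Fin k → ℕ, (∀ i, Rg e H (Q i) (R i)) →
  ∀ T : ℕ, T ≤ H → ∀ g : Fin k → ℕ → ℤ, (∀ i, ∀ n ∈ Icc 1 T, |g i n| ≤ H * n) →
  ∃ Bad : Finset (Fin k → ℕ × ℕ), Bad ⊆ Bq Q R ∧ (Bad.card : ℝ) ≤ vq Q R / (Real.log H) ^ A ∧
    ∀ v ∈ Bq Q R, v ∉ Bad → ∀ y : ℕ, 1 ≤ y → y ≤ T →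
      (((Icc 1 y).filter (fun n => ∃ i, lamI (vl g v i n) ≠ lamP (vl g v i n))).card : ℝ) ≤ y / (Real.log H) ^ A

/-- (37'') combination: almost all choices, all lengths, primes weighted by logarithms -/
def S_PSI3 : Prop := ∀ k r e A : ℕ, 1 ≤ e → ∃ E₀ B : ℕ, ∀ E : ℕ, E₀ ≤ E → ∃ H₀ : ℕ, ∀ H : ℕ, H₀ ≤ H → ∀ T : ℕ,
  ∀ Q R : Fin k → ℕ, (∀ i, Rg e H (Q i) (R i) ∧ (Q i : ℝ) * T * (Real.log H) ^ B ≤ (R i : ℝ) ^ 2) →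
  ∀ G : Fin k → ℤ[X], (∀ i, (G i).natDegree ≤ r) →
  (∀ i, ∀ n ∈ Icc 1 T, |(((G i).eval (n : ℤ) : ℤ) : ℝ)| * (Real.log H) ^ B ≤ Q i * n) →
  ∃ Bad : Finset (Fin k → ℕ × ℕ), Bad ⊆ Bq Q R ∧ (Bad.card : ℝ) ≤ vq Q R / (Real.log H) ^ A ∧
    ∀ v ∈ Bq Q R, v ∉ Bad → (∀ i, (Q i : ℝ) / (Real.log H) ^ (A + 1) ≤ (v i).1) ∧
      ∀ y : ℕ, (Real.log H) ^ B ≤ y → y ≤ T →
      |∑ n ∈ Icc 1 y, ∏ i, lamP ((pl G v i).eval (n : ℤ)) - y * sg ⌊(Real.log H) ^ E⌋₊ (pl G v)| ≤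
        y / (Real.log H) ^ A

open Classical in
/-- (39'') from the sums weighted by logarithms to the number of the primes (a deterministic statement) -/
def S_IN3 : Prop := ∀ k e A : ℕ, 1 ≤ e → ∃ A' : ℕ, A ≤ A' ∧ ∀ B₀ : ℕ, ∃ B H₀ : ℕ, B₀ ≤ B ∧ ∀ H : ℕ, H₀ ≤ H → ∀ y : ℕ,
  (Real.log H) ^ B ≤ y → y ≤ H → ∀ (Q b c : Fin k → ℕ) (F : Fin k → ℕ → ℤ) (S : ℝ),
  (∀ i, (H : ℝ) ^ (1 / e : ℝ) ≤ Q i ∧ b i ≤ H ∧ 1 ≤ c i ∧ c i ≤ H ∧ (Q i : ℝ) / (Real.log H) ^ (A' + 1) ≤ b i) →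
  (∀ i, ∀ n ∈ Icc 1 y, |((F i n - (b i * n + c i : ℤ) : ℤ) : ℝ)| * (Real.log H) ^ B ≤ Q i * n) →
  0 ≤ S → S ≤ (Real.log H) ^ (k + 1) →
  (∀ t : ℕ, (Real.log H) ^ B₀ ≤ t → t ≤ y → |∑ n ∈ Icc 1 t, ∏ i, lamP (F i n) - t * S| ≤ t / (Real.log H) ^ A') →
  (∀ i, ∀ n ∈ Icc 1 y, 3 ≤ F i n) ∧
  |(((Icc 1 y).filter (fun n => ∀ i, (F i n).natAbs.Prime)).card : ℝ) -
    S * ∑ n ∈ Icc 1 y, ∏ i, 1 / Real.log ((F i n : ℤ) : ℝ)| ≤ y / (Real.log H) ^ A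

end Pool.Agent.helper24_UT
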