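import Pool.Agent.H43.G.R_pool_sql_team_seeded_620a6dc7.helper24_UT_.Stm
import Pool.Agent.H43.G.R_seed8.Y957.VK.Fin1

set_option autoImplicit false

namespace Pool.Agent.helper24_UT.Zsx

open Finset
open Pool.Agent.helper24_UT
open Pool.Agent.H376R2.MR (ch er DP FK)
open Pool.Agent.Y957.VK
open Pool.Agent.Y288.VK (exp_big mul_pow_le two_pow_le)
open Pool.Agent.Y70.VK (TT_le pow_le_exp card_good sum_two_mul log_one_add final consts)

/-- the coefficients of the phase of `(x + ab)^{-it}`, real `x` -/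
noncomputable def alR (t x : ℝ) (j : ℕ) : ℝ := (-1) ^ j * t / (2 * Real.pi * j * x ^ j)

theorem twR (h : S_WB) : ∃ C : ℕ, ∀ (N j r s M : ℕ) (x t κ : ℝ), 2 ≤ N → (N : ℝ) ≤ x → x ≤ 2 * N → 1 / 2 ≤ κ →
  |t| = (N : ℝ) ^ κ → r = ⌈5 * κ⌉₊ + 5 → s = 9 * r ^ 2 → M = ⌊(N : ℝ) ^ (2 / 5 : ℝ)⌋₊ → j ∈ Finset.Icc 1 r →
  WJ s M j (alR t x j) ≤ (M : ℝ) ^ (2 * j) * Real.exp (C * (1 + κ) ^ C) ∧
  ((s : ℝ) ≤ 3 * (N : ℝ) ^ (κ / 5) → 2 * κ ≤ j → (j : ℝ) ≤ 3 * κ + 1 / 2 →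
    WJ s M j (alR t x j) ≤ (M : ℝ) ^ (2 * j) *
      (Real.exp (C * (1 + κ) ^ C) * (1 + Real.log N) * (N : ℝ) ^ (-(κ / 5) : ℝ))) := by
  obtain ⟨C, hC⟩ : ∃ C : ℕ, C = 1000000 := ⟨_, rfl⟩
  have hCr : (C : ℝ) = 1000000 := by rw [hC]; norm_num
  have hC0 : C ≠ 0 := by omega
  clear hC
  refine ⟨C, ?_⟩
  intro N j r s M x t κ hN hx1' hx2' hκ ht hr hs hM hj
  obtain ⟨hj1, hj2⟩ := mem_Icc.1 hj
  have hNr : (2 : ℝ) ≤ N := by exact_mod_cast hN
  have hN0 : (0 : ℝ) < N := by linarith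
  have hN1 : (1 : ℝ) ≤ N := by linarith
  obtain ⟨k, hk⟩ : ∃ k : ℝ, k = 1 + κ := ⟨_, rfl⟩
  rw [← hk]
  have hk1 : 1 ≤ k := by rw [hk]; linarith
  have hk0 : 0 ≤ k := by linarith
  have hrk : (r : ℝ) ≤ 6 * k := by
    have h1 := Nat.ceil_lt_add_one (a := 5 * κ) (by linarith)
    rw [hr]
    push_cast
    rw [hk]
    linarith
  have hr5 : 5 ≤ r := by omega
  have hr0 : (0 : ℝ) ≤ r := Nat.cast_nonneg r
  have hs1 : 1 ≤ s := by rw [hs]; nlinarith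
  have hsr : (s : ℝ) = 9 * (r : ℝ) ^ 2 := by rw [hs]; push_cast; ring
  have hsk : (s : ℝ) ≤ 324 * k ^ 2 := by rw [hsr]; nlinarith
  have hs0 : (1 : ℝ) ≤ s := by exact_mod_cast hs1
  have hjk : (j : ℝ) ≤ 6 * k := by
    have h1 : (j : ℝ) ≤ r := by exact_mod_cast hj2
    linarith
  have hj0 : (1 : ℝ) ≤ j := by exact_mod_cast hj1
  have hx1 : (1 : ℝ) ≤ (N : ℝ) ^ (2 / 5 : ℝ) := Real.one_le_rpow hN1 (by norm_num)
  have hM1 : 1 ≤ M := by
    rw [hM]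
    exact Nat.le_floor (by exact_mod_cast hx1)
  have hMr : (M : ℝ) ≤ (N : ℝ) ^ (2 / 5 : ℝ) := by
    rw [hM]
    exact Nat.floor_le (by positivity)
  have hM0 : (1 : ℝ) ≤ M := by exact_mod_cast hM1
  have hM2 : (N : ℝ) ^ (2 / 5 : ℝ) ≤ 2 * M := by
    have h1 := Nat.lt_floor_add_one ((N : ℝ) ^ (2 / 5 : ℝ))
    rw [← hM] at h1
    linarith
  obtain ⟨hW1, hW2⟩ := h s M j (alR t x j) hs1 hM1
  have hVcast : ((s * M ^ j : ℕ) : ℝ) = s * (M : ℝ) ^ j := by push_cast; rfl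
  rw [hVcast] at hW1 hW2
  have hMj : (1 : ℝ) ≤ (M : ℝ) ^ j := one_le_pow₀ hM0
  have hV1 : 1 ≤ s * (M : ℝ) ^ j := one_le_mul_of_one_le_of_one_le hs0 hMj
  constructor
  · have h9 : 9 * (s : ℝ) ^ 2 ≤ Real.exp (C * k ^ C) := by
      calc 9 * (s : ℝ) ^ 2 ≤ 9 * (324 * k ^ 2) ^ 2 := by gcongr
        _ = 944784 * k ^ 4 := by ring
        _ ≤ Real.exp ((944784 + (4 : ℕ)) * k) := mul_pow_le (by norm_num) hk1 4
        _ ≤ _ := exp_big hk1 hC0 (by rw [hCr]; norm_num)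
    calc WJ s M j (alR t x j) ≤ (2 * (s * (M : ℝ) ^ j) + 1) ^ 2 := hW1
      _ ≤ (3 * (s * (M : ℝ) ^ j)) ^ 2 := pow_le_pow_left₀ (by linarith) (by linarith) 2
      _ = (M : ℝ) ^ (2 * j) * (9 * (s : ℝ) ^ 2) := by ring
      _ ≤ _ := mul_le_mul_of_nonneg_left h9 (by positivity)
  · intro hsN hj2κ hj3κ
    have hn0 : (N : ℝ) ≤ x := hx1'
    have hn2' : x ≤ 2 * N := hx2'
    have hnpos : (0 : ℝ) < x := by linarith
    have hpi := Real.pi_gt_three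
    have hpi4 := Real.pi_le_four
    have hden : 0 < 2 * Real.pi * j * x ^ j := by positivity
    have habs : |alR t x j| = (N : ℝ) ^ κ / (2 * Real.pi * j * x ^ j) := by
      unfold alR
      rw [abs_div, abs_mul, abs_pow, abs_neg, abs_one, one_pow, one_mul, ht, abs_of_pos hden]
    have hNκ : 0 < (N : ℝ) ^ κ := Real.rpow_pos_of_pos hN0 _
    have hane : alR t x j ≠ 0 := by
      rw [← abs_pos, habs]
      positivity
    have hNn : (N : ℝ) ^ j ≤ x ^ j := pow_le_pow_left₀ hN0.le hn0 j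
    have hMj2 : (M : ℝ) ^ j ≤ (N : ℝ) ^ (2 / 5 * j : ℝ) := by
      rw [Real.rpow_mul hN0.le, Real.rpow_natCast]
      exact pow_le_pow_left₀ (by linarith) hMr j
    have h2Mj : (N : ℝ) ^ (2 / 5 * j : ℝ) ≤ (2 * M : ℝ) ^ j := by
      rw [Real.rpow_mul hN0.le, Real.rpow_natCast]
      exact pow_le_pow_left₀ (by positivity) hM2 j
    have hsmall : |alR t x j| * (s * (M : ℝ) ^ j) ≤ 1 / 2 := by
      rw [habs, div_mul_eq_mul_div, div_le_iff₀ hden]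
      have h1 : (N : ℝ) ^ κ * (s * (M : ℝ) ^ j) ≤
          3 * (N : ℝ) ^ (κ + κ / 5 + 2 / 5 * j : ℝ) := by
        rw [Real.rpow_add hN0, Real.rpow_add hN0]
        calc (N : ℝ) ^ κ * (s * (M : ℝ) ^ j) ≤
            (N : ℝ) ^ κ * ((3 * (N : ℝ) ^ (κ / 5)) * (N : ℝ) ^ (2 / 5 * j : ℝ)) := by gcongr
          _ = _ := by ring
      have h2 : (N : ℝ) ^ (κ + κ / 5 + 2 / 5 * j : ℝ) ≤ (N : ℝ) ^ j := by
        rw [← Real.rpow_natCast (N : ℝ) j]
        exact Real.rpow_le_rpow_of_exponent_le hN1 (by linarith)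
      have h3 : 3 * (N : ℝ) ^ j ≤ Real.pi * j * x ^ j := by
        have h4 : 3 ≤ Real.pi * j := by
          calc (3 : ℝ) ≤ Real.pi * 1 := by linarith
            _ ≤ Real.pi * j := mul_le_mul_of_nonneg_left hj0 Real.pi_pos.le
        exact mul_le_mul h4 hNn (by positivity) (by positivity)
      calc (N : ℝ) ^ κ * (s * (M : ℝ) ^ j) ≤ 3 * (N : ℝ) ^ j := by linarith
        _ ≤ Real.pi * j * x ^ j := h3
        _ = 1 / 2 * (2 * Real.pi * j * x ^ j) := by ring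
    have hW := hW2 hane hsmall
    have hP : 0 < (N : ℝ) ^ (-(κ / 5) : ℝ) := Real.rpow_pos_of_pos hN0 _
    have hPP : (N : ℝ) ^ (κ / 5 : ℝ) * (N : ℝ) ^ (-(κ / 5) : ℝ) = 1 := by
      rw [← Real.rpow_add hN0, add_neg_cancel, Real.rpow_zero]
    have hlogN : 0 ≤ Real.log N := Real.log_nonneg hN1
    have hlogs : 0 ≤ Real.log s := Real.log_nonneg hs0
    obtain ⟨Q, hQ⟩ : ∃ Q : ℝ, Q = (M : ℝ) ^ (2 * j) * (N : ℝ) ^ (-(κ / 5) : ℝ) := ⟨_, rfl⟩
    have hQ0 : 0 < Q := by rw [hQ]; positivity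
    have hF1 : 3 * (s * (M : ℝ) ^ j) ≤ 3 * s * 2 ^ j * Q := by
      have h1 : 1 ≤ (2 * M : ℝ) ^ j * (N : ℝ) ^ (-(κ / 5) : ℝ) := by
        rw [← hPP]
        refine mul_le_mul_of_nonneg_right (le_trans ?_ h2Mj) hP.le
        exact Real.rpow_le_rpow_of_exponent_le hN1 (by linarith)
      calc 3 * (s * (M : ℝ) ^ j) = 3 * s * (M : ℝ) ^ j * 1 := by ring
        _ ≤ 3 * s * (M : ℝ) ^ j * ((2 * M : ℝ) ^ j * (N : ℝ) ^ (-(κ / 5) : ℝ)) :=
          mul_le_mul_of_nonneg_left h1 (by positivity)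
        _ = 3 * s * 2 ^ j * Q := by rw [hQ, mul_pow, two_mul j, pow_add]; ring
    have hF2 : 1 / |alR t x j| ≤ 2 * Real.pi * j * 8 ^ j * Q := by
      rw [habs, one_div_div, div_le_iff₀ hNκ]
      have h1 : x ^ j ≤ 2 ^ j * (N : ℝ) ^ j := by
        rw [← mul_pow]
        exact pow_le_pow_left₀ hnpos.le hn2' j
      have h2 : (N : ℝ) ^ j ≤ (2 * M : ℝ) ^ j * (2 * M : ℝ) ^ j * (N : ℝ) ^ (-(κ / 5) : ℝ) *
          (N : ℝ) ^ κ := by
        calc (N : ℝ) ^ j = (N : ℝ) ^ (j : ℝ) := (Real.rpow_natCast _ _).symm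
          _ ≤ (N : ℝ) ^ (2 / 5 * j + 2 / 5 * j + -(κ / 5) + κ : ℝ) :=
            Real.rpow_le_rpow_of_exponent_le hN1 (by linarith)
          _ = (N : ℝ) ^ (2 / 5 * j : ℝ) * (N : ℝ) ^ (2 / 5 * j : ℝ) *
              (N : ℝ) ^ (-(κ / 5) : ℝ) * (N : ℝ) ^ κ := by
            rw [Real.rpow_add hN0, Real.rpow_add hN0, Real.rpow_add hN0]
          _ ≤ _ := by gcongr
      have h8 : (8 : ℝ) ^ j = 2 ^ j * 2 ^ j * 2 ^ j := by
        rw [← mul_pow, ← mul_pow]; norm_num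
      calc 2 * Real.pi * j * x ^ j ≤ 2 * Real.pi * j * (2 ^ j * (N : ℝ) ^ j) :=
            mul_le_mul_of_nonneg_left h1 (by positivity)
        _ ≤ 2 * Real.pi * j * (2 ^ j * ((2 * M : ℝ) ^ j * (2 * M : ℝ) ^ j *
            (N : ℝ) ^ (-(κ / 5) : ℝ) * (N : ℝ) ^ κ)) := by gcongr
        _ = 2 * Real.pi * j * 8 ^ j * Q * (N : ℝ) ^ κ := by
            rw [hQ, mul_pow, two_mul j, pow_add, h8]; ring
    have hlogV : Real.log (s * (M : ℝ) ^ j) ≤ Real.log s + j * Real.log N := by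
      rw [Real.log_mul (by positivity) (by positivity), Real.log_pow]
      have h1 : Real.log M ≤ Real.log N := by
        refine Real.log_le_log (by linarith) (hMr.trans ?_)
        calc (N : ℝ) ^ (2 / 5 : ℝ) ≤ (N : ℝ) ^ (1 : ℝ) :=
              Real.rpow_le_rpow_of_exponent_le hN1 (by norm_num)
          _ = N := Real.rpow_one _
      have h2 := mul_le_mul_of_nonneg_left h1 (Nat.cast_nonneg (α := ℝ) j)
      linarith
    have hlog : 1 + Real.log (s * (M : ℝ) ^ j) ≤ (1 + Real.log s + j) * (1 + Real.log N) := by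
      have h3 := mul_nonneg hlogs hlogN
      have h4 : (1 + Real.log s + j) * (1 + Real.log N) =
          1 + Real.log s + j + Real.log N + Real.log s * Real.log N + j * Real.log N := by ring
      rw [h4]
      linarith
    have hlogV0 : 0 ≤ Real.log (s * (M : ℝ) ^ j) := Real.log_nonneg hV1
    have hE : 3 * s * 2 ^ j + 2 * Real.pi * j * 8 ^ j * (1 + Real.log s + j) ≤
        Real.exp (C * k ^ C) := by
      have e2 := two_pow_le hjk
      have e1 : 3 * (s : ℝ) * 2 ^ j ≤ Real.exp (980 * k) := by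
        calc 3 * (s : ℝ) * 2 ^ j ≤ (972 * k ^ 2) * Real.exp (6 * k) := by
              refine mul_le_mul (by linarith) e2 (by positivity) (by positivity)
          _ ≤ Real.exp ((972 + (2 : ℕ)) * k) * Real.exp (6 * k) :=
              mul_le_mul_of_nonneg_right (mul_pow_le (by norm_num) hk1 2) (Real.exp_pos _).le
          _ = Real.exp (980 * k) := by rw [← Real.exp_add]; push_cast; ring_nf
      have e8 : (8 : ℝ) ^ j ≤ Real.exp (18 * k) := by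
        calc (8 : ℝ) ^ j = (2 ^ j) ^ 3 := by rw [← pow_mul, mul_comm, pow_mul]; norm_num
          _ ≤ (Real.exp (6 * k)) ^ 3 := pow_le_pow_left₀ (by positivity) e2 3
          _ = Real.exp (18 * k) := by rw [← Real.exp_nat_mul]; push_cast; ring_nf
      have el : 1 + Real.log s + j ≤ 331 * k ^ 2 := by
        have h1 := Real.log_le_self (x := (s : ℝ)) (by linarith)
        have h2 : k ≤ k ^ 2 := le_self_pow₀ hk1 (by norm_num)
        linarith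
      have ep : 2 * Real.pi * j ≤ 48 * k := by
        calc 2 * Real.pi * j ≤ 2 * 4 * (6 * k) :=
              mul_le_mul (by linarith) hjk (by positivity) (by norm_num)
          _ = 48 * k := by ring
      have e3 : 2 * Real.pi * j * 8 ^ j * (1 + Real.log s + j) ≤ Real.exp (15909 * k) := by
        calc 2 * Real.pi * j * 8 ^ j * (1 + Real.log s + j) ≤
            48 * k * Real.exp (18 * k) * (331 * k ^ 2) := by
              refine mul_le_mul (mul_le_mul ep e8 (by positivity) (by positivity)) el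
                (by positivity) (by positivity)
          _ = (15888 * k ^ 3) * Real.exp (18 * k) := by ring
          _ ≤ Real.exp ((15888 + (3 : ℕ)) * k) * Real.exp (18 * k) :=
              mul_le_mul_of_nonneg_right (mul_pow_le (by norm_num) hk1 3) (Real.exp_pos _).le
          _ = Real.exp (15909 * k) := by rw [← Real.exp_add]; push_cast; ring_nf
      have e4 : Real.exp (980 * k) ≤ Real.exp (15909 * k) := Real.exp_le_exp.2 (by linarith)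
      have e5 : 2 ≤ Real.exp k := by
        have h1 := Real.add_one_le_exp k
        linarith
      calc 3 * s * 2 ^ j + 2 * Real.pi * j * 8 ^ j * (1 + Real.log s + j) ≤
          2 * Real.exp (15909 * k) := by linarith
        _ ≤ Real.exp k * Real.exp (15909 * k) :=
            mul_le_mul_of_nonneg_right e5 (Real.exp_pos _).le
        _ = Real.exp (15910 * k) := by rw [← Real.exp_add]; ring_nf
        _ ≤ _ := exp_big hk1 hC0 (by rw [hCr]; norm_num)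
    calc WJ s M j (alR t x j) ≤ 2 * (s * (M : ℝ) ^ j) + 1 +
          1 / |alR t x j| * (1 + Real.log (s * (M : ℝ) ^ j)) := hW
      _ ≤ 3 * s * 2 ^ j * Q + 2 * Real.pi * j * 8 ^ j * Q *
          ((1 + Real.log s + j) * (1 + Real.log N)) := by
            have h1 : 1 / |alR t x j| * (1 + Real.log (s * (M : ℝ) ^ j)) ≤
              2 * Real.pi * j * 8 ^ j * Q * ((1 + Real.log s + j) * (1 + Real.log N)) :=
              mul_le_mul hF2 hlog (by linarith) (by positivity)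
            linarith
      _ ≤ (3 * s * 2 ^ j + 2 * Real.pi * j * 8 ^ j * (1 + Real.log s + j)) *
          ((1 + Real.log N) * Q) := by
            have h1 : 0 ≤ 3 * s * 2 ^ j * Q * Real.log N := by positivity
            have h2 : (3 * s * 2 ^ j + 2 * Real.pi * j * 8 ^ j * (1 + Real.log s + j)) *
                ((1 + Real.log N) * Q) = 3 * s * 2 ^ j * Q + 3 * s * 2 ^ j * Q * Real.log N +
                2 * Real.pi * j * 8 ^ j * Q * ((1 + Real.log s + j) * (1 + Real.log N)) := by ring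
            rw [h2]
            linarith
      _ ≤ Real.exp (C * k ^ C) * ((1 + Real.log N) * Q) :=
            mul_le_mul_of_nonneg_right hE (by positivity)
      _ = _ := by rw [hQ]; ring

theorem tnR : ∃ (C : ℕ) (c : ℝ), 0 < c ∧ c ≤ 1 / 10 ∧ ∀ (N : ℕ) (x t κ : ℝ), 2 ≤ N → (N : ℝ) ≤ x → x ≤ 2 * N →
  1 / 2 ≤ κ → |t| = (N : ℝ) ^ κ →
  ‖TT (⌈5 * κ⌉₊ + 5) ⌊(N : ℝ) ^ (2 / 5 : ℝ)⌋₊ (alR t x)‖ ≤
    Real.exp (C * (1 + κ) ^ C) * (⌊(N : ℝ) ^ (2 / 5 : ℝ)⌋₊ : ℝ) ^ 2 * (N : ℝ) ^ (-(c / (1 + κ) ^ 2) : ℝ) := by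
  have h1 : S_VMVT := vmvt_all
  have h2 : S_DBL := dbl_all
  have h3 := twR Pool.Agent.Y331.VK.wb
  obtain ⟨C1, hV⟩ := h1
  obtain ⟨C0, hW⟩ := h3
  refine ⟨2 * C1 * 153 ^ C1 + 17 * C0 + 28900 + C1 + C0 + 1, 1 / 10 ^ 10, by norm_num,
    by norm_num, ?_⟩
  intro N x t κ hN hx1' hx2' hκ ht
  obtain ⟨r, hr⟩ : ∃ r : ℕ, r = ⌈5 * κ⌉₊ + 5 := ⟨_, rfl⟩
  obtain ⟨M, hM⟩ : ∃ M : ℕ, M = ⌊(N : ℝ) ^ (2 / 5 : ℝ)⌋₊ := ⟨_, rfl⟩
  rw [← hr, ← hM]
  have hκ0 : 0 < κ := by linarith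
  have hNr : (2 : ℝ) ≤ N := by exact_mod_cast hN
  have hN0 : (0 : ℝ) < N := by linarith
  have hr1 : 5 * κ + 5 ≤ (r : ℝ) := by
    rw [hr]
    push_cast
    have := Nat.le_ceil (5 * κ)
    linarith
  have hr2 : (r : ℝ) ≤ 5 * κ + 6 := by
    rw [hr]
    push_cast
    have := Nat.ceil_lt_add_one (a := 5 * κ) (by linarith)
    linarith
  have hr17 : (r : ℝ) ≤ 17 * κ := by linarith
  have hr0 : (0 : ℝ) ≤ r := Nat.cast_nonneg _
  have hrN : 2 ≤ r := by omega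
  have hM1 : 1 ≤ M := by
    rw [hM, Nat.one_le_floor_iff]
    exact Real.one_le_rpow (by linarith) (by norm_num)
  have hM1r : (1 : ℝ) ≤ M := by exact_mod_cast hM1
  have hMle : (M : ℝ) ≤ (N : ℝ) ^ (2 / 5 : ℝ) := by
    rw [hM]
    exact Nat.floor_le (by positivity)
  obtain ⟨L, hL⟩ : ∃ L : ℝ, L = Real.log N := ⟨_, rfl⟩
  obtain ⟨l, hl⟩ : ∃ l : ℝ, l = Real.log M := ⟨_, rfl⟩
  have hL0 : 0 ≤ L := by rw [hL]; exact Real.log_nonneg (by linarith)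
  have hl0 : 0 ≤ l := by rw [hl]; exact Real.log_nonneg hM1r
  have hlL : l ≤ 2 / 5 * L := by
    rw [hl, hL, ← Real.log_rpow hN0]
    exact Real.log_le_log (by linarith) hMle
  have hexpN : ∀ a : ℝ, (N : ℝ) ^ a = Real.exp (a * L) := by
    intro a
    rw [Real.rpow_def_of_pos hN0, hL, mul_comm]
  have hexpM : (M : ℝ) ^ 2 = Real.exp (2 * l) := by
    rw [hl, mul_comm, Real.exp_mul, Real.exp_log (by linarith)]
    norm_cast
  obtain ⟨C, hC⟩ : ∃ C : ℕ, C = 2 * C1 * 153 ^ C1 + 17 * C0 + 28900 + C1 + C0 + 1 := ⟨_, rfl⟩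
  have hcon := consts C0 C1 hκ hr0 hr17
  rw [← hC] at hcon ⊢
  rcases (norm_nonneg (TT r M (alR t x))).eq_or_lt with hT | hT
  · rw [← hT]
    positivity
  suffices hmain : Real.log ‖TT r M (alR t x)‖ ≤
      2 * l + C * (1 + κ) ^ C - 1 / 10 ^ 10 / (1 + κ) ^ 2 * L by
    rw [hexpM, hexpN, ← Real.exp_add, ← Real.exp_add, ← Real.exp_log hT]
    apply Real.exp_le_exp.2
    linarith
  by_cases hs : ((9 * r ^ 2 : ℕ) : ℝ) ≤ 3 * (N : ℝ) ^ (κ / 5)
  · -- main case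
    have hJ := hV r (8 * r) M hrN hM1
    have hD := h2 (9 * r ^ 2) r M (alR t x) (by
      have : 0 < r ^ 2 := by positivity
      omega) (by omega) hM1
    have hrs : r ^ 2 + r * (8 * r) = 9 * r ^ 2 := by ring
    rw [hrs] at hJ
    obtain ⟨e, he⟩ : ∃ e : ℝ, e = 2 * ((r : ℝ) ^ 2 + r * (8 * r)) - r * (r + 1) / 2 +
      r * (r + 1) / 2 * (1 - 1 / (r : ℝ)) ^ (8 * r) := ⟨_, rfl⟩
    have hJ' : (J (9 * r ^ 2) r M : ℝ) ≤ Real.exp (C1 * ((r : ℝ) + 8 * r) ^ C1) * (M : ℝ) ^ e := by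
      rw [he]
      refine hJ.trans (le_of_eq ?_)
      push_cast
      rfl
    have hTpow : 0 < ‖TT r M (alR t x)‖ ^ (4 * (9 * r ^ 2) ^ 2) := pow_pos hT _
    have hprod : 0 < (M : ℝ) ^ (8 * (9 * r ^ 2) ^ 2 - 4 * (9 * r ^ 2)) *
        (J (9 * r ^ 2) r M : ℝ) ^ 2 * ∏ j ∈ Finset.Icc 1 r, WJ (9 * r ^ 2) M j (alR t x j) :=
      hTpow.trans_le hD
    have hJpos : (0 : ℝ) < J (9 * r ^ 2) r M := by
      rcases (Nat.cast_nonneg (α := ℝ) (J (9 * r ^ 2) r M)).eq_or_lt with h | h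
      · rw [← h] at hprod
        simp at hprod
      · exact h
    have hWnn : ∀ j, 0 ≤ WJ (9 * r ^ 2) M j (alR t x j) := by
      intro j
      unfold WJ
      refine Finset.sum_nonneg fun u _ => ?_
      unfold mn dz
      split_ifs
      · positivity
      · refine le_min (by positivity) ?_
        have := abs_nonneg (alR t x j * u - round (alR t x j * u))
        positivity
    have hWpos : ∀ j ∈ Finset.Icc 1 r, 0 < WJ (9 * r ^ 2) M j (alR t x j) := by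
      intro j hj
      rcases (hWnn j).eq_or_lt with h | h
      · rw [Finset.prod_eq_zero hj h.symm, mul_zero] at hprod
        exact absurd hprod (lt_irrefl _)
      · exact h
    have hlogJ : Real.log (J (9 * r ^ 2) r M : ℝ) ≤ C1 * ((r : ℝ) + 8 * r) ^ C1 + e * l := by
      refine (Real.log_le_log hJpos hJ').trans (le_of_eq ?_)
      rw [Real.log_mul (Real.exp_pos _).ne' (Real.rpow_pos_of_pos (by linarith) _).ne',
        Real.log_exp, Real.log_rpow (by linarith), hl]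
    have hlog1L : 0 ≤ Real.log (1 + L) := Real.log_nonneg (by linarith)
    have hlogW : ∀ j ∈ Finset.Icc 1 r, Real.log (WJ (9 * r ^ 2) M j (alR t x j)) ≤
        2 * (j : ℝ) * l + C0 * (1 + κ) ^ C0 + Real.log (1 + L) -
          (if 2 * κ ≤ j ∧ (j : ℝ) ≤ 3 * κ + 1 / 2 then κ / 5 * L else 0) := by
      intro j hj
      obtain ⟨k1, k2⟩ := hW N j r (9 * r ^ 2) M x t κ hN hx1' hx2' hκ ht hr rfl hM hj
      have hM2j : Real.log ((M : ℝ) ^ (2 * j)) = 2 * (j : ℝ) * l := by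
        rw [Real.log_pow, hl]
        push_cast
        ring
      have hMp : (0 : ℝ) < (M : ℝ) ^ (2 * j) := by positivity
      split_ifs with hg
      · have k3 := k2 hs hg.1 hg.2
        refine (Real.log_le_log (hWpos j hj) k3).trans (le_of_eq ?_)
        have k4 : (0 : ℝ) < 1 + Real.log N := by rw [← hL]; linarith
        rw [Real.log_mul hMp.ne' (by positivity), Real.log_mul (by positivity) (by positivity),
          Real.log_mul (Real.exp_pos _).ne' k4.ne', Real.log_exp, hM2j, Real.log_rpow hN0, ← hL]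
        ring
      · refine (Real.log_le_log (hWpos j hj) k1).trans ?_
        rw [Real.log_mul hMp.ne' (Real.exp_pos _).ne', Real.log_exp, hM2j]
        linarith
    obtain ⟨g, hg⟩ : ∃ g : ℝ, g = (((Finset.Icc 1 r).filter fun j : ℕ =>
      2 * κ ≤ j ∧ (j : ℝ) ≤ 3 * κ + 1 / 2).card : ℝ) := ⟨_, rfl⟩
    have hsum : ∑ j ∈ Finset.Icc 1 r, Real.log (WJ (9 * r ^ 2) M j (alR t x j)) ≤
        r * (r + 1) * l + r * (C0 * (1 + κ) ^ C0) + r * Real.log (1 + L) - g * (κ / 5 * L) := by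
      refine (Finset.sum_le_sum hlogW).trans (le_of_eq ?_)
      rw [Finset.sum_sub_distrib, Finset.sum_add_distrib, Finset.sum_add_distrib,
        ← Finset.sum_mul, sum_two_mul, Finset.sum_const, Finset.sum_const, Nat.card_Icc,
        ← Finset.sum_filter, Finset.sum_const, hg]
      simp only [Nat.add_sub_cancel, nsmul_eq_mul]
    have hlogD : ((4 * (9 * r ^ 2) ^ 2 : ℕ) : ℝ) * Real.log ‖TT r M (alR t x)‖ ≤
        ((8 * (9 * r ^ 2) ^ 2 - 4 * (9 * r ^ 2) : ℕ) : ℝ) * l +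
          2 * Real.log (J (9 * r ^ 2) r M : ℝ) +
          ∑ j ∈ Finset.Icc 1 r, Real.log (WJ (9 * r ^ 2) M j (alR t x j)) := by
      have k1 := Real.log_le_log hTpow hD
      have k2 : (0 : ℝ) < ∏ j ∈ Finset.Icc 1 r, WJ (9 * r ^ 2) M j (alR t x j) :=
        Finset.prod_pos hWpos
      rw [Real.log_mul (by positivity) k2.ne', Real.log_mul (by positivity) (by positivity),
        Real.log_pow, Real.log_pow, Real.log_pow, Real.log_prod (fun j hj => (hWpos j hj).ne'),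
        ← hl] at k1
      exact_mod_cast k1
    have hcast1 : ((4 * (9 * r ^ 2) ^ 2 : ℕ) : ℝ) = 4 * (9 * (r : ℝ) ^ 2) ^ 2 := by push_cast; ring
    have hcast2 : ((8 * (9 * r ^ 2) ^ 2 - 4 * (9 * r ^ 2) : ℕ) : ℝ) =
        8 * (9 * (r : ℝ) ^ 2) ^ 2 - 4 * (9 * (r : ℝ) ^ 2) := by
      rw [Nat.cast_sub]
      · push_cast
        ring
      · have k1 : 1 ≤ 9 * r ^ 2 := by
          have : 0 < r ^ 2 := by positivity
          omega
        nlinarith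
    rw [hcast1, hcast2] at hlogD
    have hη : r * (r + 1) / 2 * (1 - 1 / (r : ℝ)) ^ (8 * r) ≤ (r : ℝ) * (r + 1) / 2 / 2937 := by
      have k1 := pow_le_exp (r := r) (by omega)
      calc (r : ℝ) * (r + 1) / 2 * (1 - 1 / (r : ℝ)) ^ (8 * r) ≤
          (r : ℝ) * (r + 1) / 2 * (1 / 2937) := by gcongr
        _ = _ := by ring
    have hfin := final (κ := κ) (L := L) (l := l) (r := r)
      (η := r * (r + 1) / 2 * (1 - 1 / (r : ℝ)) ^ (8 * r)) (g := g)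
      (A0 := C0 * (1 + κ) ^ C0) (A1 := C1 * ((r : ℝ) + 8 * r) ^ C1)
      (y := Real.log ‖TT r M (alR t x)‖) hκ hL0 hl0 hlL hr1 hr2 hη
      (by rw [hg]; exact card_good hκ hr1) (by positivity) (by positivity) (by
        rw [← he]
        linarith)
    linarith
  · -- small `N`
    push Not at hs
    have k1 : κ / 5 * L ≤ (N : ℝ) ^ (κ / 5) := by
      rw [hexpN]
      have := Real.add_one_le_exp (κ / 5 * L)
      linarith
    have k2 : κ / 5 * L ≤ 9 * (r : ℝ) ^ 2 := by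
      push_cast at hs
      have k3 : (0 : ℝ) < (N : ℝ) ^ (κ / 5) := by positivity
      linarith
    have k3 : (r : ℝ) ^ 2 ≤ 289 * κ ^ 2 := by
      calc (r : ℝ) ^ 2 ≤ (17 * κ) ^ 2 := by gcongr
        _ = 289 * κ ^ 2 := by ring
    have k4 : L ≤ 26010 * (1 + κ) ^ 2 := by
      have k5 : κ / 5 * L ≤ κ / 5 * (13005 * κ) := by
        calc κ / 5 * L ≤ 9 * (289 * κ ^ 2) := by linarith
          _ = κ / 5 * (13005 * κ) := by ring
      have k6 : L ≤ 13005 * κ := le_of_mul_le_mul_left k5 (by positivity)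
      nlinarith
    have k5 : 1 / 10 ^ 10 / (1 + κ) ^ 2 * L ≤ 1 := by
      have k6 : (0 : ℝ) < (1 + κ) ^ 2 := by positivity
      rw [div_div, div_mul_eq_mul_div, div_le_one (by positivity)]
      nlinarith
    have k6 : Real.log ‖TT r M (alR t x)‖ ≤ 2 * l := by
      refine (Real.log_le_log hT (TT_le _ _ _)).trans (le_of_eq ?_)
      rw [Real.log_pow, hl]
      norm_num
    have k7 : (1 : ℝ) ≤ C * (1 + κ) ^ C := by
      have k8 : (1 : ℝ) ≤ C := by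
        have : 1 ≤ C := by omega
        exact_mod_cast this
      have k9 : (1 : ℝ) ≤ (1 + κ) ^ C := one_le_pow₀ (by linarith)
      nlinarith
    linarith


theorem tw_exp (t x : ℝ) : tw t x = Complex.exp (Complex.I * ((-t * Real.log x : ℝ) : ℂ)) := by
  unfold tw er
  congr 1
  push_cast
  ring

theorem norm_tw (t x : ℝ) : ‖tw t x‖ = 1 := by
  rw [tw_exp]
  exact Complex.norm_exp_I_mul_ofReal _

/-- the phase of the bilinear sum -/
theorem phase_eqR (t n : ℝ) (r x y : ℕ) (hn : 0 < n) :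
    2 * Real.pi * (∑ j ∈ Finset.Icc 1 r, alR t n j * ((x : ℝ) * y) ^ j) =
      -t * Pool.Agent.Y125.VK.Lr r ((x : ℝ) * y / n) := by
  have hI : Finset.Icc 1 r = Finset.Ico 1 (r + 1) := rfl
  have hn0 : n ≠ 0 := hn.ne'
  rw [hI, Finset.sum_Ico_eq_sum_range, Nat.add_sub_cancel]
  unfold Pool.Agent.Y125.VK.Lr alR
  rw [Finset.mul_sum, Finset.mul_sum]
  refine Finset.sum_congr rfl fun j _ => ?_
  have hj : (j : ℝ) + 1 ≠ 0 := by positivity
  have hj' : (1 : ℝ) + j ≠ 0 := by positivity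
  have hpi : Real.pi ≠ 0 := Real.pi_ne_zero
  rw [div_pow, add_comm 1 j, pow_succ (-1 : ℝ) j]
  push_cast
  field_simp

theorem term_eqR (t n : ℝ) (x y : ℕ) (hn : 0 < n) :
    tw t (n + x * y) = tw t n *
        Complex.exp (Complex.I * ((-t * Real.log (1 + (x : ℝ) * y / n) : ℝ) : ℂ)) := by
  rw [tw_exp, tw_exp, ← Complex.exp_add, ← mul_add, ← Complex.ofReal_add]
  congr 3
  have h1 : n + x * y = n * (1 + (x : ℝ) * y / n) := by
    field_simp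
  rw [h1, Real.log_mul hn.ne' (by positivity)]
  ring

/-- one value of `n` -/
theorem innerR (t n : ℝ) (N M r : ℕ) (hN : 1 ≤ N) (hn : (N : ℝ) ≤ n) :
    ‖∑ x ∈ Finset.Icc 1 M, ∑ y ∈ Finset.Icc 1 M, tw t (n + x * y)‖ ≤
      ‖TT r M (alR t n)‖ + (M : ℝ) ^ 2 * (|t| * ((M : ℝ) ^ 2 / N) ^ (r + 1)) := by
  have hN0 : (0 : ℝ) < N := by exact_mod_cast hN
  have hn0 : 0 < n := lt_of_lt_of_le hN0 hn
  have h1 : ∀ x ∈ Finset.Icc 1 M, ∀ y ∈ Finset.Icc 1 M,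
      ‖tw t (n + x * y) - tw t n *
        Complex.exp (2 * Real.pi * Complex.I *
          ((∑ j ∈ Finset.Icc 1 r, alR t n j * ((x : ℝ) * y) ^ j : ℝ) : ℂ))‖ ≤
      |t| * ((M : ℝ) ^ 2 / N) ^ (r + 1) := by
    intro x hx y hy
    have hx' := Finset.mem_Icc.1 hx
    have hy' := Finset.mem_Icc.1 hy
    have h2 : Complex.exp (2 * Real.pi * Complex.I *
          ((∑ j ∈ Finset.Icc 1 r, alR t n j * ((x : ℝ) * y) ^ j : ℝ) : ℂ)) =
        Complex.exp (Complex.I * ((-t * Pool.Agent.Y125.VK.Lr r ((x : ℝ) * y / n) : ℝ) : ℂ)) := by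
      rw [← phase_eqR t n r x y hn0]
      congr 1
      push_cast
      ring
    rw [h2, term_eqR t n x y hn0, ← mul_sub, norm_mul, norm_tw, one_mul]
    refine (Pool.Agent.Y125.VK.exp_sub_le _ _).trans ?_
    rw [← mul_sub, abs_mul, abs_neg]
    refine mul_le_mul_of_nonneg_left ?_ (abs_nonneg _)
    refine (Pool.Agent.Y125.VK.log_bound r _ (by positivity)).trans ?_
    refine pow_le_pow_left₀ (by positivity) ?_ _
    have h3 : (x : ℝ) ≤ M := by exact_mod_cast hx'.2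
    have h4 : (y : ℝ) ≤ M := by exact_mod_cast hy'.2
    have h6 : (x : ℝ) * y ≤ (M : ℝ) ^ 2 := by
      rw [sq]
      exact mul_le_mul h3 h4 (by positivity) (by positivity)
    exact div_le_div₀ (by positivity) h6 hN0 hn
  have h2 : ∑ x ∈ Finset.Icc 1 M, ∑ y ∈ Finset.Icc 1 M, tw t (n + x * y) =
      tw t n * TT r M (alR t n) +
      ∑ x ∈ Finset.Icc 1 M, ∑ y ∈ Finset.Icc 1 M,
        (tw t (n + x * y) - tw t n *
        Complex.exp (2 * Real.pi * Complex.I *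
          ((∑ j ∈ Finset.Icc 1 r, alR t n j * ((x : ℝ) * y) ^ j : ℝ) : ℂ))) := by
    unfold TT
    simp only [Finset.sum_sub_distrib, Finset.mul_sum]
    ring
  rw [h2]
  refine (norm_add_le _ _).trans ?_
  rw [norm_mul, norm_tw, one_mul]
  refine add_le_add le_rfl ?_
  refine (norm_sum_le _ _).trans ?_
  refine (Finset.sum_le_sum fun x hx => (norm_sum_le _ _).trans
    (Finset.sum_le_sum fun y hy => h1 x hx y hy)).trans ?_
  simp only [Finset.sum_const, Nat.card_Icc, Nat.add_sub_cancel, nsmul_eq_mul]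
  rw [sq]
  linarith

theorem sum_le_card (g : ℕ → ℂ) (hg : ∀ n, ‖g n‖ ≤ 1) (a b : ℕ) :
    ‖∑ n ∈ Finset.Ioc a (a + b), g n‖ ≤ b := by
  refine (norm_sum_le _ _).trans ?_
  refine (Finset.sum_le_sum fun n _ => hg n).trans ?_
  simp

/-- the shift of a sum -/
theorem shift_oneR (g : ℕ → ℂ) (hg : ∀ n, ‖g n‖ ≤ 1) (N N' h : ℕ) (hNN : N ≤ N') :
    ‖∑ n ∈ Finset.Ioc N N', g n - ∑ n ∈ Finset.Ioc N N', g (n + h)‖ ≤ 2 * h := by
  have hb := sum_le_card g hg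
  have h1 : ∑ n ∈ Finset.Ioc N N', g (n + h) = ∑ n ∈ Finset.Ioc (N + h) (N' + h), g n := by
    rw [← Finset.map_add_right_Ioc, Finset.sum_map]
    rfl
  have h2 : ∑ n ∈ Finset.Ioc N N', g n + ∑ n ∈ Finset.Ioc N' (N' + h), g n =
      ∑ n ∈ Finset.Ioc N (N + h), g n + ∑ n ∈ Finset.Ioc (N + h) (N' + h), g n := by
    rw [Finset.sum_Ioc_consecutive g hNN (by omega),
      Finset.sum_Ioc_consecutive g (by omega) (by omega)]
  have h3 : ∑ n ∈ Finset.Ioc N N', g n - ∑ n ∈ Finset.Ioc N N', g (n + h) =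
      ∑ n ∈ Finset.Ioc N (N + h), g n - ∑ n ∈ Finset.Ioc N' (N' + h), g n := by
    rw [h1]
    linear_combination h2
  rw [h3]
  refine (norm_sub_le _ _).trans ?_
  linarith [hb N h, hb N' h]

theorem shiftR (N N' M r : ℕ) (t θ : ℝ) (hN : 1 ≤ N) (hNN : N ≤ N') (hN2 : N' ≤ 2 * N)
    (hM : 1 ≤ M) (hθ : 0 ≤ θ) :
    ‖∑ n ∈ Finset.Ioc N N', tw t (n + θ)‖ ≤
    1 / (M : ℝ) ^ 2 * ∑ n ∈ Finset.Ioc N N', ‖TT r M (alR t (n + θ))‖ + 2 * (M : ℝ) ^ 2 +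
      N * |t| * ((M : ℝ) ^ 2 / N) ^ (r + 1) := by
  obtain ⟨S, hS⟩ : ∃ S, S = ∑ n ∈ Finset.Ioc N N', tw t (n + θ) := ⟨_, rfl⟩
  rw [← hS]
  have hM0 : (0 : ℝ) < M := by exact_mod_cast hM
  have h1 : (M : ℂ) ^ 2 * S = ∑ x ∈ Finset.Icc 1 M, ∑ y ∈ Finset.Icc 1 M,
      (S - ∑ n ∈ Finset.Ioc N N', tw t (n + θ + x * y)) +
      ∑ n ∈ Finset.Ioc N N', ∑ x ∈ Finset.Icc 1 M, ∑ y ∈ Finset.Icc 1 M,
        tw t (n + θ + x * y) := by
    have h2 : ∑ n ∈ Finset.Ioc N N', ∑ x ∈ Finset.Icc 1 M, ∑ y ∈ Finset.Icc 1 M,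
        tw t (n + θ + x * y) =
        ∑ x ∈ Finset.Icc 1 M, ∑ y ∈ Finset.Icc 1 M, ∑ n ∈ Finset.Ioc N N',
        tw t (n + θ + x * y) := by
      rw [Finset.sum_comm]
      refine Finset.sum_congr rfl fun x _ => ?_
      rw [Finset.sum_comm]
    rw [h2]
    simp only [Finset.sum_sub_distrib, Finset.sum_const, Nat.card_Icc, Nat.add_sub_cancel,
      nsmul_eq_mul]
    ring
  have h3 : (M : ℝ) ^ 2 * ‖S‖ ≤ (M : ℝ) ^ 2 * (2 * (M : ℝ) ^ 2) +
      ∑ n ∈ Finset.Ioc N N', (‖TT r M (alR t (n + θ))‖ +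
        (M : ℝ) ^ 2 * (|t| * ((M : ℝ) ^ 2 / N) ^ (r + 1))) := by
    have h4 : ‖(M : ℂ) ^ 2 * S‖ = (M : ℝ) ^ 2 * ‖S‖ := by
      rw [norm_mul, norm_pow, Complex.norm_natCast]
    rw [← h4, h1]
    refine (norm_add_le _ _).trans (add_le_add ?_ ?_)
    · refine (norm_sum_le _ _).trans ?_
      refine (Finset.sum_le_sum (g := fun _ => (M : ℝ) * (2 * (M : ℝ) ^ 2)) fun x hx =>
        (norm_sum_le _ _).trans ?_).trans ?_
      · refine (Finset.sum_le_sum (g := fun _ => 2 * (M : ℝ) ^ 2) fun y hy => ?_).trans ?_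
        · have hsh := shift_oneR (fun n : ℕ => tw t (n + θ)) (fun n => (norm_tw t _).le)
            N N' (x * y) hNN
          have e : ∀ n : ℕ, tw t (((n + x * y : ℕ) : ℝ) + θ) = tw t (n + θ + x * y) := by
            intro n
            congr 1
            push_cast
            ring
          simp only [e] at hsh
          rw [hS]
          refine hsh.trans ?_
          have hx' : (x : ℝ) ≤ M := by exact_mod_cast (Finset.mem_Icc.1 hx).2
          have hy' : (y : ℝ) ≤ M := by exact_mod_cast (Finset.mem_Icc.1 hy).2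
          have : (x : ℝ) * y ≤ M * M := mul_le_mul hx' hy' (by positivity) (by positivity)
          push_cast
          nlinarith
        · simp
      · simp only [Finset.sum_const, Nat.card_Icc, Nat.add_sub_cancel, nsmul_eq_mul]
        rw [sq]
        linarith
    · refine (norm_sum_le _ _).trans (Finset.sum_le_sum fun n hn => ?_)
      refine innerR t (n + θ) N M r hN ?_
      have : (N : ℝ) ≤ n := by exact_mod_cast (Finset.mem_Ioc.1 hn).1.le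
      linarith
  rw [Finset.sum_add_distrib] at h3
  have h5 : ∑ n ∈ Finset.Ioc N N', (M : ℝ) ^ 2 * (|t| * ((M : ℝ) ^ 2 / N) ^ (r + 1)) ≤
      (M : ℝ) ^ 2 * (N * |t| * ((M : ℝ) ^ 2 / N) ^ (r + 1)) := by
    rw [Finset.sum_const, Nat.card_Ioc, nsmul_eq_mul]
    have h6 : ((N' - N : ℕ) : ℝ) ≤ N := by exact_mod_cast (by omega : N' - N ≤ N)
    have h7 : 0 ≤ (M : ℝ) ^ 2 * (|t| * ((M : ℝ) ^ 2 / N) ^ (r + 1)) := by positivity
    calc _ ≤ (N : ℝ) * ((M : ℝ) ^ 2 * (|t| * ((M : ℝ) ^ 2 / N) ^ (r + 1))) :=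
          mul_le_mul_of_nonneg_right h6 h7
      _ = _ := by ring
  have h8 : (0 : ℝ) < (M : ℝ) ^ 2 := by positivity
  have h9 : (M : ℝ) ^ 2 * ‖S‖ ≤ (M : ℝ) ^ 2 * (1 / (M : ℝ) ^ 2 *
      ∑ n ∈ Finset.Ioc N N', ‖TT r M (alR t (n + θ))‖ + 2 * (M : ℝ) ^ 2 +
      N * |t| * ((M : ℝ) ^ 2 / N) ^ (r + 1)) := by
    have h10 : (M : ℝ) ^ 2 * (1 / (M : ℝ) ^ 2 *
      ∑ n ∈ Finset.Ioc N N', ‖TT r M (alR t (n + θ))‖ + 2 * (M : ℝ) ^ 2 +
      N * |t| * ((M : ℝ) ^ 2 / N) ^ (r + 1)) = ∑ n ∈ Finset.Ioc N N', ‖TT r M (alR t (n + θ))‖ +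
        (M : ℝ) ^ 2 * (2 * (M : ℝ) ^ 2) + (M : ℝ) ^ 2 *
          (N * |t| * ((M : ℝ) ^ 2 / N) ^ (r + 1)) := by
      field_simp
    rw [h10]
    linarith
  exact le_of_mul_le_mul_left h9 h8
/-- the bound for zeta sums -/
theorem zsR : ∃ (C : ℕ) (c : ℝ), 0 < c ∧ c ≤ 1 / 10 ∧ ∀ (N N' : ℕ) (θ t κ : ℝ), 2 ≤ N → N ≤ N' → N' < 2 * N →
  0 ≤ θ → θ ≤ 1 → 1 / 2 ≤ κ → |t| = (N : ℝ) ^ κ →
  ‖∑ n ∈ Ioc N N', tw t (n + θ)‖ ≤ Real.exp (C * (1 + κ) ^ C) * (N : ℝ) ^ (1 - c / (1 + κ) ^ 2 : ℝ) := by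
  obtain ⟨C, c, hc0, hc1, hT⟩ := tnR
  refine ⟨C + 3, c, hc0, hc1, fun N N' θ t κ hN hNN hN2 hθ0 hθ1 hκ ht => ?_⟩
  have hN1 : (1 : ℝ) ≤ N := by exact_mod_cast (by omega : 1 ≤ N)
  have hNp : (0 : ℝ) < N := by linarith
  obtain ⟨x, hx⟩ : ∃ x : ℝ, x = (N : ℝ) ^ (2 / 5 : ℝ) := ⟨_, rfl⟩
  have hx1 : 1 ≤ x := by
    rw [hx]
    exact Real.one_le_rpow hN1 (by norm_num)
  obtain ⟨M, hM⟩ : ∃ M : ℕ, M = ⌊(N : ℝ) ^ (2 / 5 : ℝ)⌋₊ := ⟨_, rfl⟩
  rw [← hx] at hM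
  have hM1 : 1 ≤ M := by
    rw [hM]
    exact Nat.le_floor (by simpa using hx1)
  have hM1' : (1 : ℝ) ≤ M := by exact_mod_cast hM1
  have hMx : (M : ℝ) ≤ x := by
    rw [hM]
    exact Nat.floor_le (by linarith)
  have hM2 : (M : ℝ) ^ 2 ≤ (N : ℝ) ^ (4 / 5 : ℝ) := by
    calc (M : ℝ) ^ 2 ≤ x ^ 2 := pow_le_pow_left₀ (by positivity) hMx 2
      _ = (N : ℝ) ^ (4 / 5 : ℝ) := by
        rw [hx, ← Real.rpow_natCast, ← Real.rpow_mul hNp.le]
        norm_num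
  have hMN : M ^ 2 ≤ N := by
    have h3 : ((M ^ 2 : ℕ) : ℝ) ≤ N := by
      push_cast
      calc (M : ℝ) ^ 2 ≤ (N : ℝ) ^ (4 / 5 : ℝ) := hM2
        _ ≤ (N : ℝ) ^ (1 : ℝ) := Real.rpow_le_rpow_of_exponent_le hN1 (by norm_num)
        _ = N := Real.rpow_one _
    exact_mod_cast h3
  obtain ⟨r, hr⟩ : ∃ r : ℕ, r = ⌈5 * κ⌉₊ + 5 := ⟨_, rfl⟩
  have hr5 : 5 * κ + 5 ≤ (r : ℝ) := by
    rw [hr]
    push_cast
    linarith [Nat.le_ceil (5 * κ)]
  obtain ⟨η, hη⟩ : ∃ η : ℝ, η = c / (1 + κ) ^ 2 := ⟨_, rfl⟩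
  obtain ⟨E, hE⟩ : ∃ E : ℝ, E = Real.exp (C * (1 + κ) ^ C) := ⟨_, rfl⟩
  have hE0 : 0 < E := by rw [hE]; exact Real.exp_pos _
  have hκ1 : 1 ≤ 1 + κ := by linarith
  have hη1 : η ≤ 1 / 10 := by
    rw [hη]
    refine le_trans (div_le_self hc0.le ?_) hc1
    exact one_le_pow₀ hκ1
  have hmain := shiftR N N' M r t θ (by omega) hNN (by omega) hM1 hθ0
  -- the first term
  have hTn : ∀ n ∈ Ioc N N', ‖TT r M (alR t (n + θ))‖ ≤ E * (M : ℝ) ^ 2 * (N : ℝ) ^ (-η) := by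
    intro n hn
    rw [Finset.mem_Ioc] at hn
    have q1 : (N : ℝ) ≤ n := by exact_mod_cast hn.1.le
    have q2 : (n : ℝ) + 1 ≤ 2 * N := by exact_mod_cast (by omega : n + 1 ≤ 2 * N)
    have h3 := hT N (n + θ) t κ hN (by linarith) (by linarith) hκ ht
    rw [← hr, ← hx, ← hM, ← hE, ← hη] at h3
    exact h3
  have hsum : ∑ n ∈ Ioc N N', ‖TT r M (alR t (n + θ))‖ ≤
      (N : ℝ) * (E * (M : ℝ) ^ 2 * (N : ℝ) ^ (-η)) := by
    refine (Finset.sum_le_sum hTn).trans ?_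
    rw [Finset.sum_const, Nat.card_Ioc, nsmul_eq_mul]
    refine mul_le_mul_of_nonneg_right ?_ (by positivity)
    exact_mod_cast (by omega : N' - N ≤ N)
  have hpow : (N : ℝ) ^ (1 - η) = N * (N : ℝ) ^ (-η) := by
    rw [sub_eq_add_neg, Real.rpow_add hNp, Real.rpow_one]
  have t1 : 1 / (M : ℝ) ^ 2 * ∑ n ∈ Ioc N N', ‖TT r M (alR t (n + θ))‖ ≤ E * (N : ℝ) ^ (1 - η) := by
    calc 1 / (M : ℝ) ^ 2 * ∑ n ∈ Ioc N N', ‖TT r M (alR t (n + θ))‖
        ≤ 1 / (M : ℝ) ^ 2 * ((N : ℝ) * (E * (M : ℝ) ^ 2 * (N : ℝ) ^ (-η))) :=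
          mul_le_mul_of_nonneg_left hsum (by positivity)
      _ = E * (N : ℝ) ^ (1 - η) := by
        rw [hpow]
        field_simp
  -- the second term
  have t2 : 2 * (M : ℝ) ^ 2 ≤ 2 * (N : ℝ) ^ (1 - η) := by
    refine mul_le_mul_of_nonneg_left (hM2.trans ?_) (by norm_num)
    exact Real.rpow_le_rpow_of_exponent_le hN1 (by linarith)
  -- the third term
  have h5 : (M : ℝ) ^ 2 / N ≤ (N : ℝ) ^ (-(1 / 5) : ℝ) := by
    rw [div_le_iff₀ hNp]
    refine hM2.trans (le_of_eq ?_)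
    conv_rhs => rw [← Real.rpow_one (N : ℝ), ← Real.rpow_mul hNp.le, one_mul, ← Real.rpow_add hNp]
    norm_num
  have t3 : N * |t| * ((M : ℝ) ^ 2 / N) ^ (r + 1) ≤ 1 := by
    have h6 : ((M : ℝ) ^ 2 / N) ^ (r + 1) ≤ (N : ℝ) ^ (-(κ + 6 / 5)) := by
      calc ((M : ℝ) ^ 2 / N) ^ (r + 1) ≤ ((N : ℝ) ^ (-(1 / 5) : ℝ)) ^ (r + 1) :=
            pow_le_pow_left₀ (by positivity) h5 _
        _ = (N : ℝ) ^ (-(1 / 5) * ((r : ℝ) + 1)) := by
          rw [← Real.rpow_natCast, ← Real.rpow_mul hNp.le]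
          push_cast
          ring_nf
        _ ≤ (N : ℝ) ^ (-(κ + 6 / 5)) :=
          Real.rpow_le_rpow_of_exponent_le hN1 (by linarith)
    calc N * |t| * ((M : ℝ) ^ 2 / N) ^ (r + 1) ≤ N * |t| * (N : ℝ) ^ (-(κ + 6 / 5)) :=
          mul_le_mul_of_nonneg_left h6 (by positivity)
      _ = (N : ℝ) ^ (1 + κ + -(κ + 6 / 5)) := by
        rw [ht, Real.rpow_add hNp, Real.rpow_add hNp, Real.rpow_one]
      _ ≤ 1 := Real.rpow_le_one_of_one_le_of_nonpos hN1 (by linarith)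
  have t4 : (1 : ℝ) ≤ (N : ℝ) ^ (1 - η) := Real.one_le_rpow hN1 (by linarith)
  -- the constants
  have hC : E + 3 ≤ Real.exp (((C + 3 : ℕ) : ℝ) * (1 + κ) ^ (C + 3)) := by
    have h7 : (1 + κ) ^ C ≤ (1 + κ) ^ (C + 3) := pow_le_pow_right₀ hκ1 (by omega)
    have h8 : 1 ≤ (1 + κ) ^ (C + 3) := one_le_pow₀ hκ1
    have h9 : (C : ℝ) * (1 + κ) ^ C + 3 ≤ ((C + 3 : ℕ) : ℝ) * (1 + κ) ^ (C + 3) := by
      push_cast
      have h10 := mul_le_mul_of_nonneg_left h7 (Nat.cast_nonneg C : (0 : ℝ) ≤ C)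
      linarith
    refine le_trans ?_ (Real.exp_le_exp.2 h9)
    rw [Real.exp_add, ← hE]
    have h11 : (3 : ℝ) + 1 ≤ Real.exp 3 := Real.add_one_le_exp 3
    have h12 : 1 ≤ E := by
      rw [hE]
      exact Real.one_le_exp (by positivity)
    nlinarith
  rw [← hη]
  calc ‖∑ n ∈ Ioc N N', tw t (n + θ)‖
      ≤ E * (N : ℝ) ^ (1 - η) + 2 * (N : ℝ) ^ (1 - η) + 1 :=
        hmain.trans (add_le_add (add_le_add t1 t2) t3)
    _ ≤ (E + 3) * (N : ℝ) ^ (1 - η) := by linarith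
    _ ≤ _ := mul_le_mul_of_nonneg_right hC (by positivity)


theorem main : S_ZSX := by
  obtain ⟨C, c, hc0, hc1, hT⟩ := zsR
  refine ⟨C + 1, c, hc0, hc1, fun N N' θ t κ hN hNN hN2 hθ0 hθ1 hκ ht => ?_⟩
  have hN1 : (1 : ℝ) ≤ N := by exact_mod_cast (by omega : 1 ≤ N)
  have hκ1 : 1 ≤ 1 + κ := by linarith
  have hη1 : c / (1 + κ) ^ 2 ≤ 1 / 10 := by
    refine le_trans (div_le_self hc0.le ?_) hc1
    exact one_le_pow₀ hκ1
  have t4 : (1 : ℝ) ≤ (N : ℝ) ^ (1 - c / (1 + κ) ^ 2 : ℝ) := Real.one_le_rpow hN1 (by linarith)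
  obtain ⟨E, hE⟩ : ∃ E : ℝ, E = Real.exp (C * (1 + κ) ^ C) := ⟨_, rfl⟩
  have hE1 : 1 ≤ E := by
    rw [hE]
    exact Real.one_le_exp (by positivity)
  have hC : E + 1 ≤ Real.exp (((C + 1 : ℕ) : ℝ) * (1 + κ) ^ (C + 1)) := by
    have h7 : (1 + κ) ^ C ≤ (1 + κ) ^ (C + 1) := pow_le_pow_right₀ hκ1 (by omega)
    have h8 : 1 ≤ (1 + κ) ^ (C + 1) := one_le_pow₀ hκ1
    have h9 : (C : ℝ) * (1 + κ) ^ C + 1 ≤ ((C + 1 : ℕ) : ℝ) * (1 + κ) ^ (C + 1) := by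
      push_cast
      have h10 := mul_le_mul_of_nonneg_left h7 (Nat.cast_nonneg C : (0 : ℝ) ≤ C)
      linarith
    refine le_trans ?_ (Real.exp_le_exp.2 h9)
    rw [Real.exp_add, ← hE]
    have h11 : (1 : ℝ) + 1 ≤ Real.exp 1 := Real.add_one_le_exp 1
    nlinarith
  have hgoal : ∀ Z : ℝ, Z ≤ E * (N : ℝ) ^ (1 - c / (1 + κ) ^ 2 : ℝ) + 1 →
      Z ≤ Real.exp (((C + 1 : ℕ) : ℝ) * (1 + κ) ^ (C + 1)) * (N : ℝ) ^ (1 - c / (1 + κ) ^ 2 : ℝ) := by
    intro Z hZ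
    refine hZ.trans ?_
    calc E * (N : ℝ) ^ (1 - c / (1 + κ) ^ 2 : ℝ) + 1 ≤ (E + 1) * (N : ℝ) ^ (1 - c / (1 + κ) ^ 2 : ℝ) := by
          linarith
      _ ≤ _ := mul_le_mul_of_nonneg_right hC (by positivity)
  apply hgoal
  rcases Nat.lt_or_ge N' (2 * N) with h | h
  · have h1 := hT N N' θ t κ hN hNN h hθ0 hθ1 hκ ht
    rw [← hE] at h1
    linarith
  · have h2 : N' = (2 * N - 1) + 1 := by omega
    have h3 : ∑ n ∈ Ioc N N', tw t (n + θ) = ∑ n ∈ Ioc N (2 * N - 1), tw t (n + θ) +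
        tw t (((2 * N - 1 + 1 : ℕ) : ℝ) + θ) := by
      rw [h2, Finset.sum_Ioc_succ_top (by omega)]
    have h1 := hT N (2 * N - 1) θ t κ hN (by omega) (by omega) hθ0 hθ1 hκ ht
    rw [← hE] at h1
    rw [h3]
    refine (norm_add_le _ _).trans ?_
    rw [norm_tw]
    linarith

end Pool.Agent.helper24_UT.Zsx
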